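import Pool.Agent.Lib.MP_19b52f_al.EA2.Frame

/-! Type `B`: double cosets of standard parabolic subgroups are seen in the braid group. -/

namespace Pool.Agent.Lib.MP_19b52f_al.FC

open Pool.Agent.Lib.MP_19b52f_al.EA Pool.Agent.Lib.MP_19b52f_al.EA2
open FreeGroup hiding map_mul map_inv map_one lift_unique

variable {G : Type} [Group G]

/-- The relations of type `B` for the indices below `n`, with the label `4` at the start. -/
structure BSeq (s : ℕ → G) (n : ℕ) : Prop where
  four : 1 < n → s 0 * s 1 * s 0 * s 1 = s 1 * s 0 * s 1 * s 0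
  braid : ∀ i, 1 ≤ i → i + 1 < n → s i * s (i + 1) * s i = s (i + 1) * s i * s (i + 1)
  comm : ∀ i j, i + 2 ≤ j → j < n → Commute (s i) (s j)

/-- The map to the braid group that squares the first generator. -/
def bIm (n : ℕ) : FreeGroup (Fin n) →* Br n :=
  lift fun i => if (i : ℕ) = 0 then sA n 0 ^ 2 else sA n i

/-- The loops of the special strand. -/
def bA (s : ℕ → G) : ℕ → G
  | 0 => s 0
  | j + 1 => s (j + 1) * bA s j * (s (j + 1))⁻¹

/-- The label of a crossing when the special strand is at position `p`. -/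
def bR (s : ℕ → G) (n p i : ℕ) : G :=
  if n < p then 1 else if i + 2 ≤ p then s (i + 1) else if p = i + 1 then bA s i
    else if p = i then 1 else s i

/-- The action of a crossing on positions and labels. -/
def bT (s : ℕ → G) (n i : ℕ) : Equiv.Perm (ℕ × G) where
  toFun x := (Equiv.swap i (i + 1) x.1, bR s n x.1 i * x.2)
  invFun x := (Equiv.swap i (i + 1) x.1, (bR s n (Equiv.swap i (i + 1) x.1) i)⁻¹ * x.2)
  left_inv x := by simp
  right_inv x := by simp

variable {s : ℕ → G} {n : ℕ}

lemma bT_lo {i p : ℕ} (h : p < i) (hi : i < n) (g : G) : bT s n i (p, g) = (p, s i * g) := by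
  simp only [bT, bR, Equiv.coe_fn_mk]
  rw [Equiv.swap_apply_of_ne_of_ne (by omega) (by omega), if_neg (by omega), if_neg (by omega),
    if_neg (by omega), if_neg (by omega)]

lemma bT_eq {i : ℕ} (hi : i < n) (g : G) : bT s n i (i, g) = (i + 1, g) := by
  simp only [bT, bR, Equiv.coe_fn_mk]
  rw [Equiv.swap_apply_left, if_neg (by omega), if_neg (by omega), if_neg (by omega)]
  simp

lemma bT_succ {i : ℕ} (hi : i < n) (g : G) : bT s n i (i + 1, g) = (i, bA s i * g) := by
  simp only [bT, bR, Equiv.coe_fn_mk]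
  rw [Equiv.swap_apply_right, if_neg (by omega), if_neg (by omega)]
  simp

lemma bT_hi {i p : ℕ} (h : i + 2 ≤ p) (hp : p ≤ n) (g : G) :
    bT s n i (p, g) = (p, s (i + 1) * g) := by
  simp only [bT, bR, Equiv.coe_fn_mk]
  rw [Equiv.swap_apply_of_ne_of_ne (by omega) (by omega), if_neg (by omega), if_pos h]

lemma bT_out {i p : ℕ} (hi : i < n) (hp : n < p) (g : G) : bT s n i (p, g) = (p, g) := by
  simp only [bT, bR, Equiv.coe_fn_mk]
  rw [Equiv.swap_apply_of_ne_of_ne (by omega) (by omega), if_pos hp, one_mul]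

namespace BSeq
variable (h : BSeq s n)
include h

lemma a1 {i j : ℕ} (h1 : i + 2 ≤ j) (h2 : j < n) : Commute (bA s i) (s j) := by
  induction i with
  | zero => exact h.comm 0 j h1 h2
  | succ i ih =>
    have := h.comm (i + 1) j h1 h2
    exact (this.mul_left (ih (by omega))).mul_left this.inv_left

lemma a2 {k j : ℕ} (h1 : k + 2 ≤ j) (h2 : j < n) : Commute (bA s j) (s (k + 1)) := by
  induction j, h1 using Nat.le_induction with
  | base =>
    have e1 := h.braid (k + 1) (by omega) h2
    have e2 := (h.a1 (i := k) (j := k + 2) le_rfl h2).eq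
    simp only [bA, Commute, SemiconjBy]
    set a := bA s k
    set x := s (k + 1)
    set y := s (k + 1 + 1)
    calc y * (x * a * x⁻¹) * y⁻¹ * x = y * x * a * (y * x)⁻¹ * x * (y * x) * (y * x)⁻¹ := by group
      _ = y * x * a * (y * x)⁻¹ * (x * y * x) * (y * x)⁻¹ := by group
      _ = y * x * (a * y) * (y * x)⁻¹ := by rw [e1]; group
      _ = (y * x * y) * a * (y * x)⁻¹ := by rw [e2]; group
      _ = _ := by rw [← e1]; group
  | succ j hj ih =>
    have := (h.comm (k + 1) (j + 1) (by omega) h2).symm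
    exact (this.mul_left (ih (by omega))).mul_left this.inv_left

lemma a3 {i : ℕ} (h1 : i + 1 < n) :
    bA s i * s (i + 1) * bA s i * s (i + 1) = s (i + 1) * bA s i * s (i + 1) * bA s i := by
  induction i with
  | zero => exact h.four h1
  | succ i ih =>
    have e1 := h.braid (i + 1) (by omega) h1
    have e2 := (h.a1 (i := i) (j := i + 2) le_rfl h1).eq
    have e3 := ih (by omega)
    simp only [bA]
    set a := bA s i
    set x := s (i + 1)
    set y := s (i + 1 + 1)
    have e4 : x⁻¹ * y * x = y * x * y⁻¹ := by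
      calc x⁻¹ * y * x = x⁻¹ * (y * x * y) * y⁻¹ := by group
        _ = _ := by rw [← e1]; group
    have e5 : y⁻¹ * a * y = a := by rw [mul_assoc, e2]; group
    calc x * a * x⁻¹ * y * (x * a * x⁻¹) * y
        = x * a * (x⁻¹ * y * x) * a * (x⁻¹ * y * x) * x⁻¹ := by group
      _ = x * y * ((y⁻¹ * a * y) * x * (y⁻¹ * a * y) * x) * y⁻¹ * x⁻¹ := by rw [e4]; group
      _ = x * y * (x * (y⁻¹ * a * y) * x * (y⁻¹ * a * y)) * y⁻¹ * x⁻¹ := by rw [e5, e3]
      _ = x * (y * x * y⁻¹) * a * (y * x * y⁻¹) * a * x⁻¹ := by group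
      _ = _ := by rw [← e4]; group

lemma seq : BraidSeq (bT s n) n where
  braid i hi := by
    have hi' : i < n := by omega
    refine Equiv.ext fun ⟨p, g⟩ => ?_
    simp only [Equiv.Perm.mul_apply]
    rcases lt_trichotomy p i with h1 | rfl | h1
    · simp only [bT_lo h1 hi', bT_lo (h1.trans i.lt_succ_self) hi, ← mul_assoc,
        h.braid i (by omega) hi]
    · rw [bT_eq hi', bT_eq hi, bT_hi le_rfl (by omega), bT_lo p.lt_succ_self hi, bT_eq hi', bT_eq hi]
    · by_cases h2 : p = i + 1
      · subst h2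
        rw [bT_succ hi', bT_lo i.lt_succ_self hi, bT_eq hi', bT_eq hi, bT_hi le_rfl (by omega),
          bT_succ hi]
        simp [bA, mul_assoc]
      · by_cases h3 : p = i + 1 + 1
        · subst h3
          rw [bT_hi le_rfl (by omega), bT_succ hi, bT_succ hi', bT_succ hi, bT_succ hi',
            bT_lo i.lt_succ_self hi]
          refine Prod.ext rfl ?_
          simp only [bA]
          calc bA s i * (s (i + 1) * bA s i * (s (i + 1))⁻¹ * (s (i + 1) * g))
              = (bA s i * s (i + 1) * bA s i * s (i + 1)) * (s (i + 1))⁻¹ * g := by group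
            _ = _ := by rw [h.a3 hi]; group
        · by_cases h4 : p ≤ n
          · have e1 : i + 2 ≤ p := by omega
            have e2 : i + 1 + 2 ≤ p := by omega
            simp only [bT_hi e1 h4, bT_hi e2 h4, ← mul_assoc, h.braid (i + 1) (by omega) (by omega)]
          · simp only [bT_out hi' (not_le.mp h4), bT_out hi (not_le.mp h4)]
  comm i j hij hj := by
    have hi : i < n := by omega
    refine Equiv.ext fun ⟨p, g⟩ => ?_
    simp only [Equiv.Perm.mul_apply]
    by_cases h4 : n < p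
    · simp only [bT_out hi h4, bT_out hj h4]
    rcases lt_trichotomy p i with h1 | rfl | h1
    · simp only [bT_lo h1 hi, bT_lo (show p < j by omega) hj, ← mul_assoc, (h.comm i j hij hj).eq]
    · rw [bT_lo (by omega) hj, bT_eq hi, bT_eq hi, bT_lo (by omega) hj]
    by_cases h2 : p = i + 1
    · subst h2
      rw [bT_lo (by omega) hj, bT_succ hi, bT_succ hi, bT_lo (by omega) hj, ← mul_assoc,
        ← mul_assoc, (h.a1 hij hj).eq]
    have e1 : i + 2 ≤ p := by omega
    rcases lt_trichotomy p j with h3 | rfl | h3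
    · simp only [bT_hi e1 (not_lt.mp h4), bT_lo h3 hj, ← mul_assoc,
        (h.comm (i + 1) j (by omega) hj).eq]
    · rw [bT_eq hj, bT_hi (by omega) (by omega), bT_hi e1 hj.le, bT_eq hj]
    by_cases h5 : p = j + 1
    · subst h5
      rw [bT_succ hj, bT_hi hij hj.le, bT_hi e1 (by omega), bT_succ hj, ← mul_assoc, ← mul_assoc,
        (h.a2 hij hj).eq]
    · have e2 : j + 2 ≤ p := by omega
      simp only [bT_hi e1 (not_lt.mp h4), bT_hi e2 (not_lt.mp h4), ← mul_assoc,
        (h.comm (i + 1) (j + 1) (by omega) (by omega)).eq]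

end BSeq

lemma bT_par (Θ : Br n →* Equiv.Perm (ℕ × G)) (hΘ : ∀ i : Fin n, Θ (ag _ i) = bT s n i)
    {T : Set (Fin n)} {t : Br n} (ht : t ∈ pa (CoxeterMatrix.A n) T) (g : G) :
    ∃ p, ∃ x ∈ Subgroup.closure ((fun i : Fin n => s i) '' T),
      (∀ j < p, ∃ h : j < n, (⟨j, h⟩ : Fin n) ∈ T) ∧ Θ t (0, g) = (p, x * g) := by
  set H := Subgroup.closure ((fun i : Fin n => s i) '' T)
  have hs : ∀ j, (∃ h : j < n, (⟨j, h⟩ : Fin n) ∈ T) → s j ∈ H := fun j ⟨h, hj⟩ =>
    Subgroup.subset_closure ⟨_, hj, rfl⟩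
  have ha : ∀ i, (∀ j < i + 1, ∃ h : j < n, (⟨j, h⟩ : Fin n) ∈ T) → bA s i ∈ H := by
    intro i
    induction i with
    | zero => exact fun h => hs 0 (h 0 (by omega))
    | succ i ih =>
      intro h
      have := hs _ (h (i + 1) (by omega))
      exact mul_mem (mul_mem this (ih fun j hj => h j (by omega))) (inv_mem this)
  have key : ∀ i ∈ T, ∀ p, (∀ j < p, ∃ h : j < n, (⟨j, h⟩ : Fin n) ∈ T) →
      (∀ j < Equiv.swap (i : ℕ) (i + 1) p, ∃ h : j < n, (⟨j, h⟩ : Fin n) ∈ T) ∧
        bR s n p i ∈ H := by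
    intro i hi p hp
    refine ⟨fun j hj => ?_, ?_⟩
    · rw [Equiv.swap_apply_def] at hj
      by_cases e : j = i
      · exact ⟨e ▸ i.2, by simpa [e] using hi⟩
      · refine hp j ?_
        split_ifs at hj <;> omega
    · unfold bR
      split_ifs with h1 h2 h3 h4
      · exact one_mem _
      · exact hs _ (hp _ (by omega))
      · exact ha _ (h3 ▸ hp)
      · exact one_mem _
      · exact hs _ ⟨i.2, hi⟩
  induction ht using Subgroup.closure_induction_left with
  | one => exact ⟨0, 1, one_mem _, fun j hj => by omega, by simp⟩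
  | mul_left y hy a _ ih =>
    obtain ⟨i, hi, rfl⟩ := hy
    obtain ⟨p, x, hx, hp, e⟩ := ih
    refine ⟨_, _, mul_mem (key i hi p hp).2 hx, (key i hi p hp).1, ?_⟩
    rw [map_mul, Equiv.Perm.mul_apply, e, hΘ, mul_assoc]
    rfl
  | inv_mul_cancel y hy a _ ih =>
    obtain ⟨i, hi, rfl⟩ := hy
    obtain ⟨p, x, hx, hp, e⟩ := ih
    refine ⟨_, _, mul_mem (inv_mem (key i hi _ (key i hi p hp).1).2) hx, (key i hi p hp).1, ?_⟩
    rw [map_mul, Equiv.Perm.mul_apply, e, map_inv, hΘ, mul_assoc]
    rfl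

theorem typeB_sep (h : BSeq s n) (T U : Set (Fin n)) (w : FreeGroup (Fin n))
    (hw : Mem2 (pa (CoxeterMatrix.A n) T) (pa (CoxeterMatrix.A n) U) (bIm n w)) :
    Mem2 (Subgroup.closure ((fun i : Fin n => s i) '' T))
      (Subgroup.closure ((fun i : Fin n => s i) '' U)) (lift (fun i : Fin n => s i) w) := by
  have hΘ : ∀ i : Fin n, brLift _ h.seq (ag _ i) = bT s n i := fun i => by
    rw [← sA_val, brLift_sA _ _ i.2]
  have h1 : ∀ g, brLift _ h.seq (bIm n w) (0, g) = (0, lift (fun i : Fin n => s i) w * g) := by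
    clear hw
    have h2 : ∀ (i : Fin n) g, brLift _ h.seq (bIm n (of i)) (0, g) = (0, s i * g) := by
      intro i g
      rw [bIm, lift_apply_of]
      split_ifs with e
      · have hn : 0 < n := e ▸ i.2
        rw [pow_two, map_mul, brLift_sA _ _ hn, Equiv.Perm.mul_apply, bT_eq hn, bT_succ hn, e, bA]
      · rw [brLift_sA _ _ i.2, bT_lo (by omega) i.2]
    induction w using FreeGroup.induction_on with
    | C1 => simp
    | of i => simpa using h2 i
    | inv_of i _ =>
      intro g
      rw [map_inv, map_inv, Equiv.Perm.inv_eq_iff_eq, h2]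
      simp
    | mul a b ha hb =>
      intro g
      rw [map_mul, map_mul, Equiv.Perm.mul_apply, hb, ha, map_mul, mul_assoc]
  obtain ⟨t, ht, u, hu, e⟩ := hw
  obtain ⟨p, x, hx, -, e1⟩ := bT_par _ hΘ hu 1
  obtain ⟨q, y, hy, -, e2⟩ := bT_par _ hΘ (inv_mem ht) (lift (fun i : Fin n => s i) w * 1)
  rw [← h1, ← Equiv.Perm.mul_apply, ← map_mul, e, inv_mul_cancel_left, e1] at e2
  refine ⟨y⁻¹, inv_mem hy, x, hx, ?_⟩
  have := congrArg Prod.snd e2
  simp only [mul_one] at this
  rw [this, inv_mul_cancel_left]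

end Pool.Agent.Lib.MP_19b52f_al.FC
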