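import Pool.Agent.Lib.MP_19b52f_al.FC.BaseA
import Pool.Agent.Lib.MP_19b52f_al.FC.TypeB

/-! The basic cocycle of a set of generators of type B. -/

namespace Pool.Agent.Lib.MP_19b52f_al.FC

open Pool.Agent.Lib.MP_19b52f_al.EA Pool.Agent.Lib.MP_19b52f_al.EA2

lemma baseb_omega_four {G : Type} [Group G] (a b : G) : omega a b 4 = a * b * a * b := by
  rw [omega, if_pos (by decide)]
  simp [pow_two, mul_assoc]

lemma baseb_four {G : Type} [Group G] {x y : G} (h : x * y * x = y * x * y) :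
    x * y ^ 2 * x * y ^ 2 = y ^ 2 * x * y ^ 2 * x := by
  calc x * y ^ 2 * x * y ^ 2 = x * y * (y * x * y) * y := by simp only [pow_two, mul_assoc]
    _ = x * y * (x * y * x) * y := by rw [h]
    _ = (x * y * x) * (y * x * y) := by simp only [mul_assoc]
    _ = (y * x * y) * (x * y * x) := by rw [h]
    _ = y * (x * y * x) * y * x := by simp only [mul_assoc]
    _ = y ^ 2 * x * y ^ 2 * x := by rw [h]; simp only [pow_two, mul_assoc]

section lin
variable (F : Type) {V : Type} [Field F] [AddCommGroup V] [Module F V]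

/-- The roots with two coordinates. -/
def baseb_L (f : ℕ → V) (n : ℕ) (y : V) (a b : ℕ) : Prop :=
  a < n ∧ b < n ∧ a ≠ b ∧ ∃ s t : F, s * s = 1 ∧ t * t = 1 ∧ y = s • f a + t • f b

/-- The roots with one coordinate. -/
def baseb_S (f : ℕ → V) (n : ℕ) (y : V) (a : ℕ) : Prop :=
  a < n ∧ ∃ s : F, s * s = 2 ∧ y = s • f a

/-- All roots. -/
def baseb_R (f : ℕ → V) (n : ℕ) : Set V :=
  {y | (∃ a b, baseb_L F f n y a b) ∨ ∃ a, baseb_S F f n y a}

/-- The second end of the edge of a root with one coordinate. -/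
def baseb_p (n a : ℕ) : ℕ := if a = 0 then 0 else n + a

variable {F} {B : V →ₗ[F] V →ₗ[F] F} {f : ℕ → V} {n : ℕ} {x y : V} {a b d g : ℕ}

lemma baseb_p_cases (n a : ℕ) :
    (a = 0 ∧ baseb_p n a = 0) ∨ (a ≠ 0 ∧ baseb_p n a = n + a) := by
  by_cases h : a = 0 <;> simp [baseb_p, h]

lemma baseb_L.symm (h : baseb_L F f n y a b) : baseb_L F f n y b a := by
  obtain ⟨h1, h2, h3, s, t, hs, ht, rfl⟩ := h
  exact ⟨h2, h1, h3.symm, t, s, ht, hs, add_comm _ _⟩

variable (hf : ∀ a < n, ∀ b < n, B (f a) (f b) = if a = b then 1 else 0)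
include hf

lemma baseb_L.co (h : baseb_L F f n y a b) {k : ℕ} (hk : k < n) :
    B (f k) y ≠ 0 ↔ k = a ∨ k = b := by
  obtain ⟨h1, h2, h3, s, t, hs, ht, rfl⟩ := h
  have s0 : s ≠ 0 := left_ne_zero_of_mul_eq_one hs
  have t0 : t ≠ 0 := left_ne_zero_of_mul_eq_one ht
  simp only [map_add, map_smul, hf k hk a h1, hf k hk b h2, smul_eq_mul]
  by_cases e1 : k = a
  · subst e1
    simp [h3, s0]
  · by_cases e2 : k = b
    · subst e2
      simp [e1, t0]
    · simp [e1, e2]

lemma baseb_S.co (h2 : (2 : F) ≠ 0) (h : baseb_S F f n y a) {k : ℕ} (hk : k < n) :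
    B (f k) y ≠ 0 ↔ k = a := by
  obtain ⟨h1, s, hs, rfl⟩ := h
  have s0 : s ≠ 0 := left_ne_zero_of_mul (hs ▸ h2)
  simp [hf k hk a h1, s0]

lemma baseb_norm (h : y ∈ baseb_R F f n) : B y y = 2 := by
  rcases h with ⟨a, b, h1, h2, h3, s, t, hs, ht, rfl⟩ | ⟨a, h1, s, hs, rfl⟩
  · simp only [map_add, map_smul, LinearMap.add_apply, LinearMap.smul_apply, smul_eq_mul,
      hf a h1 a h1, hf a h1 b h2, hf b h2 a h1, hf b h2 b h2, if_true, if_neg h3, if_neg h3.symm]
    linear_combination hs + ht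
  · simp only [map_smul, LinearMap.smul_apply, smul_eq_mul, hf a h1 a h1, if_true]
    linear_combination hs

lemma baseb_refl (h : x ∈ baseb_R F f n) : ∃ σ : Equiv.Perm ℕ, ∀ k < n, σ k < n ∧
    ∃ ε : F, ε * ε = 1 ∧ f k - B x (f k) • x = ε • f (σ k) := by
  rcases h with ⟨a, b, h1, h2, h3, s, t, hs, ht, rfl⟩ | ⟨a, h1, s, hs, rfl⟩
  · have e : -(s * t) * -(s * t) = 1 := by linear_combination (t * t) * hs + ht
    refine ⟨Equiv.swap a b, fun k hk => ?_⟩
    simp only [map_add, map_smul, LinearMap.add_apply, LinearMap.smul_apply, smul_eq_mul,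
      hf a h1 k hk, hf b h2 k hk]
    by_cases e1 : a = k
    · subst e1
      rw [Equiv.swap_apply_left, if_pos rfl, if_neg h3.symm]
      exact ⟨h2, _, e, by linear_combination (norm := module) -hs • f a⟩
    · by_cases e2 : b = k
      · subst e2
        rw [Equiv.swap_apply_right, if_pos rfl, if_neg h3]
        exact ⟨h1, _, e, by linear_combination (norm := module) -ht • f b⟩
      · rw [Equiv.swap_apply_of_ne_of_ne (Ne.symm e1) (Ne.symm e2), if_neg e1, if_neg e2]
        exact ⟨hk, 1, one_mul 1, by module⟩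
  · refine ⟨1, fun k hk => ⟨hk, ?_⟩⟩
    simp only [map_smul, LinearMap.smul_apply, smul_eq_mul, hf a h1 k hk, Equiv.Perm.one_apply]
    by_cases e1 : a = k
    · subst e1
      rw [if_pos rfl]
      exact ⟨-1, by ring, by linear_combination (norm := module) -hs • f a⟩
    · rw [if_neg e1]
      exact ⟨1, one_mul 1, by module⟩

lemma baseb_closed (hx : x ∈ baseb_R F f n) (hy : y ∈ baseb_R F f n) :
    y - B x y • x ∈ baseb_R F f n := by
  obtain ⟨σ, hσ⟩ := baseb_refl hf hx
  rcases hy with ⟨a, b, h1, h2, h3, s, t, hs, ht, rfl⟩ | ⟨a, h1, s, hs, rfl⟩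
  · obtain ⟨k1, ε, k2, k3⟩ := hσ a h1
    obtain ⟨k4, ε', k5, k6⟩ := hσ b h2
    refine Or.inl ⟨_, _, k1, k4, σ.injective.ne h3, s * ε, t * ε',
      by linear_combination (ε * ε) * hs + k2, by linear_combination (ε' * ε') * ht + k5, ?_⟩
    simp only [map_add, map_smul, smul_eq_mul]
    linear_combination (norm := module) s • k3 + t • k6
  · obtain ⟨k1, ε, k2, k3⟩ := hσ a h1
    refine Or.inr ⟨_, k1, s * ε, by linear_combination (ε * ε) * hs + 2 * k2, ?_⟩
    simp only [map_smul, smul_eq_mul]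
    linear_combination (norm := module) s • k3

lemma baseb_LL0 (hx : baseb_L F f n x a b) (hy : baseb_L F f n y d g) (k1 : a ≠ d) (k2 : a ≠ g)
    (k3 : b ≠ d) (k4 : b ≠ g) : B x y = 0 := by
  obtain ⟨h1, h2, -, s, t, -, -, rfl⟩ := hx
  obtain ⟨h3, h4, -, s', t', -, -, rfl⟩ := hy
  simp [hf a h1 d h3, hf a h1 g h4, hf b h2 d h3, hf b h2 g h4, k1, k2, k3, k4]

lemma baseb_LL1 (hx : baseb_L F f n x a b) (hy : baseb_L F f n y b g) (k : a ≠ g) :
    B x y * B x y = 1 := by
  obtain ⟨h1, h2, k1, s, t, -, ht, rfl⟩ := hx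
  obtain ⟨-, h4, k2, s', t', hs, -, rfl⟩ := hy
  simp only [map_add, map_smul, LinearMap.add_apply, LinearMap.smul_apply, smul_eq_mul,
    hf a h1 b h2, hf a h1 g h4, hf b h2 b h2, hf b h2 g h4, if_true, if_neg k, if_neg k1,
    if_neg k2]
  linear_combination (t * t) * hs + ht

lemma baseb_LS0 (hx : baseb_L F f n x a b) (hy : baseb_S F f n y d) (k1 : a ≠ d) (k2 : b ≠ d) :
    B x y = 0 := by
  obtain ⟨h1, h2, -, s, t, -, -, rfl⟩ := hx
  obtain ⟨h3, s', -, rfl⟩ := hy
  simp [hf a h1 d h3, hf b h2 d h3, k1, k2]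

lemma baseb_LS2 (hx : baseb_L F f n x a b) (hy : baseb_S F f n y b) : B x y * B x y = 2 := by
  obtain ⟨h1, h2, k1, s, t, -, ht, rfl⟩ := hx
  obtain ⟨-, s', hs, rfl⟩ := hy
  simp only [map_add, map_smul, LinearMap.add_apply, LinearMap.smul_apply, smul_eq_mul,
    hf a h1 b h2, hf b h2 b h2, if_true, if_neg k1]
  linear_combination (t * t) * hs + 2 * ht

lemma baseb_SS0 (hx : baseb_S F f n x a) (hy : baseb_S F f n y d) (k : a ≠ d) : B x y = 0 := by
  obtain ⟨h1, s, -, rfl⟩ := hx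
  obtain ⟨h3, s', -, rfl⟩ := hy
  simp [hf a h1 d h3, k]

lemma baseb_lab (h2 : (2 : F) ≠ 0) {X : Type} (u : ℕ → ℕ → X) (hu : ∀ a b, u a b = u b a)
    (v : ℕ → X) : ∃ l : V → X, (∀ y a b, baseb_L F f n y a b → l y = u a b) ∧
      ∀ y a, baseb_S F f n y a → l y = v a := by
  have key : ∀ y, ∃ l : X, (∀ a b, baseb_L F f n y a b → l = u a b) ∧
      ∀ a, baseb_S F f n y a → l = v a := by
    intro y
    by_cases h : ∃ a b, baseb_L F f n y a b
    · obtain ⟨a, b, h⟩ := h
      refine ⟨u a b, fun d g h' => ?_, fun d h' => ?_⟩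
      · have k1 := (h'.co hf h.1).1 ((h.co hf h.1).2 (Or.inl rfl))
        have k2 := (h'.co hf h.2.1).1 ((h.co hf h.2.1).2 (Or.inr rfl))
        have k3 := h.2.2.1
        obtain ⟨rfl, rfl⟩ | ⟨rfl, rfl⟩ : (a = d ∧ b = g) ∨ (a = g ∧ b = d) := by omega
        exacts [rfl, hu _ _]
      · have k1 := (h'.co hf h2 h.1).1 ((h.co hf h.1).2 (Or.inl rfl))
        have k2 := (h'.co hf h2 h.2.1).1 ((h.co hf h.2.1).2 (Or.inr rfl))
        exact absurd (k1.trans k2.symm) h.2.2.1
    · by_cases h' : ∃ a, baseb_S F f n y a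
      · obtain ⟨a, h'⟩ := h'
        exact ⟨v a, fun d g k => absurd ⟨d, g, k⟩ h,
          fun d k => congrArg v ((k.co hf h2 h'.1).1 ((h'.co hf h2 h'.1).2 rfl))⟩
      · exact ⟨v 0, fun d g k => absurd ⟨d, g, k⟩ h, fun d k => absurd ⟨d, k⟩ h'⟩
  choose l h1 h3 using key
  exact ⟨l, h1, h3⟩

lemma baseb_br {Z : Surf} {AR : ℕ → ℕ → Z.A} {TW : ℕ → ℕ → Z.Mod} (K : Kn (2 * n + 1) Z AR TW)
    {tw : V → Z.Mod} (hL : ∀ y a b, baseb_L F f n y a b → tw y = TW (a + 1) (b + 1))
    (hS : ∀ y a, baseb_S F f n y a → tw y = TW (baseb_p n a) (a + 1) ^ 2) (ζ : F) (q : ℕ) :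
    ∀ x ∈ baseb_R F f n, ∀ y ∈ baseb_R F f n, Pair B ζ q x y →
      W (tw x) (tw y) q = W (tw y) (tw x) q := by
  have c2 : ∀ {x y}, Pair B ζ q x y → B x y = 0 → Commute (tw x) (tw y) →
      W (tw x) (tw y) q = W (tw y) (tw x) q := by
    intro x y P h hc
    rw [← omega_eq_W, ← omega_eq_W, pair_two P h, omega_two, omega_two]
    exact hc.eq
  have c3 : ∀ {x y a b g}, Pair B ζ q x y → baseb_L F f n x a b → baseb_L F f n y b g →
      W (tw x) (tw y) q = W (tw y) (tw x) q := by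
    intro x y a b g P hx hy
    by_cases k : a = g
    · rw [hL x a b hx, hL y b g hy, k, K.tw_symm]
    have k1 := hx.1
    have k2 := hx.2.1
    have k3 := hx.2.2.1
    have k4 := hy.2.1
    have k5 := hy.2.2.1
    rw [← omega_eq_W, ← omega_eq_W, pair_three P (baseb_LL1 hf hx hy k), omega_three,
      omega_three, hL x a b hx, hL y b g hy]
    exact K.braid _ (by omega) _ (by omega) _ (by omega) (by omega) (by omega) (by omega)
  have c4 : ∀ {x y a b}, Pair B ζ q x y → baseb_L F f n x a b → baseb_S F f n y b →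
      W (tw x) (tw y) q = W (tw y) (tw x) q := by
    intro x y a b P hx hy
    have k1 := hx.1
    have k2 := hx.2.1
    have k3 := hx.2.2.1
    have k4 := baseb_p_cases n b
    rw [← omega_eq_W, ← omega_eq_W, pair_four P (baseb_LS2 hf hx hy), baseb_omega_four,
      baseb_omega_four, hL x a b hx, hS y b hy, K.tw_symm (baseb_p n b)]
    exact baseb_four
      (K.braid _ (by omega) _ (by omega) _ (by omega) (by omega) (by omega) (by omega))
  have c5 : ∀ {x y a b d}, Pair B ζ q x y → baseb_L F f n x a b → baseb_S F f n y d →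
      W (tw x) (tw y) q = W (tw y) (tw x) q := by
    intro x y a b d P hx hy
    by_cases e1 : a = d
    · exact c4 P hx.symm (e1 ▸ hy)
    by_cases e2 : b = d
    · exact c4 P hx (e2 ▸ hy)
    have k1 := hx.1
    have k2 := hx.2.1
    have k3 := hx.2.2.1
    have k4 := baseb_p_cases n d
    have k5 := hy.1
    refine c2 P (baseb_LS0 hf hx hy e1 e2) ?_
    rw [hL x a b hx, hS y d hy]
    exact (K.comm _ (by omega) _ (by omega) _ (by omega) _ (by omega) (by omega) (by omega)
      (by omega) (by omega) (by omega) (by omega)).pow_right 2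
  rintro x (⟨a, b, hx⟩ | ⟨a, hx⟩) y (⟨d, g, hy⟩ | ⟨d, hy⟩) P
  · by_cases e1 : a = d
    · exact c3 P hx.symm (e1 ▸ hy)
    by_cases e2 : a = g
    · exact c3 P hx.symm (e2 ▸ hy.symm)
    by_cases e3 : b = d
    · exact c3 P hx (e3 ▸ hy)
    by_cases e4 : b = g
    · exact c3 P hx (e4 ▸ hy.symm)
    have k1 := hx.1
    have k2 := hx.2.1
    have k3 := hx.2.2.1
    have k4 := hy.1
    have k5 := hy.2.1
    have k6 := hy.2.2.1
    refine c2 P (baseb_LL0 hf hx hy e1 e2 e3 e4) ?_
    rw [hL x a b hx, hL y d g hy]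
    exact K.comm _ (by omega) _ (by omega) _ (by omega) _ (by omega) (by omega) (by omega)
      (by omega) (by omega) (by omega) (by omega)
  · exact c5 P hx hy
  · exact (c5 P.swap hy hx).symm
  · by_cases e : a = d
    · rw [hS x a hx, hS y d hy, e]
    have k1 := hx.1
    have k2 := hy.1
    have k3 := baseb_p_cases n a
    have k4 := baseb_p_cases n d
    refine c2 P (baseb_SS0 hf hx hy e) ?_
    rw [hS x a hx, hS y d hy]
    exact (K.comm _ (by omega) _ (by omega) _ (by omega) _ (by omega) (by omega) (by omega)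
      (by omega) (by omega) (by omega) (by omega)).pow_pow 2 2

omit hf in
lemma baseb_orth {α : ℕ → V} {c : F} (hc : c * c = 2) (c0 : c ≠ 0)
    (hα : ∀ i < n, ∀ j < n, B (α i) (α j) = if i = j then 2 else
      if i = 0 ∧ j = 1 ∨ j = 0 ∧ i = 1 then -c else if j + 1 = i ∨ i + 1 = j then -1 else 0)
    (f0 : f 0 = c⁻¹ • α 0) (f1 : ∀ a, f (a + 1) = f a + α (a + 1)) :
    ∀ a < n, ∀ b < n, B (f a) (f b) = if a = b then 1 else 0 := by
  have e2 : c⁻¹ * 2 = c := by rw [← hc, inv_mul_cancel_left₀ c0]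
  have e1 : c⁻¹ * -c = -1 := by rw [mul_neg, inv_mul_cancel₀ c0]
  have key : ∀ a < n, ∀ k < n, B (f a) (α k) = if k = 0 then (if a = 0 then c else 0) else
      if a = k then 1 else if a + 1 = k then -1 else 0 := by
    intro a
    induction a with
    | zero =>
      intro ha k hk
      rw [f0, map_smul, LinearMap.smul_apply, smul_eq_mul, hα 0 ha k hk]
      rcases k with _ | _ | k
      · simpa using e2
      · simpa using e1
      · simp
    | succ a ih =>
      intro ha k hk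
      rw [f1, map_add, LinearMap.add_apply, ih (by omega) k hk, hα _ ha k hk]
      generalize hm : a + 1 = m
      split_ifs <;> first | omega | ring1
  intro a ha b
  induction b with
  | zero =>
    intro hb
    rw [f0, map_smul, smul_eq_mul, key a ha 0 hb, if_pos rfl]
    split_ifs
    exacts [inv_mul_cancel₀ c0, mul_zero _]
  | succ b ih =>
    intro hb
    rw [f1, map_add, ih (by omega), key a ha _ hb]
    generalize hm : b + 1 = m
    split_ifs <;> first | omega | ring1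

end lin

variable {S : Type} {M : CoxeterMatrix S}

lemma baseb_core [Finite S] {n : ℕ} (hn : 2 ≤ n) (e : ℕ → S)
    (he : ∀ i < n, ∀ j < n, e i = e j → i = j)
    (hM : ∀ i < n, ∀ j < n, i ≠ j → M (e i) (e j) =
      if i = 0 ∧ j = 1 ∨ j = 0 ∧ i = 1 then 4 else if j + 1 = i ∨ i + 1 = j then 3 else 2) :
    ∃ D : Co M, D.SepP (Set.range fun i : Fin n => e i) := by
  obtain ⟨p, _, z, Φ, _, _, θ, G, hG, hB⟩ := exists_geo M
  have hP : ∀ i < n, ∀ j < n, i ≠ j → ∀ m : ℕ, m ≠ 0 → M (e i) (e j) = m →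
      Pair G.B (z m) m (G.α (e i)) (G.α (e j)) := fun i hi j hj h m h0 hm =>
    hm ▸ hG.pair _ _ (fun k => h (he i hi j hj k)) (hm ▸ h0)
  have r4 := (hP 0 (by omega) 1 (by omega) (by omega) 4 (by omega)
    (by rw [hM 0 (by omega) 1 (by omega) (by omega), if_pos (by omega)])).root
  have h2 : (2 : ZMod p) ≠ 0 := fun h => by
    have k := (r4.dvd _).1 (r4.pow_m.trans (by linear_combination -h))
    omega
  obtain ⟨c, hc0⟩ : ∃ c, c = z 4 + (z 4)⁻¹ := ⟨_, rfl⟩
  have hc : c * c = 2 := by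
    have k : z 4 ^ 4 = -1 := by exact_mod_cast r4.pow_m
    have k0 := r4.ne
    rw [hc0]
    field_simp
    linear_combination k
  have c0 : c ≠ 0 := left_ne_zero_of_mul (hc ▸ h2)
  have hα : ∀ i < n, ∀ j < n, G.B (G.α (e i)) (G.α (e j)) = if i = j then 2 else
      if i = 0 ∧ j = 1 ∨ j = 0 ∧ i = 1 then -c else if j + 1 = i ∨ i + 1 = j then -1 else 0 := by
    intro i hi j hj
    split_ifs with k1 k2 k3
    · rw [k1, G.diag]
    · rw [(hP i hi j hj k1 4 (by omega) (by rw [hM i hi j hj k1, if_pos k2])).xy, hc0]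
    · have P := hP i hi j hj k1 3 (by omega) (by rw [hM i hi j hj k1, if_neg k2, if_pos k3])
      have k : z 3 ^ 3 = -1 := by exact_mod_cast P.root.pow_m
      have k0 := P.root.ne
      have k4 : z 3 + 1 ≠ 0 := fun h => P.root.den (by
        rw [eq_neg_of_add_eq_zero_left h]
        simp)
      have k5 : z 3 ^ 2 - z 3 + 1 = 0 :=
        (mul_eq_zero.1 (by linear_combination k)).resolve_left k4
      rw [P.xy, neg_inj]
      field_simp
      linear_combination k5
    · have P := hP i hi j hj k1 2 (by omega) (by rw [hM i hi j hj k1, if_neg k2, if_neg k3])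
      rw [P.xy, ← P.root.qi_two, P.root.qi_zero_iff.2 (by simp), neg_zero]
  obtain ⟨f, f0, f1⟩ : ∃ f : ℕ → S → ZMod p, f 0 = c⁻¹ • G.α (e 0) ∧
      ∀ a, f (a + 1) = f a + G.α (e (a + 1)) :=
    ⟨fun a => Nat.rec (c⁻¹ • G.α (e 0)) (fun a v => v + G.α (e (a + 1))) a, rfl, fun _ => rfl⟩
  have hf := baseb_orth (α := fun i => G.α (e i)) hc c0 hα f0 f1
  have fz : ∀ a s, (∀ k ≤ a, s ≠ e k) → f a s = 0 := by
    intro a s
    induction a with
    | zero => exact fun h => by simp [f0, hG.zero _ _ (h 0 le_rfl)]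
    | succ a ih =>
      exact fun h => by simp [f1, hG.zero _ _ (h _ le_rfl), ih fun k hk => h k (by omega)]
  have fr : ∀ a < n, ∀ s ∉ Set.range fun i : Fin n => e i, f a s = 0 := fun a ha s hs =>
    fz a s fun k hk h => hs ⟨⟨k, by omega⟩, h.symm⟩
  have fl : ∀ a, a + 1 < n → f a (e (a + 1)) = 0 := fun a ha =>
    fz a _ fun k hk h => by have := he _ ha k (by omega) h; omega
  obtain ⟨Z, AR, TW, K⟩ := exists_complete (2 * n + 1)
  obtain ⟨ar, aL, aS⟩ := baseb_lab hf h2 (fun a b => AR (a + 1) (b + 1))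
    (fun a b => K.ar_symm _ _) (fun a => AR (baseb_p n a) (a + 1))
  obtain ⟨tw, tL, tS⟩ := baseb_lab hf h2 (fun a b => TW (a + 1) (b + 1))
    (fun a b => K.tw_symm _ _) (fun a => TW (baseb_p n a) (a + 1) ^ 2)
  have a0 : baseb_S (ZMod p) f n (G.α (e 0)) 0 :=
    ⟨by omega, c, hc, by rw [f0, smul_inv_smul₀ c0]⟩
  have a1 : ∀ k, k + 1 < n → baseb_L (ZMod p) f n (G.α (e (k + 1))) k (k + 1) := fun k hk =>
    ⟨by omega, hk, by omega, -1, 1, by ring, by ring, by rw [f1]; module⟩
  have hx : ∀ (T : Set S) (i : ℕ), i < n → e i ∉ T →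
      ∀ y ∈ baseb_R (ZMod p) f n, (∀ s ∉ T, y s = 0) → AR i (i + 1) ≠ ar y := by
    have k : ∀ y a, baseb_L (ZMod p) f n y a (a + 1) → y (e (a + 1)) ≠ 0 := by
      rintro _ a ⟨-, h1, -, s, t, -, ht, rfl⟩
      simpa [f1, fl a h1, hG.one] using left_ne_zero_of_mul_eq_one ht
    rintro T i hi hT y (⟨a, b, hy⟩ | ⟨a, hy⟩) h0 h
    · have k1 := hy.1
      have k2 := hy.2.1
      have k3 := hy.2.2.1
      rcases K.inj _ (by omega) _ (by omega) _ (by omega) _ (by omega) (by omega) (by omega)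
        (h.trans (aL y a b hy)) with ⟨rfl, h3⟩ | ⟨rfl, h3⟩
      · obtain rfl : b = a + 1 := by omega
        exact k y a hy (h0 _ hT)
      · obtain rfl : a = b + 1 := by omega
        exact k y b hy.symm (h0 _ hT)
    · have k1 := hy.1
      have k2 := baseb_p_cases n a
      have k3 := K.inj _ (by omega) _ (by omega) _ (by omega) _ (by omega) (by omega) (by omega)
        (h.trans (aS y a hy))
      obtain ⟨rfl, rfl⟩ : i = 0 ∧ a = 0 := by omega
      obtain ⟨-, s, hs, rfl⟩ := hy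
      have k4 := h0 _ hT
      have s0 : s ≠ 0 := left_ne_zero_of_mul (hs ▸ h2)
      simp [f0, hG.one, s0, c0] at k4
  have hrel : ∀ i < n, ∀ j < n, i ≠ j → ∀ m : ℕ, m ≠ 0 → M (e i) (e j) = m →
      omega (ag M (e i)) (ag M (e j)) m = omega (ag M (e j)) (ag M (e i)) m :=
    fun i hi j hj h m h0 hm => hm ▸ ag_rel M (fun k => h (he i hi j hj k)) (hm ▸ h0)
  have hseq : BSeq (fun i => ag M (e i)) n := by
    refine ⟨fun h => ?_, fun i h1 h3 => ?_, fun i j h1 h3 => ?_⟩
    · simpa only [baseb_omega_four] using hrel 0 (by omega) 1 h (by omega) 4 (by omega)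
        (by rw [hM 0 (by omega) 1 h (by omega), if_pos (by omega)])
    · simpa only [omega_three] using hrel i (by omega) _ h3 (by omega) 3 (by omega)
        (by rw [hM i (by omega) _ h3 (by omega), if_neg (by omega), if_pos (by omega)])
    · have := hrel i (by omega) j h3 (by omega) 2 (by omega)
        (by rw [hM i (by omega) j h3 (by omega), if_neg (by omega), if_neg (by omega)])
      rwa [omega_two, omega_two] at this
  obtain ⟨D, hD⟩ := root_base hG hB (fun i : Fin n => e i) (baseb_R (ZMod p) f n) Z tw ar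
    (fun y hy => baseb_norm hf hy) (fun x hx y hy => baseb_closed hf hx hy)
    (by
      rintro _ (⟨a, b, h1, h3, -, s, t, -, -, rfl⟩ | ⟨a, h1, s, -, rfl⟩) r hr
      · simp [fr a h1 r hr, fr b h3 r hr]
      · simp [fr a h1 r hr])
    (by
      rintro ⟨_ | k, hk⟩
      · exact Or.inr ⟨0, a0⟩
      · exact Or.inl ⟨_, _, a1 k hk⟩)
    (by
      rintro y (⟨a, b, hy⟩ | ⟨a, hy⟩)
      · rw [tL y a b hy, aL y a b hy]
        exact K.mem _ _
      · rw [tS y a hy, aS y a hy]
        exact pow_mem (K.mem _ _) 2)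
    (baseb_br hf K tL tS) (by
      intro T U w hw
      obtain ⟨h, h1, h3⟩ := K.sep n (by omega)
      have e1 : h.comp (FreeGroup.lift fun i : Fin n =>
          if (i : ℕ) = 0 then sA n 0 ^ 2 else sA n i) =
          FreeGroup.lift fun i : Fin n => tw (G.α (e i)) := by
        refine FreeGroup.ext_hom _ _ ?_
        rintro ⟨_ | k, hk⟩
        · simp [h1 0 hk, tS _ 0 a0, baseb_p]
        · simp [h1 _ hk, tL _ _ _ (a1 k hk)]
      have e2 := typeB_sep hseq {i | e i ∈ T} {i | e i ∈ U} w (h3 _ _ _ fun i hi j hj => by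
        rw [← MonoidHom.comp_apply, bIm, e1]
        exact hw _ (hx T i i.2 hi) _ (hx U j j.2 hj))
      have e3 : ∀ X : Set S, Subgroup.closure ((fun i : Fin n => ag M (e i)) '' {i | e i ∈ X}) ≤
          pa M (X ∩ Set.range fun i : Fin n => e i) := fun X =>
        (Subgroup.closure_le _).2 (by
          rintro _ ⟨i, hi, rfl⟩
          exact pa_mem ⟨hi, i, rfl⟩)
      exact e2.map (MonoidHom.id _) (e3 T) (e3 U))
  exact hD.sepP

theorem base_B [Finite S] {n : ℕ} (hn : 2 ≤ n) (e : Fin n → S) (he : Function.Injective e)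
    (hM : ∀ i j, M (e i) (e j) = CoxeterMatrix.B n i j) :
    ∃ D : Co M, D.SepP (Set.range e) := by
  have key := baseb_core (M := M) hn (fun i => e ⟨n - 1 - i, by omega⟩)
    (fun i hi j hj h => by
      have := congrArg Fin.val (he h)
      simp only at this
      omega)
    (fun i hi j hj h => by
      rw [hM]
      simp only [CoxeterMatrix.B, Matrix.of_apply, Fin.mk.injEq]
      split_ifs <;> omega)
  have e1 : (Set.range fun i : Fin n => e ⟨n - 1 - i, by omega⟩) = Set.range e := by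
    ext s
    constructor
    · rintro ⟨i, rfl⟩
      exact ⟨_, rfl⟩
    · rintro ⟨i, rfl⟩
      exact ⟨⟨n - 1 - i, by omega⟩, congrArg e (Fin.ext (by simp only; omega))⟩
  rwa [e1] at key

end Pool.Agent.Lib.MP_19b52f_al.FC
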