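import Pool.Agent.Lib.MP_19b52f_al.FC.WStd

/-! From a cocycle over a finite quotient to outer automorphisms of a surface group. -/

namespace Pool.Agent.Lib.MP_19b52f_al.FC

open Pool.Agent.Lib.MP_19b52f_al.EA
open FreeGroup hiding map_mul map_inv map_one lift_unique

section wreath_aux

variable {Φ Ω : Type} [Group Φ]

open Classical in
/-- The path in the maximal tree from `1` to `q`. -/
noncomputable def wreath_pt (Ω : Type) (q : Φ) : FreeGroup (WL Φ Ω) :=
  if q = 1 then 1 else aL Ω 1 q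

/-- The start of a letter. -/
def wreath_src : WL Φ Ω → Φ
  | .inl x => x.1
  | .inr x => x.1

/-- The end of a letter. -/
def wreath_tgt : WL Φ Ω → Φ
  | .inl x => x.1
  | .inr (q, _, true) => q
  | .inr (q, s, false) => s * q

/-- Every letter is closed to a loop at `1`. -/
noncomputable def wreath_N : FreeGroup (WL Φ Ω) →* FreeGroup (WL Φ Ω) :=
  lift fun x => wreath_pt Ω (wreath_src x) * of x * (wreath_pt Ω (wreath_tgt x))⁻¹

lemma wreath_N_of (x : WL Φ Ω) :
    wreath_N (of x) = wreath_pt Ω (wreath_src x) * of x * (wreath_pt Ω (wreath_tgt x))⁻¹ := by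
  simp [wreath_N]

lemma wreath_pt_one : wreath_pt Ω (1 : Φ) = 1 := if_pos rfl

lemma wreath_pt_ne {q : Φ} (h : q ≠ 1) : wreath_pt Ω q = aL Ω 1 q := if_neg h

lemma wreath_N_a (q s : Φ) :
    wreath_N (aL Ω q s) = wreath_pt Ω q * aL Ω q s * (wreath_pt Ω (s * q))⁻¹ := wreath_N_of _

lemma wreath_N_b (q s : Φ) :
    wreath_N (bL Ω q s) = wreath_pt Ω q * bL Ω q s * (wreath_pt Ω q)⁻¹ := wreath_N_of _

lemma wreath_N_cp (q : Φ) (u : FreeGroup Ω) :
    wreath_N (cp q u) = wreath_pt Ω q * cp q u * (wreath_pt Ω q)⁻¹ :=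
  eq_on_gen (f := wreath_N.comp (cp q))
    (g := (MulAut.conj (wreath_pt Ω q)).toMonoidHom.comp (cp q))
    (fun s _ => by
      simp only [MonoidHom.comp_apply, cp, map.of]
      exact wreath_N_of _) (mem_gen_univ u)

lemma wreath_rt_pt (q : Φ) : rt (offTree Φ Ω) (wreath_pt Ω q) = 1 := by
  by_cases h : q = 1
  · rw [h, wreath_pt_one, map_one]
  · rw [wreath_pt_ne h]
    exact rt_of_not fun h2 => h2 q h rfl

lemma wreath_rt_N (w : FreeGroup (WL Φ Ω)) :
    rt (offTree Φ Ω) (wreath_N w) = rt (offTree Φ Ω) w :=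
  eq_on_gen (f := (rt (offTree Φ Ω)).comp wreath_N) (fun s _ => by
    rw [MonoidHom.comp_apply, wreath_N_of, map_mul, map_mul, map_inv, wreath_rt_pt, wreath_rt_pt]
    simp) (mem_gen_univ w)

lemma wreath_N_rt (w : FreeGroup (WL Φ Ω)) : wreath_N (rt (offTree Φ Ω) w) = wreath_N w :=
  eq_on_gen (f := wreath_N.comp (rt (offTree Φ Ω))) (fun x _ => by
    rw [MonoidHom.comp_apply]
    by_cases h : x ∈ offTree Φ Ω
    · rw [rt_of_mem h]
    · rw [rt_of_not h, map_one]
      obtain ⟨s, hs, rfl⟩ : ∃ s ≠ 1, x = Sum.inr (1, s, false) := by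
        by_contra h2
        exact h fun s hs e => h2 ⟨s, hs, e⟩
      have h3 := wreath_N_a (Ω := Ω) (1 : Φ) s
      rw [mul_one, wreath_pt_one, wreath_pt_ne hs, one_mul, mul_inv_cancel] at h3
      exact h3.symm) (mem_gen_univ w)

lemma wreath_N_face (en : List Φ) (c : FreeGroup Ω) (q : Φ) :
    wreath_N (face en c q) = wreath_pt Ω q * face en c q * (wreath_pt Ω q)⁻¹ := by
  have h : face en c q ∈ wreath_N.eqLocus (MulAut.conj (wreath_pt Ω q)).toMonoidHom := by
    refine mul_mem (mul_mem (wreath_N_cp q c) (prod_map_mem fun s _ => ?_))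
      (prod_map_mem fun s _ => wreath_N_b q s)
    change wreath_N _ = wreath_pt Ω q * _ * (wreath_pt Ω q)⁻¹
    rw [map_mul, map_mul, map_inv, map_inv, wreath_N_a, wreath_N_b]
    group
  exact h

/-- The copies are permuted by `v` and changed by `κ`. -/
noncomputable def wreath_P (v : Φ) (κ : Φ → MulAut (FreeGroup Ω)) :
    FreeGroup (WL Φ Ω) →* FreeGroup (WL Φ Ω) :=
  lift fun x => match x with
    | .inl y => cp (y.1 * v) (κ (y.1 * v) (of y.2))
    | .inr y => of (.inr (y.1 * v, y.2))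

variable (v : Φ) (κ : Φ → MulAut (FreeGroup Ω))

lemma wreath_P_inr (q : Φ) (y : Φ × Bool) :
    wreath_P v κ (of (.inr (q, y))) = of (.inr (q * v, y)) := by
  simp [wreath_P]

lemma wreath_P_a (q s : Φ) : wreath_P v κ (aL Ω q s) = aL Ω (q * v) s := wreath_P_inr v κ _ _

lemma wreath_P_b (q s : Φ) : wreath_P v κ (bL Ω q s) = bL Ω (q * v) s := wreath_P_inr v κ _ _

lemma wreath_P_cp (q : Φ) (u : FreeGroup Ω) :
    wreath_P v κ (cp q u) = cp (q * v) (κ (q * v) u) :=
  eq_on_gen (f := (wreath_P v κ).comp (cp q))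
    (g := (cp (q * v)).comp (κ (q * v)).toMonoidHom)
    (fun s _ => by
      rw [MonoidHom.comp_apply, show cp q (of s) = of (Sum.inl (q, s)) from map.of]
      simp [wreath_P]) (mem_gen_univ u)

omit [Group Φ] in
lemma wreath_ext {G : Type} [Group G] {f g : FreeGroup (WL Φ Ω) →* G}
    (h1 : ∀ q s, f (cp q (of s)) = g (cp q (of s)))
    (h2 : ∀ q y, f (of (.inr (q, y))) = g (of (.inr (q, y)))) (w : FreeGroup (WL Φ Ω)) :
    f w = g w :=
  eq_on_gen (fun x _ => by
    rcases x with ⟨q, s⟩ | ⟨q, y⟩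
    · have := h1 q s
      rwa [show cp q (of s) = of (Sum.inl (q, s)) from map.of] at this
    · exact h2 q y) (mem_gen_univ w)

lemma wreath_P_one (w : FreeGroup (WL Φ Ω)) : wreath_P 1 (fun _ => 1) w = w :=
  wreath_ext (g := MonoidHom.id _) (fun q s => by rw [wreath_P_cp, mul_one]; rfl)
    (fun q y => by rw [wreath_P_inr, mul_one]; rfl) w

lemma wreath_P_P (v' : Φ) (κ' κ'' : Φ → MulAut (FreeGroup Ω))
    (h : ∀ q, κ'' (q * v) = κ (q * v) * κ' q) (w : FreeGroup (WL Φ Ω)) :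
    wreath_P v κ (wreath_P v' κ' w) = wreath_P (v' * v) κ'' w :=
  wreath_ext (f := (wreath_P v κ).comp (wreath_P v' κ'))
    (fun q s => by
      rw [MonoidHom.comp_apply, wreath_P_cp, wreath_P_cp, wreath_P_cp, ← mul_assoc, h]; rfl)
    (fun q y => by
      rw [MonoidHom.comp_apply, wreath_P_inr, wreath_P_inr, wreath_P_inr, mul_assoc]) w

lemma wreath_P_face (en : List Φ) {c : FreeGroup Ω} (hc : ∀ q, κ q c = c) (q : Φ) :
    wreath_P v κ (face en c q) = face en c (q * v) := by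
  unfold face
  rw [map_mul, map_mul, wreath_P_cp, hc, map_list_prod, map_list_prod, List.map_map, List.map_map]
  refine congrArg₂ (· * ·) (congrArg (_ * ·) (congrArg List.prod ?_)) (congrArg List.prod ?_)
  · refine List.map_congr_left fun s _ => ?_
    simp only [Function.comp_apply, map_mul, map_inv, wreath_P_a, wreath_P_b, mul_assoc]
  · exact List.map_congr_left fun s _ => wreath_P_b v κ q s

lemma wreath_NP_pt (q : Φ) : wreath_N (wreath_P v κ (wreath_pt Ω q)) =
    wreath_pt Ω v * wreath_P v κ (wreath_pt Ω q) * (wreath_pt Ω (q * v))⁻¹ := by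
  by_cases h : q = 1
  · rw [h, wreath_pt_one, map_one, map_one, one_mul, mul_one, mul_inv_cancel]
  · rw [wreath_pt_ne h, wreath_P_a, wreath_N_a, one_mul]

lemma wreath_NPN (w : FreeGroup (WL Φ Ω)) : wreath_N (wreath_P v κ (wreath_N w)) =
    wreath_pt Ω v * wreath_P v κ (wreath_N w) * (wreath_pt Ω v)⁻¹ :=
  wreath_ext (f := wreath_N.comp ((wreath_P v κ).comp wreath_N))
    (g := (MulAut.conj (wreath_pt Ω v)).toMonoidHom.comp ((wreath_P v κ).comp wreath_N))
    (fun q s => by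
      change wreath_N (wreath_P v κ (wreath_N _)) =
        wreath_pt Ω v * wreath_P v κ (wreath_N _) * (wreath_pt Ω v)⁻¹
      simp only [wreath_N_cp, map_mul, map_inv, wreath_NP_pt, wreath_P_cp]
      group)
    (fun q y => by
      obtain ⟨s, _ | _⟩ := y
      · change wreath_N (wreath_P v κ (wreath_N (aL Ω q s))) =
          wreath_pt Ω v * wreath_P v κ (wreath_N (aL Ω q s)) * (wreath_pt Ω v)⁻¹
        simp only [wreath_N_a, map_mul, map_inv, wreath_NP_pt, wreath_P_a, ← mul_assoc s]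
        group
      · change wreath_N (wreath_P v κ (wreath_N (bL Ω q s))) =
          wreath_pt Ω v * wreath_P v κ (wreath_N (bL Ω q s)) * (wreath_pt Ω v)⁻¹
        simp only [wreath_N_b, map_mul, map_inv, wreath_NP_pt, wreath_P_b]
        group) w

/-- A family of endomorphisms that is multiplicative up to inner automorphisms. -/
lemma wreath_lift {G H : Type} [Group G] [Group H] (F : G → H →* H) (h1 : ∀ x, F 1 x = x)
    (hm : ∀ g g', ∃ c, ∀ x, F g (F g' x) = c * F (g * g') x * c⁻¹) :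
    ∃ (A : G → MulAut H) (f : G →* MulAut H ⧸ Inn H), (∀ g x, A g x = F g x) ∧
      ∀ g, f g = QuotientGroup.mk (A g) := by
  have hb : ∀ g, Function.Bijective (F g) := by
    intro g
    obtain ⟨c, hc⟩ := hm g g⁻¹
    obtain ⟨d, hd⟩ := hm g⁻¹ g
    refine ⟨fun x y e => ?_, fun x => ⟨F g⁻¹ (c⁻¹ * x * c), ?_⟩⟩
    · have h2 := congrArg (F g⁻¹) e
      rw [hd, hd, inv_mul_cancel, h1, h1] at h2
      simpa using h2
    · rw [hc, mul_inv_cancel, h1]; group
  refine ⟨fun g => MulEquiv.ofBijective (F g) (hb g),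
    MonoidHom.mk' (fun g => QuotientGroup.mk (MulEquiv.ofBijective (F g) (hb g))) fun g g' => ?_,
    fun _ _ => rfl, fun _ => rfl⟩
  obtain ⟨c, hc⟩ := hm g g'
  have e : (MulEquiv.ofBijective (F g) (hb g) * MulEquiv.ofBijective (F g') (hb g') : MulAut H) =
      MulAut.conj c * MulEquiv.ofBijective (F (g * g')) (hb _) := MulEquiv.ext fun x => hc x
  have e1 : (QuotientGroup.mk (MulAut.conj c) : MulAut H ⧸ Inn H) = 1 :=
    (QuotientGroup.eq_one_iff _).2 ⟨c, rfl⟩
  rw [← QuotientGroup.mk_mul, e, QuotientGroup.mk_mul, e1, one_mul]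

end wreath_aux

theorem wreath_out {Ω : Type} {c : FreeGroup Ω} {R : Multiset (ConjClasses (FreeGroup Ω))}
    (h : SStd Set.univ (cl c ::ₘ R)) {G Φ : Type} [Group G] [Group Φ] [Finite Φ] (θ : G →* Φ)
    (k : Φ → G → MulAut (FreeGroup Ω)) (k_mul : ∀ φ g g', k φ (g * g') = k φ g * k (φ * θ g) g')
    (hc : ∀ φ g, k φ g c = c) (hR : ∀ φ g, R.map (cm (k φ g).toMonoidHom) = R)
    (hinj : ∀ g, θ g = 1 → k 1 g = 1 → g = 1) : EmbedsInMCG G := by
  classical
  have := Fintype.ofFinite Φ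
  have hS := wr_std (Φ := Φ) h (Finset.nodup_toList Finset.univ)
    (fun q => Finset.mem_toList.2 (Finset.mem_univ q))
  generalize (Finset.univ : Finset Φ).toList = en at hS
  obtain ⟨ge, n, p, s, hps, hsp, hcard, hpun⟩ := hS.final
  have k1 : ∀ q, k q 1 = 1 := fun q => by
    have := k_mul q 1 1
    rw [mul_one, map_one, mul_one] at this
    exact mul_left_cancel (a := k q 1) (by rw [← this, mul_one])
  let Ψ : G → FreeGroup (WL Φ Ω) →* FreeGroup (WL Φ Ω) := fun g =>
    wreath_P (θ g)⁻¹ fun q => k q g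
  have Ψ1 : ∀ w, Ψ 1 w = w := fun w => by
    simp only [Ψ, map_one, inv_one, k1]
    exact wreath_P_one w
  have Ψm : ∀ g g' w, Ψ g (Ψ g' w) = Ψ (g * g') w := fun g g' w => by
    simp only [Ψ, map_mul, mul_inv_rev]
    exact wreath_P_P _ _ _ _ _ (fun q => by rw [k_mul, inv_mul_cancel_right]) w
  have prt : ∀ w, p (rt (offTree Φ Ω) w) = p w := fun w => by rw [← hsp, hps]
  have Nsp : ∀ w, wreath_N (s (p w)) = wreath_N w := fun w => by rw [hsp, wreath_N_rt]
  obtain ⟨A, f, hA, hf⟩ := wreath_lift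
    (fun g => p.comp ((Ψ g).comp (wreath_N.comp s)))
    (fun x => by
      simp only [MonoidHom.comp_apply]
      rw [Ψ1, ← prt, wreath_rt_N, prt, hps])
    (fun g g' => ⟨p (Ψ g (wreath_pt Ω (θ g')⁻¹)), fun x => by
      simp only [MonoidHom.comp_apply]
      rw [Nsp, ← Ψm, wreath_NPN, map_mul, map_mul, map_mul, map_mul, map_inv, map_inv]⟩)
  have hAp : ∀ g w, A g (p w) = p (Ψ g (wreath_N w)) := fun g w => by
    rw [hA]
    simp only [MonoidHom.comp_apply]
    rw [Nsp]
  refine ⟨ge, n, ?_, f, (injective_iff_map_eq_one f).2 fun g hg => ?_,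
    fun g => ⟨A g, hf g, fun i => ?_⟩⟩
  · rw [← hcard]
    have h2 : ({Sum.inr (1, 1, false), Sum.inr (1, 1, true)} : Set (WL Φ Ω)) ⊆ offTree Φ Ω := by
      rintro x (rfl | rfl) t ht e
      · exact ht (congrArg (fun y => y.2.1) (Sum.inr.inj e)).symm
      · exact ht (congrArg (fun y => y.2.1) (Sum.inr.inj e)).symm
    have h3 := Set.ncard_le_ncard h2 hS.finite
    rwa [Set.ncard_pair (by simp)] at h3
  · rw [hf, QuotientGroup.eq_one_iff] at hg
    obtain ⟨d, hd⟩ := hg
    have key : ∀ w, Ψ g (wreath_N w) =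
        ((wreath_pt Ω (θ g)⁻¹)⁻¹ * wreath_N (s d)) * wreath_N w *
          ((wreath_pt Ω (θ g)⁻¹)⁻¹ * wreath_N (s d))⁻¹ := by
      intro w
      have h2 : p (Ψ g (wreath_N w)) = d * p w * d⁻¹ := by rw [← hAp, ← hd]; rfl
      have h3 := congrArg (fun x => wreath_N (s x)) h2
      simp only [map_mul, map_inv, Nsp] at h3
      rw [wreath_NPN] at h3
      calc Ψ g (wreath_N w) = (wreath_pt Ω (θ g)⁻¹)⁻¹ * (wreath_pt Ω (θ g)⁻¹ *
            Ψ g (wreath_N w) * (wreath_pt Ω (θ g)⁻¹)⁻¹) * wreath_pt Ω (θ g)⁻¹ := by group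
        _ = _ := by rw [h3]; group
    generalize (wreath_pt Ω (θ g)⁻¹)⁻¹ * wreath_N (s d) = e at key
    have hb := key (bL Ω 1 1)
    have ha := key (aL Ω 1 1)
    rw [wreath_N_b, wreath_pt_one, one_mul, inv_one, mul_one, wreath_P_b, one_mul] at hb
    rw [wreath_N_a, mul_one, wreath_pt_one, one_mul, inv_one, mul_one, wreath_P_a, one_mul] at ha
    have hθ : (θ g)⁻¹ = 1 := by
      have h4 := eq_of_isConj_of (isConj_iff.2 ⟨e, hb.symm⟩)
      exact (congrArg Prod.fst (Sum.inr.inj h4)).symm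
    rw [hθ] at ha hb
    have he : e = 1 := eq_one_of_comm (s := Sum.inr (1, 1, false)) (t := Sum.inr (1, 1, true))
      (by simp) (mul_inv_eq_iff_eq_mul.1 ha.symm) (mul_inv_eq_iff_eq_mul.1 hb.symm)
    refine hinj g (inv_eq_one.1 hθ) (MulEquiv.ext fun u => ?_)
    have h5 := key (cp 1 u)
    rw [he, wreath_N_cp, wreath_pt_one, one_mul, inv_one, mul_one, one_mul, mul_one, wreath_P_cp,
      hθ, mul_one] at h5
    exact map_inj (ι := fun t => (Sum.inl (1, t) : WL Φ Ω))
      (fun a b e => congrArg Prod.snd (Sum.inl.inj e)) h5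
  · obtain ⟨y, hy, e⟩ := Multiset.mem_map.1 ((hpun _).2 ⟨i, rfl⟩)
    have goal : ∃ z ∈ ∑ q, cl (rt (offTree Φ Ω) (face en c q)) ::ₘ R.map (cm (cp q)),
        cm p z = cm (A g).toMonoidHom (cm p y) := by
      obtain ⟨q, -, hq⟩ := Multiset.mem_sum.1 hy
      rcases Multiset.mem_cons.1 hq with rfl | hq
      · refine ⟨_, Multiset.mem_sum.2 ⟨q * (θ g)⁻¹, Finset.mem_univ _,
          Multiset.mem_cons_self _ _⟩, ?_⟩
        refine cl_eq (p (Ψ g (wreath_pt Ω q))) ?_
        change _ = A g (p _)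
        rw [hAp, wreath_N_rt, wreath_N_face, prt, map_mul, map_mul, map_mul, map_mul, map_inv,
          map_inv, wreath_P_face _ _ en (fun q => hc q g)]
      · obtain ⟨r, hr, rfl⟩ := Multiset.mem_map.1 hq
        obtain ⟨w, rfl⟩ := ConjClasses.mk_surjective r
        have hr' : cl (k (q * (θ g)⁻¹) g w) ∈ R := by
          rw [← hR (q * (θ g)⁻¹) g]
          exact Multiset.mem_map.2 ⟨_, hr, rfl⟩
        refine ⟨_, Multiset.mem_sum.2 ⟨q * (θ g)⁻¹, Finset.mem_univ _,
          Multiset.mem_cons_of_mem (Multiset.mem_map_of_mem _ hr')⟩, ?_⟩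
        refine cl_eq (p (Ψ g (wreath_pt Ω q))) ?_
        change _ = A g (p _)
        rw [hAp, wreath_N_cp, map_mul, map_mul, map_mul, map_mul, map_inv, map_inv, wreath_P_cp]
    obtain ⟨z, hz, e2⟩ := goal
    obtain ⟨j, hj⟩ := (hpun _).1 (Multiset.mem_map_of_mem _ hz)
    rw [e, hj] at e2
    exact ⟨j, ConjClasses.mk_eq_mk_iff_isConj.1 e2⟩

end Pool.Agent.Lib.MP_19b52f_al.FC
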