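import Pool.Agent.Lib.MP_19b52f_al.FC.Glue
import Pool.Agent.Lib.MP_19b52f_al.FC.BaseB
import Pool.Agent.Lib.MP_19b52f_al.FC.Wreath

/-! The embedding theorem. -/

namespace Pool.Agent.Lib.MP_19b52f_al.FC

open Pool.Agent.Lib.MP_19b52f_al.EA Pool.Agent.Lib.MP_19b52f_al.EA2

variable {S : Type} {M : CoxeterMatrix S}

lemma co_nonempty (M : CoxeterMatrix S) : Nonempty (Co M) := by
  obtain ⟨Z, -⟩ := exists_complete 0
  exact ⟨⟨Z, Unit, 1, fun _ _ => 1, by simp, fun _ _ => ∅, fun _ _ _ _ => rfl,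
    fun _ _ _ _ => one_mem _⟩⟩

lemma HasType.elim {I : Type} {T : Set S} {N : CoxeterMatrix I} (h : HasType M T N) :
    ∃ e : I → S, Function.Injective e ∧ Set.range e = T ∧ ∀ i j, M (e i) (e j) = N i j := by
  obtain ⟨e, he⟩ := h
  refine ⟨fun i => e i, Subtype.val_injective.comp e.injective, ?_, he⟩
  ext s
  exact ⟨by rintro ⟨i, rfl⟩; exact (e i).2, fun hs => ⟨e.symm ⟨s, hs⟩, by simp⟩⟩

lemma raag_sep (k : ℕ) (R : CoxeterMatrix (Fin k)) (hR : IsRightAngled R) :
    ∃ D : Co R, D.Sep Set.univ := by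
  refine exists_sep_all (co_nonempty R).some (fun J h0 hJ => ?_)
  obtain ⟨s, hs⟩ := hJ.1
  obtain rfl := hJ.2 {s} (by simpa) (by simp) (by
    rintro _ rfl t ht
    exact (hR _ t (fun e => ht.2 e.symm)).resolve_right (h0 _ hs t ht.1))
  simpa using base_A (M := R) (n := 1) (fun _ => s) (fun _ _ _ => Subsingleton.elim _ _)
    (fun i j => by rw [Subsingleton.elim i j]; simp)

lemma irred_triangle {s t r : S} (hst : s ≠ t) (h1 : r ≠ s) (h2 : r ≠ t) (h3 : M s t ≠ 2)
    (h4 : ¬ (M s r = 2 ∧ M t r = 2)) : Irred M {s, t, r} := by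
  refine ⟨by simp, fun K hK hne h => ?_⟩
  have k1 : s ∈ K ↔ t ∈ K := ⟨fun hs => by_contra fun ht => h3 (h s hs t ⟨by simp, ht⟩),
    fun ht => by_contra fun hs => h3 (M.symmetric s t ▸ h t ht s ⟨by simp, hs⟩)⟩
  have k2 : s ∈ K ↔ r ∈ K := ⟨fun hs => by_contra fun hr =>
      h4 ⟨h s hs r ⟨by simp, hr⟩, h t (k1.mp hs) r ⟨by simp, hr⟩⟩,
    fun hr => by_contra fun hs => h4 ⟨M.symmetric s r ▸ h r hr s ⟨by simp, hs⟩,
      M.symmetric t r ▸ h r hr t ⟨by simp, fun ht => hs (k1.mpr ht)⟩⟩⟩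
  have hs : s ∈ K := by
    obtain ⟨x, hx⟩ := hne
    rcases hK hx with rfl | rfl | rfl
    · exact hx
    · exact k1.mpr hx
    · exact k2.mpr hx
  refine hK.antisymm ?_
  rintro _ (rfl | rfl | rfl)
  · exact hs
  · exact k1.mp hs
  · exact k2.mp hs

theorem embeds [Finite S] (h : ∀ T : Set S, (∀ s ∈ T, ∀ t ∈ T, M s t ≠ 0) → Irred M T →
    (∃ n, HasType M T (CoxeterMatrix.A n)) ∨ (∃ n, HasType M T (CoxeterMatrix.B n)) ∨
      ∃ m, HasType M T (CoxeterMatrix.I m)) : EmbedsInMCG (Artin M) := by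
  have hB : ∀ {n} (e : Fin n → S), Function.Injective e →
      (∀ i j, M (e i) (e j) = CoxeterMatrix.B n i j) → ∃ D : Co M, D.SepP (Set.range e) := by
    intro n e he hM
    by_cases hn : 2 ≤ n
    · exact base_B hn e he hM
    · refine base_A e he (fun i j => ?_)
      obtain rfl : i = j := Fin.ext (by omega)
      simp
  obtain ⟨D, hD⟩ : ∃ D : Co M, D.Sep Set.univ := by
    refine exists_sep_all (co_nonempty M).some (fun J h0 hJ => ?_)
    rcases h J h0 hJ with ⟨n, h1⟩ | ⟨n, h1⟩ | ⟨m, h1⟩ <;> obtain ⟨e, he, rfl, hM⟩ := h1.elim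
    · exact base_A e he hM
    · exact hB e he hM
    have e0 : M (e 0) (e 1) = m + 2 := hM 0 1
    have e1 : Set.range e = {e 0, e 1} := by
      ext s; simp [Fin.exists_fin_two, eq_comm]
    have e2 : e 0 ≠ e 1 := he.ne (by decide)
    by_cases m1 : m = 1
    · refine base_A e he (fun i j => ?_)
      rw [hM, m1]
      revert i j
      decide
    by_cases m2 : m = 2
    · refine hB e he (fun i j => ?_)
      rw [hM, m2]
      revert i j
      decide
    have m0 : m ≠ 0 := by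
      rintro rfl
      have := hJ.2 {e 0} (by simp) (by simp) (by
        rw [e1]
        rintro _ rfl t ⟨rfl | rfl, ht⟩
        · exact absurd rfl ht
        · exact e0)
      have h3 : e 1 ∈ ({e 0} : Set S) := this ▸ ⟨1, rfl⟩
      exact e2 h3.symm
    obtain ⟨Φ, _, _, θ, D, hD⟩ := edge_coc (M := M) e2 (by omega) (fun r r1 r2 r3 r4 => by
      by_contra h4
      have key : ∀ {I : Type} {N : CoxeterMatrix I}, HasType M {e 0, e 1, r} N →
          (∃ i j, N i j = m + 2) ∧ ∃ i j k : I, i ≠ j ∧ i ≠ k ∧ j ≠ k := by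
        intro I N hN
        obtain ⟨f, -, f1, f2⟩ := hN.elim
        obtain ⟨i, hi⟩ : e 0 ∈ Set.range f := by simp [f1]
        obtain ⟨j, hj⟩ : e 1 ∈ Set.range f := by simp [f1]
        obtain ⟨k, hk⟩ : r ∈ Set.range f := by simp [f1]
        exact ⟨⟨i, j, by rw [← f2, hi, hj, e0]⟩, i, j, k, fun x => e2 (by rw [← hi, ← hj, x]),
          fun x => r1 (by rw [← hi, ← hk, x]), fun x => r2 (by rw [← hj, ← hk, x])⟩
      rcases h {e 0, e 1, r} (by
        have := M.symmetric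
        rintro _ (rfl | rfl | rfl) _ (rfl | rfl | rfl) <;> grind [M.diagonal])
        (irred_triangle e2 r1 r2 (by omega) h4) with ⟨n, h1⟩ | ⟨n, h1⟩ | ⟨n, h1⟩
      · obtain ⟨i, j, h5⟩ := (key h1).1
        rw [A_apply] at h5
        split_ifs at h5 <;> omega
      · obtain ⟨i, j, h5⟩ := (key h1).1
        simp only [CoxeterMatrix.B, Matrix.of_apply] at h5
        split_ifs at h5 <;> omega
      · obtain ⟨i, j, k, h5⟩ := (key h1).2
        omega)
    exact e1 ▸ sepP_of_coc D hD raag_sep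
  refine wreath_out D.Z.std D.θ (fun φ g => (D.c φ g).1) (fun φ g g' => by rw [D.c_mul]; rfl)
    (fun φ g => (D.c φ g).2.1) (fun φ g => ?_) (fun g h1 h2 => ?_)
  · obtain ⟨-, k1, k2, k3⟩ := (D.c φ g).2
    rw [Multiset.map_add, k3, ← Multiset.coe_mapAddMonoidHom, map_sum]
    refine congrArg _ (Finset.sum_congr rfl fun a _ => ?_)
    simp only [Multiset.coe_mapAddMonoidHom, Multiset.insert_eq_cons, Multiset.map_cons,
      Multiset.map_singleton, cm_cl]
    exact congrArg₂ (fun x y => cl x ::ₘ {cl y}) (k1 a) (k2 a)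
  · obtain ⟨a, ha, b, hb, e⟩ := hD 1 ∅ ∅ g (pa_univ g)
      (by rw [Co.Hyp, show D.c 1 g = 1 from Subtype.ext h2]; exact Surf.X_one)
    rw [e, pa_empty (pa_mono Set.inter_subset_left ha), pa_empty (pa_mono Set.inter_subset_left hb),
      mul_one]

end Pool.Agent.Lib.MP_19b52f_al.FC
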