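import Pool.Agent.Lib.MP_19b52f_al.FC.Graph

/-! The surface of the complete graph. -/

namespace Pool.Agent.Lib.MP_19b52f_al.FC

open Pool.Agent.Lib.MP_19b52f_al.EA Pool.Agent.Lib.MP_19b52f_al.EA2

/-- Half twists along the edges of the complete graph on the numbers below `N`. -/
structure Kn (N : ℕ) (Z : Surf) (ar : ℕ → ℕ → Z.A) (tw : ℕ → ℕ → Z.Mod) : Prop where
  ar_symm : ∀ a b, ar a b = ar b a
  tw_symm : ∀ a b, tw a b = tw b a
  mem : ∀ a b, tw a b ∈ Z.D {ar a b}ᶜ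
  inj : ∀ a < N, ∀ b < N, ∀ c < N, ∀ d < N, a ≠ b → c ≠ d → ar a b = ar c d →
    (a = c ∧ b = d) ∨ (a = d ∧ b = c)
  comm : ∀ a < N, ∀ b < N, ∀ c < N, ∀ d < N, a ≠ b → c ≠ d → a ≠ c → a ≠ d → b ≠ c → b ≠ d →
    Commute (tw a b) (tw c d)
  braid : ∀ a < N, ∀ b < N, ∀ c < N, a ≠ b → b ≠ c → a ≠ c →
    tw a b * tw b c * tw a b = tw b c * tw a b * tw b c
  sep : ∀ n < N, ∃ h : Br n →* Z.Mod, (∀ i < n, h (sA n i) = tw i (i + 1)) ∧
    ∀ (T U : Set (Fin n)) b, (∀ i ∉ T, ∀ j ∉ U, Z.Y (ar i (i + 1)) (ar j (j + 1)) (h b)) →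
      Mem2 (pa (CoxeterMatrix.A n) T) (pa (CoxeterMatrix.A n) U) b

theorem exists_complete (N : ℕ) : ∃ (Z : Surf) (ar : ℕ → ℕ → Z.A) (tw : ℕ → ℕ → Z.Mod),
    Kn N Z ar tw := by
  let E := {p : Fin (N + 2) × Fin (N + 2) // p.1 < p.2}
  obtain ⟨Z, ar, tw, h1, h2, h3, h4, h5⟩ := exists_graph (E := E) (fun e => e.1.1) (fun e => e.1.2)
    (fun e => e.2.ne)
  let ed : ℕ → ℕ → E := fun a b =>
    if h : a < N + 2 ∧ b < N + 2 ∧ a ≠ b then
      ⟨(⟨min a b, by omega⟩, ⟨max a b, by omega⟩), by simp only [Fin.mk_lt_mk]; omega⟩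
    else ⟨(0, 1), by simp⟩
  have e0 : ∀ a b, ed a b = ed b a := fun a b => by
    simp only [ed, min_comm a, max_comm a, ne_comm (a := a), and_left_comm (a := a < N + 2)]
  have e1 : ∀ a < N, ∀ b < N, a ≠ b →
      ((ed a b).1.1 : ℕ) = min a b ∧ ((ed a b).1.2 : ℕ) = max a b := fun a ha b hb h => by
    simp only [ed]
    rw [dif_pos ⟨by omega, by omega, h⟩]
    exact ⟨rfl, rfl⟩
  let vx : ℕ → Fin (N + 2) := fun a => if h : a < N + 2 then ⟨a, h⟩ else 0
  have v1 : ∀ a < N, (vx a : ℕ) = a := fun a ha => by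
    simp only [vx]
    rw [dif_pos (by omega)]
  have e2 : ∀ a < N, ∀ b < N, a ≠ b → s((ed a b).1.1, (ed a b).1.2) = s(vx a, vx b) :=
    fun a ha b hb h => by
      have := e1 a ha b hb h
      simp only [Sym2.eq_iff, Fin.ext_iff, v1 a ha, v1 b hb]
      omega
  have hc : ∀ a < N, ∀ b < N, ∀ c < N, ∀ d < N, a ≠ b → c ≠ d → a ≠ c → a ≠ d → b ≠ c → b ≠ d →
      Commute (tw (ed a b)) (tw (ed c d)) := fun a ha b hb c hc d hd _ _ _ _ _ _ => by
    have := e1 a ha b hb ‹_›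
    have := e1 c hc d hd ‹_›
    refine h3 _ _ ?_ ?_ ?_ ?_ <;> simp only [ne_eq, Fin.ext_iff] <;> omega
  have hb : ∀ a < N, ∀ b < N, ∀ c < N, a ≠ b → b ≠ c → a ≠ c →
      tw (ed a b) * tw (ed b c) * tw (ed a b) = tw (ed b c) * tw (ed a b) * tw (ed b c) :=
    fun a ha b hb c hc k1 k2 k3 => h4 _ _ _ _ _ (e2 a ha b hb k1) (e2 b hb c hc k2)
      (by simp only [ne_eq, Fin.ext_iff, v1 a ha, v1 c hc]; exact k3)
  refine ⟨Z, fun a b => ar (ed a b), fun a b => tw (ed a b), fun a b => by rw [e0],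
    fun a b => by rw [e0], fun a b => h2 _, fun a ha b hb c hc d hd k1 k2 h => ?_, hc, hb,
    fun n hn => ?_⟩
  · have k3 := e1 a ha b hb k1
    have k4 := e1 c hc d hd k2
    rw [h1 h] at k3
    omega
  have hs : BraidSeq (fun i => tw (ed i (i + 1))) n :=
    ⟨fun i hi => hb i (by omega) _ (by omega) _ (by omega) (by omega) (by omega) (by omega),
      fun i j h hj => hc i (by omega) _ (by omega) j (by omega) _ (by omega) (by omega) (by omega)
        (by omega) (by omega) (by omega) (by omega)⟩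
  refine ⟨brLift _ hs, fun i hi => brLift_sA _ hs hi, fun T U b h => ?_⟩
  have key := h5 n (fun i => ed i (i + 1)) vx (fun i hi => by
      have := e1 i (by omega) (i + 1) (by omega) (by omega)
      simp only [Fin.ext_iff, v1 i (by omega), v1 (i + 1) (by omega)]
      omega)
    (fun i hi j hj h => by simpa only [Fin.ext_iff, v1 i (by omega), v1 j (by omega)] using h)
    (brLift _ hs) (fun i hi => brLift_sA _ hs hi) b
  exact braid_sep n T U b (fun i hi j hj => (key i i.2 j j.2 (h i hi j hj)).1)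
    (fun i hi j hj => (key i i.2 j j.2 (h i hi j hj)).2)

end Pool.Agent.Lib.MP_19b52f_al.FC
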