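import Pool.Agent.Lib.MP_19b52f_al.FC.Coc
import Pool.Agent.Lib.MP_19b52f_al.EA2.Final

/-! The reflection model, and cocycles obtained through right-angled Artin groups. -/

namespace Pool.Agent.Lib.MP_19b52f_al.FC

open Pool.Agent.Lib.MP_19b52f_al.EA Pool.Agent.Lib.MP_19b52f_al.EA2

variable {S : Type} {M : CoxeterMatrix S}

lemma edge_form [Fintype S] [DecidableEq S] {F : Type} [Field F] [Finite F] {z : ℕ → F}
    (hz : ∀ r r', r ≠ r' → M r r' ≠ 0 → Root (z (M r r')) (M r r')) (f : S → S) (μ : S → S → ℕ)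
    (hμ : ∀ x y, x ≠ y → μ x y = μ y x)
    (key : ∀ r r', r ≠ r' → M r r' ≠ 0 → f r ≠ f r' → μ (f r) (f r') = M r r') :
    ∃ (Φ : Type) (_ : Group Φ) (_ : Finite Φ) (θ : Artin M →* Φ) (G : Geo θ F),
      (∀ v w, G.B v w = G.B w v) ∧ (∀ r, G.α r = Pi.single (f r) 1) ∧
      (∀ r r', r ≠ r' → M r r' ≠ 0 → f r ≠ f r' →
        Pair G.B (z (M r r')) (M r r') (G.α r) (G.α r')) ∧
      ∀ r, θ (ag M r) * θ (ag M r) = 1 := by
  let B : (S → F) →ₗ[F] (S → F) →ₗ[F] F :=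
    Matrix.toBilin' (Matrix.of fun x y => if x = y then 2 else -(z (μ x y) + (z (μ x y))⁻¹))
  let α : S → S → F := fun r => Pi.single (f r) 1
  have hB : ∀ v w, B v w = B w v := by
    intro v w
    simp only [B, Matrix.toBilin'_apply, Matrix.of_apply]
    rw [Finset.sum_comm]
    refine Finset.sum_congr rfl fun x _ => Finset.sum_congr rfl fun y _ => ?_
    by_cases h : x = y
    · simp [h, mul_comm, mul_left_comm]
    · rw [if_neg h, if_neg (Ne.symm h), hμ x y h]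
      ring
  have h2 : ∀ r, B (α r) (α r) = 2 := fun r => by simp [B, α]
  have hP : ∀ r r', r ≠ r' → M r r' ≠ 0 → f r ≠ f r' →
      Pair B (z (M r r')) (M r r') (α r) (α r') := fun r r' hr h0 hf =>
    ⟨hz r r' hr h0, hB, h2 r, h2 r', by simp [B, α, hf, key r r' hr h0 hf]⟩
  obtain ⟨ρ, hρ⟩ := exists_rep (M := M) B hB α h2 z (fun r r' hr h0 =>
    (em (f r = f r')).imp (fun h => by simp only [α, h]) (hP r r' hr h0))
  have : Finite ((S → F) ≃ₗ[F] (S → F)) := DFunLike.finite _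
  exact ⟨_, inferInstance, inferInstance, ρ, ⟨B, α, (isoG B).subtype, fun φ => φ.2, hρ, h2⟩, hB,
    fun _ => rfl, hP, fun r => Subtype.ext ((hρ r).sq (h2 r))⟩

lemma edge_std [Fintype S] [DecidableEq S] {F : Type} [Field F] [Finite F] {z : ℕ → F}
    (hz : ∀ r r', r ≠ r' → M r r' ≠ 0 → Root (z (M r r')) (M r r')) :
    ∃ (Φ : Type) (_ : Group Φ) (_ : Finite Φ) (θ : Artin M →* Φ) (G : Geo θ F),
      G.Std z ∧ (∀ v w, G.B v w = G.B w v) ∧ ∀ r, θ (ag M r) * θ (ag M r) = 1 := by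
  obtain ⟨Φ, _, _, θ, G, h1, h2, h3, h4⟩ := edge_form hz id M (fun x y _ => M.symmetric x y)
    (fun _ _ _ _ _ => rfl)
  exact ⟨Φ, inferInstance, inferInstance, θ, G, ⟨fun r => by simp [h2], fun r x h => by simp [h2, h],
    fun r r' hr h0 => h3 r r' hr h0 hr⟩, h1, h4⟩

lemma edge_raag {Λ : Type} [Finite Λ] (Γ : SimpleGraph Λ) : ∃ (k : ℕ) (R : CoxeterMatrix (Fin k))
    (e : Λ → Fin k) (p : GP Γ Zm →* Artin R) (q : Artin R →* GP Γ Zm), IsRightAngled R ∧
      (∀ x, q (p x) = x) ∧ (∀ X, ∀ x ∈ PX Γ Zm X, p x ∈ pa R (e '' X)) ∧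
      ∀ X, ∀ y ∈ pa R (e '' X), q y ∈ PX Γ Zm X := by
  classical
  obtain ⟨k, ⟨e⟩⟩ := Finite.exists_equiv_fin Λ
  have hR : ∀ i j, i ≠ j → raMatrix Γ e.symm i j =
      if Γ.Adj (e.symm i) (e.symm j) then 2 else 0 := fun i j h => by
    simp [raMatrix, h]
  let p : GP Γ Zm →* Artin (raMatrix Γ e.symm) :=
    gpLift (fun v => zpowersHom _ (ag _ (e v))) (fun v w h a b => by
      have hne : e v ≠ e w := e.injective.ne h.ne
      have h2 : raMatrix Γ e.symm (e v) (e w) = 2 := by simp [hR _ _ hne, h]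
      have := ag_rel (raMatrix Γ e.symm) hne (by rw [h2]; decide)
      rw [h2, omega_two, omega_two] at this
      exact Commute.zpow_zpow this _ _)
  let q : Artin (raMatrix Γ e.symm) →* GP Γ Zm :=
    artinLift _ (fun i => gv Γ (e.symm i) tau) (fun i j h h0 => by
      rw [hR i j h] at h0 ⊢
      split_ifs at h0 ⊢ with h2
      · rw [omega_two, omega_two]
        exact (gv_comm h2 _ _).eq
      · exact absurd rfl h0)
  have hqp : q.comp p = MonoidHom.id _ := gp_ext fun v a => by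
    simp only [MonoidHom.comp_apply, p, gpLift_gv, zpowersHom_apply, map_zpow, q, artinLift_ag,
      Equiv.symm_apply_apply, MonoidHom.id_apply]
    rw [← map_zpow, ← ofAdd_zsmul]
    simp
  refine ⟨k, raMatrix Γ e.symm, e, p, q, fun i j h => ?_, fun x => DFunLike.congr_fun hqp x,
    fun X x hx => map_mem_of_PX p (fun v hv a => ?_) hx,
    fun X y hy => pa_le (H := (PX Γ Zm X).comap q) ?_ hy⟩
  · rw [hR i j h]
    split_ifs <;> simp
  · simp only [p, gpLift_gv, zpowersHom_apply]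
    exact zpow_mem (pa_mem (Set.mem_image_of_mem e hv)) _
  · rintro _ ⟨v, hv, rfl⟩
    simp only [Subgroup.mem_comap, q, artinLift_ag, Equiv.symm_apply_apply]
    exact gv_mem hv _

theorem exists_geo [Finite S] (M : CoxeterMatrix S) : ∃ (p : ℕ) (_ : Fact p.Prime)
    (z : ℕ → ZMod p) (Φ : Type) (_ : Group Φ) (_ : Finite Φ) (θ : Artin M →* Φ)
    (G : Geo θ (ZMod p)), G.Std z ∧ ∀ v w, G.B v w = G.B w v := by
  classical
  have := Fintype.ofFinite S
  obtain ⟨p, hp, z, hz⟩ := exists_roots M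
  obtain ⟨Φ, _, _, θ, G, h1, h2, -⟩ := edge_std hz
  exact ⟨p, hp, z, Φ, inferInstance, inferInstance, θ, G, h1, h2⟩

theorem edge_coc [Finite S] {s t : S} (hst : s ≠ t) (h3 : 3 ≤ M s t)
    (hT : ∀ r, r ≠ s → r ≠ t → M s r ≠ 0 → M t r ≠ 0 → M s r = 2 ∧ M t r = 2) :
    ∃ (Φ : Type) (_ : Group Φ) (_ : Finite Φ) (θ : Artin M →* Φ) (D : Coc θ), D.SepP {s, t} := by
  classical
  have := Fintype.ofFinite S
  obtain ⟨p, hp, z, hz⟩ := exists_roots M
  obtain ⟨Φ, _, _, θ, G, h1, -, h2⟩ := edge_std hz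
  let f : S → S := fun x => if x = t then s else x
  let μ : S → S → ℕ := fun x y =>
    if M x y ≠ 0 then M x y else if x = s then M t y else if y = s then M t x else 0
  have hμ : ∀ x y, x ≠ y → μ x y = μ y x := by
    intro x y h
    simp only [μ, M.symmetric y x]
    by_cases h1 : x = s
    · have : y ≠ s := fun h2 => h (h1.trans h2.symm)
      simp [h1, this]
    · simp [h1]
  have key : ∀ r r', r ≠ r' → M r r' ≠ 0 → f r ≠ f r' → r' ≠ t → μ (f r) (f r') = M r r' := by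
    intro r r' hr h0 hf h1
    simp only [f, if_neg h1] at hf ⊢
    by_cases h3 : r = t
    · rw [if_pos h3] at hf ⊢
      subst h3
      by_cases h4 : M s r' = 0
      · simp [μ, h4]
      · have h5 := hT r' hf.symm h1 h4 h0
        simp only [μ, if_pos h4, h5.1, h5.2]
    · simp [if_neg h3, μ, h0]
  obtain ⟨Φ', _, _, θ', G', -, k2, k3, k4⟩ := edge_form hz f μ hμ (fun r r' hr h0 hf => by
    by_cases h1 : r' = t
    · rw [hμ _ _ hf, M.symmetric r r']
      exact key r' r hr.symm (M.symmetric r r' ▸ h0) hf.symm (fun h => hr (h.trans h1.symm))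
    · exact key r r' hr h0 hf h1)
  let G1 : Geo (θ.prod θ') (ZMod p) :=
    ⟨G.B, G.α, G.act.comp (MonoidHom.fst _ _), fun φ => G.iso φ.1, G.refl, G.diag⟩
  let G2 : Geo (θ.prod θ') (ZMod p) :=
    ⟨G'.B, G'.α, G'.act.comp (MonoidHom.snd _ _), fun φ => G'.iso φ.2, G'.refl, G'.diag⟩
  have hG : G1.Std z := ⟨h1.one, h1.zero, h1.pair⟩
  obtain ⟨D, hD⟩ := hG.edge G2 hst h3 (by simp [G2, k2, f]) (fun r r' hr h0 e1 e2 => by
    refine k3 r r' hr h0 ?_
    simp only [f]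
    split_ifs with h4 h5 h5
    · exact absurd (h4.trans h5.symm) hr
    · exact fun e => e2 ⟨h4, e.symm⟩
    · exact fun e => e1 ⟨e, h5⟩
    · exact hr) (fun r => Prod.ext (h2 r) (k4 r))
  exact ⟨_, inferInstance, inferInstance, _, hD.sepP⟩

theorem sepP_of_coc {Φ : Type} [Group Φ] [Finite Φ] {θ : Artin M →* Φ} (D : Coc θ) {J : Set S}
    (h : D.SepP J) (hR : ∀ (k : ℕ) (R : CoxeterMatrix (Fin k)), IsRightAngled R →
      ∃ D : Co R, D.Sep Set.univ) : ∃ D' : Co M, D'.SepP J := by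
  have := D.fin
  obtain ⟨k, R, e, p, q, h1, h2, h3, h4⟩ := edge_raag D.Γ
  obtain ⟨E, hE⟩ := hR k R h1
  obtain ⟨D', π, π', -, -, hD⟩ := exists_two θ E.Z
    (fun φ g => ⟨fun w => E.c w (p (D.c φ g)), E.θ (p (D.c φ g))⟩)
    (fun φ g g' => by ext w <;> simp [D.c_mul, E.c_mul])
    (fun T φ w => E.V (e '' D.V T φ) w)
    (fun T φ w s hs => by
      rw [D.V_gen T φ s hs]
      exact E.V_inv (h3 _ _ (D.V_mem T φ s hs)) w)
    (fun T φ w s hs => E.c_mem (h3 _ _ (D.V_mem T φ s hs)) w)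
  refine ⟨D', fun x T U g g' hg hg' hc => h (π x) T U g g' hg hg' ?_⟩
  have h5 := hE (π' x) _ _ _ (pa_univ _) (hD T U x _ hc)
  rw [Set.inter_univ, Set.inter_univ] at h5
  have h6 := h5.map q (h4 _) (h4 _)
  rwa [h2] at h6

end Pool.Agent.Lib.MP_19b52f_al.FC
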