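import Pool.Agent.Lib.MP_19b52f_al.FC.Root
import Pool.Agent.Lib.MP_19b52f_al.FC.Edge
import Pool.Agent.Lib.MP_19b52f_al.FC.Complete

/-! The basic cocycle of a set of generators of type A. -/

namespace Pool.Agent.Lib.MP_19b52f_al.FC

open Pool.Agent.Lib.MP_19b52f_al.EA Pool.Agent.Lib.MP_19b52f_al.EA2

section root
variable {F : Type} [Field F] {z : F} {m : ℤ}

lemma basea_two_ne (h : Root z m) : (2 : F) ≠ 0 := fun e => by
  have h1 := h.two
  have h2 : z ^ m = 1 := by rw [h.pow_m]; linear_combination -e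
  exact not_dvd (by omega) (by omega) (by omega) ((h.dvd _).mp h2)

lemma basea_qi_three (h : Root z m) : qi z 3 = (z + z⁻¹) * (z + z⁻¹) - 1 := by
  have h0 := h.ne
  rw [qi, div_eq_iff h.den, zpow_neg, zpow_ofNat]
  field_simp
  ring

lemma basea_qi_four (h : Root z m) : qi z 4 = (z + z⁻¹) * ((z + z⁻¹) * (z + z⁻¹) - 2) := by
  have h0 := h.ne
  rw [qi, div_eq_iff h.den, zpow_neg, zpow_ofNat]
  field_simp
  ring

lemma basea_cos_two (h : Root z 2) : z + z⁻¹ = 0 := by
  rw [← h.qi_two, h.qi_zero_iff]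

lemma basea_cos_three (h : Root z 3) : z + z⁻¹ = 1 := by
  have h0 := h.ne
  have h1 := h.pow_m
  have h2 : z + 1 ≠ 0 := fun e => h.den (by
    rw [eq_neg_of_add_eq_zero_left e]
    simp)
  rw [zpow_ofNat] at h1
  have h3 : z ^ 2 - z + 1 = 0 := mul_left_cancel₀ h2 (by linear_combination h1)
  field_simp
  linear_combination h3

end root

section pair
variable {F V : Type} [Field F] [AddCommGroup V] [Module F V] {B : V →ₗ[F] V →ₗ[F] F} {ζ : F}
  {q : ℕ} {x y : V}

lemma pair_two (P : Pair B ζ q x y) (h : B x y = 0) : q = 2 := by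
  have h1 := P.root.two
  have h2 : (q : ℤ) ∣ 2 := P.root.qi_zero_iff.mp (by
    rw [P.root.qi_two, ← neg_eq_zero, ← P.xy, h])
  have := Int.le_of_dvd (by norm_num) h2
  omega

lemma pair_three (P : Pair B ζ q x y) (h : B x y * B x y = 1) : q = 3 := by
  have h1 := P.root.two
  rw [P.xy, neg_mul_neg] at h
  have h2 : (q : ℤ) ∣ 3 := P.root.qi_zero_iff.mp (by rw [basea_qi_three P.root, h, sub_self])
  have h3 := Int.le_of_dvd (by norm_num) h2
  have h4 : q ≠ 2 := by
    rintro rfl
    norm_num at h2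
  omega

lemma pair_four (P : Pair B ζ q x y) (h : B x y * B x y = 2) : q = 4 := by
  have h1 := P.root.two
  rw [P.xy, neg_mul_neg] at h
  have h2 : (q : ℤ) ∣ 4 := P.root.qi_zero_iff.mp (by
    rw [basea_qi_four P.root, h, sub_self, mul_zero])
  have h3 := Int.le_of_dvd (by norm_num) h2
  have h4 : q ≠ 3 := by
    rintro rfl
    norm_num at h2
  have h5 : q ≠ 2 := by
    rintro rfl
    rw [basea_cos_two P.root, mul_zero] at h
    exact basea_two_ne P.root h.symm
  omega

lemma pair_ne (P : Pair B ζ q x y) : B x y * B x y ≠ 4 := by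
  intro h
  have h0 := P.root.ne
  rw [P.xy, neg_mul_neg] at h
  refine P.root.den (mul_self_eq_zero.mp ?_)
  have h1 : ζ * ζ⁻¹ = 1 := mul_inv_cancel₀ h0
  linear_combination h - 4 * h1

end pair

section lin
variable {F V : Type} [Field F] [AddCommGroup V] [Module F V]

/-- The Kronecker symbol. -/
def basea_d (F : Type) [Field F] (a b : ℕ) : F := if a = b then 1 else 0

lemma basea_form {B : V →ₗ[F] V →ₗ[F] F} {β : ℕ → V} {n : ℕ}
    (h : ∀ k < n, ∀ l < n, B (β k) (β l) = basea_d F (k + 1) (l + 1) - basea_d F (k + 1) l -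
      basea_d F k (l + 1) + basea_d F k l) {b d : ℕ} (hb : b ≤ n) (hd : d ≤ n) :
    B (∑ k ∈ Finset.range b, β k) (∑ k ∈ Finset.range d, β k) =
      basea_d F b d - basea_d F b 0 - basea_d F 0 d + basea_d F 0 0 := by
  have h1 : ∀ k < n, B (β k) (∑ l ∈ Finset.range d, β l) =
      basea_d F (k + 1) d - basea_d F (k + 1) 0 - basea_d F k d + basea_d F k 0 := by
    intro k hk
    induction d with
    | zero => simp
    | succ d ih =>
      rw [Finset.sum_range_succ, map_add, ih (by omega), h k hk d (by omega)]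
      ring
  induction b with
  | zero => simp
  | succ b ih =>
    rw [Finset.sum_range_succ, map_add, LinearMap.add_apply, ih (by omega), h1 b (by omega)]
    ring

lemma basea_swap (u : ℕ → V) {a b : ℕ} (hab : a ≠ b) (c : ℕ) :
    u (Equiv.swap a b c) = u c - (basea_d F b c - basea_d F a c) • (u b - u a) := by
  by_cases h1 : c = a
  · subst h1
    simp [basea_d, hab.symm]
  by_cases h2 : c = b
  · subst h2
    simp [basea_d, hab]
  rw [Equiv.swap_apply_of_ne_of_ne h1 h2]
  simp [basea_d, Ne.symm h1, Ne.symm h2]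

end lin

lemma basea_W {G : Type} [Group G] (a b : G) : W a b (2 : ℕ) = a * b ∧ W a b (3 : ℕ) = a * b * a :=
  ⟨by rw [← omega_eq_W, omega_two], by rw [← omega_eq_W, omega_three]⟩

variable {S : Type} {M : CoxeterMatrix S}

theorem base_A [Finite S] {n : ℕ} (e : Fin n → S) (he : Function.Injective e)
    (hM : ∀ i j, M (e i) (e j) = CoxeterMatrix.A n i j) :
    ∃ D : Co M, D.SepP (Set.range e) := by
  obtain ⟨p, _, z, Φ, _, _, θ, G, hG, hB⟩ := exists_geo M
  obtain ⟨Z, ar, tw, K⟩ := exists_complete (n + 1)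
  obtain ⟨β, hβ, hβ'⟩ : ∃ β : ℕ → S → ZMod p, (∀ i : Fin n, β i = G.α (e i)) ∧
      ∀ k, ¬ k < n → β k = 0 :=
    ⟨fun k => if h : k < n then G.α (e ⟨k, h⟩) else 0, fun i => dif_pos i.2, fun k hk => dif_neg hk⟩
  obtain ⟨u, hu⟩ : ∃ u : ℕ → S → ZMod p, ∀ a, u a = ∑ k ∈ Finset.range a, β k := ⟨_, fun _ => rfl⟩
  have hs : ∀ a, u (a + 1) = u a + β a := fun a => by rw [hu, hu, Finset.sum_range_succ]
  have h0 : u 0 = 0 := by rw [hu, Finset.sum_range_zero]
  have hc : ∀ k < n, ∀ l < n, G.B (β k) (β l) = basea_d (ZMod p) (k + 1) (l + 1) -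
      basea_d (ZMod p) (k + 1) l - basea_d (ZMod p) k (l + 1) + basea_d (ZMod p) k l := by
    intro k hk l hl
    rw [hβ ⟨k, hk⟩, hβ ⟨l, hl⟩]
    by_cases h : k = l
    · subst h
      rw [G.diag]
      simp [basea_d, one_add_one_eq_two]
    have hne : (⟨k, hk⟩ : Fin n) ≠ ⟨l, hl⟩ := fun h' => h (congrArg Fin.val h')
    have h1 := hM ⟨k, hk⟩ ⟨l, hl⟩
    rw [A_apply, if_neg hne] at h1
    have P := hG.pair _ _ (he.ne hne) (by rw [h1]; split_ifs <;> decide)
    rw [P.xy]
    by_cases h2 : l + 1 = k ∨ k + 1 = l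
    · rw [if_pos h2] at h1
      rw [h1] at P ⊢
      rw [basea_cos_three P.root]
      rcases h2 with rfl | rfl
      · have : l + 1 + 1 ≠ l := by omega
        simp [basea_d, this]
      · have : k ≠ k + 1 + 1 := by omega
        simp [basea_d, this]
    · rw [if_neg h2] at h1
      rw [h1] at P ⊢
      rw [basea_cos_two P.root]
      rw [not_or] at h2
      simp [basea_d, h, h2.2, Ne.symm h2.1]
  have hf : ∀ a ≤ n, ∀ b ≤ n, ∀ c ≤ n, ∀ d ≤ n, G.B (u b - u a) (u d - u c) =
      basea_d (ZMod p) b d - basea_d (ZMod p) b c - basea_d (ZMod p) a d + basea_d (ZMod p) a c := by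
    intro a ha b hb c hc' d hd
    simp only [map_sub, LinearMap.sub_apply, hu, basea_form hc ha hc', basea_form hc ha hd,
      basea_form hc hb hc', basea_form hc hb hd]
    ring
  have hz : ∀ a, ∀ s ∉ Set.range e, u a s = 0 := by
    intro a s hs'
    induction a with
    | zero => rw [h0, Pi.zero_apply]
    | succ a ih =>
      rw [hs, Pi.add_apply, ih, zero_add]
      by_cases h : a < n
      · exact (congrFun (hβ ⟨a, h⟩) s).trans (hG.zero _ _ fun h' => hs' ⟨_, h'.symm⟩)
      · rw [hβ' a h, Pi.zero_apply]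
  have hco : ∀ (a : ℕ) (i : Fin n), u a (e i) = if (i : ℕ) < a then 1 else 0 := by
    intro a i
    induction a with
    | zero => rw [h0, Pi.zero_apply, if_neg (Nat.not_lt_zero _)]
    | succ a ih =>
      rw [hs, Pi.add_apply, ih]
      by_cases h : a = i
      · rw [h, hβ, hG.one, if_neg (lt_irrefl _), if_pos (Nat.lt_succ_self _), zero_add]
      have h1 : β a (e i) = 0 := by
        by_cases h2 : a < n
        · exact (congrFun (hβ ⟨a, h2⟩) _).trans
            (hG.zero _ _ fun h' => h (congrArg Fin.val (he h')).symm)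
        · rw [hβ' a h2, Pi.zero_apply]
      rw [h1, add_zero]
      exact if_congr (by omega) rfl rfl
  have hne : ∀ (a b : ℕ) (i : Fin n), (u b - u a) (e i) = 0 ↔ ((i : ℕ) < a ↔ (i : ℕ) < b) := by
    intro a b i
    rw [Pi.sub_apply, hco, hco]
    by_cases h1 : (i : ℕ) < a <;> by_cases h2 : (i : ℕ) < b <;> simp [h1, h2]
  let R : Set (S → ZMod p) := {y | ∃ a ≤ n, ∃ b ≤ n, a ≠ b ∧ y = u b - u a}
  have hR : ∀ y, ∃ a b : ℕ, y ∈ R → a ≤ n ∧ b ≤ n ∧ a ≠ b ∧ y = u b - u a := fun y => by
    by_cases h : y ∈ R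
    · obtain ⟨a, ha, b, hb, h1, h2⟩ := h
      exact ⟨a, b, fun _ => ⟨ha, hb, h1, h2⟩⟩
    · exact ⟨0, 0, fun h' => absurd h' h⟩
  choose f g hfg using hR
  have hα : ∀ i : Fin n, G.α (e i) = u (i + 1) - u i := fun i => by
    rw [hs, add_sub_cancel_left, hβ]
  have hαR : ∀ i, G.α (e i) ∈ R := fun i => ⟨i, i.2.le, i + 1, i.2, by omega, hα i⟩
  have htw : ∀ i : Fin n, tw (f (G.α (e i))) (g (G.α (e i))) = tw i (i + 1) := by
    intro i
    obtain ⟨h1, h2, h3, h4⟩ := hfg _ (hαR i)
    generalize f (G.α (e i)) = a at *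
    generalize g (G.α (e i)) = b at *
    have h5 : ∀ k (hk : k < n), (k < a ↔ k < b) ↔ (k < i ↔ k < i + 1) := fun k hk => by
      rw [← hne a b ⟨k, hk⟩, ← h4, hα, hne]
    have h6 := h5 (min a b) (by omega)
    have h7 := h5 (max a b - 1) (by omega)
    have h8 : (a = i ∧ b = i + 1) ∨ (a = i + 1 ∧ b = i) := by omega
    rcases h8 with ⟨rfl, rfl⟩ | ⟨rfl, rfl⟩
    · rfl
    · exact K.tw_symm _ _
  obtain ⟨D, hD⟩ := root_base hG hB e R Z (fun y => tw (f y) (g y)) (fun y => ar (f y) (g y))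
    (by
      rintro _ ⟨a, ha, b, hb, h, rfl⟩
      rw [hf a ha b hb a ha b hb]
      simp [basea_d, h, h.symm, one_add_one_eq_two])
    (by
      rintro _ ⟨a, ha, b, hb, h, rfl⟩ _ ⟨c, hc', d, hd, h', rfl⟩
      have k : ∀ c ≤ n, Equiv.swap a b c ≤ n := fun c hc => by
        rw [Equiv.swap_apply_def]
        split_ifs <;> assumption
      refine ⟨_, k c hc', _, k d hd, (Equiv.swap a b).injective.ne h', ?_⟩
      rw [hf a ha b hb c hc' d hd, basea_swap (F := ZMod p) u h, basea_swap (F := ZMod p) u h]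
      module)
    (by
      rintro _ ⟨a, -, b, -, -, rfl⟩ s hs'
      rw [Pi.sub_apply, hz a s hs', hz b s hs', sub_self])
    hαR (fun y _ => K.mem _ _)
    (by
      intro ζ q x hx y hy P
      obtain ⟨ha, hb, h, e1⟩ := hfg x hx
      obtain ⟨hc', hd, h', e2⟩ := hfg y hy
      generalize f x = a at *
      generalize g x = b at *
      generalize f y = c at *
      generalize g y = d at *
      have k := hf a ha b hb c hc' d hd
      rw [← e1, ← e2] at k
      have k3 : ∀ a ≤ n, ∀ b ≤ n, ∀ c ≤ n, a ≠ b → b ≠ c → a ≠ c → G.B x y * G.B x y = 1 →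
          W (tw a b) (tw b c) q = W (tw b c) (tw a b) q := fun a ha b hb c hc h1 h2 h3 h4 => by
        rw [pair_three P h4, (basea_W _ _).2, (basea_W _ _).2]
        exact K.braid a (by omega) b (by omega) c (by omega) h1 h2 h3
      by_cases h1 : a = c
      · subst h1
        by_cases h2 : b = d
        · rw [h2]
        · rw [K.tw_symm a b]
          exact k3 b hb a ha d hd h.symm h' h2 (by simp [k, basea_d, h.symm, h', h2])
      by_cases h2 : a = d
      · subst h2
        by_cases h3 : b = c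
        · rw [h3, K.tw_symm a c]
        · rw [K.tw_symm a b, K.tw_symm c a]
          exact k3 b hb a ha c hc' h.symm h1 h3 (by simp [k, basea_d, h.symm, h1, h3])
      by_cases h3 : b = c
      · subst h3
        exact k3 a ha b hb d hd h h' h2 (by simp [k, basea_d, h, h', h2])
      by_cases h4 : b = d
      · subst h4
        rw [K.tw_symm c b]
        exact k3 a ha b hb c hc' h h3 h1 (by simp [k, basea_d, h, h1, h3])
      rw [pair_two P (by simp [k, basea_d, h1, h2, h3, h4]), (basea_W _ _).1, (basea_W _ _).1]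
      exact (K.comm a (by omega) b (by omega) c (by omega) d (by omega) h h' h1 h2 h3 h4).eq)
    (by
      intro T U w hX
      obtain ⟨h, hh, hsep⟩ := K.sep n (Nat.lt_succ_self n)
      have k1 : ∀ T : Set S, ∀ i : Fin n, i ∉ e ⁻¹' T → ∀ y ∈ R, (∀ s ∉ T, y s = 0) →
          ar i (i + 1) ≠ ar (f y) (g y) := by
        intro T i hi y hy h1 h2
        obtain ⟨ha, hb, h3, h4⟩ := hfg y hy
        have h5 := h1 _ hi
        have h6 := i.2
        have h7 := K.inj i (by omega) (i + 1) (by omega) _ (by omega) _ (by omega) (by omega) h3 h2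
        rw [h4, hne] at h5
        omega
      have k2 : FreeGroup.lift (fun i => tw (f (G.α (e i))) (g (G.α (e i)))) =
          h.comp (FreeGroup.lift (ag (CoxeterMatrix.A n))) := by
        ext i
        rw [FreeGroup.lift_apply_of, MonoidHom.comp_apply, FreeGroup.lift_apply_of, ← sA_val,
          hh i i.2, htw]
      rw [k2] at hX
      have k3 := hsep (e ⁻¹' T) (e ⁻¹' U) _ fun i hi j hj => hX _ (k1 T i hi) _ (k1 U j hj)
      let κ : Br n →* Artin M := artinLift _ (fun i => ag M (e i)) fun i j hij h0 => by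
        rw [← hM] at h0 ⊢
        exact ag_rel M (he.ne hij) h0
      have k4 : FreeGroup.lift (fun i => ag M (e i)) =
          κ.comp (FreeGroup.lift (ag (CoxeterMatrix.A n))) := by
        ext i
        rw [FreeGroup.lift_apply_of, MonoidHom.comp_apply, FreeGroup.lift_apply_of, artinLift_ag]
      have k5 : ∀ T : Set S, ∀ x ∈ pa (CoxeterMatrix.A n) (e ⁻¹' T),
          κ x ∈ pa M (T ∩ Set.range e) := fun T x hx =>
        pa_le (H := (pa M (T ∩ Set.range e)).comap κ) (fun i hi => by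
          rw [Subgroup.mem_comap, artinLift_ag]
          exact pa_mem ⟨hi, i, rfl⟩) hx
      rw [k4]
      exact k3.map κ (k5 T) (k5 U))
  exact hD.sepP

end Pool.Agent.Lib.MP_19b52f_al.FC
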