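import Pool.Agent.Lib.MP_19b52f_al.EA2.Frame

/-! Braids that move arcs off arcs lie in a product of two standard parabolic subgroups. -/

namespace Pool.Agent.Lib.MP_19b52f_al.FC

open Pool.Agent.Lib.MP_19b52f_al.EA Pool.Agent.Lib.MP_19b52f_al.EA2
open FreeGroup hiding map_mul map_inv map_one lift_unique

/-- The descending product of the first `k` letters. -/
def dP : ℕ → FreeGroup ℕ
  | 0 => 1
  | k + 1 => of k * dP k

section words

/-- The word of a conjugate of a letter. -/
def cw (c : List (ℕ × Bool)) (x : ℕ) : List (ℕ × Bool) := c ++ (x, true) :: invRev c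

lemma mk_cons' (p : ℕ × Bool) (L : List (ℕ × Bool)) : mk (p :: L) = mk [p] * mk L := by
  rw [mul_mk]; rfl

lemma mk_true (x : ℕ) : mk [(x, true)] = of x := rfl

lemma mk_false (x : ℕ) : mk [(x, false)] = (of x)⁻¹ := rfl

lemma mk_cw (c : List (ℕ × Bool)) (x : ℕ) : mk (cw c x) = mk c * of x * (mk c)⁻¹ := by
  rw [cw, ← mul_mk, mk_cons', mk_true, inv_mk, mul_assoc]

lemma cw_length (c : List (ℕ × Bool)) (x : ℕ) : (cw c x).length = 2 * c.length + 1 := by
  simp [cw]; omega

lemma red_invRev {L : List (ℕ × Bool)} (h : IsReduced L) : IsReduced (invRev L) := by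
  rw [isReduced_iff_reduce_eq] at h ⊢
  rw [reduce_invRev, h]

lemma red_sub {L L' : List (ℕ × Bool)} (h : IsReduced L) (h' : L' <:+: L) : IsReduced L' := by
  obtain ⟨a, b, rfl⟩ := h'
  exact (List.IsChain.left_of_append h).right_of_append

lemma exists_cw (x : ℕ) (L : List (ℕ × Bool)) (h : IsReduced L) :
    ∃ c, IsReduced (cw c x) ∧ mk (cw c x) = mk L * of x * (mk L)⁻¹ := by
  induction L using List.reverseRecOn with
  | nil => exact ⟨[], by simp [cw], mk_cw _ _⟩
  | append_singleton L p ih =>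
    by_cases hp : p.1 = x
    · obtain ⟨c, h1, h2⟩ := ih (red_sub h (List.prefix_append _ _).isInfix)
      refine ⟨c, h1, ?_⟩
      obtain ⟨y, b⟩ := p
      obtain rfl : y = x := hp
      rw [h2, ← mul_mk]
      cases b
      · rw [mk_false]; group
      · rw [mk_true]; group
    · refine ⟨L ++ [p], ?_, mk_cw _ _⟩
      have h3 := red_invRev h
      rw [invRev_append] at h3
      unfold cw FreeGroup.IsReduced
      rw [invRev_append, List.append_assoc]
      refine List.isChain_append_cons_cons.mpr ⟨h, fun e => absurd e hp, ?_⟩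
      exact List.isChain_cons_cons.mpr ⟨fun e => absurd e.symm hp, h3⟩

lemma step_core (x x' : ℕ) (R : List (ℕ × Bool)) (e : List (ℕ × Bool)) :
    ∀ f : List (ℕ × Bool), IsReduced ((x, true) :: invRev e) → IsReduced (f ++ (x', true) :: R) →
    ¬ f ++ [(x', true)] <+: e → ¬ e ++ [(x, false)] <+: f →
    ∃ Q, IsReduced ((x, true) :: (Q ++ (x', true) :: R)) ∧ mk Q = (mk e)⁻¹ * mk f := by
  induction e with
  | nil =>
    intro f _ h2 _ g2
    refine ⟨f, ?_, by simp [← one_eq_mk]⟩
    cases f with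
    | nil => exact List.isChain_cons_cons.mpr ⟨fun _ => rfl, h2⟩
    | cons q f =>
      refine List.isChain_cons_cons.mpr ⟨fun e => ?_, h2⟩
      obtain ⟨y, b⟩ := q
      obtain rfl : x = y := e
      cases b
      · exact absurd (by simp) g2
      · rfl
  | cons q e ih =>
    intro f h1 h2 g1 g2
    have hq : invRev (q :: e) = invRev e ++ [(q.1, !q.2)] := by simp [invRev]
    have key : ∀ r T, f ++ (x', true) :: R = r :: T → r ≠ q →
        ∃ Q, IsReduced ((x, true) :: (Q ++ (x', true) :: R)) ∧ mk Q = (mk (q :: e))⁻¹ * mk f := by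
      intro r T e1 e2
      refine ⟨invRev (q :: e) ++ f, ?_, by rw [← mul_mk, inv_mk]⟩
      rw [List.append_assoc, e1, hq]
      rw [hq] at h1
      rw [e1] at h2
      have : (x, true) :: (invRev e ++ [(q.1, !q.2)] ++ r :: T) =
          ((x, true) :: invRev e) ++ (q.1, !q.2) :: r :: T := by simp
      rw [this]
      refine List.isChain_append_cons_cons.mpr ⟨h1, fun e3 => ?_, h2⟩
      obtain ⟨y, b⟩ := q
      obtain ⟨y', b'⟩ := r
      obtain rfl : y = y' := e3
      cases b <;> cases b' <;> simp at e2 ⊢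
    cases f with
    | nil => exact key _ _ rfl (fun e2 => g1 (by simp [e2]))
    | cons r f =>
      by_cases e2 : r = q
      · subst e2
        obtain ⟨Q, h3, h4⟩ := ih f
          (red_sub h1 (by rw [hq]; exact (List.prefix_append ((x, true) :: invRev e) _).isInfix))
          (red_sub h2 (List.suffix_cons _ _).isInfix) (fun h => g1 (by simpa using h))
          (fun h => g2 (by simpa using h))
        refine ⟨Q, h3, ?_⟩
        rw [h4, mk_cons' r e, mk_cons' r f]; group
      · exact key _ _ rfl e2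

lemma step {c c' R : List (ℕ × Bool)} {x x' : ℕ} (h1 : IsReduced (cw c x))
    (h2 : IsReduced (c' ++ (x', true) :: R)) (g1 : ¬ c' ++ [(x', true)] <+: c)
    (g2 : ¬ c ++ [(x, false)] <+: c') :
    ∃ Q, IsReduced (c ++ (x, true) :: (Q ++ (x', true) :: R)) ∧
      mk (c ++ (x, true) :: (Q ++ (x', true) :: R)) =
        mk (cw c x) * mk (c' ++ (x', true) :: R) := by
  obtain ⟨Q, h3, h4⟩ := step_core x x' R c c' (red_sub h1 (List.suffix_append _ _).isInfix) h2 g1 g2
  refine ⟨Q, ?_, ?_⟩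
  · have h5 : IsReduced (c ++ [(x, true)]) := red_sub h1 ⟨[], invRev c, by simp [cw]⟩
    simpa using IsReduced.append_overlap h5 (L₃ := Q ++ (x', true) :: R) h3 (by simp)
  · rw [← mul_mk, mk_cons', ← mul_mk, h4, mk_cw, ← mul_mk (L₁ := c'), mk_true]; group

lemma mk_mem_gen {X : Set ℕ} {L : List (ℕ × Bool)} (h : ∀ p ∈ L, p.1 ∈ X) : mk L ∈ gen X := by
  induction L with
  | nil => exact one_mem _
  | cons p L ih =>
    rw [mk_cons']
    refine mul_mem ?_ (ih fun q hq => h q (List.mem_cons_of_mem _ hq))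
    have h1 : (of p.1 : FreeGroup ℕ) ∈ gen X := Subgroup.subset_closure ⟨_, h p (by simp), rfl⟩
    obtain ⟨y, b⟩ := p
    cases b
    · exact inv_mem h1
    · exact h1

lemma cw_mem_gen {X : Set ℕ} {c : List (ℕ × Bool)} {x : ℕ} (h : mk c ∈ gen X) (hx : x ∈ X) :
    mk (cw c x) ∈ gen X := by
  rw [mk_cw]
  exact mul_mem (mul_mem h (Subgroup.subset_closure ⟨_, hx, rfl⟩)) (inv_mem h)

lemma mem_of_cw {X : Set ℕ} {c : List (ℕ × Bool)} {x : ℕ} (h : IsReduced (cw c x))
    (h1 : mk (cw c x) ∈ gen X) : x ∈ X ∧ ∀ p ∈ c, p.1 ∈ X := by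
  have := toWord_mem_of_mem_gen h1
  rw [toWord_mk, h.reduce_eq] at this
  exact ⟨this (x, true) (by simp [cw]), fun p hp => this p (by simp [cw, hp])⟩

/-- A sequence of conjugates of letters with its descending products. -/
structure CSeq where
  make ::
  c : ℕ → List (ℕ × Bool)
  x : ℕ → ℕ
  D : ℕ → FreeGroup ℕ
  red : ∀ k, IsReduced (cw (c k) (x k))
  succ : ∀ k, D (k + 1) = mk (cw (c k) (x k)) * D k

namespace CSeq
variable (Z : CSeq)

/-- The `k`-th conjugate. -/
def y (k : ℕ) : FreeGroup ℕ := mk (cw (Z.c k) (Z.x k))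

/-- No middle letter cancels between `k + 1` and `k`. -/
def G (k : ℕ) : Prop :=
  ¬ Z.c k ++ [(Z.x k, true)] <+: Z.c (k + 1) ∧ ¬ Z.c (k + 1) ++ [(Z.x (k + 1), false)] <+: Z.c k

lemma word (a d : ℕ) (h : ∀ k, a ≤ k → k < a + d → Z.G k) :
    ∃ R, IsReduced (Z.c (a + d) ++ (Z.x (a + d), true) :: R) ∧
      mk (Z.c (a + d) ++ (Z.x (a + d), true) :: R) = Z.D (a + d + 1) * (Z.D a)⁻¹ ∧
      (Z.x a, true) :: invRev (Z.c a) <:+ (Z.x (a + d), true) :: R ∧ d ≤ R.length := by
  induction d with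
  | zero => exact ⟨invRev (Z.c a), Z.red a, by simp [Z.succ, cw], List.suffix_refl _, by omega⟩
  | succ d ih =>
    obtain ⟨R, h1, h2, h3, h4⟩ := ih (fun k h5 h6 => h k h5 (by omega))
    obtain ⟨g1, g2⟩ := h (a + d) (by omega) (by omega)
    obtain ⟨Q, h5, h6⟩ := step (Z.red (a + d + 1)) h1 g1 g2
    refine ⟨_, h5, ?_, ?_, by simp; omega⟩
    · rw [← add_assoc, h6, h2, Z.succ (a + d + 1), mul_assoc]
    · exact h3.trans ((List.suffix_append _ _).trans (List.suffix_cons _ _))

lemma block (i : ℕ) (d : ℕ) : ∀ a, (∀ k, a ≤ k → k < a + d → Z.G k) →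
    Mem2 (gen {x | i < x}) (gen {x | x ≤ i}) (Z.D (a + d + 1) * (Z.D a)⁻¹) →
    ∀ k, a ≤ k → k ≤ a + d → (Z.x k ≤ i → Z.y k ∈ gen {x | x ≤ i}) ∧
      (i < Z.x k → Z.y k ∈ gen {x | i < x}) ∧ (k < a + d → i < Z.x k → i < Z.x (k + 1)) := by
  have top : ∀ a d, (∀ k, a ≤ k → k < a + d → Z.G k) →
      Mem2 (gen {x | i < x}) (gen {x | x ≤ i}) (Z.D (a + d + 1) * (Z.D a)⁻¹) →
      (i < Z.x (a + d) → Z.y (a + d) ∈ gen {x | i < x}) ∧
        (Z.x (a + d) ≤ i → Z.x a ≤ i ∧ Z.y a ∈ gen {x | x ≤ i}) := by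
    rintro a d h ⟨u, hu, v, hv, e⟩
    obtain ⟨R, h1, h2, h3, -⟩ := Z.word a d h
    have h4 := (reduced_split h1 hu hv (h2.trans e)).1
    rw [List.pairwise_append, List.pairwise_cons] at h4
    obtain ⟨-, ⟨h5, -⟩, h6⟩ := h4
    refine ⟨fun hx => cw_mem_gen (mk_mem_gen fun p hp => ?_) hx, fun hx => ?_⟩
    · exact (h6 p hp _ List.mem_cons_self).resolve_right (not_le.mpr hx)
    · have h7 : ∀ p ∈ (Z.x (a + d), true) :: R, p.1 ≤ i := by
        intro p hp
        rcases List.mem_cons.mp hp with rfl | hp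
        · exact hx
        · exact (h5 p hp).resolve_left (not_lt.mpr hx)
      have h8 : Z.x a ≤ i := h7 (Z.x a, true) (h3.subset List.mem_cons_self)
      refine ⟨h8, cw_mem_gen ?_ h8⟩
      rw [← inv_mem_iff, inv_mk]
      exact mk_mem_gen fun p hp => h7 p (h3.subset (List.mem_cons_of_mem _ hp))
  induction d with
  | zero =>
    intro a h hm k h1 h2
    obtain rfl : k = a := by omega
    exact ⟨fun hx => ((top k 0 h hm).2 hx).2, (top k 0 h hm).1, fun h => by omega⟩
  | succ d ih =>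
    intro a h hm k h1 h2
    obtain ⟨t1, t2⟩ := top a (d + 1) h hm
    rcases lt_or_ge i (Z.x (a + (d + 1))) with hx | hx
    · by_cases hk : k = a + (d + 1)
      · subst hk
        exact ⟨fun h => by omega, t1, fun h => by omega⟩
      · have h3 := hm.mul (inv_mem (t1 hx)) (one_mem _)
        have e : (Z.y (a + (d + 1)))⁻¹ * (Z.D (a + (d + 1) + 1) * (Z.D a)⁻¹) * 1 =
            Z.D (a + d + 1) * (Z.D a)⁻¹ := by
          rw [Z.succ (a + (d + 1)), y, ← add_assoc]; group
        obtain ⟨s1, s2, s3⟩ := ih a (fun k h5 h6 => h k h5 (by omega)) (e ▸ h3) k h1 (by omega)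
        refine ⟨s1, s2, fun _ h4 => ?_⟩
        by_cases h5 : k < a + d
        · exact s3 h5 h4
        · rwa [show k + 1 = a + (d + 1) by omega]
    · obtain ⟨t3, t4⟩ := t2 hx
      by_cases hk : k = a
      · subst hk
        exact ⟨fun _ => t4, fun h => by omega, fun _ h => by omega⟩
      · have h3 := hm.mul (one_mem _) (inv_mem t4)
        have e : 1 * (Z.D (a + (d + 1) + 1) * (Z.D a)⁻¹) * (Z.y a)⁻¹ =
            Z.D (a + 1 + d + 1) * (Z.D (a + 1))⁻¹ := by
          rw [Z.succ a, y, show a + 1 + d + 1 = a + (d + 1) + 1 by omega]; group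
        obtain ⟨s1, s2, s3⟩ := ih (a + 1) (fun k h5 h6 => h k (by omega) (by omega)) (e ▸ h3) k
          (by omega) (by omega)
        exact ⟨s1, s2, fun h4 => s3 (by omega)⟩

lemma rigid (n : ℕ) (h : ∀ k < n, Z.G k) (h0 : Z.D 0 = 1) (h1 : Z.D (n + 1) = dP (n + 1)) :
    ∀ k ≤ n, Z.y k = of k := by
  have hw : ∀ m, (dP m).toWord = (List.range m).reverse.map (fun j => (j, true)) := by
    intro m
    have e : dP m = mk ((List.range m).reverse.map (fun j => (j, true))) := by
      induction m with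
      | zero => rfl
      | succ m ih => rw [dP, ih, List.range_succ, List.reverse_append, ← mk_true, mul_mk]; rfl
    rw [e, toWord_mk, IsReduced.reduce_eq]
    exact (List.isChain_map _).mpr (List.Pairwise.isChain
      (List.pairwise_of_forall (fun _ _ _ => rfl)))
  have top : ∀ m ≤ n, Z.D (m + 1) = dP (m + 1) → Z.y m = of m := by
    intro m hm h2
    obtain ⟨R, h3, h4, -, h5⟩ := Z.word 0 m (fun k _ h6 => h k (by omega))
    rw [zero_add] at h3 h4
    rw [h0, h2, inv_one, mul_one] at h4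
    have h6 := hw (m + 1)
    rw [← h4, toWord_mk, h3.reduce_eq] at h6
    have h7 := congrArg List.length h6
    simp only [List.length_append, List.length_cons, List.length_map, List.length_reverse,
      List.length_range] at h7
    have h8 : Z.c m = [] := List.length_eq_zero_iff.mp (by omega)
    rw [h8, List.range_succ, List.reverse_append] at h6
    have h9 : Z.x m = m := by simpa using congrArg List.head? h6
    rw [y, h8, h9]; rfl
  have down : ∀ d m, m + d = n → Z.D (m + 1) = dP (m + 1) := by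
    intro d
    induction d with
    | zero => intro m hm; rwa [show m = n by omega]
    | succ d ih =>
      intro m hm
      have h2 := ih (m + 1) (by omega)
      have h3 := top (m + 1) (by omega) h2
      rw [Z.succ, dP, ← h3] at h2
      exact mul_left_cancel h2
  exact fun k hk => top k hk (down (n - k) k (by omega))

end CSeq

end words

lemma act_sg_inv (i j : ℕ) : act (sg i)⁻¹ (of j) = artB i j := by
  rw [map_inv, act, bLift_sg]; simp [art, MulAut.inv_def]

lemma act_conj (b : BB) (k : ℕ) : ∃ g x, act b (of k) = g * of x * g⁻¹ := by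
  have hb : b ∈ Subgroup.closure (Set.range sg) :=
    mem_of_sg (fun i => Subgroup.subset_closure (Set.mem_range_self i)) b
  induction hb using Subgroup.closure_induction_right generalizing k with
  | one => exact ⟨1, k, by simp⟩
  | mul_right a _ y hy ih =>
    obtain ⟨i, rfl⟩ := hy
    rw [map_mul, MulAut.mul_apply, act_sg, artF]
    split_ifs
    · obtain ⟨g, x, h⟩ := ih (i + 1)
      exact ⟨(act a (of i))⁻¹ * g, x, by rw [map_mul, map_mul, map_inv, h]; group⟩
    · exact ih i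
    · exact ih k
  | mul_inv_cancel a _ y hy ih =>
    obtain ⟨i, rfl⟩ := hy
    rw [map_mul, MulAut.mul_apply, act_sg_inv, artB]
    split_ifs
    · exact ih (i + 1)
    · obtain ⟨g, x, h⟩ := ih i
      exact ⟨act a (of (i + 1)) * g, x, by rw [map_mul, map_mul, map_inv, h]; group⟩
    · exact ih k

lemma exists_cseq (b : BB) : ∃ Z : CSeq, (∀ k, Z.y k = act b (of k)) ∧ ∀ k, Z.D k = act b (dP k) := by
  have : ∀ k, ∃ c x, IsReduced (cw c x) ∧ mk (cw c x) = act b (of k) := by
    intro k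
    obtain ⟨g, x, h⟩ := act_conj b k
    obtain ⟨c, h1, h2⟩ := exists_cw x g.toWord isReduced_toWord
    exact ⟨c, x, h1, by rw [h2, mk_toWord, h]⟩
  choose c x h1 h2 using this
  exact ⟨⟨c, x, fun k => act b (dP k), h1, fun k => by rw [dP, map_mul, h2]⟩, h2, fun _ => rfl⟩

lemma act_sg_dP {i k : ℕ} (h : k ≠ i + 1) : act (sg i) (dP k) = dP k := by
  have low : ∀ k ≤ i, act (sg i) (dP k) = dP k := by
    intro k hk
    induction k with
    | zero => simp [dP]
    | succ k ih =>
      rw [dP, map_mul, ih (by omega), act_sg, artF, if_neg (by omega), if_neg (by omega)]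
  rcases le_or_gt k i with h1 | h1
  · exact low k h1
  · have h2 : i + 2 ≤ k := by omega
    clear h h1
    induction k, h2 using Nat.le_induction with
    | base =>
      simp only [dP, map_mul, low i le_rfl, act_sg, artF]
      simp [mul_assoc]
    | succ k hk ih => rw [dP, map_mul, ih, act_sg, artF, if_neg (by omega), if_neg (by omega)]

/-- The total length of the images of the first letters. -/
def mu (n : ℕ) (b : BB) : ℕ := ∑ k ∈ Finset.range (n + 1), norm (act b (of k))

lemma sum_lt {n k : ℕ} (hk : k < n) {f g : ℕ → ℕ} (h : ∀ j, j ≠ k → j ≠ k + 1 → f j = g j)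
    (h1 : f k + f (k + 1) < g k + g (k + 1)) :
    ∑ j ∈ Finset.range (n + 1), f j < ∑ j ∈ Finset.range (n + 1), g j := by
  have m1 : k ∈ Finset.range (n + 1) := Finset.mem_range.mpr (by omega)
  have m2 : k + 1 ∈ (Finset.range (n + 1)).erase k :=
    Finset.mem_erase.mpr ⟨by omega, Finset.mem_range.mpr (by omega)⟩
  have e : ∑ j ∈ ((Finset.range (n + 1)).erase k).erase (k + 1), f j =
      ∑ j ∈ ((Finset.range (n + 1)).erase k).erase (k + 1), g j :=
    Finset.sum_congr rfl (fun j hj => h j (Finset.mem_erase.mp (Finset.mem_erase.mp hj).2).1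
      (Finset.mem_erase.mp hj).1)
  rw [← Finset.add_sum_erase _ f m1, ← Finset.add_sum_erase _ f m2,
    ← Finset.add_sum_erase _ g m1, ← Finset.add_sum_erase _ g m2, e, ← add_assoc, ← add_assoc]
  exact Nat.add_lt_add_right h1 _

lemma improve {n k : ℕ} (hk : k < n) {b : BB} {Z : CSeq} (hZ : ∀ k, Z.y k = act b (of k))
    (h : ¬ Z.G k) : mu n (b * sg k) < mu n b ∨ mu n (b * (sg k)⁻¹) < mu n b := by
  have hn : ∀ j, norm (act b (of j)) = 2 * (Z.c j).length + 1 := by
    intro j
    rw [← hZ, CSeq.y, FreeGroup.norm, toWord_mk, (Z.red j).reduce_eq, cw_length]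
  have hle : ∀ c x, norm (mk (cw c x)) ≤ 2 * c.length + 1 := fun c x =>
    norm_mk_le.trans (cw_length c x).le
  rw [CSeq.G, not_and_or, not_not, not_not] at h
  rcases h with ⟨r, h⟩ | ⟨r, h⟩
  · refine Or.inl (sum_lt hk (fun j h1 h2 => ?_) ?_)
    · rw [map_mul, MulAut.mul_apply, act_sg, artF, if_neg h1, if_neg h2]
    · have e : act (b * sg k) (of k) = mk (cw (Z.c k ++ r) (Z.x (k + 1))) := by
        rw [map_mul, MulAut.mul_apply, act_sg, artF, if_pos rfl, map_mul, map_mul, map_inv, ← hZ,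
          ← hZ, CSeq.y, CSeq.y, ← h]
        simp only [mk_cw, ← mul_mk, mk_true]; group
      have e2 : act (b * sg k) (of (k + 1)) = act b (of k) := by
        rw [map_mul, MulAut.mul_apply, act_sg, artF, if_neg (by omega), if_pos rfl]
      have h3 := hle (Z.c k ++ r) (Z.x (k + 1))
      have h4 := congrArg List.length h
      simp only [List.length_append, List.length_singleton] at h3 h4
      rw [e, e2, hn, hn]
      omega
  · refine Or.inr (sum_lt hk (fun j h1 h2 => ?_) ?_)
    · rw [map_mul, MulAut.mul_apply, act_sg_inv, artB, if_neg h1, if_neg h2]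
    · have e : act (b * (sg k)⁻¹) (of (k + 1)) = mk (cw (Z.c (k + 1) ++ r) (Z.x k)) := by
        rw [map_mul, MulAut.mul_apply, act_sg_inv, artB, if_neg (by omega), if_pos rfl, map_mul,
          map_mul, map_inv, ← hZ, ← hZ, CSeq.y, CSeq.y, ← h]
        simp only [mk_cw, ← mul_mk, mk_false]; group
      have e2 : act (b * (sg k)⁻¹) (of k) = act b (of (k + 1)) := by
        rw [map_mul, MulAut.mul_apply, act_sg_inv, artB, if_pos rfl]
      have h3 := hle (Z.c (k + 1) ++ r) (Z.x k)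
      have h4 := congrArg List.length h
      simp only [List.length_append, List.length_singleton] at h3 h4
      rw [e, e2, hn, hn]
      omega

lemma exists_min {n : ℕ} (T : Set (Fin n)) (b : Br n) :
    ∃ t ∈ pa (CoxeterMatrix.A n) T, ∃ Z : CSeq, (∀ k, Z.y k = act (inc n (b * t)) (of k)) ∧
      (∀ k, Z.D k = act (inc n (b * t)) (dP k)) ∧ ∀ k ∈ T, Z.G k := by
  obtain ⟨⟨t, ht⟩, hmin⟩ := exists_minimalFor_of_wellFoundedLT (fun _ => True)
    (fun t : pa (CoxeterMatrix.A n) T => mu n (inc n (b * t))) ⟨1, trivial⟩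
  obtain ⟨Z, h1, h2⟩ := exists_cseq (inc n (b * t))
  refine ⟨t, ht, Z, h1, h2, fun k hk => ?_⟩
  by_contra hG
  have e : inc n (ag _ k) = sg k := by rw [← sA_val, inc_sA k.2]
  rcases improve k.2 h1 hG with h | h
  · refine hmin.not_prop_of_lt (j := ⟨t * ag _ k, mul_mem ht (pa_mem hk)⟩) ?_ trivial
    rwa [← e, ← map_mul, mul_assoc] at h
  · refine hmin.not_prop_of_lt (j := ⟨t * (ag _ k)⁻¹, mul_mem ht (inv_mem (pa_mem hk))⟩) ?_ trivial
    rwa [← e, ← map_inv, ← map_mul, mul_assoc] at h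

lemma pa_fix {n : ℕ} {U : Set (Fin n)} {u : Br n} (hu : u ∈ pa (CoxeterMatrix.A n) U) {k : ℕ}
    (hk : ∀ j ∈ U, k ≠ j + 1) : act (inc n u) (dP k) = dP k :=
  pa_le (H := fixS (inc n) (dP k))
    (fun j hj => by rw [mem_fixS, ← sA_val, inc_sA j.2]; exact act_sg_dP (hk j hj)) hu

lemma dP_mem {i k : ℕ} (h : k ≤ i + 1) : dP k ∈ gen {x | x ≤ i} := by
  induction k with
  | zero => exact one_mem _
  | succ k ih =>
    exact mul_mem (Subgroup.subset_closure ⟨k, by simp; omega, rfl⟩) (ih (by omega))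

lemma dQ_mem {i k : ℕ} (h : i + 1 ≤ k) : dP k * (dP (i + 1))⁻¹ ∈ gen {x | i < x} := by
  induction k, h using Nat.le_induction with
  | base => simp
  | succ k hk ih =>
    rw [dP, mul_assoc]
    exact mul_mem (Subgroup.subset_closure ⟨k, by simp; omega, rfl⟩) ih

lemma sides {n i : ℕ} (hi : i < n) (Z : CSeq) (U : ℕ → Prop) (hG : ∀ k < n, U k → Z.G k)
    (h0 : Z.D 0 = 1) (hn : Z.D (n + 1) = dP (n + 1))
    (h1 : ∀ j ≤ i, ¬ U j → Z.D (j + 1) ∈ gen {x | x ≤ i})
    (h2 : ∀ j < n, i < j → ¬ U j → dP (n + 1) * (Z.D (j + 1))⁻¹ ∈ gen {x | i < x}) :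
    ∀ k ≤ n, (k ≤ i → Z.y k ∈ gen {x | x ≤ i}) ∧ (i < k → Z.y k ∈ gen {x | i < x}) := by
  have lo : ∀ k, ∃ a ≤ k, (a = 0 ∨ ∃ j, a = j + 1 ∧ ¬ U j) ∧ ∀ j, a ≤ j → j < k → U j := by
    intro k
    induction k with
    | zero => exact ⟨0, le_rfl, Or.inl rfl, fun j _ h => by omega⟩
    | succ k ih =>
      by_cases h : U k
      · obtain ⟨a, h3, h4, h5⟩ := ih
        refine ⟨a, by omega, h4, fun j h6 h7 => ?_⟩
        by_cases h8 : j = k
        · rwa [h8]
        · exact h5 j h6 (by omega)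
      · exact ⟨k + 1, le_rfl, Or.inr ⟨k, rfl, h⟩, fun j _ _ => by omega⟩
  have up : ∀ d k, k + d = n → ∃ m, k ≤ m ∧ m ≤ n ∧ (m = n ∨ ¬ U m) ∧
      ∀ j, k ≤ j → j < m → U j := by
    intro d
    induction d with
    | zero => exact fun k hk => ⟨k, le_rfl, by omega, Or.inl (by omega), fun j _ _ => by omega⟩
    | succ d ih =>
      intro k hk
      by_cases h : U k
      · obtain ⟨m, h3, h4, h5, h6⟩ := ih (k + 1) (by omega)
        refine ⟨m, by omega, h4, h5, fun j h7 h8 => ?_⟩
        by_cases h9 : j = k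
        · rwa [h9]
        · exact h6 j (by omega) h8
      · exact ⟨k, le_rfl, by omega, Or.inr h, fun j _ _ => by omega⟩
  have hX : ∀ a ≤ i + 1, (a = 0 ∨ ∃ j, a = j + 1 ∧ ¬ U j) → Z.D a ∈ gen {x | x ≤ i} := by
    rintro a ha (rfl | ⟨j, rfl, hj⟩)
    · rw [h0]; exact one_mem _
    · exact h1 j (by omega) hj
  have hY : ∀ m ≤ n, i < m → (m = n ∨ ¬ U m) → dP (n + 1) * (Z.D (m + 1))⁻¹ ∈ gen {x | i < x} := by
    intro m hm him h
    by_cases e : m = n
    · rw [e, hn]; simp
    · exact h2 m (by omega) him (h.resolve_left e)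
  have key : ∀ k ≤ n, (Z.x k ≤ i → Z.y k ∈ gen {x | x ≤ i}) ∧ (i < Z.x k → Z.y k ∈ gen {x | i < x}) ∧
      (k < n → U k → i < Z.x k → i < Z.x (k + 1)) ∧ (k ≤ i → ¬ U k → Z.x k ≤ i) ∧
      (∀ j, k = j + 1 → i < j → ¬ U j → i < Z.x k) := by
    intro k hk
    obtain ⟨a, a1, a2, a3⟩ := lo k
    obtain ⟨m, m1, m2, m3, m4⟩ := up (n - k) k (by omega)
    obtain ⟨d, rfl⟩ : ∃ d, m = a + d := ⟨m - a, by omega⟩
    have hg : ∀ j, a ≤ j → j < a + d → Z.G j := fun j h3 h4 =>
      hG j (by omega) ((lt_or_ge j k).elim (a3 j h3) (fun h => m4 j h h4))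
    obtain ⟨R, r1, r2, r3, -⟩ := Z.word a d hg
    have hw : ∀ X : Set ℕ, Z.D (a + d + 1) * (Z.D a)⁻¹ ∈ gen X → Z.x (a + d) ∈ X ∧ Z.x a ∈ X := by
      intro X h
      have := toWord_mem_of_mem_gen h
      rw [← r2, toWord_mk, r1.reduce_eq] at this
      exact ⟨this (_, true) (by simp),
        this (_, true) (List.mem_append_right _ (r3.subset List.mem_cons_self))⟩
    have cX : a + d ≤ i → Z.D (a + d + 1) * (Z.D a)⁻¹ ∈ gen {x | x ≤ i} := fun h =>
      mul_mem (h1 _ h (m3.resolve_left (by omega))) (inv_mem (hX a (by omega) a2))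
    have cY : i + 1 < a → Z.D (a + d + 1) * (Z.D a)⁻¹ ∈ gen {x | i < x} := by
      intro h
      obtain ⟨j, rfl, hj⟩ := a2.resolve_left (by omega)
      simpa [mul_assoc] using mul_mem (inv_mem (hY _ m2 (by omega) m3))
        (h2 j (by omega) (by omega) hj)
    have hm : Mem2 (gen {x | i < x}) (gen {x | x ≤ i}) (Z.D (a + d + 1) * (Z.D a)⁻¹) := by
      by_cases c1 : a + d ≤ i
      · exact ⟨1, one_mem _, _, cX c1, (one_mul _).symm⟩
      · by_cases c2 : i + 1 < a
        · exact ⟨_, cY c2, 1, one_mem _, (mul_one _).symm⟩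
        · exact ⟨_, mul_mem (inv_mem (hY _ m2 (by omega) m3)) (dQ_mem (k := n + 1) (by omega)), _,
            mul_mem (dP_mem le_rfl) (inv_mem (hX a (by omega) a2)), by group⟩
    obtain ⟨s1, s2, s3⟩ := Z.block i d a hg hm k a1 m1
    refine ⟨s1, s2, fun h3 h4 => s3 ?_, fun h3 h4 => ?_, fun j h3 h4 h5 => ?_⟩
    · by_contra h5
      rw [show a + d = k by omega] at m3
      exact m3.elim (by omega) (fun h => h h4)
    · have e : a + d = k := by
        by_contra h5
        exact h4 (m4 k le_rfl (by omega))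
      exact e ▸ (hw _ (cX (by omega))).1
    · have e : a = k := by
        by_contra h6
        exact h5 (a3 j (by omega) (by omega))
      exact e ▸ (hw _ (cY (by omega))).2
  have mono : ∀ k < n, i < Z.x k → i < Z.x (k + 1) := by
    intro k hk h
    by_cases hu : U k
    · exact (key k hk.le).2.2.1 hk hu h
    · rcases le_or_gt k i with h3 | h3
      · exact absurd ((key k hk.le).2.2.2.1 h3 hu) (by omega)
      · exact (key (k + 1) hk).2.2.2.2 k rfl h3 hu
  have mono' : ∀ k j, k ≤ j → j ≤ n → i < Z.x k → i < Z.x j := by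
    intro k j hj
    induction j, hj using Nat.le_induction with
    | base => exact fun _ h => h
    | succ j _ ih => exact fun h3 h4 => mono j h3 (ih (by omega) h4)
  let φ : FreeGroup ℕ →* Multiplicative ℤ :=
    lift fun z => Multiplicative.ofAdd (if z ≤ i then 1 else 0)
  have hs : ∀ k, (φ (Z.D (k + 1))).toAdd = (if Z.x k ≤ i then 1 else 0) + (φ (Z.D k)).toAdd := by
    intro k
    rw [Z.succ, mk_cw, map_mul φ, map_mul φ, map_mul φ, map_inv φ, mul_inv_cancel_comm]
    simp [φ]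
  have hd : ∀ k, (φ (dP k)).toAdd = min k (i + 1) := by
    intro k
    induction k with
    | zero => simp [dP]
    | succ k ih =>
      rw [dP, map_mul, toAdd_mul, ih]
      simp only [φ, lift_apply_of, toAdd_ofAdd]
      split_ifs <;> omega
  have b1 : ∀ k j, k ≤ j → (φ (Z.D k)).toAdd ≤ (φ (Z.D j)).toAdd := by
    intro k j hj
    induction j, hj using Nat.le_induction with
    | base => exact le_rfl
    | succ j _ ih => rw [hs]; split_ifs <;> omega
  have b2 : ∀ k, (φ (Z.D k)).toAdd ≤ k ∧ ((∀ j < k, Z.x j ≤ i) → (φ (Z.D k)).toAdd = k) := by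
    intro k
    induction k with
    | zero => simp [h0]
    | succ k ih =>
      rw [hs]
      refine ⟨by split_ifs <;> omega, fun h => ?_⟩
      rw [if_pos (h k (by omega)), ih.2 (fun j hj => h j (by omega))]
      omega
  have b3 := hd (n + 1)
  rw [← hn] at b3
  intro k hk
  refine ⟨fun h => (key k hk).1 ?_, fun h => (key k hk).2.1 ?_⟩
  · by_contra h3
    have b4 : ∀ j, k ≤ j → j ≤ n + 1 → (φ (Z.D j)).toAdd = (φ (Z.D k)).toAdd := by
      intro j hj
      induction j, hj using Nat.le_induction with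
      | base => exact fun _ => rfl
      | succ j hj ih =>
        intro h4
        rw [hs, if_neg (not_le.mpr (mono' k j hj (by omega) (by omega))), ih (by omega), zero_add]
    have := b4 (n + 1) (by omega) le_rfl
    have := (b2 k).1
    omega
  · by_contra h3
    have b4 := (b2 (k + 1)).2 fun j hj => by
      by_contra h4
      exact h3 (mono' j k (by omega) hk (by omega))
    have := b1 (k + 1) (n + 1) (by omega)
    omega

lemma act_gen {X : Set ℕ} {b : BB} {Y : Set ℕ} (h : ∀ k ∈ X, act b (of k) ∈ gen Y) {w}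
    (hw : w ∈ gen X) : act b w ∈ gen Y := by
  have : gen X ≤ (gen Y).comap (act b).toMonoidHom := by
    rw [gen, Subgroup.closure_le]
    rintro _ ⟨k, hk, rfl⟩
    exact h k hk
  exact this hw

lemma pa_gen {n : ℕ} {T : Set (Fin n)} {t : Br n} (ht : t ∈ pa (CoxeterMatrix.A n) T) {X : Set ℕ}
    (hX : ∀ j ∈ T, ((j : ℕ) ∈ X ↔ (j : ℕ) + 1 ∈ X)) : ∀ k ∈ X, act (inc n t) (of k) ∈ gen X := by
  have hg : ∀ k ∈ X, (of k : FreeGroup ℕ) ∈ gen X := fun k hk =>
    Subgroup.subset_closure ⟨k, hk, rfl⟩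
  induction ht using Subgroup.closure_induction_right with
  | one => simpa using hg
  | mul_right a _ y hy ih =>
    obtain ⟨j, hj, rfl⟩ := hy
    intro k hk
    rw [map_mul, map_mul, MulAut.mul_apply, ← sA_val, inc_sA j.2, act_sg, artF]
    refine act_gen ih ?_
    split_ifs with h1 h2
    · subst h1
      exact mul_mem (mul_mem (inv_mem (hg _ hk)) (hg _ ((hX j hj).1 hk))) (hg _ hk)
    · subst h2
      exact hg _ ((hX j hj).2 hk)
    · exact hg _ hk
  | mul_inv_cancel a _ y hy ih =>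
    obtain ⟨j, hj, rfl⟩ := hy
    intro k hk
    rw [map_mul, map_mul, MulAut.mul_apply, map_inv, ← sA_val, inc_sA j.2, act_sg_inv, artB]
    refine act_gen ih ?_
    split_ifs with h1 h2
    · subst h1
      exact hg _ ((hX j hj).1 hk)
    · subst h2
      exact mul_mem (mul_mem (hg _ hk) (hg _ ((hX j hj).2 hk))) (inv_mem (hg _ hk))
    · exact hg _ hk

theorem braid_sep (n : ℕ) (T U : Set (Fin n)) (b : Br n)
    (h1 : ∀ i ∉ T, ∀ j ∉ U, j ≤ i → act (inc n b) (dP (j + 1)) ∈ gen {x | x ≤ (i : ℕ)})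
    (h2 : ∀ i ∉ T, ∀ j ∉ U, i < j →
      act (inc n b) (dP (n + 1) * (dP (j + 1))⁻¹) ∈ gen {x | (i : ℕ) < x}) :
    Mem2 (pa (CoxeterMatrix.A n) T) (pa (CoxeterMatrix.A n) U) b := by
  have hΔ : ∀ c : Br n, act (inc n c) (dP (n + 1)) = dP (n + 1) := fun c =>
    pa_fix (pa_univ c) (fun j _ => by have := j.2; omega)
  obtain ⟨u, hu, Z, z1, z2, z3⟩ := exists_min U b
  have hf : ∀ j ∉ U, Z.D (j + 1) = act (inc n b) (dP (j + 1)) := fun j hj => by
    rw [z2, map_mul, map_mul, MulAut.mul_apply,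
      pa_fix hu (fun l hl e => hj (by rwa [show j = l from Fin.ext (by omega)]))]
  have hs : ∀ i ∉ T, ∀ k ≤ n, (k ≤ (i : ℕ) → Z.y k ∈ gen {x | x ≤ (i : ℕ)}) ∧
      ((i : ℕ) < k → Z.y k ∈ gen {x | (i : ℕ) < x}) := fun i hi =>
    sides i.2 Z (fun k => ∃ h : k < n, ⟨k, h⟩ ∈ U) (fun k _ ⟨h, hk⟩ => z3 ⟨k, h⟩ hk)
      (by rw [z2, dP, map_one]) (by rw [z2, hΔ])
      (fun j hj h => by
        have hj' : j < n := by have := i.2; omega
        exact hf ⟨j, hj'⟩ (fun e => h ⟨hj', e⟩) ▸ h1 i hi ⟨j, hj'⟩ (fun e => h ⟨hj', e⟩) hj)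
      (fun j hj hij h => by
        have := h2 i hi ⟨j, hj⟩ (fun e => h ⟨hj, e⟩) hij
        rwa [map_mul, map_inv, hΔ, ← hf ⟨j, hj⟩ (fun e => h ⟨hj, e⟩)] at this)
  obtain ⟨t, ht, Z', w1, w2, w3⟩ := exists_min T (b * u)
  have hge : ∀ (c : Br n) k, n < k → act (inc n c) (of k) = of k := fun c k hk =>
    act_Bd_ge (n := n + 1) hk (range_inc n ▸ ⟨c, rfl⟩)
  have hG : ∀ k < n, Z'.G k := by
    intro k hk
    by_cases hT : (⟨k, hk⟩ : Fin n) ∈ T
    · exact w3 _ hT
    · have hne : ∀ j ∈ T, (j : ℕ) ≠ k := fun j hj e => hT (by rwa [← show j = ⟨k, hk⟩ from Fin.ext e])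
      have a1 : Z'.y k ∈ gen {x | x ≤ k} := by
        rw [w1, map_mul, map_mul, MulAut.mul_apply]
        refine act_gen (X := {x | x ≤ k}) (fun l hl => ?_) (pa_gen ht (fun j hj => ?_) k (le_refl k))
        · exact z1 l ▸ (hs _ hT l (le_trans hl hk.le)).1 hl
        · have := hne j hj
          simp only [Set.mem_ofPred_eq]; omega
      have a2 : Z'.y (k + 1) ∈ gen {x | k < x} := by
        rw [w1, map_mul, map_mul, MulAut.mul_apply]
        refine act_gen (X := {x | k < x}) (fun l hl => ?_)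
          (pa_gen ht (fun j hj => ?_) (k + 1) (Nat.lt_succ_self k))
        · rcases le_or_gt l n with h | h
          · exact z1 l ▸ (hs _ hT l h).2 hl
          · rw [hge _ l h]; exact Subgroup.subset_closure ⟨l, hl, rfl⟩
        · have := hne j hj
          simp only [Set.mem_ofPred_eq]; omega
      obtain ⟨b1, b2⟩ := mem_of_cw (Z'.red k) a1
      obtain ⟨b3, b4⟩ := mem_of_cw (Z'.red (k + 1)) a2
      refine ⟨fun h => ?_, fun h => ?_⟩
      · have := b4 (Z'.x k, true) (h.subset (by simp))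
        simp only [Set.mem_ofPred_eq] at this b1; omega
      · have := b2 (Z'.x (k + 1), false) (h.subset (by simp))
        simp only [Set.mem_ofPred_eq] at this b3; omega
  have hr := Z'.rigid n hG (by rw [w2, dP, map_one]) (by rw [w2, hΔ])
  have e := faithful n (b * u * t) (fun j => (le_or_gt j n).elim (fun h => w1 j ▸ hr j h) (hge _ j))
  exact ⟨t⁻¹, inv_mem ht, u⁻¹, inv_mem hu, by
    rw [← mul_inv_rev, eq_inv_iff_mul_eq_one, ← mul_assoc, e]⟩

end Pool.Agent.Lib.MP_19b52f_al.FC
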