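import Pool.Agent.Lib.MP_19b52f_al.FC.Prod
import Pool.Agent.Lib.MP_19b52f_al.EA2.Frame

/-! Cocycles of an Artin group over a finite quotient with values in mapping class groups. -/

namespace Pool.Agent.Lib.MP_19b52f_al.FC

open Pool.Agent.Lib.MP_19b52f_al.EA Pool.Agent.Lib.MP_19b52f_al.EA2

variable {S : Type}

/-- A cocycle with values in a mapping class group, with arcs for the parabolic subgroups. -/
structure Co (M : CoxeterMatrix S) where
  Z : Surf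
  Φ : Type
  [grp : Group Φ]
  [fin : Finite Φ]
  θ : Artin M →* Φ
  c : Φ → Artin M → Z.Mod
  c_mul : ∀ φ g h, c φ (g * h) = c φ g * c (φ * θ g) h
  V : Set S → Φ → Set Z.A
  V_gen : ∀ T φ s, s ∈ T → V T (φ * θ (ag M s)) = V T φ
  V_mem : ∀ T φ s, s ∈ T → c φ (ag M s) ∈ Z.D (V T φ)

attribute [instance] Co.grp Co.fin

variable {M : CoxeterMatrix S}

namespace Co
variable (D : Co M)

@[simp] lemma c_one (φ) : D.c φ 1 = 1 := by
  have := D.c_mul φ 1 1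
  simpa using this

lemma c_inv (φ) (g : Artin M) : D.c φ g⁻¹ = (D.c (φ * D.θ g⁻¹) g)⁻¹ := by
  have := D.c_mul φ g⁻¹ g
  rw [inv_mul_cancel, c_one] at this
  exact eq_inv_of_mul_eq_one_left this.symm

lemma V_inv {T : Set S} {g : Artin M} (hg : g ∈ pa M T) (φ) : D.V T (φ * D.θ g) = D.V T φ := by
  induction hg using Subgroup.closure_induction generalizing φ with
  | mem x hx =>
    obtain ⟨s, hs, rfl⟩ := hx
    exact D.V_gen T φ s hs
  | one => simp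
  | mul x y _ _ ihx ihy => rw [map_mul, ← mul_assoc, ihy, ihx]
  | inv x _ ih => rw [← ih]; simp

lemma c_mem {T : Set S} {g : Artin M} (hg : g ∈ pa M T) (φ) : D.c φ g ∈ D.Z.D (D.V T φ) := by
  induction hg using Subgroup.closure_induction generalizing φ with
  | mem x hx =>
    obtain ⟨s, hs, rfl⟩ := hx
    exact D.V_mem T φ s hs
  | one => simp
  | mul x y hx _ ihx ihy =>
    rw [D.c_mul]
    exact mul_mem (ihx φ) (D.V_inv hx φ ▸ ihy (φ * D.θ x))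
  | inv x hx ih =>
    rw [c_inv]
    exact inv_mem (D.V_inv (inv_mem hx) φ ▸ ih _)

/-- The value of the cocycle moves the arcs of `U` off the arcs of `T`. -/
def Hyp (T U : Set S) (φ : D.Φ) (g : Artin M) : Prop :=
  D.Z.X (D.V T φ) (D.V U (φ * D.θ g)) (D.c φ g)

variable {D} in
lemma Hyp.left {T U φ g} (h : D.Hyp T U φ g) {a} (ha : a ∈ pa M T) :
    D.Hyp T U (φ * D.θ a) (a⁻¹ * g) := by
  have e : φ * D.θ a * D.θ (a⁻¹ * g) = φ * D.θ g := by simp [mul_assoc]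
  have e2 : φ * D.θ a * D.θ a⁻¹ = φ := by simp
  rw [Hyp, e, D.c_mul, e2]
  exact Surf.X.left (D.V_inv ha φ ▸ h) (D.c_mem (inv_mem ha) _)

variable {D} in
lemma Hyp.right {T U φ g} (h : D.Hyp T U φ g) {b} (hb : b ∈ pa M U) : D.Hyp T U φ (g * b) := by
  rw [Hyp, D.c_mul, map_mul, ← mul_assoc, D.V_inv hb]
  exact Surf.X.right h (D.c_mem hb _)

/-- Double cosets in the parabolic subgroup on `J` are detected. -/
def Sep (J : Set S) : Prop :=
  ∀ φ T U g, g ∈ pa M J → D.Hyp T U φ g → Mem2 (pa M (T ∩ J)) (pa M (U ∩ J)) g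

/-- The same at one state, in the presence of a commuting factor. -/
def SepAt (J : Set S) (φ : D.Φ) : Prop :=
  ∀ T U g g', g ∈ pa M J → g' ∈ pa M (cent M J) → D.Hyp T U φ (g * g') →
    Mem2 (pa M (T ∩ J)) (pa M (U ∩ J)) g

/-- The same at all states. -/
def SepP (J : Set S) : Prop := ∀ φ, D.SepAt J φ

lemma exists_prod (D1 D2 : Co M) : ∃ (D : Co M) (p1 : D.Φ → D1.Φ) (p2 : D.Φ → D2.Φ),
    ∀ T U φ g, D.Hyp T U φ g → D1.Hyp T U (p1 φ) g ∧ D2.Hyp T U (p2 φ) g := by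
  obtain ⟨Z, i1, i2, j, h1, h2, h3⟩ := D1.Z.exists_prod D2.Z
  exact ⟨{ Z := Z
           Φ := D1.Φ × D2.Φ
           θ := D1.θ.prod D2.θ
           c := fun φ g => i1 (D1.c φ.1 g) * i2 (D2.c φ.2 g)
           c_mul := fun φ g h => by
             rw [D1.c_mul, D2.c_mul, map_mul, map_mul]
             exact (h1 _ _).mul_mul_mul_comm _ _
           V := fun T φ => j (D1.V T φ.1) (D2.V T φ.2)
           V_gen := fun T φ s h => congrArg₂ j (D1.V_gen T φ.1 s h) (D2.V_gen T φ.2 s h)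
           V_mem := fun T φ s hs => h2 _ _ _ _ (D1.V_mem T φ.1 s hs) (D2.V_mem T φ.2 s hs) },
    Prod.fst, Prod.snd, fun T U φ g h => h3 _ _ _ _ _ _ h⟩

lemma exists_all : ∃ D' : Co M, ∀ φ T U g, D'.Hyp T U φ g → D.Hyp T U 1 g := by
  classical
  have := Fintype.ofFinite D.Φ
  have key : ∀ F : Finset D.Φ, ∃ (Z : Surf) (c : D.Φ → Artin M → Z.Mod)
      (V : Set S → D.Φ → Set Z.A), (∀ φ g h, c φ (g * h) = c φ g * c (φ * D.θ g) h) ∧
      (∀ T φ s, s ∈ T → V T (φ * D.θ (ag M s)) = V T φ) ∧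
      (∀ T φ s, s ∈ T → c φ (ag M s) ∈ Z.D (V T φ)) ∧
      ∀ φ ∈ F, ∀ T U g, Z.X (V T φ) (V U (φ * D.θ g)) (c φ g) → D.Hyp T U 1 g := by
    intro F
    induction F using Finset.induction_on with
    | empty => exact ⟨D.Z, D.c, D.V, D.c_mul, D.V_gen, D.V_mem, by simp⟩
    | insert a F _ ih =>
      obtain ⟨Z2, c, V, k1, k2, k3, k4⟩ := ih
      obtain ⟨Z, i1, i2, j, h1, h2, h3⟩ := D.Z.exists_prod Z2
      refine ⟨Z, fun φ g => i1 (D.c (a⁻¹ * φ) g) * i2 (c φ g),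
        fun T φ => j (D.V T (a⁻¹ * φ)) (V T φ), fun φ g h => ?_, fun T φ s h => ?_,
        fun T φ s hs => h2 _ _ _ _ (D.V_mem T _ s hs) (k3 T φ s hs), fun φ hφ T U g hc => ?_⟩
      · beta_reduce
        rw [D.c_mul, k1, map_mul, map_mul, mul_assoc a⁻¹]
        exact (h1 _ _).mul_mul_mul_comm _ _
      · beta_reduce
        rw [← mul_assoc, D.V_gen T _ s h, k2 T φ s h]
      · rcases Finset.mem_insert.mp hφ with rfl | hφ
        · have := (h3 _ _ _ _ _ _ hc).1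
          rwa [← mul_assoc, inv_mul_cancel] at this
        · exact k4 φ hφ T U g (h3 _ _ _ _ _ _ hc).2
  obtain ⟨Z, c, V, k1, k2, k3, k4⟩ := key Finset.univ
  exact ⟨⟨Z, D.Φ, D.θ, c, k1, V, k2, k3⟩, fun φ => k4 φ (Finset.mem_univ _)⟩

variable {D} in
lemma SepAt.sepP {J : Set S} (h : D.SepAt J 1) : ∃ D' : Co M, D'.SepP J := by
  obtain ⟨D', hD⟩ := D.exists_all
  exact ⟨D', fun φ T U g g' hg hg' hc => h T U g g' hg hg' (hD _ _ _ _ hc)⟩

end Co

lemma sepP_join' {J1 J2 : Set S} (h : J2 ⊆ cent M J1) (h1 : ∃ D : Co M, D.SepP J1)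
    (h2 : ∃ D : Co M, D.SepP J2) : ∃ D : Co M, D.SepP (J1 ∪ J2) := by
  obtain ⟨D1, h1⟩ := h1
  obtain ⟨D2, h2⟩ := h2
  have h' : J1 ⊆ cent M J2 := fun s hs =>
    ⟨fun h3 => (h h3).1 hs, fun t ht => M.symmetric s t ▸ (h ht).2 s hs⟩
  have c1 : cent M (J1 ∪ J2) ⊆ cent M J1 := fun t ht =>
    ⟨fun h3 => ht.1 (Or.inl h3), fun s hs => ht.2 s (Or.inl hs)⟩
  have c2 : cent M (J1 ∪ J2) ⊆ cent M J2 := fun t ht =>
    ⟨fun h3 => ht.1 (Or.inr h3), fun s hs => ht.2 s (Or.inr hs)⟩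
  have hc : ∀ {x y}, x ∈ pa M J1 → y ∈ pa M J2 → Commute x y := fun hx hy =>
    comm_cent hx (pa_mono h hy)
  obtain ⟨D, p1, p2, hD⟩ := D1.exists_prod D2
  refine ⟨D, fun φ T U g g' hg hg' hm => ?_⟩
  obtain ⟨x, hx, y, hy, rfl⟩ := mem2_union hc hg
  obtain ⟨a, ha, b, hb, rfl⟩ := h1 _ T U x (y * g') hx (mul_mem (pa_mono h hy) (pa_mono c1 hg'))
    (by rw [← mul_assoc]; exact (hD _ _ _ _ hm).1)
  obtain ⟨a', ha', b', hb', rfl⟩ := h2 _ T U y (a * b * g') hy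
    (mul_mem (pa_mono h' hx) (pa_mono c2 hg'))
    (by rw [← mul_assoc, ← (hc hx hy).eq]; exact (hD _ _ _ _ hm).2)
  have m1 : ∀ X : Set S, pa M (X ∩ J1) ≤ pa M (X ∩ (J1 ∪ J2)) := fun X =>
    pa_mono (Set.inter_subset_inter_right _ Set.subset_union_left)
  have m2 : ∀ X : Set S, pa M (X ∩ J2) ≤ pa M (X ∩ (J1 ∪ J2)) := fun X =>
    pa_mono (Set.inter_subset_inter_right _ Set.subset_union_right)
  exact ⟨a * a', mul_mem (m1 _ ha) (m2 _ ha'), b * b', mul_mem (m1 _ hb) (m2 _ hb'),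
    (hc (pa_mono Set.inter_subset_right hb)
      (pa_mono Set.inter_subset_right ha')).mul_mul_mul_comm _ _⟩

instance instFiniteWm {Φ R : Type} [Finite Φ] [Finite R] : Finite (Wm Φ R) :=
  Finite.of_injective (fun x : Wm Φ R => (x.c, x.a))
    (fun _ _ h => Wm.ext (congrArg Prod.fst h) (congrArg Prod.snd h))

/-- A cocycle with two layers of states. -/
lemma exists_two {Φ Ψ : Type} [Group Φ] [Group Ψ] [Finite Φ] [Finite Ψ] (θ : Artin M →* Φ)
    (Z : Surf) (c : Φ → Artin M → Wm Ψ Z.Mod)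
    (hc : ∀ φ g h, c φ (g * h) = c φ g * c (φ * θ g) h) (V : Set S → Φ → Ψ → Set Z.A)
    (h1 : ∀ T φ ψ s, s ∈ T → V T (φ * θ (ag M s)) (ψ * (c φ (ag M s)).a) = V T φ ψ)
    (h2 : ∀ T φ ψ s, s ∈ T → (c φ (ag M s)).c ψ ∈ Z.D (V T φ ψ)) :
    ∃ (D : Co M) (p : D.Φ → Φ) (q : D.Φ → Ψ), p 1 = 1 ∧ q 1 = 1 ∧ ∀ T U x g, D.Hyp T U x g →
      Z.X (V T (p x) (q x)) (V U (p x * θ g) (q x * (c (p x) g).a)) ((c (p x) g).c (q x)) := by
  let θ' : Artin M →* Wm Φ Ψ := MonoidHom.mk' (fun g => ⟨fun φ => (c φ g).a, θ g⟩)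
    (fun g h => by ext φ <;> simp [hc])
  refine ⟨{ Z := Z
            Φ := Wm Φ Ψ
            θ := θ'
            c := fun x g => (c x.a g).c (x.c 1)
            c_mul := fun x g h => by simp [hc, θ']
            V := fun T x => V T x.a (x.c 1)
            V_gen := fun T x s hs => by simpa [θ'] using h1 T x.a (x.c 1) s hs
            V_mem := fun T x s hs => h2 T x.a (x.c 1) s hs },
    fun x => x.a, fun x => x.c 1, rfl, rfl, fun T U x g h => ?_⟩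
  simpa [Co.Hyp, θ'] using h

end Pool.Agent.Lib.MP_19b52f_al.FC
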