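import Pool.Agent.Lib.MP_19b52f_al.FC.HubTau

/-! A disc with two new punctures is attached along the ends of some of the arcs. -/

namespace Pool.Agent.Lib.MP_19b52f_al.FC

open Pool.Agent.Lib.MP_19b52f_al.EA
open FreeGroup hiding map_mul map_inv map_one lift_unique

section
variable {S : Surf} {p : S.A → Prop}

lemma ho_cut {a : S.A} {w : FreeGroup S.Ω} (h : w ∈ S.cut a) :
    ho S p w ∈ gen {Sum.inl (S.ε a)}ᶜ :=
  map_mem_gen (X := {S.ε a}ᶜ) (fun _ hs => by exact fun h => hs (Sum.inl_injective h)) h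

lemma exists_hchi : ∃ χ : FreeGroup (HΩ S p) →* Multiplicative ℤ, (∀ w, χ (ho S p w) = 1) ∧
    (∀ a, χ (hN a) = 1) ∧ ∀ a, χ (ht a false) = Multiplicative.ofAdd 1 := by
  let χ : FreeGroup (HΩ S p) →* Multiplicative ℤ := lift (Sum.elim (fun _ => 1) (Sum.elim
    (fun x => cond x.2 (Multiplicative.ofAdd 1)⁻¹ (Multiplicative.ofAdd 1)) (fun _ => 1)))
  have h : ∀ w, χ (ho S p w) = 1 := fun w =>
    eq_on_gen (f := χ.comp (ho S p)) (g := 1) (fun s _ => by simp [χ]) (mem_gen_univ w)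
  refine ⟨χ, h, fun a => ?_, fun a => by simp [χ]⟩
  rw [hN, map_mul, h]
  simp [χ]

lemma exists_hrho : ∃ ρ : FreeGroup (HΩ S p) →* FreeGroup (HΩ S p),
    (∀ w, ρ (ho S p w) = ho S p w) ∧ (∀ a, ρ (hN a) = 1) ∧
    (∀ a, ρ (ht a false) = of (hx S p) * of (hz S p)) ∧
    ∀ a, p a → ∀ w ∈ gen {Sum.inl (S.ε a)}ᶜ, ρ w ∈ gen {Sum.inl (S.ε a)}ᶜ := by
  let ρ : FreeGroup (HΩ S p) →* FreeGroup (HΩ S p) := lift (Sum.elim (fun s => of (.inl s))
    (Sum.elim (fun x => cond x.2 ((of (he x.1))⁻¹ * (of (hx S p) * of (hz S p))⁻¹ *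
      (ho S p (S.v x.1))⁻¹) (of (hx S p) * of (hz S p))) (fun b => of (.inr (.inr b)))))
  have h : ∀ w, ρ (ho S p w) = ho S p w := fun w =>
    eq_on_gen (f := ρ.comp (ho S p)) (fun s _ => by simp [ρ]) (mem_gen_univ w)
  refine ⟨ρ, h, fun a => ?_, fun a => by simp [ρ], fun a ha w hw => map_mem_of_gen ρ ?_ hw⟩
  · rw [hN, map_mul, h]
    simp [ρ, mul_assoc]
  · have h1 : of (hx S p) * of (hz S p) ∈ gen {Sum.inl (S.ε a)}ᶜ :=
      mul_mem (of_mem_gen (by simp)) (of_mem_gen (by simp))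
    rintro (s | ⟨b, _ | _⟩ | b) hs
    · simpa [ρ] using of_mem_gen hs
    · simpa [ρ] using h1
    · have h2 : of (he b) ∈ gen ({Sum.inl (S.ε a)}ᶜ : Set (HΩ S p)) :=
        of_mem_gen (fun e => b.2 (S.inj (Sum.inl_injective e) ▸ ha))
      have h3 : ∀ s, (∀ b, S.ε b ≠ s) → Sum.inl s ∈ ({Sum.inl (S.ε a)}ᶜ : Set (HΩ S p)) :=
        fun s hs e => hs a (Sum.inl_injective e).symm
      simp only [ρ, lift_apply_of, Sum.elim_inr, Sum.elim_inl, cond_true, Surf.v, map_mul, map_inv,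
        map.of]
      exact mul_mem (mul_mem (inv_mem h2) (inv_mem h1)) (inv_mem (mul_mem (mul_mem
        (inv_mem (ho_gen h3 (S.r_mem b))) (inv_mem h2)) (ho_gen h3 (S.l_mem b))))
    · simpa [ρ] using of_mem_gen hs

variable [DecidablePred p] {π ψ : FreeGroup (HΩ S p) →* FreeGroup (HΩ S p)}
  {D : FreeGroup (HΩ S p) → (FreeGroup (HΩ S p) → ℤ) → ℤ} (H : HFox π ψ D)
include H

lemma HFox.exists_tauL {i : S.Mod →* (hub S p).Mod}
    (e1 : ∀ d w, (i d).1 (ho S p w) = ho S p (d.1 w))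
    (e2 : ∀ d s, (i d).1 (of (.inr s)) = of (.inr s)) (e3 : ∀ d a, (i d).1 (hN a) = hN a)
    {χ : FreeGroup (HΩ S p) →* Multiplicative ℤ} (c1 : ∀ w, χ (ho S p w) = 1)
    (c2 : ∀ a, χ (hN a) = 1) (c3 : ∀ a, χ (ht a false) = Multiplicative.ofAdd 1)
    {ρ : FreeGroup (HΩ S p) →* FreeGroup (HΩ S p)} (r1 : ∀ w, ρ (ho S p w) = ho S p w)
    (r2 : ∀ a, ρ (hN a) = 1) (r3 : ∀ a, ρ (ht a false) = of (hx S p) * of (hz S p))
    (L : List (HS S p)) (hL : L.Nodup) :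
    ∃ (T : (hub S p).Mod) (g : FreeGroup (HΩ S p)) (m : HS S p → FreeGroup (HΩ S p)),
      T ∈ (hub S p).D Set.univ ∧ (∀ s, (∀ a ∈ L, s ≠ he a) → T.1 (of s) = of s) ∧
      (∀ d, (∀ a ∈ L, d ∈ S.D {a.1}) → Commute T (i d)) ∧ Push π D T.1 g ∧
      g ∈ gen {hz S p}ᶜ ∧ g ∈ gen (hC S p) ∧
      (∀ a ∈ L, (∀ ℓ, D (T.1 (of (he a))) ℓ = -ℓ (m a)) ∧ m a ∈ gen {hz S p}ᶜ ∧
        0 ≤ (χ (m a)).toAdd) ∧ (∀ a ∈ L, ∀ b ∈ L, χ (m a) = χ (m b) → a = b) ∧
      ∀ d, Ends (hz S p) (ρ ((i d).1 g) * (of (hx S p) * of (hz S p))) ∧ ∀ Y, hx S p ∈ Y →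
        ρ ((i d).1 g) ∈ gen Y → ∀ b ∈ L, ho S p (d.1 (S.l b)) ∈ gen Y := by
  classical
  have x1 : of (hx S p) ∈ gen {hz S p}ᶜ := of_mem_gen (by simp)
  induction L with
  | nil =>
    refine ⟨1, 1, fun _ => 1, one_mem _, fun _ _ => rfl, fun _ _ => Commute.one_left _,
      ⟨fun _ => rfl, fun w ℓ => ?_⟩, one_mem _, one_mem _, by simp, by simp, fun d => ⟨?_, by simp⟩⟩
    · simp [H.dzero (H.pmem w)]
    · simpa using Ends.base x1 (Or.inl rfl)
  | cons a L ih =>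
    rw [List.nodup_cons] at hL
    obtain ⟨T, g, m, t1, t2, t3, t4, t5, t6, t7, t8, t9⟩ := ih hL.2
    obtain ⟨τ, O, hO, s1, s2, s3, s4, s5⟩ := H.exists_tau a
    have hK : ∀ K : Subgroup (FreeGroup (HΩ S p)), (∀ b, hN b ∈ K) → O ∈ K := fun K h =>
      (Subgroup.closure_le K).mpr (by rintro _ ⟨b, rfl⟩; exact h b) hO
    have hne : ∀ b, b ≠ a → he b ≠ he a := fun b hb e =>
      hb (Subtype.ext (S.inj (Sum.inl_injective e)))
    obtain ⟨h1, h2⟩ := hub_mod (T := τ) (fun s _ h => s1 s (h a)) s3 (by rw [s1 _ (by simp)])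
      (by rw [s1 _ (by simp)]; exact of_mem_gen (by simp)) (fun b => by
        by_cases e : b = a
        · exact e ▸ s2 _ hN_hC (fun s => of_mem_gen (by simp)) (ho_hC (S.l_mem a))
            (ho_hC (S.r_mem a)) (of_mem_gen (he_hC a))
        · rw [s1 _ (hne b e)]; exact of_mem_gen (he_hC b))
    have o1 : O * hN a ∈ gen {hz S p}ᶜ := xz_z (mul_mem (hK _ hN_xz) (hN_xz a))
    have o2 : χ O = 1 := hK χ.ker c2
    have o3 : ρ O = 1 := hK ρ.ker r2
    set lam := O * ht a false * ho S p (S.l a) * (O * hN a)⁻¹ with hlam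
    have l1 : lam ∈ gen {hz S p}ᶜ := mul_mem (mul_mem (mul_mem (xz_z (hK _ hN_xz))
      (of_mem_gen (by simp))) (xz_z (ho_xz _))) (inv_mem o1)
    have l2 : χ lam = Multiplicative.ofAdd 1 := by simp [hlam, o2, c1, c2, c3]
    have m2 : χ (ho S p (S.l a) * (O * hN a)⁻¹) = 1 := by simp [o2, c1, c2]
    have nb : ∀ b ∈ L, b ≠ a := fun b hb e => hL.1 (e ▸ hb)
    refine ⟨⟨τ, h1⟩ * T, g * lam,
      fun b => if b = a then ho S p (S.l a) * (O * hN a)⁻¹ else m b * lam, mul_mem h2 t1,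
      fun s hs => ?_, fun d hd => Commute.mul_left ?_ (t3 d fun b hb => hd b (by simp [hb])),
      s4.mul t4 (fun w => H.pfix (H.pmem w)), mul_mem t5 l1, mul_mem t6 ?_, fun b hb => ?_,
      fun b hb b' hb' e => ?_, fun d => ?_⟩
    · change τ (T.1 _) = _
      rw [t2 s fun b hb => hs b (by simp [hb]), s1 s (hs a (by simp))]
    · have hd' := hd a (by simp) a rfl
      have f1 : (i d).1 (of (he a)) = of (he a) := by
        rw [← map.of (f := Sum.inl), e1, d.2.2.1]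
      have f2 : d.1 (S.r a) = S.r a := by
        have : S.r a = (of (S.ε a))⁻¹ * S.l a * (S.v a)⁻¹ := by rw [Surf.v]; group
        rw [this, map_mul, map_mul, map_inv, map_inv, d.2.2.1, hd'.1, d.2.2.2.1]
      refine Subtype.ext (aut_ext fun s => ?_)
      change τ ((i d).1 _) = (i d).1 (τ _)
      by_cases e : s = he a
      · rw [e, f1]
        exact (s2 ((i d).1.toMonoidHom.eqLocus (MonoidHom.id _)) (e3 d) (e2 d)
          ((e1 d _).trans (congrArg _ hd'.1)) ((e1 d _).trans (congrArg _ f2)) f1).symm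
      · rw [s1 s e]
        refine aut_fix_gen τ s1 ?_
        rcases s with s | s
        · rw [← map.of (f := Sum.inl), e1]
          exact ho_cut (hd'.2 _ (of_mem_gen fun h => e (congrArg _ h)))
        · rw [e2]; exact of_mem_gen e
    · exact mul_mem (mul_mem (mul_mem (hK _ hN_hC) (of_mem_gen (by simp))) (ho_hC (S.l_mem a)))
        (inv_mem (mul_mem (hK _ hN_hC) (hN_hC a)))
    · change (∀ ℓ, D (τ (T.1 _)) ℓ = _) ∧ _
      beta_reduce
      rcases List.mem_cons.mp hb with rfl | hb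
      · rw [if_pos rfl, t2 _ fun c hc => (hne c (nb c hc)).symm, m2]
        exact ⟨s5, mul_mem (xz_z (ho_xz _)) (inv_mem o1), le_rfl⟩
      · obtain ⟨u1, u2, u3⟩ := t7 b hb
        rw [if_neg (nb b hb)]
        refine ⟨fun ℓ => ?_, mul_mem u2 l1, by rw [map_mul, l2, toAdd_mul, toAdd_ofAdd]; omega⟩
        rw [s4.2, u1, t4.1, H.p2 _ (by simp), s1 _ (hne b (nb b hb)), H.d2 _ (by simp), add_zero]
    · have key : ∀ c ∈ L, χ (m c * lam) ≠ 1 := fun c hc h => by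
        have h3 := (t7 c hc).2.2
        have h4 := congrArg Multiplicative.toAdd h
        rw [map_mul, l2, toAdd_mul, toAdd_ofAdd, toAdd_one] at h4
        omega
      rcases List.mem_cons.mp hb with rfl | k1 <;> rcases List.mem_cons.mp hb' with rfl | k2
      · rfl
      · simp only [if_pos, if_neg (nb _ k2), m2] at e
        exact absurd e.symm (key _ k2)
      · simp only [if_pos, if_neg (nb _ k1), m2] at e
        exact absurd e (key _ k1)
      · simp only [if_neg (nb _ k1), if_neg (nb _ k2), map_mul, mul_left_inj] at e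
        exact t8 _ k1 _ k2 e
    · have f1 : (i d).1 O = O := hK ((i d).1.toMonoidHom.eqLocus (MonoidHom.id _)) (e3 d)
      have f2 : ρ ((i d).1 (g * lam)) =
          ρ ((i d).1 g) * (of (hx S p) * of (hz S p)) * ho S p (d.1 (S.l a)) := by
        simp only [hlam, map_mul, map_inv, f1, e1, e2, e3, o3, r1, r2, r3]
        group
      rw [f2]
      refine ⟨?_, fun Y hY h b hb => ?_⟩
      · have := Ends.step (t9 d).1 (mul_mem (xz_z (ho_xz (d.1 (S.l a)))) x1) (fun h => by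
          have h3 := xz_x (ho_xz (p := p) (d.1 (S.l a)))
          rw [mul_eq_one_iff_eq_inv.mp h, inv_mem_iff] at h3
          exact mem_of_of_mem_gen h3 rfl) (Or.inl rfl)
        simpa only [mul_assoc] using this
      · obtain ⟨h3, h4⟩ := (t9 d).1.suffix (xz_z (ho_xz _)) h
        rcases List.mem_cons.mp hb with rfl | hb
        · exact h3
        · refine (t9 d).2 Y hY ?_ b hb
          simpa only [mul_inv_cancel_right] using mul_mem (mul_mem h (inv_mem h3))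
            (inv_mem (mul_mem (of_mem_gen hY) (of_mem_gen h4)))

lemma HFox.detect {T : MulAut (FreeGroup (HΩ S p))} (hT : ∀ w, π (T w) = π w) {L : List (HS S p)}
    {m : HS S p → FreeGroup (HΩ S p)} {χ : FreeGroup (HΩ S p) →* Multiplicative ℤ}
    (c1 : ∀ w, χ (ho S p w) = 1) (t2 : ∀ s, (∀ a ∈ L, s ≠ he a) → T (of s) = of s)
    (t7 : ∀ a ∈ L, (∀ ℓ, D (T (of (he a))) ℓ = -ℓ (m a)) ∧ m a ∈ gen {hz S p}ᶜ)
    (t8 : ∀ a ∈ L, ∀ b ∈ L, χ (m a) = χ (m b) → a = b) :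
    (∀ w ℓ, (∀ y ∈ gen {hz S p}ᶜ, ℓ y = 0) → D (T (ho S p w)) ℓ = 0) ∧
    ∀ a ∈ L, ∃ ℓ : FreeGroup (HΩ S p) → ℤ, (∀ y, ℓ y ≠ 0 → y ∈ gen {hz S p}ᶜ) ∧
      ∀ w ∉ S.cut a, D (T (ho S p w)) ℓ ≠ 0 := by
  classical
  have hc : Cr (ho S p) (fun w => D (T (ho S p w))) := fun u v ℓ => by
    simp only [map_mul, H.cr _ _ ℓ, H.qT hT, H.qfix (ho_xz u)]
  have h0 : ∀ s, (∀ b ∈ L, s ≠ S.ε b) → ∀ ℓ, D (T (ho S p (of s))) ℓ = 0 := fun s hs ℓ => by
    rw [map.of, t2 _ fun b hb e => hs b hb (Sum.inl_injective e), H.d2 _ (by simp)]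
  refine ⟨fun w ℓ hl => hc.supp (gen {hz S p}ᶜ) (fun s _ => xz_z (ho_xz _)) (fun s _ ℓ hl => ?_)
    (mem_gen_univ w) ℓ hl, fun a ha => ?_⟩
  · by_cases h : ∃ b ∈ L, s = S.ε b
    · obtain ⟨b, hb, rfl⟩ := h
      simp only [map.of, (t7 b hb).1, hl _ (t7 b hb).2, neg_zero]
    · exact h0 s (by simpa using h) ℓ
  let ind : FreeGroup S.Ω → ℤ := fun u => if u ∈ S.cut a then 1 else 0
  let ℓ : FreeGroup (HΩ S p) → ℤ := fun y => if y ∈ gen {hz S p}ᶜ ∧ χ y = χ (m a) then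
    ind (back Sum.inl (y * (m a)⁻¹) * of (S.ε a)) - ind (back Sum.inl (y * (m a)⁻¹)) else 0
  have h1 : ∀ u s, s ≠ S.ε a → ind (u * of s) = ind u := fun u s hs => by
    simp only [ind, (S.cut a).mul_mem_cancel_right (of_mem_gen hs)]
  have key : ∀ w u, D (T (ho S p w)) (fun y => ℓ (ho S p u * y)) = ind u - ind (u * w) := by
    intro w
    induction w using FreeGroup.induction_on with
    | C1 => simp [H.cr.one]
    | of s =>
      intro u
      by_cases h : ∃ b ∈ L, s = S.ε b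
      · obtain ⟨b, hb, rfl⟩ := h
        rw [map.of, (t7 b hb).1]
        by_cases e : b = a
        · subst e
          simp only [ℓ]
          rw [if_pos ⟨mul_mem (xz_z (ho_xz u)) (t7 b hb).2, by rw [map_mul, c1, one_mul]⟩,
            mul_inv_cancel_right, back_map Sum.inl_injective, neg_sub]
        · simp only [ℓ]
          rw [if_neg fun h => e (t8 b hb a ha (by simpa [c1] using h.2)),
            h1 u _ fun h => e (Subtype.ext (S.inj h))]
          simp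
      · rw [h0 s (by simpa using h), h1 u s fun e => h ⟨a, ha, e⟩, sub_self]
    | inv_of s ih =>
      intro u
      have := ih (u * (of s)⁻¹)
      rw [hc.inv]
      simp only [map_mul, map_inv, mul_assoc, inv_mul_cancel, mul_one] at this ⊢
      omega
    | mul x y hx hy =>
      intro u
      have := hy (u * x)
      refine (hc x y _).trans ?_
      beta_reduce
      rw [hx]
      simp only [map_mul, mul_assoc] at this ⊢
      omega
  refine ⟨ℓ, fun y hy => ?_, fun w hw => ?_⟩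
  · by_contra h
    exact hy (if_neg fun h2 => h h2.1)
  · have := key w 1
    simp only [map_one, one_mul, ind, one_mem, if_true, if_neg hw] at this
    exact fun h => by simp [h] at this

end

theorem Surf.exists_hub (S : Surf) (p : S.A → Prop) : ∃ (S' : Surf) (i : S.Mod →* S'.Mod)
    (k : S'.A → S.A) (t : Set S.A → S'.Mod) (W : Set S.A → S'.A → S'.Mod → Prop),
    (∀ a, p a → ∃ a', k a' = a) ∧ (∀ a', p (k a')) ∧
    (∀ α d, d ∈ S.D α → i d ∈ S'.D (k ⁻¹' α)) ∧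
    (∀ σ, t σ ∈ S'.D Set.univ) ∧ (∀ σ d, d ∈ S.D σ → Commute (t σ) (i d)) ∧
    (∀ a b d, S'.Y a b (i d) → S.Y (k a) (k b) d) ∧
    (∀ σ a b d T, a ∈ σ → ¬ p a → ¬ S.Y a (k b) d → T = t σ ∨ T = (t σ)⁻¹ → W σ b (T * i d)) ∧
    (∀ σ σ' a b b' d r T, W σ b r → b' ∈ σ → ¬ p b' → ¬ S.Y (k a) b' d →
      T = t σ' ∨ T = (t σ')⁻¹ → W σ' b (T * (i d * r))) ∧
    ∀ σ a b b' d r, W σ b r → b' ∈ σ → ¬ p b' → ¬ S.Y (k a) b' d → ¬ S'.Y a b (i d * r) := by
  classical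
  obtain ⟨π, ψ, D, H⟩ := exists_hfox (S := S) (p := p)
  obtain ⟨i, e1, e2, e3⟩ := exists_hub_ext (S := S) (p := p)
  obtain ⟨χ, c1, c2, c3⟩ := exists_hchi (S := S) (p := p)
  obtain ⟨ρ, r1, r2, r3, r4⟩ := exists_hrho (S := S) (p := p)
  obtain ⟨Z, z1, z2, z3, z4, z5⟩ := H.exists_zeta
  let L : Set S.A → List (HS S p) := fun σ => (hL S p).filter (fun a => a.1 ∈ σ)
  have hL' : ∀ σ a, a ∈ L σ ↔ a.1 ∈ σ := fun σ a => by simp [L, hL]
  choose τ g m t1 t2 t3 t4 t5 t6 t7 t8 t9 using fun σ =>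
    H.exists_tauL e1 e2 e3 c1 c2 c3 r1 r2 r3 (L σ) ((Finset.nodup_toList _).filter _)
  have dt := fun σ => H.detect (t4 σ).1 c1 (t2 σ) (fun a ha => ⟨(t7 σ a ha).1, (t7 σ a ha).2.1⟩)
    (t8 σ)
  have ec := fun d : S.Mod => H.ext_comm (e1 d) (e2 d) (e3 d)
  have hback : ∀ (a : S.A) w, ho S p w ∈ gen {Sum.inl (S.ε a)}ᶜ → w ∈ S.cut a := fun a w h =>
    gen_mono (fun s hs => by exact fun e => hs (congrArg _ e))
      (mem_gen_of_map Sum.inl_injective h)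
  have hK : ∀ σ (a : {a // p a}) b' d, b' ∈ σ → ¬ p b' → ¬ S.Y a b' d →
      (i d).1 (g σ) ∉ gen {Sum.inl (S.ε a)}ᶜ := fun σ a b' d h1 h2 h3 h => h3 (hback _ _
    ((t9 σ d).2 _ (by simp) (r4 _ a.2 _ h) ⟨b', h2⟩ ((hL' _ _).mpr h1)))
  have hz1 : ∀ d : S.Mod, ∀ w ∈ gen {hz S p}ᶜ, (i d).1 w ∈ gen {hz S p}ᶜ := fun d w hw =>
    aut_mem_of_gen _ (by
      rintro (s | s) hs
      · rw [← map.of (f := Sum.inl), e1]; exact xz_z (ho_xz _)
      · rw [e2]; exact of_mem_gen hs) hw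
  have hE : ∀ (d : S.Mod) u, Ends (hz S p) u → Ends (hz S p) ((i d).1 u) := fun d u hu =>
    hu.map _ (e2 d _) (hz1 d)
  have hT : ∀ σ T, T = τ σ * Z * (τ σ)⁻¹ ∨ T = (τ σ * Z * (τ σ)⁻¹)⁻¹ →
      ∃ z, (z = of (hz S p) ∨ z = (of (hz S p))⁻¹) ∧ ∀ w, π (T.1 w) = π w ∧ ∀ ℓ, D (T.1 w) ℓ =
        D w (fun y => ℓ (y * ((g σ)⁻¹ * z * g σ))) + D ((τ σ).1 (π w)) ℓ -
          D ((τ σ).1 (π w)) (fun y => ℓ (y * ((g σ)⁻¹ * z * g σ))) := by
    rintro σ _ (rfl | rfl)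
    · exact ⟨_, Or.inl rfl, (t4 σ).conj z4 z5⟩
    · refine ⟨_, Or.inr rfl, fun w => ?_⟩
      have := (t4 σ).conj (Z := Z.1⁻¹) (z := (of (hz S p))⁻¹) (fun w => by rw [← z4]; simp)
        (fun w ℓ => by
          have := z5 (Z.1⁻¹ w) (fun y => ℓ (y * (of (hz S p))⁻¹))
          simpa using this.symm) w
      rwa [show (τ σ).1 * Z.1⁻¹ * (τ σ).1⁻¹ = ((τ σ * Z * (τ σ)⁻¹)⁻¹).1 by simp [mul_assoc]] at this
  refine ⟨hub S p, i, Subtype.val, fun σ => τ σ * Z * (τ σ)⁻¹, fun σ b r =>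
    π (r.1 (ho S p (S.l b))) ∈ (ho S p).range ∧ ∃ ℓ : FreeGroup (HΩ S p) → ℤ,
      (∀ y, ℓ y ≠ 0 → ∃ u, Ends (hz S p) u ∧ y = u * g σ) ∧ D (r.1 (ho S p (S.l b))) ℓ ≠ 0,
    fun a h => ⟨⟨a, h⟩, rfl⟩, fun a => a.2, fun α d hd a ha => ⟨?_, fun w hw => ?_⟩,
    fun σ => mul_mem (mul_mem (t1 σ) z1) (inv_mem (t1 σ)), fun σ d hd => ?_,
    fun a b d h => hback _ _ (e1 d _ ▸ h), fun σ a b d T h1 h2 h3 h4 => ?_,
    fun σ σ' a b b' d r T hW h1 h2 h3 h4 => ?_, fun σ a b b' d r hW h1 h2 h3 h4 => ?_⟩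
  · exact (e1 d _).trans (congrArg _ (hd a ha).1)
  · refine aut_mem_of_gen _ ?_ hw
    rintro (s | s) hs
    · rw [← map.of (f := Sum.inl), e1]
      exact ho_cut ((hd a ha).2 _ (of_mem_gen fun h => hs (congrArg _ h)))
    · rw [e2]; exact of_mem_gen hs
  · have h1 := t3 σ d fun a ha =>
      S.D_mono (Set.singleton_subset_iff.mpr ((hL' _ _).mp ha)) hd
    refine (h1.mul_left ?_).mul_left h1.inv_left
    refine Subtype.ext (aut_ext fun s => ?_)
    change Z.1 ((i d).1 _) = (i d).1 (Z.1 _)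
    by_cases e : s = hx S p
    · have f1 : (i d).1 (hP S p) = hP S p :=
        hP_mem (K := (i d).1.toMonoidHom.eqLocus (MonoidHom.id _)) (e3 d)
      simp only [e, e2, z3, map_mul, map_inv, f1]
    · rw [z2 s e]
      refine aut_fix_gen Z.1 z2 ?_
      rcases s with s | s
      · rw [← map.of (f := Sum.inl), e1]; exact xz_x (ho_xz _)
      · rw [e2]; exact of_mem_gen e
  · obtain ⟨z, hz', f⟩ := hT σ T h4
    obtain ⟨ℓ, l1, l2⟩ := (dt σ).2 ⟨a, h2⟩ ((hL' _ _).mpr h1)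
    have f0 : (T * i d).1 (ho S p (S.l b)) = T.1 (ho S p (d.1 (S.l b))) := congrArg T.1 (e1 d _)
    have f1 := H.pfix (xz_x (ho_xz (p := p) (d.1 (S.l b))))
    have f2 : ∀ y, ℓ (y * ((g σ)⁻¹ * z * g σ)⁻¹) ≠ 0 → ∃ u, Ends (hz S p) u ∧ y = u * g σ :=
      fun y hy => ⟨_, Ends.base (mul_mem (l1 _ hy) (inv_mem (t5 σ))) hz', by group⟩
    rw [f0]
    refine ⟨⟨_, ((f _).1.trans f1).symm⟩, _, f2, ?_⟩
    rw [(f _).2, f1, H.dzero (xz_x (ho_xz _)), (dt σ).1 _ _ fun y hy => by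
      by_contra h
      obtain ⟨u, hu, rfl⟩ := f2 y h
      exact hu.not_mem (t5 σ) hy]
    simpa only [mul_inv_cancel_right, add_zero, zero_sub, neg_ne_zero] using l2 _ h3
  · obtain ⟨z, hz', f⟩ := hT σ' T h4
    obtain ⟨⟨w, hw⟩, ℓ, l1, l2⟩ := hW
    have f1 : π ((i d).1 (r.1 (ho S p (S.l b)))) = ho S p (d.1 w) := by rw [(ec d _).1, ← hw, e1]
    have f3 : ∀ y, ℓ ((i d).1⁻¹ y) ≠ 0 → ∃ u, Ends (hz S p) u ∧ y = u * (i d).1 (g σ) := by
      intro y hy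
      obtain ⟨u, hu, e⟩ := l1 _ hy
      exact ⟨_, hE d u hu, by rw [← map_mul, ← e]; simp⟩
    have f2 : ∀ y, ℓ ((i d).1⁻¹ (y * ((g σ')⁻¹ * z * g σ')⁻¹)) ≠ 0 →
        ∃ u, Ends (hz S p) u ∧ y = u * g σ' := by
      intro y hy
      obtain ⟨u, hu, e⟩ := f3 _ hy
      refine ⟨_, Ends.step hu (mul_mem (hz1 d _ (t5 σ)) (inv_mem (t5 σ'))) (fun h => ?_) hz', ?_⟩
      · exact hK σ a b' d h1 h2 h3 (mul_inv_eq_one.mp h ▸ (hub S p).le_cut a (t6 σ'))
      · rw [mul_inv_eq_iff_eq_mul.mp e]; group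
    have f0 : (T * (i d * r)).1 (ho S p (S.l b)) = T.1 ((i d).1 (r.1 (ho S p (S.l b)))) := rfl
    rw [f0]
    refine ⟨⟨_, ((f _).1.trans f1).symm⟩, _, f2, ?_⟩
    rw [(f _).2, f1, (ec d _).2, (dt σ').1 _ _ fun y hy => by
      by_contra h
      obtain ⟨u, hu, rfl⟩ := f2 y h
      exact hu.not_mem (t5 σ') hy, (dt σ').1 _ _ fun y hy => by
      by_contra h
      obtain ⟨u, hu, rfl⟩ := f3 y (by simpa only [mul_inv_cancel_right] using h)
      exact hu.not_mem (hz1 d _ (t5 σ)) hy]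
    simpa only [mul_inv_cancel_right, MulAut.inv_apply_self, add_zero, sub_zero] using l2
  · obtain ⟨-, ℓ, l1, l2⟩ := hW
    have f1 : gen (hC S p) ≤ gen {Sum.inl (S.ε a.1)}ᶜ := (hub S p).le_cut a
    have := H.cr.supp (X := {Sum.inl (S.ε a.1)}ᶜ) (gen {Sum.inl (S.ε a.1)}ᶜ) (fun s hs => by
        by_cases c1 : s = hx S p
        · rw [c1, H.q1]; exact of_mem_gen (by simp)
        · by_cases c2 : s = hz S p
          · rw [c2, H.q2]; exact mul_mem (inv_mem (f1 (hP_mem hN_hC))) (of_mem_gen (by simp))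
          · rw [H.q3 s c1 c2]; exact of_mem_gen hs)
      (fun s _ ℓ hl => by
        by_cases c1 : s = hx S p
        · rw [c1, H.d1, hl _ (one_mem _)]
        · exact H.d2 s c1 ℓ) h4 (fun y => ℓ ((i d).1⁻¹ y)) (fun y hy => by
        by_contra h
        obtain ⟨u, hu, e⟩ := l1 _ h
        have e' : y = (i d).1 u * (i d).1 (g σ) := by rw [← map_mul, ← e]; simp
        exact hK σ a b' d h1 h2 h3 ((hE d u hu).suffix (hz1 d _ (t5 σ)) (e' ▸ hy)).1)
    change D ((i d).1 (r.1 (ho S p (S.l b)))) _ = 0 at this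
    rw [(ec d _).2] at this
    exact l2 (by simpa using this)

end Pool.Agent.Lib.MP_19b52f_al.FC
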