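import Pool.Agent.Lib.MP_19b52f_al.FC.Dup
import Pool.Agent.Lib.MP_19b52f_al.FC.Hub

/-! The cone over a surface with arcs. -/

namespace Pool.Agent.Lib.MP_19b52f_al.FC

theorem Surf.exists_cone (S : Surf) : ∃ (S' : Surf) (i : S.Mod →* S'.Mod)
    (j : Set S.A → Set S'.A) (t : Set S.A → S'.Mod) (W : Set S.A → Set S.A → S'.Mod → Prop),
    (∀ α d, d ∈ S.D α → i d ∈ S'.D (j α)) ∧ (∀ α β, t α ∈ S'.D β) ∧
    (∀ α d, d ∈ S.D α → Commute (t α) (i d)) ∧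
    (∀ α β d, S'.X (j α) (j β) (i d) → S.X α β d) ∧
    (∀ α β d T, ¬ S.X α β d → T = t α ∨ T = (t α)⁻¹ → W α β (T * i d)) ∧
    (∀ α α' β d r T, W α β r → ¬ S.X α' α d → T = t α' ∨ T = (t α')⁻¹ →
      W α' β (T * (i d * r))) ∧
    ∀ α β γ d r, W α β r → ¬ S.X γ α d → ¬ S'.X (j γ) (j β) (i d * r) := by
  obtain ⟨S2, i2, k2, u2, a1, a2, a3, a4⟩ := S.exists_dup
  obtain ⟨S4, i4, k4, u4, b1, b2, b3, b4⟩ := S2.exists_dup
  let p : S4.A → Prop := fun x => ∃ a, x = u4 true (u2 false a)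
  obtain ⟨S', i, k, t, W, c1, c2, c3, c4, c5, c6, c7, c8, c9⟩ := S4.exists_hub p
  let j4 : Set S.A → Set S4.A := fun α => k4 ⁻¹' (k2 ⁻¹' α)
  have hj : ∀ {α a} s s', a ∈ α → u4 s (u2 s' a) ∈ j4 α := fun s s' h => by
    simpa [j4, a1, b1] using h
  have hs : ∀ a, ∃ a', k a' = u4 true (u2 false a) := fun a => c1 _ ⟨a, rfl⟩
  have hY : ∀ s1 s2 s3 s4 a b d, s3 ≤ s1 → s4 ≤ s2 →
      S4.Y (u4 s1 (u2 s2 a)) (u4 s3 (u2 s4 b)) (i4 (i2 d)) → S.Y a b d :=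
    fun s1 s2 s3 s4 a b d h1 h2 h => a4 _ _ _ _ _ h2 (b4 _ _ _ _ _ h1 h)
  have n1 : ∀ a, ¬ p (u4 true (u2 true a)) := by
    rintro a ⟨b, h⟩
    have := congrArg k4 h
    rw [b1, b1] at this
    exact a2 _ _ this.symm
  have n2 : ∀ a, ¬ p (u4 false (u2 false a)) := fun a ⟨b, h⟩ => b2 _ _ h
  refine ⟨S', i.comp (i4.comp i2), fun α => k ⁻¹' j4 α, fun α => t (j4 α),
    fun α β r => ∃ b ∈ k ⁻¹' j4 β, W (j4 α) b r, fun α d h => c3 _ _ (b3 _ _ (a3 _ _ h)),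
    fun α β => S'.D_mono (Set.subset_univ β) (c4 _), fun α d h => c5 _ _ (b3 _ _ (a3 _ _ h)),
    fun α β d h a ha b hb => ?_, fun α β d T h hT => ?_, fun α α' β d r T hW h hT => ?_,
    fun α β γ d r hW h hX => ?_⟩
  · obtain ⟨a', e1⟩ := hs a
    obtain ⟨b', e2⟩ := hs b
    have := c6 _ _ _ (h a' (by simpa [e1] using hj _ _ ha) b' (by simpa [e2] using hj _ _ hb))
    rw [e1, e2] at this
    exact hY _ _ _ _ _ _ _ le_rfl le_rfl this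
  · simp only [Surf.X, not_forall] at h
    obtain ⟨a, ha, b, hb, h⟩ := h
    obtain ⟨b', e2⟩ := hs b
    refine ⟨b', by simpa [e2] using hj _ _ hb, c7 _ _ _ _ _ (hj true true ha) (n1 a) ?_ hT⟩
    rw [e2]
    exact fun h1 => h (hY _ _ _ _ _ _ _ le_rfl (by decide) h1)
  · simp only [Surf.X, not_forall] at h
    obtain ⟨a, ha, b, hb, h⟩ := h
    obtain ⟨a', e1⟩ := hs a
    obtain ⟨x, hx, hW⟩ := hW
    refine ⟨x, hx, c8 _ _ a' _ _ _ _ _ hW (hj false false hb) (n2 b) ?_ hT⟩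
    rw [e1]
    exact fun h1 => h (hY _ _ _ _ _ _ _ (by decide) le_rfl h1)
  · simp only [Surf.X, not_forall] at h
    obtain ⟨a, ha, b, hb, h⟩ := h
    obtain ⟨a', e1⟩ := hs a
    obtain ⟨x, hx, hW⟩ := hW
    refine c9 _ a' _ _ _ _ hW (hj false false hb) (n2 b) ?_
      (hX a' (by simpa [e1] using hj _ _ ha) x hx)
    rw [e1]
    exact fun h1 => h (hY _ _ _ _ _ _ _ (by decide) le_rfl h1)

end Pool.Agent.Lib.MP_19b52f_al.FC
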