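import Pool.Agent.Lib.MP_19b52f_al.EA.Defs

/-! Irreducible sets of generators, their types, and the algebraic model of mapping class groups. -/

namespace Pool.Agent.Lib.MP_19b52f_al.FC

/-- A nonempty set of generators that is not a union of two nonempty parts with all labels `2`
between them. -/
def Irred {S : Type*} (M : CoxeterMatrix S) (T : Set S) : Prop :=
  T.Nonempty ∧ ∀ K ⊆ T, K.Nonempty → (∀ s ∈ K, ∀ t ∈ T \ K, M s t = 2) → K = T

/-- The Coxeter matrix restricted to `T` is the matrix `N` up to a renaming of the generators. -/
def HasType {S I : Type*} (M : CoxeterMatrix S) (T : Set S) (N : CoxeterMatrix I) : Prop :=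
  ∃ e : I ≃ T, ∀ i j, M (e i) (e j) = N i j

/-- The free group on `a i`, `b i` (for `i < g`) and `x j` (for `j < n`): the fundamental group of
the closed oriented surface of genus `g` with `n + 1` punctures. -/
abbrev SurfFree (g n : ℕ) : Type := FreeGroup ((Fin g × Bool) ⊕ Fin n)

/-- The loops around the `n + 1` punctures: the generators `x j`, and the inverse of
the product of the commutators of `a i` and `b i` followed by the product of the `x j`. -/
def puncture (g n : ℕ) : Option (Fin n) → SurfFree g n
  | some j => FreeGroup.of (Sum.inr j)
  | none => ((List.ofFn fun i : Fin g =>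
      FreeGroup.of (Sum.inl (i, false)) * FreeGroup.of (Sum.inl (i, true)) *
        (FreeGroup.of (Sum.inl (i, false)))⁻¹ * (FreeGroup.of (Sum.inl (i, true)))⁻¹).prod *
      (List.ofFn fun j : Fin n => FreeGroup.of (Sum.inr j)).prod)⁻¹

/-- The inner automorphisms. -/
def Inn (G : Type*) [Group G] : Subgroup (MulAut G) := (MulAut.conj : G →* MulAut G).range

instance instNormalInn (G : Type*) [Group G] : (Inn G).Normal where
  conj_mem := by
    rintro _ ⟨x, rfl⟩ f
    exact ⟨f x, by ext y; simp⟩

/-- The group of outer automorphisms. -/
abbrev OutAut (G : Type*) [Group G] : Type _ := MulAut G ⧸ Inn G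

/-- The group `G` embeds into the group of outer automorphisms of `F`, and the image consists of
classes of automorphisms that send each member of the family `p` to a conjugate of a member. -/
def EmbedsInOut (G F : Type*) [Group G] [Group F] {I : Type*} (p : I → F) : Prop :=
  ∃ f : G →* OutAut F, Function.Injective f ∧
    ∀ x, ∃ φ : MulAut F, f x = QuotientGroup.mk φ ∧ ∀ i, ∃ j, IsConj (p j) (φ (p i))

/-- The group embeds into the group of outer automorphisms of the fundamental group of a
punctured surface of negative Euler characteristic, and the image consists of classes of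
automorphisms that send loops around punctures to conjugates of loops around punctures. -/
def EmbedsInMCG (G : Type*) [Group G] : Prop :=
  ∃ g n : ℕ, 2 ≤ 2 * g + n ∧ EmbedsInOut G (SurfFree g n) (puncture g n)

end Pool.Agent.Lib.MP_19b52f_al.FC
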