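import Pool.Agent.Lib.MP_19b52f_al.FC.Surf

/-! Every arc is replaced by two parallel copies. -/

namespace Pool.Agent.Lib.MP_19b52f_al.FC

open Pool.Agent.Lib.MP_19b52f_al.EA
open FreeGroup hiding map_mul map_inv map_one lift_unique

lemma dup_b (S : Surf) : ∃ b : MulAut (FreeGroup (S.Ω ⊕ S.A × Bool)),
    (∀ a, b (of (.inl (S.ε a))) = (of (.inr (a, false)) * of (.inl (S.ε a)) : FreeGroup (_ ⊕ _))) ∧
    (∀ x ∉ Set.range S.ε, b (of (.inl x)) = of (.inl x)) ∧
    (∀ a, b (of (.inr (a, false))) = of (.inr (a, false))) ∧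
    ∀ a, b (of (.inr (a, true))) =
      ((of (.inr (a, true)))⁻¹ * (of (.inr (a, false)))⁻¹ * map .inl (S.l a) :
        FreeGroup (S.Ω ⊕ S.A × Bool)) := by
  have i1 : Function.Injective fun a => (Sum.inl (S.ε a) : S.Ω ⊕ S.A × Bool) :=
    Sum.inl_injective.comp S.inj
  obtain ⟨f, f1, f2⟩ := exists_elem (Set.range fun a => (Sum.inl (S.ε a) : S.Ω ⊕ S.A × Bool))
    (Function.extend (fun a => Sum.inl (S.ε a)) (fun a => of (.inr (a, false))) 1) (fun _ => 1)
    (by
      rintro _ ⟨a, rfl⟩
      rw [i1.extend_apply]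
      exact of_mem_gen (by simp)) (fun _ _ => one_mem _)
  obtain ⟨g, g1, g2⟩ := exists_elem' (Set.range fun a => (Sum.inr (a, true) : S.Ω ⊕ S.A × Bool))
    (fun _ => 1) (Sum.elim 1 fun p => (of (.inr (p.1, false)))⁻¹ * map .inl (S.l p.1))
    (fun _ _ => one_mem _) (by
      rintro _ ⟨a, rfl⟩
      exact mul_mem (inv_mem (of_mem_gen (by simp)))
        (map_mem_gen (fun s _ => by simp) (mem_gen_univ _)))
  have f3 : ∀ x ∉ Set.range S.ε, f (of (.inl x)) = of (.inl x) := fun x hx =>
    f2 _ (by simpa using hx)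
  have f4 : ∀ p, f (of (.inr p)) = of (.inr p) := fun p => f2 _ (by simp)
  refine ⟨f * g, fun a => ?_, fun x hx => ?_, fun a => ?_, fun a => ?_⟩
  · rw [MulAut.mul_apply, g2 _ (by simp), f1 _ ⟨a, rfl⟩, i1.extend_apply, mul_one]
  · rw [MulAut.mul_apply, g2 _ (by simp), f3 x hx]
  · rw [MulAut.mul_apply, g2 _ (by simp), f4]
  · have : f (map .inl (S.l a)) = map .inl (S.l a) :=
      aut_fix_gen f (X := Sum.inl '' (Set.range S.ε)ᶜ) (by rintro _ ⟨x, hx, rfl⟩; exact f3 x hx)
        (map_mem_gen (fun s hs => Set.mem_image_of_mem _ hs) (S.l_mem a))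
    rw [MulAut.mul_apply, g1 _ ⟨a, rfl⟩]
    simp only [Sum.elim_inr, one_mul, map_mul, map_inv, f4, this, mul_assoc]

lemma dup_map {α β γ : Type} (f : α → β) (T : Finset γ) (g : γ → Multiset α) :
    (∑ a ∈ T, g a).map f = ∑ a ∈ T, (g a).map f :=
  map_sum (Multiset.mapAddMonoidHom f) g T

lemma dup_std {Ω A : Type} (x y : A → FreeGroup Ω) (T : Finset A) :
    ∀ R : Multiset (ConjClasses (FreeGroup (Ω ⊕ A × Bool))),
    SStd (Set.range Sum.inl) (R + ∑ a ∈ T, cl (map .inl (x a)) ::ₘ {cl (map .inl (y a))}) →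
    SStd {s | ∀ p, s = .inr p → p.1 ∈ T} (R + ∑ a ∈ T,
      cl (of (.inr (a, false))) ::ₘ cl (of (.inr (a, true))) ::ₘ
        cl ((of (.inr (a, false)))⁻¹ * map .inl (x a) : FreeGroup (Ω ⊕ A × Bool)) ::ₘ
          {cl ((of (.inr (a, true)))⁻¹ * map .inl (y a) : FreeGroup (Ω ⊕ A × Bool))}) := by
  classical
  induction T using Finset.induction_on with
  | empty =>
    intro R h
    rw [Finset.sum_empty] at h ⊢
    convert h using 1
    ext (s | ⟨s, _ | _⟩) <;> simp
  | insert a T ha ih =>
    intro R h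
    rw [Finset.sum_insert ha, ← add_assoc] at h
    have h1 := ih _ h
    rw [Finset.sum_insert ha]
    generalize Finset.sum (M := Multiset (ConjClasses (FreeGroup (Ω ⊕ A × Bool)))) T _ = Q at h1 ⊢
    have h2 := SStd.split (u := 1) (v := map .inl (x a)) (e := .inr (a, false))
      (R := cl (map .inl (y a)) ::ₘ (R + Q)) (by
        convert h1 using 1
        simp only [one_mul, ← Multiset.singleton_add]
        abel) (one_mem _) (map_mem_gen (fun s _ => by simp) (mem_gen_univ _))
        (by simpa using ha)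
    have h3 := SStd.split (u := 1) (v := map .inl (y a)) (e := .inr (a, true))
      (R := cl (of (.inr (a, false))) ::ₘ cl ((of (.inr (a, false)))⁻¹ * map .inl (x a)) ::ₘ
        (R + Q)) (by
        convert h2 using 1
        simp only [one_mul, ← Multiset.singleton_add]
        abel) (one_mem _) (map_mem_gen (fun s _ => by simp) (mem_gen_univ _))
        (by simpa using ha)
    convert h3 using 1
    · ext (s | ⟨a', _ | _⟩) <;> simp
    · simp only [one_mul, ← Multiset.singleton_add]
      abel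

theorem Surf.exists_dup (S : Surf) : ∃ (S' : Surf) (i : S.Mod →* S'.Mod) (k : S'.A → S.A)
    (u : Bool → S.A → S'.A), (∀ s a, k (u s a) = a) ∧ (∀ a b, u false a ≠ u true b) ∧
    (∀ α d, d ∈ S.D α → i d ∈ S'.D (k ⁻¹' α)) ∧
    ∀ s s' a b d, s' ≤ s → S'.Y (u s a) (u s' b) (i d) → S.Y a b d := by
  classical
  obtain ⟨b, b1, b2, b3, b4⟩ := dup_b S
  obtain ⟨E, E1, E2⟩ := exists_ext (Sum.inl_injective : Function.Injective
    (Sum.inl : S.Ω → S.Ω ⊕ S.A × Bool))
  let ε' : S.A ⊕ S.A → S.Ω ⊕ S.A × Bool :=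
    Sum.elim (fun a => .inr (a, false)) fun a => .inl (S.ε a)
  have bf : ∀ w ∈ gen (Set.range S.ε)ᶜ, b (map .inl w) = map .inl w := fun w hw =>
    aut_fix_gen b (X := Sum.inl '' (Set.range S.ε)ᶜ) (by rintro _ ⟨x, hx, rfl⟩; exact b2 x hx)
      (map_mem_gen (fun s hs => Set.mem_image_of_mem _ hs) hw)
  have mm : ∀ w ∈ gen (Set.range S.ε)ᶜ, map .inl w ∈ gen (Set.range ε')ᶜ := fun w hw =>
    map_mem_gen (fun s hs => by
      rintro ⟨a | a, h⟩
      · simp [ε'] at h
      · exact hs ⟨a, Sum.inl.inj h⟩) hw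
  have m1 : ∀ a, of (.inr (a, true)) ∈ gen (Set.range ε')ᶜ := fun a =>
    of_mem_gen (by rintro ⟨a | a, h⟩ <;> simp [ε'] at h)
  have bP : (S.P.map (cm (map .inl))).map (cm b.toMonoidHom) = S.P.map (cm (map .inl)) := by
    rw [Multiset.map_map]
    refine Multiset.map_congr rfl fun x hx => ?_
    obtain ⟨w, hw, rfl⟩ := S.P_mem x hx
    exact congrArg cl (bf w hw)
  have bv : ∀ a, b (map .inl (S.v a)) = ((map .inl (S.r a))⁻¹ * (of (.inl (S.ε a)))⁻¹ *
      of (.inr (a, true)) * b (of (.inr (a, true))) : FreeGroup (S.Ω ⊕ S.A × Bool)) := fun a => by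
    simp only [Surf.v, map_mul, map_inv, map.of, bf _ (S.l_mem a), bf _ (S.r_mem a), b1, b4]
    group
  let S' : Surf :=
    { Ω := S.Ω ⊕ S.A × Bool
      A := S.A ⊕ S.A
      ε := ε'
      inj := by
        rintro (a | a) (a' | a') h <;> simp [ε', S.inj.eq_iff] at h ⊢ <;> exact h
      l := Sum.elim (fun a => map .inl (S.l a)) fun a => of (.inr (a, true))
      r := Sum.elim (fun a => of (.inr (a, true))) fun a => map .inl (S.r a)
      c := map .inl S.c
      P := S.P.map (cm (map .inl))
      l_mem := by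
        rintro (a | a)
        · exact mm _ (S.l_mem a)
        · exact m1 a
      r_mem := by
        rintro (a | a)
        · exact m1 a
        · exact mm _ (S.r_mem a)
      c_mem := mm _ S.c_mem
      P_mem := by
        intro x hx
        obtain ⟨y, hy, rfl⟩ := Multiset.mem_map.1 hx
        obtain ⟨w, hw, rfl⟩ := S.P_mem y hy
        exact ⟨_, mm w hw, rfl⟩
      std := by
        have h0 := S.std.map (Sum.inl_injective : Function.Injective
          (Sum.inl : S.Ω → S.Ω ⊕ S.A × Bool))
        have h1 := dup_std (fun a => of (S.ε a)) S.v Finset.univ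
          (cl (map .inl S.c) ::ₘ S.P.map (cm (map .inl))) (by
            convert h0 using 1
            simp only [Multiset.map_cons, Multiset.map_add, dup_map, cm_cl,
              Multiset.insert_eq_cons, Multiset.map_singleton, Multiset.cons_add, Surf.v])
        rw [show {s : S.Ω ⊕ S.A × Bool | ∀ p, s = .inr p → p.1 ∈ Finset.univ} = Set.univ by
          simp] at h1
        convert h1.aut (f := b) ⟨fun s hs => (hs trivial).elim, fun s _ => mem_gen_univ _⟩ using 1
        have e : ∀ a, cl ((b (of (.inr (a, true))))⁻¹ * b (map .inl (S.v a))) =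
            cl ((map .inl (S.r a))⁻¹ * (of (.inl (S.ε a)))⁻¹ * of (.inr (a, true)) :
              FreeGroup (S.Ω ⊕ S.A × Bool)) := fun a => by
          rw [bv, cl_comm, mul_inv_cancel_right]
        simp only [Multiset.map_cons, Multiset.map_add, dup_map, cm_cl, bP,
          Multiset.insert_eq_cons, Multiset.map_singleton, Multiset.cons_add,
          MulEquiv.coe_toMonoidHom, map_mul, map_inv, map.of, e, bf _ S.c_mem, b1, b3,
          inv_mul_cancel_left, Fintype.sum_sum_type, ε', Sum.elim_inl, Sum.elim_inr, ← b4,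
          ← Finset.sum_add_distrib, Multiset.singleton_add] }
  have io : ∀ d w, (b * E d * b⁻¹) (b (map .inl w)) = b (map .inl (d w)) := fun d w => by
    simp [E1]
  have ir : ∀ d p, (b * E d * b⁻¹) (b (of (.inr p))) = b (of (.inr p)) := fun d p => by
    simp [E2 d (.inr p) (by simp)]
  have ie : ∀ d a, (b * E d * b⁻¹) (of (.inr (a, false))) = of (.inr (a, false)) := fun d a => by
    have := ir d (a, false)
    rwa [b3] at this
  have il : ∀ d, ∀ w ∈ gen (Set.range S.ε)ᶜ, (b * E d * b⁻¹) (map .inl w) = b (map .inl (d w)) :=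
    fun d w hw => by rw [← io, bf w hw]
  have iε : ∀ (d : S.Mod) a, (b * E d * b⁻¹) (of (.inl (S.ε a))) = of (.inl (S.ε a)) :=
    fun d a => by
      have := io d (of (S.ε a))
      rw [d.2.2.1, map.of, b1, map_mul, ie] at this
      exact mul_left_cancel this
  have im : ∀ d a, (b * E d * b⁻¹) (of (.inr (a, true))) = ((of (.inr (a, false)))⁻¹ *
      b (map .inl (d (S.l a))) * (map .inl (S.l a))⁻¹ * of (.inr (a, false)) *
      of (.inr (a, true)) : FreeGroup (S.Ω ⊕ S.A × Bool)) := fun d a => by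
    have := ir d (a, true)
    rw [b4, map_mul, map_mul, map_inv, map_inv, ie, il _ _ (S.l_mem a), mul_assoc,
      inv_mul_eq_iff_eq_mul] at this
    rw [this]
    group
  let i : S.Mod →* S'.Mod := MonoidHom.mk' (fun d => ⟨b * E d * b⁻¹, by
    refine ⟨?_, ?_, ?_, ?_⟩
    · show (b * E d * b⁻¹) (map .inl S.c) = map .inl S.c
      rw [il _ _ S.c_mem, d.2.1, bf _ S.c_mem]
    · rintro (a | a)
      · exact ie d a
      · exact iε d a
    · rintro (a | a)
      · have := ir d (a, true)
        rwa [b4] at this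
      · have := io d (S.v a)
        rw [d.2.2.2.1, bv, map_mul, ir] at this
        exact mul_right_cancel this
    · show (S.P.map (cm (map Sum.inl))).map _ = S.P.map (cm (map Sum.inl))
      conv_rhs => rw [← bP, ← d.2.2.2.2]
      simp only [Multiset.map_map]
      refine Multiset.map_congr rfl fun x hx => ?_
      obtain ⟨w, hw, rfl⟩ := S.P_mem x hx
      exact congrArg cl (il d w hw)⟩) fun d d' => Subtype.ext (by simp [mul_assoc])
  have ic : ∀ a', ∀ w ∈ S.cut (Sum.elim id id a'), b (map .inl w) ∈ gen {ε' a'}ᶜ := by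
    intro a' w hw
    refine map_mem_of_gen (b.toMonoidHom.comp (map Sum.inl)) (fun s hs => ?_) hw
    show b (map .inl (of s)) ∈ _
    have h1 : (Sum.inl s : S.Ω ⊕ S.A × Bool) ∈ ({ε' a'}ᶜ : Set _) := by
      rcases a' with a | a
      · simp [ε']
      · simpa [ε'] using hs
    rw [map.of]
    by_cases h : s ∈ Set.range S.ε
    · obtain ⟨a, rfl⟩ := h
      rw [b1]
      refine mul_mem (of_mem_gen ?_) (of_mem_gen h1)
      rcases a' with a' | a'
      · simpa [ε', S.inj.eq_iff] using hs
      · simp [ε']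
    · rw [b2 s h]
      exact of_mem_gen h1
  have ci : ∀ a' w, b (map .inl w) ∈ gen {ε' a'}ᶜ → w ∈ S.cut (Sum.elim id id a') := by
    rintro (a | a) w hw
    · let ρ : FreeGroup (S.Ω ⊕ S.A × Bool) →* FreeGroup S.Ω := lift (Sum.elim
        (fun s => if s = S.ε a then 1 else of s) fun p => if p = (a, false) then of (S.ε a) else 1)
      have h1 : ρ (b (map .inl w)) = w :=
        eq_on_gen (f := ρ.comp (b.toMonoidHom.comp (map Sum.inl))) (g := MonoidHom.id _)
          (fun s _ => by
            show ρ (b (map .inl (of s))) = of s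
            rw [map.of]
            by_cases h : s ∈ Set.range S.ε
            · obtain ⟨a', rfl⟩ := h
              by_cases h : a' = a <;> simp [b1, ρ, h, S.inj.eq_iff]
            · have h2 : s ≠ S.ε a := fun e => h ⟨a, e.symm⟩
              simp [b2 s h, ρ, h2]) (mem_gen_univ w)
      rw [← h1]
      refine map_mem_of_gen ρ ?_ hw
      rintro (s | p) hs
      · by_cases h : s = S.ε a
        · simp [ρ, h]
        · simpa [ρ, h, Surf.cut] using of_mem_gen (X := {S.ε a}ᶜ) h
      · have : p ≠ (a, false) := by simpa [ε'] using hs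
        simp [ρ, this]
    · let ρ : FreeGroup (S.Ω ⊕ S.A × Bool) →* FreeGroup S.Ω := lift (Sum.elim of fun _ => 1)
      have h1 : ρ (b (map .inl w)) = w :=
        eq_on_gen (f := ρ.comp (b.toMonoidHom.comp (map Sum.inl))) (g := MonoidHom.id _)
          (fun s _ => by
            show ρ (b (map .inl (of s))) = of s
            rw [map.of]
            by_cases h : s ∈ Set.range S.ε
            · obtain ⟨a', rfl⟩ := h
              simp [b1, ρ]
            · simp [b2 s h, ρ]) (mem_gen_univ w)
      rw [← h1]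
      refine map_mem_of_gen ρ ?_ hw
      rintro (s | p) hs
      · simpa [ρ, Surf.cut] using of_mem_gen (X := {S.ε a}ᶜ) (by simpa [ε'] using hs)
      · simp [ρ]
  refine ⟨S', i, Sum.elim id id, fun s => cond s .inr .inl, ?_, ?_, ?_, ?_⟩
  · rintro (_ | _) a <;> rfl
  · intro a a' h
    exact Sum.inl_ne_inr h
  · intro α d hd a' ha'
    obtain ⟨h1, h2⟩ := hd _ ha'
    have h3 : (b * E d * b⁻¹) (of (.inr (Sum.elim id id a', true))) =
        of (.inr (Sum.elim id id a', true)) := by
      rw [im, h1, bf _ (S.l_mem _)]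
      group
    refine ⟨?_, fun w hw => aut_mem_of_gen (b * E d * b⁻¹) ?_ hw⟩
    · rcases a' with a | a
      · exact (il d _ (S.l_mem a)).trans ((congrArg _ (congrArg _ h1)).trans (bf _ (S.l_mem a)))
      · exact h3
    · rintro (s | ⟨a, _ | _⟩) hs
      · by_cases h : s ∈ Set.range S.ε
        · obtain ⟨a, rfl⟩ := h
          rw [iε]
          exact of_mem_gen hs
        · rw [← map.of, il _ _ (of_mem_gen h)]
          exact ic _ _ (h2 _ (S.le_cut _ (of_mem_gen h)))
      · rw [ie]
        exact of_mem_gen hs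
      · by_cases h : a = Sum.elim id id a'
        · rw [h] at hs ⊢
          rw [h3]
          exact of_mem_gen hs
        · have h4 : of (.inr (a, false)) ∈ gen {ε' a'}ᶜ := of_mem_gen (by
            rcases a' with a' | a'
            · simpa [ε'] using h
            · simp [ε'])
          rw [im]
          exact mul_mem (mul_mem (mul_mem (mul_mem (inv_mem h4)
            (ic _ _ (h2 _ (S.le_cut _ (S.l_mem a)))))
            (inv_mem (S'.le_cut a' (mm _ (S.l_mem a))))) h4) (of_mem_gen hs)
  · rintro s (_ | _) a a' d hs h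
    · have h1 : (b * E d * b⁻¹) (map .inl (S.l a')) ∈ gen {ε' (cond s Sum.inr Sum.inl a)}ᶜ := h
      rw [il _ _ (S.l_mem a')] at h1
      have := ci _ _ h1
      rcases s with _ | _ <;> exact this
    · obtain rfl : s = true := top_le_iff.1 hs
      have h1 : (b * E d * b⁻¹) (of (.inr (a', true))) ∈ gen {ε' (.inr a)}ᶜ := h
      have h4 : ∀ t, of (.inr (a', t)) ∈ gen {ε' (.inr a)}ᶜ := fun t => of_mem_gen (by simp [ε'])
      have h5 : map .inl (S.l a') ∈ gen {ε' (.inr a)}ᶜ := S'.le_cut (.inr a) (mm _ (S.l_mem a'))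
      rw [im, mul_mem_cancel_right (h4 _), mul_mem_cancel_right (h4 _), mul_mem_cancel_right
        (inv_mem h5), mul_mem_cancel_left (inv_mem (h4 _))] at h1
      exact ci (.inr a) _ h1

end Pool.Agent.Lib.MP_19b52f_al.FC
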