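import Pool.Agent.Lib.MP_19b52f_al.FC.Surf

/-! Crossed homomorphisms on free groups (values are functionals on integer functions), point
pushing maps, and one step of the construction of the hub. -/

namespace Pool.Agent.Lib.MP_19b52f_al.FC

open Pool.Agent.Lib.MP_19b52f_al.EA
open FreeGroup hiding map_mul map_inv map_one lift_unique

variable {Ω G : Type} [Group G]

/-- Crossed homomorphisms. -/
def Cr {F : Type} [Group F] (ψ : F →* G) (D : F → (G → ℤ) → ℤ) : Prop :=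
  ∀ u v ℓ, D (u * v) ℓ = D u ℓ + D v (fun y => ℓ (ψ u * y))

namespace Cr
section
variable {F : Type} [Group F] {ψ : F →* G} {D D' : F → (G → ℤ) → ℤ}

lemma one (h : Cr ψ D) (ℓ : G → ℤ) : D 1 ℓ = 0 := by simpa using h 1 1 ℓ

lemma inv (h : Cr ψ D) (u : F) (ℓ : G → ℤ) : D u⁻¹ ℓ = -D u (fun y => ℓ ((ψ u)⁻¹ * y)) := by
  have := h u⁻¹ u ℓ
  rw [inv_mul_cancel, h.one, map_inv] at this
  omega

lemma conj (h : Cr ψ D) (g : F) {x : F} (hx : ψ x = 1) (ℓ : G → ℤ) :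
    D (g * x * g⁻¹) ℓ = D x (fun y => ℓ (ψ g * y)) := by
  rw [h, h, h.inv]
  simp [hx]

end

variable {ψ : FreeGroup Ω →* G} {D D' : FreeGroup Ω → (G → ℤ) → ℤ} {X : Set Ω} {w : FreeGroup Ω}

lemma ext_gen (h : Cr ψ D) (h' : Cr ψ D') (hs : ∀ s ∈ X, ∀ ℓ, D (of s) ℓ = D' (of s) ℓ)
    (hw : w ∈ gen X) (ℓ : G → ℤ) : D w ℓ = D' w ℓ := by
  induction hw using Subgroup.closure_induction generalizing ℓ with
  | mem x hx =>
    obtain ⟨s, h1, rfl⟩ := hx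
    exact hs s h1 ℓ
  | one => rw [h.one, h'.one]
  | mul x y _ _ hx hy => rw [h, h', hx, hy]
  | inv x _ hx => rw [h.inv, h'.inv, hx]

lemma zero (h : Cr ψ D) (hs : ∀ s ∈ X, ∀ ℓ, D (of s) ℓ = 0) (hw : w ∈ gen X) (ℓ : G → ℤ) :
    D w ℓ = 0 :=
  h.ext_gen (D' := fun _ _ => 0) (fun _ _ _ => by simp) hs hw ℓ

lemma supp (h : Cr ψ D) (H : Subgroup G) (h1 : ∀ s ∈ X, ψ (of s) ∈ H)
    (hs : ∀ s ∈ X, ∀ ℓ : G → ℤ, (∀ y ∈ H, ℓ y = 0) → D (of s) ℓ = 0) (hw : w ∈ gen X)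
    (ℓ : G → ℤ) (hl : ∀ y ∈ H, ℓ y = 0) : D w ℓ = 0 := by
  induction hw using Subgroup.closure_induction generalizing ℓ with
  | mem x hx =>
    obtain ⟨s, h2, rfl⟩ := hx
    exact hs s h2 ℓ hl
  | one => exact h.one ℓ
  | mul x y hx' _ hx hy =>
    rw [h, hx ℓ hl, hy _ (fun y hy => hl _ (mul_mem (map_mem_of_gen ψ h1 hx') hy)), add_zero]
  | inv x hx' hx =>
    rw [h.inv, hx _ (fun y hy => hl _ (mul_mem (inv_mem (map_mem_of_gen ψ h1 hx')) hy)), neg_zero]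

end Cr

lemma exists_cr (ψ : FreeGroup Ω →* G) (δ : Ω → (G → ℤ) → ℤ) :
    ∃ D, Cr ψ D ∧ ∀ s, D (of s) = δ s := by
  let θ : Ω → Equiv.Perm ((G → ℤ) → ℤ) := fun s =>
    { toFun := fun F ℓ => δ s ℓ + F (fun y => ℓ (ψ (of s) * y))
      invFun := fun F ℓ => F (fun y => ℓ ((ψ (of s))⁻¹ * y)) - δ s (fun y => ℓ ((ψ (of s))⁻¹ * y))
      left_inv := fun F => by ext ℓ; simp
      right_inv := fun F => by ext ℓ; simp }
  have key : ∀ w F ℓ, lift θ w F ℓ = lift θ w 0 ℓ + F (fun y => ℓ (ψ w * y)) := by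
    intro w
    induction w using FreeGroup.induction_on with
    | C1 => simp
    | of s => simp [θ]
    | inv_of s _ =>
      intro F ℓ
      simp only [map_inv, lift_apply_of, Equiv.Perm.inv_def, θ, Equiv.coe_fn_symm_mk, Pi.zero_apply]
      omega
    | mul a b ha hb =>
      intro F ℓ
      simp only [map_mul, Equiv.Perm.mul_apply, mul_assoc]
      rw [ha, ha (lift θ b 0), hb, add_assoc]
  refine ⟨fun w => lift θ w 0, fun u v ℓ => ?_, fun s => ?_⟩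
  · simp only [map_mul, Equiv.Perm.mul_apply]
    rw [key]
  · ext ℓ; simp [θ]

section push
variable (π : G →* G) (D : G → (G → ℤ) → ℤ)

/-- The first order behaviour of a point pushing map. -/
def Push (T : MulAut G) (g : G) : Prop :=
  (∀ w, π (T w) = π w) ∧ ∀ w ℓ, D (T w) ℓ = D w (fun y => ℓ (y * g)) + D (T (π w)) ℓ

variable {π D} {T T' : MulAut G} {g g' : G}

lemma Push.mul (h : Push π D T g) (h' : Push π D T' g') (hπ : ∀ w, π (π w) = π w) :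
    Push π D (T * T') (g' * g) := by
  refine ⟨fun w => by rw [MulAut.mul_apply, h.1, h'.1], fun w ℓ => ?_⟩
  rw [MulAut.mul_apply, MulAut.mul_apply, h.2, h'.2, h.2 (T' (π w)), h'.1, h'.1, hπ]
  simp only [mul_assoc, add_assoc]

lemma Push.conj (h : Push π D T g) {Z : MulAut G} {z : G} (hZ : ∀ w, π (Z w) = π w)
    (hz : ∀ w ℓ, D (Z w) ℓ = D w (fun y => ℓ (y * z))) (w : G) :
    π ((T * Z * T⁻¹) w) = π w ∧ ∀ ℓ, D ((T * Z * T⁻¹) w) ℓ =
      D w (fun y => ℓ (y * (g⁻¹ * z * g))) + D (T (π w)) ℓ -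
        D (T (π w)) (fun y => ℓ (y * (g⁻¹ * z * g))) := by
  have h1 : π (T⁻¹ w) = π w := by rw [← h.1 (T⁻¹ w)]; simp
  refine ⟨by rw [MulAut.mul_apply, MulAut.mul_apply, h.1, hZ, h1], fun ℓ => ?_⟩
  have h2 := h.2 (T⁻¹ w) (fun y => ℓ (y * (g⁻¹ * z * g)))
  rw [MulAut.mul_apply, MulAut.mul_apply, h.2, hz, hZ, h1]
  rw [h1, MulAut.apply_inv_self] at h2
  simp only [mul_assoc, mul_inv_cancel_left] at h2 ⊢
  omega

end push

lemma map_cm_fix {R : Multiset (ConjClasses (FreeGroup Ω))} {f : MulAut (FreeGroup Ω)}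
    (h : ∀ x ∈ R, ∃ w, f w = w ∧ x = cl w) : R.map (cm f.toMonoidHom) = R := by
  rw [Multiset.map_congr rfl (fun x hx => ?_), Multiset.map_id']
  obtain ⟨w, h1, rfl⟩ := h x hx
  exact congrArg cl h1

lemma SStd.hub_step {Y : Set Ω} {R : Multiset (ConjClasses (FreeGroup Ω))} {A t t' : Ω}
    {c q N y w w' : FreeGroup Ω}
    (h : SStd Y (cl (N * of A * y) ::ₘ cl w ::ₘ cl w' ::ₘ cl (c * (q * of A)⁻¹) ::ₘ R))
    (hA : A ∈ Y) (hc : c ∈ gen (Y \ {A})) (hq : q ∈ gen (Y \ {A})) (hN : N ∈ gen (Y \ {A}))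
    (hy : y ∈ gen (Y \ {A})) (hw : w ∈ gen (Y \ {A})) (hw' : w' ∈ gen (Y \ {A}))
    (hR : ∀ x ∈ R, ∃ u ∈ gen (Y \ {A}), x = cl u) (ht : t ∉ Y) (ht' : t' ∉ Y) (htt : t' ≠ t) :
    SStd (insert t' (insert t Y)) (cl (N * (of t * w * of t' * w') * of A * y) ::ₘ
      cl (c * (q * (of t * of t') * of A)⁻¹) ::ₘ R) := by
  have m0 : gen (Y \ {A}) ≤ gen Y := gen_mono Set.sdiff_subset
  have m1 : gen Y ≤ gen (insert t Y) := gen_mono (Set.subset_insert _ _)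
  have a1 : of A * y ∈ gen Y := mul_mem (of_mem_gen hA) (m0 hy)
  have a2 : of t ∈ gen (insert t Y) := of_mem_gen (Set.mem_insert _ _)
  rw [mul_assoc] at h
  have h1 := h.ins_old (m0 hN) a1 (m0 hw) ht
  have h2 := h1.ins_old (mul_mem (m1 (m0 hN)) (mul_mem (mul_mem a2 (m1 (m0 hw))) (inv_mem a2)))
    (m1 a1) (m1 (m0 hw')) (e := t') (by simp [htt, ht'])
  have n1 : t ≠ A := fun e => ht (e ▸ hA)
  have n2 : t' ≠ A := fun e => ht' (e ▸ hA)
  obtain ⟨f1, f1a, f1b⟩ := exists_elem1 A (a := of t * of t') (b := 1)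
    (mul_mem (of_mem_gen n1) (of_mem_gen n2)) (one_mem _)
  obtain ⟨f2, f2a, f2b⟩ := exists_elem1 t' (a := of t) (b := 1) (of_mem_gen htt.symm) (one_mem _)
  have e1 : (f1 * f2) (of A) = of t * of t' * of A := by simp [f2b A n2.symm, f1a]
  have e2 : (f1 * f2) (of t') = of t * of t' := by simp [f2a, f1b t n1, f1b t' n2]
  have e3 : ∀ s, s ≠ A → s ≠ t' → (f1 * f2) (of s) = of s := fun s h3 h4 => by
    simp [f2b s h4, f1b s h3]
  have e4 : ∀ u ∈ gen (Y \ {A}), (f1 * f2) u = u := fun u hu =>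
    aut_fix_gen _ (fun s hs => e3 s hs.2 (fun e => ht' (e ▸ hs.1))) hu
  have b1 : of t ∈ gen (insert t' (insert t Y)) := of_mem_gen (by simp)
  have b2 : of t' ∈ gen (insert t' (insert t Y)) := of_mem_gen (by simp)
  have h3 := h2.aut (f := f1 * f2) ⟨fun s hs => e3 s (fun e => hs (by simp [e, hA]))
    (fun e => hs (by simp [e])), fun s hs => by
      by_cases c1 : s = A
      · rw [c1, e1]; exact mul_mem (mul_mem b1 b2) (of_mem_gen (c1 ▸ hs))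
      · by_cases c2 : s = t'
        · rw [c2, e2]; exact mul_mem b1 b2
        · rw [e3 s c1 c2]; exact of_mem_gen hs⟩
  rw [Multiset.map_cons, Multiset.map_cons, map_cm_fix (fun x hx => by
    obtain ⟨u, hu, rfl⟩ := hR x hx
    exact ⟨u, e4 u hu, rfl⟩), cm_cl, cm_cl] at h3
  simp only [MulEquiv.coe_toMonoidHom, map_mul, map_inv, e1, e2, e3 t n1 htt.symm, e4 _ hc,
    e4 _ hq, e4 _ hN, e4 _ hy, e4 _ hw, e4 _ hw'] at h3
  convert h3 using 3 <;> group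

end Pool.Agent.Lib.MP_19b52f_al.FC
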