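import Pool.Agent.Lib.MP_19b52f_al.EA.Data

/-! Free factors, elementary automorphisms and list tools. -/

namespace Pool.Agent.Lib.MP_19b52f_al.FC

open Pool.Agent.Lib.MP_19b52f_al.EA
open FreeGroup hiding map_mul map_inv map_one lift_unique

variable {Ω Ω' : Type}

lemma of_mem_gen {X : Set Ω} {s : Ω} (h : s ∈ X) : of s ∈ gen X :=
  Subgroup.subset_closure ⟨s, h, rfl⟩

lemma gen_le {X : Set Ω} {K : Subgroup (FreeGroup Ω)} (h : ∀ s ∈ X, of s ∈ K) : gen X ≤ K := by
  rw [gen, Subgroup.closure_le]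
  rintro _ ⟨s, hs, rfl⟩
  exact h s hs

lemma gen_mono {X Y : Set Ω} (h : X ⊆ Y) : gen X ≤ gen Y := gen_le fun _ hs => of_mem_gen (h hs)

lemma mem_gen_univ (w : FreeGroup Ω) : w ∈ gen Set.univ :=
  mem_of_of (fun _ => of_mem_gen (Set.mem_univ _)) w

lemma map_mem_of_gen {G : Type} [Group G] (f : FreeGroup Ω →* G) {X : Set Ω} {K : Subgroup G}
    (h : ∀ s ∈ X, f (of s) ∈ K) {w : FreeGroup Ω} (hw : w ∈ gen X) : f w ∈ K :=
  gen_le (K := K.comap f) h hw

lemma eq_on_gen {G : Type} [Group G] {f g : FreeGroup Ω →* G} {X : Set Ω}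
    (h : ∀ s ∈ X, f (of s) = g (of s)) {w : FreeGroup Ω} (hw : w ∈ gen X) : f w = g w :=
  gen_le (K := f.eqLocus g) h hw

lemma aut_mem_of_gen (f : MulAut (FreeGroup Ω)) {X : Set Ω} {K : Subgroup (FreeGroup Ω)}
    (h : ∀ s ∈ X, f (of s) ∈ K) {w : FreeGroup Ω} (hw : w ∈ gen X) : f w ∈ K :=
  map_mem_of_gen f.toMonoidHom h hw

lemma aut_fix_gen (f : MulAut (FreeGroup Ω)) {X : Set Ω} (h : ∀ s ∈ X, f (of s) = of s)
    {w : FreeGroup Ω} (hw : w ∈ gen X) : f w = w :=
  eq_on_gen (f := f.toMonoidHom) (g := MonoidHom.id _) h hw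

lemma aut_ext {f g : MulAut (FreeGroup Ω)} (h : ∀ s, f (of s) = g (of s)) : f = g := by
  apply MulEquiv.toMonoidHom_injective
  ext s
  exact h s

lemma aut_inv_fix {G : Type} [Group G] {f : MulAut G} {w : G} (h : f w = w) : f⁻¹ w = w := by
  conv_lhs => rw [← h]
  simp

open Classical in
/-- The retraction onto a free factor. -/
noncomputable def rt (X : Set Ω) : FreeGroup Ω →* FreeGroup Ω :=
  lift fun s => if s ∈ X then of s else 1

lemma rt_of_mem {X : Set Ω} {s : Ω} (h : s ∈ X) : rt X (of s) = of s := by simp [rt, h]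

lemma rt_of_not {X : Set Ω} {s : Ω} (h : s ∉ X) : rt X (of s) = 1 := by simp [rt, h]

lemma rt_mem (X : Set Ω) (w : FreeGroup Ω) : rt X w ∈ gen X :=
  map_mem_of_gen _ (fun s _ => by
    by_cases h : s ∈ X
    · rw [rt_of_mem h]; exact of_mem_gen h
    · rw [rt_of_not h]; exact one_mem _) (mem_gen_univ w)

lemma rt_eq {X : Set Ω} {w : FreeGroup Ω} (h : w ∈ gen X) : rt X w = w :=
  eq_on_gen (g := MonoidHom.id _) (fun _ hs => rt_of_mem hs) h

lemma mem_gen_inter {X Y : Set Ω} {w : FreeGroup Ω} (h : w ∈ gen X) (h' : w ∈ gen Y) :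
    w ∈ gen (X ∩ Y) := by
  rw [← rt_eq h']
  refine map_mem_of_gen _ (fun s hs => ?_) h
  by_cases h2 : s ∈ Y
  · rw [rt_of_mem h2]; exact of_mem_gen ⟨hs, h2⟩
  · rw [rt_of_not h2]; exact one_mem _

lemma mem_of_of_mem_gen {X : Set Ω} {s : Ω} (h : of s ∈ gen X) : s ∈ X := by
  by_contra h2
  have := rt_eq h
  rw [rt_of_not h2] at this
  exact of_ne_one s this.symm

/-- Conjugate elements of a free factor are conjugate inside the factor. -/
lemma conj_in_gen {X : Set Ω} {u w : FreeGroup Ω} (hu : u ∈ gen X) (hw : w ∈ gen X)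
    (h : IsConj u w) : ∃ c ∈ gen X, c * u * c⁻¹ = w := by
  obtain ⟨c, hc⟩ := isConj_iff.mp h
  refine ⟨rt X c, rt_mem X c, ?_⟩
  have := congrArg (rt X) hc
  rwa [map_mul, map_mul, map_inv, rt_eq hu, rt_eq hw] at this

lemma inv_mem_gen {f : MulAut (FreeGroup Ω)} {X : Set Ω} (h1 : ∀ s ∉ X, f (of s) = of s)
    (h2 : ∀ s ∈ X, f (of s) ∈ gen X) {w : FreeGroup Ω} (hw : w ∈ gen X) : f⁻¹ w ∈ gen X := by
  have key : ∀ u, f (rt X u) = rt X (f u) := fun u =>
    eq_on_gen (f := f.toMonoidHom.comp (rt X)) (g := (rt X).comp f.toMonoidHom) (fun s _ => by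
      by_cases h : s ∈ X
      · simp [rt_of_mem h, rt_eq (h2 s h)]
      · simp [rt_of_not h, h1 s h]) (mem_gen_univ u)
  have h3 : rt X (f⁻¹ w) = f⁻¹ w := f.injective (by rw [key]; simp [rt_eq hw])
  exact h3 ▸ rt_mem X _

/-- Elementary automorphisms. -/
lemma exists_elem (Y : Set Ω) (a b : Ω → FreeGroup Ω) (ha : ∀ s ∈ Y, a s ∈ gen Yᶜ)
    (hb : ∀ s ∈ Y, b s ∈ gen Yᶜ) : ∃ f : MulAut (FreeGroup Ω),
      (∀ s ∈ Y, f (of s) = a s * of s * b s) ∧ ∀ s ∉ Y, f (of s) = of s := by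
  classical
  let p : FreeGroup Ω →* FreeGroup Ω := lift fun s => if s ∈ Y then a s * of s * b s else of s
  let q : FreeGroup Ω →* FreeGroup Ω :=
    lift fun s => if s ∈ Y then (a s)⁻¹ * of s * (b s)⁻¹ else of s
  have hp : ∀ w ∈ gen Yᶜ, p w = w := fun w hw =>
    eq_on_gen (g := MonoidHom.id _) (fun s hs => by simp [p, show s ∉ Y from hs]) hw
  have hq : ∀ w ∈ gen Yᶜ, q w = w := fun w hw =>
    eq_on_gen (g := MonoidHom.id _) (fun s hs => by simp [q, show s ∉ Y from hs]) hw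
  have p1 : ∀ s ∈ Y, p (of s) = a s * of s * b s := fun s h => by simp [p, h]
  have q1 : ∀ s ∈ Y, q (of s) = (a s)⁻¹ * of s * (b s)⁻¹ := fun s h => by simp [q, h]
  refine ⟨MonoidHom.toMulEquiv p q ?_ ?_, p1, fun s hs => hp _ (of_mem_gen hs)⟩
  · ext s
    by_cases h : s ∈ Y
    · simp [p1 s h, q1 s h, hq _ (ha s h), hq _ (hb s h), mul_assoc]
    · simp [hp _ (of_mem_gen (X := Yᶜ) h), hq _ (of_mem_gen (X := Yᶜ) h)]
  · ext s
    by_cases h : s ∈ Y
    · simp [p1 s h, q1 s h, hp _ (ha s h), hp _ (hb s h), mul_assoc]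
    · simp [hp _ (of_mem_gen (X := Yᶜ) h), hq _ (of_mem_gen (X := Yᶜ) h)]

lemma exists_flip (Y : Set Ω) : ∃ f : MulAut (FreeGroup Ω),
    (∀ s ∈ Y, f (of s) = (of s)⁻¹) ∧ ∀ s ∉ Y, f (of s) = of s := by
  classical
  let p : FreeGroup Ω →* FreeGroup Ω := lift fun s => if s ∈ Y then (of s)⁻¹ else of s
  have hp : p.comp p = MonoidHom.id _ := by
    ext s
    by_cases h : s ∈ Y <;> simp [p, h]
  exact ⟨MonoidHom.toMulEquiv p p hp hp, fun s h => by simp [p, h], fun s h => by simp [p, h]⟩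

/-- Elementary automorphisms that invert the letters. -/
lemma exists_elem' (Y : Set Ω) (a b : Ω → FreeGroup Ω) (ha : ∀ s ∈ Y, a s ∈ gen Yᶜ)
    (hb : ∀ s ∈ Y, b s ∈ gen Yᶜ) : ∃ f : MulAut (FreeGroup Ω),
      (∀ s ∈ Y, f (of s) = a s * (of s)⁻¹ * b s) ∧ ∀ s ∉ Y, f (of s) = of s := by
  obtain ⟨f, h1, h2⟩ := exists_elem Y (fun s => (b s)⁻¹) (fun s => (a s)⁻¹)
    (fun s h => inv_mem (hb s h)) (fun s h => inv_mem (ha s h))
  obtain ⟨g, h3, h4⟩ := exists_flip Y
  exact ⟨f * g, fun s h => by simp [h3 s h, h1 s h, mul_assoc], fun s h => by simp [h4 s h, h2 s h]⟩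

lemma exists_elem1 (e : Ω) {a b : FreeGroup Ω} (ha : a ∈ gen {e}ᶜ) (hb : b ∈ gen {e}ᶜ) :
    ∃ f : MulAut (FreeGroup Ω), f (of e) = a * of e * b ∧ ∀ s ≠ e, f (of s) = of s := by
  obtain ⟨f, h1, h2⟩ := exists_elem {e} (fun _ => a) (fun _ => b) (fun _ _ => ha) (fun _ _ => hb)
  exact ⟨f, h1 e rfl, h2⟩

lemma exists_elem1' (e : Ω) {a b : FreeGroup Ω} (ha : a ∈ gen {e}ᶜ) (hb : b ∈ gen {e}ᶜ) :
    ∃ f : MulAut (FreeGroup Ω), f (of e) = a * (of e)⁻¹ * b ∧ ∀ s ≠ e, f (of s) = of s := by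
  obtain ⟨f, h1, h2⟩ := exists_elem' {e} (fun _ => a) (fun _ => b) (fun _ _ => ha) (fun _ _ => hb)
  exact ⟨f, h1 e rfl, h2⟩

section ext
variable (ι : Ω → Ω')

open Classical in
/-- The left inverse of the map induced by an injection of alphabets. -/
noncomputable def back : FreeGroup Ω' →* FreeGroup Ω :=
  lift fun s => if h : ∃ x, ι x = s then of h.choose else 1

variable {ι} (hι : Function.Injective ι)

lemma back_not {s : Ω'} (h : ∀ x, ι x ≠ s) : back ι (of s) = 1 := by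
  rw [back, lift_apply_of, dif_neg (by simpa using h)]

lemma map_mem_gen {X : Set Ω} {Y : Set Ω'} (h : ∀ s ∈ X, ι s ∈ Y) {w : FreeGroup Ω}
    (hw : w ∈ gen X) : map ι w ∈ gen Y :=
  map_mem_of_gen _ (fun s hs => by rw [map.of]; exact of_mem_gen (h s hs)) hw

lemma map_mem_range (w : FreeGroup Ω) : map ι w ∈ gen (Set.range ι) :=
  map_mem_gen (fun s _ => Set.mem_range_self s) (mem_gen_univ w)

lemma exists_map_of_mem {w : FreeGroup Ω'} (hw : w ∈ gen (Set.range ι)) : ∃ u, map ι u = w :=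
  gen_le (K := (map ι).range) (by rintro _ ⟨s, rfl⟩; exact ⟨of s, map.of⟩) hw

include hι

lemma back_of (x : Ω) : back ι (of (ι x)) = of x := by
  have h : ∃ y, ι y = ι x := ⟨x, rfl⟩
  rw [back, lift_apply_of, dif_pos h, hι h.choose_spec]

lemma back_map (w : FreeGroup Ω) : back ι (map ι w) = w :=
  eq_on_gen (f := (back ι).comp (map ι)) (g := MonoidHom.id _)
    (fun s _ => by simp [back_of hι]) (mem_gen_univ w)

lemma map_inj : Function.Injective (map ι : FreeGroup Ω → FreeGroup Ω') :=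
  Function.LeftInverse.injective (back_map hι)

lemma mem_gen_of_map {Y : Set Ω'} {w : FreeGroup Ω} (h : map ι w ∈ gen Y) :
    w ∈ gen (ι ⁻¹' Y) := by
  rw [← back_map hι w]
  refine map_mem_of_gen _ (fun s hs => ?_) h
  by_cases h2 : ∃ x, ι x = s
  · obtain ⟨x, rfl⟩ := h2
    rw [back_of hι]; exact of_mem_gen hs
  · rw [back_not (by simpa using h2)]; exact one_mem _

/-- Extension of automorphisms by the identity on the new letters. -/
lemma exists_ext : ∃ E : MulAut (FreeGroup Ω) →* MulAut (FreeGroup Ω'),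
    (∀ d w, E d (map ι w) = map ι (d w)) ∧ ∀ d s, (∀ x, ι x ≠ s) → E d (of s) = of s := by
  classical
  let p : MulAut (FreeGroup Ω) → FreeGroup Ω' →* FreeGroup Ω' := fun d =>
    lift fun s => if ∃ x, ι x = s then map ι (d (back ι (of s))) else of s
  have h1 : ∀ d w, p d (map ι w) = map ι (d w) := fun d w =>
    eq_on_gen (f := (p d).comp (map ι)) (g := (map ι).comp d.toMonoidHom)
      (fun s _ => by simp [p, back_of hι]) (mem_gen_univ w)
  have h2 : ∀ d s, (∀ x, ι x ≠ s) → p d (of s) = of s := fun d s h => by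
    simp only [p, lift_apply_of]
    rw [if_neg (by simpa using h)]
  have h3 : ∀ d d', (p d).comp (p d') = p (d * d') := by
    intro d d'
    ext s
    by_cases h : ∃ x, ι x = s
    · obtain ⟨x, rfl⟩ := h
      simp only [MonoidHom.comp_apply, ← map.of (f := ι), h1, MulAut.mul_apply]
    · simp [h2 _ s (by simpa using h)]
  have h4 : p 1 = MonoidHom.id _ := by
    ext s
    by_cases h : ∃ x, ι x = s
    · obtain ⟨x, rfl⟩ := h
      simp only [← map.of (f := ι), h1, MulAut.one_apply, MonoidHom.id_apply]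
    · simp [h2 _ s (by simpa using h)]
  refine ⟨MonoidHom.mk' (fun d => MonoidHom.toMulEquiv (p d) (p d⁻¹) (by rw [h3, inv_mul_cancel, h4])
    (by rw [h3, mul_inv_cancel, h4])) (fun d d' => ?_), h1, h2⟩
  exact MulEquiv.ext fun w => (DFunLike.congr_fun (h3 d d') w).symm

end ext

lemma toWord_append [DecidableEq Ω] {u w : FreeGroup Ω}
    (h : ∀ a ∈ u.toWord.getLast?, ∀ b ∈ w.toWord.head?, a.1 = b.1 → a.2 = b.2) :
    (u * w).toWord = u.toWord ++ w.toWord := by
  rw [toWord_mul]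
  exact IsReduced.reduce_eq (List.isChain_append.mpr ⟨isReduced_toWord, isReduced_toWord, h⟩)

lemma mem_gen_of_toWord [DecidableEq Ω] {X : Set Ω} {w : FreeGroup Ω}
    (h : ∀ p ∈ w.toWord, p.1 ∈ X) : w ∈ gen X := by
  rw [← mk_toWord (x := w)]
  generalize w.toWord = L at h
  induction L with
  | nil => exact one_mem _
  | cons p L ih =>
    rw [← List.singleton_append, ← mul_mk]
    refine mul_mem ?_ (ih fun q hq => h q (List.mem_cons_of_mem _ hq))
    have := of_mem_gen (h p List.mem_cons_self)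
    obtain ⟨a, _ | _⟩ := p
    · exact inv_mem this
    · exact this

/-- Elements whose normal form ends with the letter `z` or its inverse. -/
inductive Ends (z : Ω) : FreeGroup Ω → Prop
  | base {h t : FreeGroup Ω} : h ∈ gen {z}ᶜ → t = of z ∨ t = (of z)⁻¹ → Ends z (h * t)
  | step {u h t : FreeGroup Ω} : Ends z u → h ∈ gen {z}ᶜ → h ≠ 1 → t = of z ∨ t = (of z)⁻¹ →
      Ends z (u * h * t)

lemma Ends.word [DecidableEq Ω] {z : Ω} {u : FreeGroup Ω} (h : Ends z u) :
    ∃ L e, u.toWord = L ++ [(z, e)] := by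
  have key : ∀ {w t : FreeGroup Ω}, (∀ a ∈ w.toWord.getLast?, a.1 ≠ z) → t = of z ∨ t = (of z)⁻¹ →
      ∃ L e, (w * t).toWord = L ++ [(z, e)] := by
    intro w t hw ht
    obtain ⟨e, he⟩ : ∃ e, t.toWord = [(z, e)] := by
      rcases ht with rfl | rfl
      · exact ⟨true, toWord_of z⟩
      · exact ⟨false, by simp [toWord_inv, invRev]⟩
    refine ⟨w.toWord, e, ?_⟩
    rw [toWord_append, he]
    intro a ha b hb e1
    rw [he] at hb
    obtain rfl : (z, e) = b := by simpa using hb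
    exact absurd e1 (hw a ha)
  induction h with
  | base hh ht => exact key (fun a ha => toWord_mem_of_mem_gen hh a (List.mem_of_getLast? ha)) ht
  | @step u h t _ hh h1 ht ih =>
    obtain ⟨L, e, he⟩ := ih
    refine key (fun a ha => ?_) ht
    rw [toWord_append, List.getLast?_append_of_ne_nil _ (by simpa using h1)] at ha
    · exact toWord_mem_of_mem_gen hh a (List.mem_of_getLast? ha)
    · intro a ha b hb e1
      rw [he] at ha
      obtain rfl : (z, e) = a := by simpa using ha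
      exact absurd e1.symm (toWord_mem_of_mem_gen hh b (List.mem_of_head? hb))

lemma Ends.suffix {z : Ω} {u h : FreeGroup Ω} {X : Set Ω} (hu : Ends z u) (hh : h ∈ gen {z}ᶜ)
    (hm : u * h ∈ gen X) : h ∈ gen X ∧ z ∈ X := by
  classical
  obtain ⟨L, e, he⟩ := hu.word
  have h1 := toWord_mem_of_mem_gen hm
  rw [toWord_append, he] at h1
  · exact ⟨mem_gen_of_toWord fun p hp => h1 p (by simp [hp]), h1 (z, e) (by simp)⟩
  · intro a ha b hb e1
    rw [he] at ha
    obtain rfl : (z, e) = a := by simpa using ha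
    exact absurd e1.symm (toWord_mem_of_mem_gen hh b (List.mem_of_head? hb))

lemma Ends.not_mem {z : Ω} {u h : FreeGroup Ω} (hu : Ends z u) (hh : h ∈ gen {z}ᶜ) :
    u * h ∉ gen {z}ᶜ := fun hm => (hu.suffix hh hm).2 rfl

lemma Ends.map {z : Ω} {u : FreeGroup Ω} (hu : Ends z u) (f : MulAut (FreeGroup Ω))
    (h1 : f (of z) = of z) (h2 : ∀ w ∈ gen {z}ᶜ, f w ∈ gen {z}ᶜ) : Ends z (f u) := by
  have ht : ∀ t, t = of z ∨ t = (of z)⁻¹ → f t = of z ∨ f t = (of z)⁻¹ := by
    rintro _ (rfl | rfl) <;> simp [h1]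
  induction hu with
  | base hh h => rw [map_mul]; exact .base (h2 _ hh) (ht _ h)
  | step _ hh h3 h ih =>
    rw [map_mul, map_mul]
    exact .step ih (h2 _ hh) (by simpa using h3) (ht _ h)

lemma eq_of_isConj_of {s t : Ω} (h : IsConj (of s) (of t)) : s = t := by
  by_contra h1
  have h2 := (rt {s}).map_isConj h
  rw [rt_of_mem (Set.mem_singleton s), rt_of_not (X := {s}) (fun e => h1 e.symm),
    isConj_one_left] at h2
  exact of_ne_one s h2

lemma eq_one_of_comm {s t : Ω} (hst : s ≠ t) {w : FreeGroup Ω} (hs : Commute w (of s))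
    (ht : Commute w (of t)) : w = 1 := by
  classical
  by_contra h
  obtain ⟨p, L, hp⟩ := List.exists_cons_of_ne_nil (mt toWord_eq_nil_iff.mp h)
  have key : ∀ x, Commute w (of x) → p.1 = x := by
    intro x hx
    by_contra h1
    have h2 : (of x * w).toWord = (x, true) :: p :: L := by
      rw [toWord_append, toWord_of, hp]
      · rfl
      · intro a ha b hb e
        rw [hp] at hb
        obtain rfl : (x, true) = a := by simpa using ha
        obtain rfl : p = b := by simpa using hb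
        exact absurd e.symm h1
    have h3 := toWord_mul_sublist w (of x)
    rw [hx.eq, h2, hp, toWord_of] at h3
    have h4 := h3.eq_of_length (by simp)
    exact h1 (by rw [← (List.cons.inj h4).1])
  exact hst ((key s hs).symm.trans (key t ht))

section lists
variable {A G : Type} [Group G]

lemma exists_split {L : List A} (hL : L.Nodup) {a : A} (ha : a ∈ L) :
    ∃ p q, L = p ++ a :: q ∧ a ∉ p ∧ a ∉ q := by
  obtain ⟨p, q, rfl⟩ := List.append_of_mem ha
  rw [List.nodup_append] at hL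
  exact ⟨p, q, rfl, fun h => hL.2.2 a h a List.mem_cons_self rfl, (List.nodup_cons.mp hL.2.1).1⟩

lemma prod_map_mem {K : Subgroup G} {L : List A} {f : A → G} (h : ∀ a ∈ L, f a ∈ K) :
    (L.map f).prod ∈ K :=
  K.list_prod_mem (by simpa using h)

/-- Changing one factor of a product. -/
lemma prod_change {K : Subgroup G} {L : List A} (hL : L.Nodup) {a : A} (ha : a ∈ L) {f : A → G}
    (h : ∀ b ∈ L, b ≠ a → f b ∈ K) : ∃ u ∈ K, ∃ v ∈ K, ∀ f' : A → G, (∀ b ≠ a, f' b = f b) →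
      (L.map f').prod = u * f' a * v := by
  obtain ⟨p, q, rfl, h1, h2⟩ := exists_split hL ha
  refine ⟨(p.map f).prod, prod_map_mem fun b hb => h b (by simp [hb]) (fun e => h1 (e ▸ hb)),
    (q.map f).prod, prod_map_mem fun b hb => h b (by simp [hb]) (fun e => h2 (e ▸ hb)),
    fun f' hf => ?_⟩
  rw [List.map_append, List.map_cons, List.prod_append, List.prod_cons, mul_assoc,
    List.map_congr_left (fun b hb => hf b (fun e => h1 (e ▸ hb))),
    List.map_congr_left (fun b hb => hf b (fun e => h2 (e ▸ hb)))]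

end lists

end Pool.Agent.Lib.MP_19b52f_al.FC
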