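import Pool.Agent.Lib.MP_19b52f_al.FC.GDef
import Pool.Agent.Lib.MP_19b52f_al.FC.BraidSep

/-! Half twists along a path and the Artin action. -/

namespace Pool.Agent.Lib.MP_19b52f_al.FC

open Pool.Agent.Lib.MP_19b52f_al.EA Pool.Agent.Lib.MP_19b52f_al.EA2
open FreeGroup hiding map_mul map_inv map_one lift_unique
open GrL

variable {V E : Type} {G : Gr V E} {rest : V → E → FreeGroup (GrL V E)}

/-- The value on the first sheet. -/
def gchainA : FreeGroup ℕ →* Wm ℤˣ (FreeGroup ℕ) where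
  toFun x := ⟨fun φ => if φ = 1 then x else 1, 1⟩
  map_one' := by ext φ <;> simp
  map_mul' x y := by
    ext φ
    · by_cases h : φ = 1 <;> simp [h]
    · simp

/-- The value on the second sheet. -/
def gchainB : FreeGroup ℕ →* Wm ℤˣ (FreeGroup ℕ) where
  toFun x := ⟨fun φ => if φ = 1 then 1 else x, 1⟩
  map_one' := by ext φ <;> simp
  map_mul' x y := by
    ext φ
    · by_cases h : φ = 1 <;> simp [h]
    · simp

/-- The exchange of the sheets. -/
def gchainT : Wm ℤˣ (FreeGroup ℕ) := ⟨fun _ => 1, -1⟩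

/-- The images of the sides. -/
def gchainU (n c k : ℕ) : Wm ℤˣ (FreeGroup ℕ) :=
  if k ≤ c then gchainA (dP k) else gchainB (dP k * (dP (n + 1))⁻¹)

lemma gchain_mapA (f : FreeGroup ℕ →* FreeGroup ℕ) (x : FreeGroup ℕ) :
    Wm.map f (gchainA x) = gchainA (f x) := by
  ext φ
  · by_cases h : φ = 1 <;> simp [gchainA, h]
  · rfl

lemma gchain_mapB (f : FreeGroup ℕ →* FreeGroup ℕ) (x : FreeGroup ℕ) :
    Wm.map f (gchainB x) = gchainB (f x) := by
  ext φ
  · by_cases h : φ = 1 <;> simp [gchainB, h]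
  · rfl

lemma gchain_mapT (f : FreeGroup ℕ →* FreeGroup ℕ) : Wm.map f gchainT = gchainT := by
  ext φ
  · simp [gchainT]
  · rfl

lemma gchain_swap (x : FreeGroup ℕ) : gchainA x = gchainT * gchainB x * gchainT⁻¹ := by
  ext φ
  · rcases Int.units_eq_one_or φ with rfl | rfl <;> simp [gchainA, gchainB, gchainT]
  · simp [gchainA, gchainB, gchainT]

lemma gchain_self (k : ℕ) : art k (dP (k + 1)) = dP k * (dP (k + 1))⁻¹ * dP (k + 2) ∧
    art k (dP (k + 2)) = dP (k + 2) ∧ ∀ j ≤ k, art k (dP j) = dP j := by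
  have h : ∀ j ≤ k, art k (dP j) = dP j := by
    intro j hj
    induction j with
    | zero => simp [dP]
    | succ j ih =>
      rw [dP, map_mul, ih (by omega), art_of, artF, if_neg (by omega), if_neg (by omega)]
  refine ⟨?_, ?_, h⟩
  · simp [dP, h k le_rfl, art_of, artF, mul_assoc]
  · simp [dP, h k le_rfl, art_of, artF, mul_assoc]

lemma gchain_fix {k j : ℕ} (h : j ≠ k + 1) : art k (dP j) = dP j := by
  rcases Nat.lt_or_ge k j with h1 | h1
  · obtain ⟨m, rfl⟩ : ∃ m, j = k + 2 + m := ⟨j - (k + 2), by omega⟩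
    clear h h1
    induction m with
    | zero => exact (gchain_self k).2.1
    | succ m ih =>
      rw [← add_assoc, dP, map_mul, ih, art_of, artF, if_neg (by omega), if_neg (by omega)]
  · exact (gchain_self k).2.2 j h1

lemma gchain_fixU {n c k j : ℕ} (hk : k < n) (h : j ≠ k + 1) :
    Wm.map (art k).toMonoidHom (gchainU n c j) = gchainU n c j := by
  unfold gchainU
  split_ifs
  · rw [gchain_mapA]
    exact congrArg _ (gchain_fix h)
  · rw [gchain_mapB, map_mul, map_inv]
    exact congrArg _ (congrArg₂ _ (gchain_fix h) (congrArg _ (gchain_fix (by omega))))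

lemma gchain_low (k : ℕ) {X : Set ℕ} (h : ∀ j < k, j ∈ X) : dP k ∈ gen X := by
  induction k with
  | zero => exact one_mem _
  | succ k ih => exact mul_mem (of_mem_gen (h k (by omega))) (ih fun j hj => h j (by omega))

lemma gchain_high {k m : ℕ} (hk : k ≤ m) {X : Set ℕ} (h : ∀ j, k ≤ j → j ∈ X) :
    dP k * (dP m)⁻¹ ∈ gen X := by
  induction m, hk using Nat.le_induction with
  | base => simp
  | succ m hm ih =>
    rw [dP, mul_inv_rev, ← mul_assoc]
    exact mul_mem ih (inv_mem (of_mem_gen (h m hm)))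

/-- The elements without shift and with prescribed values. -/
def gchainK (i : ℕ) : Subgroup (Wm ℤˣ (FreeGroup ℕ)) where
  carrier := {x | x.a = 1 ∧ x.c 1 ∈ gen {y : ℕ | y ≤ i} ∧ x.c (-1) ∈ gen {y : ℕ | i < y}}
  one_mem' := ⟨rfl, one_mem _, one_mem _⟩
  mul_mem' := by
    rintro x y ⟨a1, a2, a3⟩ ⟨b1, b2, b3⟩
    refine ⟨by simp [a1, b1], ?_, ?_⟩
    · rw [Wm.mul_c, a1, mul_one]
      exact mul_mem a2 b2
    · rw [Wm.mul_c, a1, mul_one]
      exact mul_mem a3 b3
  inv_mem' := by
    rintro x ⟨a1, a2, a3⟩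
    refine ⟨by simp [a1], ?_, ?_⟩
    · rw [Wm.inv_c, a1, inv_one, mul_one]
      exact inv_mem a2
    · rw [Wm.inv_c, a1, inv_one, mul_one]
      exact inv_mem a3

lemma gchain_memA {i : ℕ} {x : FreeGroup ℕ} :
    gchainA x ∈ gchainK i ↔ x ∈ gen {y : ℕ | y ≤ i} :=
  ⟨fun h => h.2.1, fun h => ⟨rfl, h, one_mem _⟩⟩

lemma gchain_memB {i : ℕ} {x : FreeGroup ℕ} :
    gchainB x ∈ gchainK i ↔ x ∈ gen {y : ℕ | i < y} :=
  ⟨fun h => h.2.2, fun h => ⟨rfl, one_mem _, h⟩⟩

lemma gchain_memU {n i c k : ℕ} (h1 : i ≤ c) (h2 : c ≤ i + 1) (hk : k ≤ n + 1) :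
    gchainU n c k ∈ gchainK i := by
  unfold gchainU
  split_ifs
  · exact gchain_memA.2 (gchain_low k fun j hj => by simp only [Set.mem_ofPred_eq]; omega)
  · exact gchain_memB.2 (gchain_high hk fun j hj => by simp only [Set.mem_ofPred_eq]; omega)

lemma gchain_exists {W : Type} [Group W] {n : ℕ} {ch : ℕ → E}
    (hc : ∀ i < n, ∀ j < n, ch i = ch j → i = j) (a b c : ℕ → W) :
    ∃ π : FreeGroup (GrL V E) →* W, (∀ k < n, π (of (eps (ch k))) = a k ∧
      π (of (lf (ch k))) = b k ∧ π (of (rg (ch k))) = c k) ∧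
      (∀ e, (∀ k < n, ch k ≠ e) → π (of (eps e)) = 1 ∧ π (of (lf e)) = 1 ∧ π (of (rg e)) = 1) ∧
      (∀ e, π (of (sp e)) = 1) ∧ ∀ v, π (of (vx v)) = 1 := by
  classical
  let p : (ℕ → W) → E → W := fun g e => if h : ∃ k, k < n ∧ ch k = e then g h.choose else 1
  have p1 : ∀ g, ∀ k < n, p g (ch k) = g k := fun g k hk => by
    have h : ∃ j, j < n ∧ ch j = ch k := ⟨k, hk, rfl⟩
    simp only [p]
    rw [dif_pos h, hc _ h.choose_spec.1 _ hk h.choose_spec.2]
  have p2 : ∀ g e, (∀ k < n, ch k ≠ e) → p g e = 1 := fun g e h =>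
    dif_neg fun ⟨k, h1, h2⟩ => h k h1 h2
  refine ⟨lift fun s => match s with
    | eps e => p a e
    | lf e => p b e
    | rg e => p c e
    | sp _ => 1
    | vx _ => 1, fun k hk => ?_, fun e h => ?_, fun e => ?_, fun v => ?_⟩
  · simp only [lift_apply_of, p1 _ k hk, and_self]
  · simp only [lift_apply_of, p2 _ e h, and_self]
  · simp only [lift_apply_of]
  · simp only [lift_apply_of]

lemma gchain_vv {n i k : ℕ} (hk : k < n) :
    Wm.map (art k).toMonoidHom ((gchainU n i (k + 1))⁻¹ * (if k = i then gchainT else 1)⁻¹ *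
      gchainU n (i + 1) (k + 1)) =
    (gchainU n i (k + 1))⁻¹ * (if k = i then gchainT else 1)⁻¹ * gchainU n (i + 1) (k + 1) := by
  by_cases h : k = i
  · subst h
    have e : (gchainU n k (k + 1))⁻¹ * gchainT⁻¹ * gchainU n (k + 1) (k + 1) =
        gchainB (dP (n + 1)) * gchainT⁻¹ := by
      rw [gchainU, gchainU, if_neg (by omega), if_pos le_rfl, gchain_swap]
      simp [mul_assoc]
    rw [if_pos rfl, e, map_mul, map_inv, gchain_mapT, gchain_mapB]
    exact congrArg (fun x => gchainB x * gchainT⁻¹) (gchain_fix (by omega))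
  · have e : gchainU n (i + 1) (k + 1) = gchainU n i (k + 1) := by
      unfold gchainU
      exact if_congr (by omega) rfl rfl
    rw [if_neg h, e]
    simp

lemma gchain_rg {n i k : ℕ} (hk : k < n) :
    (if k = i then gchainT else 1)⁻¹ * gchainU n i k *
      ((gchainU n i (k + 1))⁻¹ * (if k = i then gchainT else 1)⁻¹ * gchainU n (i + 1) (k + 1))⁻¹ *
      (gchainU n i (k + 1))⁻¹ * gchainU n (i + 1) (k + 2) =
    Wm.map (art k).toMonoidHom (gchainU n i (k + 1)) := by
  have e1 : (art k).toMonoidHom (dP (k + 1)) = dP k * (dP (k + 1))⁻¹ * dP (k + 2) :=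
    (gchain_self k).1
  have e2 : (art k).toMonoidHom (dP (n + 1)) = dP (n + 1) := gchain_fix (by omega)
  unfold gchainU
  rcases lt_trichotomy k i with h | rfl | h
  · rw [if_neg h.ne, if_pos h.le, if_pos (show k + 1 ≤ i by omega),
      if_pos (show k + 1 ≤ i + 1 by omega), if_pos (show k + 2 ≤ i + 1 by omega), gchain_mapA, e1]
    simp [mul_assoc]
  · rw [if_pos rfl, if_pos le_rfl, if_neg (show ¬k + 1 ≤ k by omega), if_pos le_rfl,
      if_neg (show ¬k + 2 ≤ k + 1 by omega), gchain_mapB, map_mul (art k).toMonoidHom,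
      map_inv (art k).toMonoidHom, e1, e2, gchain_swap, gchain_swap]
    simp [mul_assoc]
  · rw [if_neg h.ne', if_neg (show ¬k ≤ i by omega), if_neg (show ¬k + 1 ≤ i by omega),
      if_neg (show ¬k + 1 ≤ i + 1 by omega), if_neg (show ¬k + 2 ≤ i + 1 by omega), gchain_mapB,
      map_mul (art k).toMonoidHom, map_inv (art k).toMonoidHom, e1, e2]
    simp [mul_assoc]

theorem Gr.Rest.chain (hr : G.Rest rest) {n : ℕ} {ch : ℕ → E} {w : ℕ → V}
    (h1 : ∀ i < n, G.src (ch i) = w i ∧ G.tgt (ch i) = w (i + 1))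
    (h2 : ∀ i ≤ n, ∀ j ≤ n, w i = w j → i = j) (h : Br n →* MulAut (FreeGroup (GrL V E)))
    (h3 : ∀ i < n, G.IsTw rest (ch i) (h (sA n i))) (b : Br n) {i j : ℕ} (hi : i < n) (hj : j < n)
    (h4 : h b (of (lf (ch j))) ∈ gen {eps (ch i)}ᶜ) :
    (j ≤ i → act (inc n b) (dP (j + 1)) ∈ gen {x : ℕ | x ≤ i}) ∧
      (i < j → act (inc n b) (dP (n + 1) * (dP (j + 1))⁻¹) ∈ gen {x : ℕ | i < x}) := by
  have hc : ∀ a < n, ∀ b < n, ch a = ch b → a = b := fun a ha b hb e =>
    h2 a ha.le b hb.le (by rw [← (h1 a ha).1, ← (h1 b hb).1, e])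
  obtain ⟨π, p1, p2, p3, p4⟩ := gchain_exists (V := V) hc (fun k => if k = i then gchainT else 1)
    (fun k => gchainU n (i + 1) (k + 1)) fun k => gchainU n i (k + 1)
  have ks : ∀ (v : V) (e : E), (∀ k < n, ch k = e → w k ≠ v ∧ w (k + 1) ≠ v) →
      G.ss v e ∈ π.ker := fun v e he => by
    by_cases hx : ∃ k < n, ch k = e
    · obtain ⟨k, hk, rfl⟩ := hx
      rw [G.ss_not ((h1 k hk).1 ▸ (he k hk rfl).1) ((h1 k hk).2 ▸ (he k hk rfl).2)]
      exact one_mem _
    · have := p2 e fun k hk e' => hx ⟨k, hk, e'⟩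
      exact G.ss_mem v this.2.1 this.2.2
  have r0 : ∀ k < n, π (rest (w k) (ch k)) = gchainU n i k := by
    intro k hk
    rcases k with _ | k
    · rw [gchainU, if_pos (Nat.zero_le _), dP, map_one]
      refine hr.mem _ _ π.ker (p4 _) p3 fun e he => ks _ _ fun m hm e' => ⟨fun e2 => ?_, fun e2 => ?_⟩
      · exact he (by rw [← e', h2 m hm.le 0 (Nat.zero_le _) e2])
      · exact absurd (h2 (m + 1) hm 0 (Nat.zero_le _) e2) (by omega)
    · have hk' : k < n := by omega
      obtain ⟨a, ha, b, hb, e1, -⟩ := hr.two (w (k + 1)) (ch (k + 1)) (ch k) π.ker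
        (fun e => absurd (hc _ hk _ hk' e) (by omega)) (p4 _) p3 fun e he he' =>
          ks _ _ fun m hm e' => ⟨fun e2 => he (by rw [← e', h2 m hm.le _ hk.le e2]), fun e2 =>
            he' (by rw [← e', Nat.succ_injective (h2 (m + 1) hm _ hk.le e2)])⟩
      rw [e1, map_mul, map_mul, MonoidHom.mem_ker.1 ha, MonoidHom.mem_ker.1 hb, one_mul, mul_one,
        ← (h1 k hk').2, G.ss_tgt, (p1 k hk').2.2]
  have r1 : ∀ k < n, π (rest (w (k + 1)) (ch k)) = (gchainU n (i + 1) (k + 2))⁻¹ := by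
    intro k hk
    rcases Nat.lt_or_ge (k + 1) n with hk' | hk'
    · obtain ⟨a, ha, b, hb, e1, -⟩ := hr.two (w (k + 1)) (ch k) (ch (k + 1)) π.ker
        (fun e => absurd (hc _ hk _ hk' e) (by omega)) (p4 _) p3 fun e he he' =>
          ks _ _ fun m hm e' => ⟨fun e2 => he' (by rw [← e', h2 m hm.le _ hk'.le e2]), fun e2 =>
            he (by rw [← e', Nat.succ_injective (h2 (m + 1) hm _ hk'.le e2)])⟩
      rw [e1, map_mul, map_mul, MonoidHom.mem_ker.1 ha, MonoidHom.mem_ker.1 hb, one_mul, mul_one,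
        ← (h1 _ hk').1, G.ss_src, map_inv, (p1 _ hk').2.1]
    · obtain rfl : n = k + 1 := by omega
      rw [gchainU, if_neg (by omega), mul_inv_cancel, map_one, inv_one]
      refine hr.mem _ _ π.ker (p4 _) p3 fun e he => ks _ _ fun m hm e' => ⟨fun e2 => ?_, fun e2 => ?_⟩
      · exact absurd (h2 m hm.le _ le_rfl e2) (by omega)
      · exact he (by rw [← e', Nat.succ_injective (h2 (m + 1) hm _ le_rfl e2)])
  have gn : ∀ k < n, ∀ u, π (h (sA n k) u) = Wm.map (art k).toMonoidHom (π u) := by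
    intro k hk u
    have t := h3 k hk
    have ev : π (vv (ch k)) = (gchainU n i (k + 1))⁻¹ * (if k = i then gchainT else 1)⁻¹ *
        gchainU n (i + 1) (k + 1) := by
      rw [vv, map_mul, map_mul, map_inv, map_inv, (p1 k hk).1, (p1 k hk).2.1, (p1 k hk).2.2]
    have q1 : ∀ s, s ≠ lf (ch k) → s ≠ rg (ch k) →
        π (h (sA n k) (of s)) = Wm.map (art k).toMonoidHom (π (of s)) := by
      intro s s1 s2
      rw [t.fix s s1 s2]
      rcases s with e | e | e | e | v
      · by_cases hx : ∃ m < n, ch m = e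
        · obtain ⟨m, hm, rfl⟩ := hx
          rw [(p1 m hm).1]
          split_ifs
          · exact (gchain_mapT _).symm
          · exact (map_one _).symm
        · rw [(p2 e fun m hm e' => hx ⟨m, hm, e'⟩).1, map_one]
      · by_cases hx : ∃ m < n, ch m = e
        · obtain ⟨m, hm, rfl⟩ := hx
          rw [(p1 m hm).2.1, gchain_fixU hk fun e => s1 (by rw [Nat.succ_injective e])]
        · rw [(p2 e fun m hm e' => hx ⟨m, hm, e'⟩).2.1, map_one]
      · by_cases hx : ∃ m < n, ch m = e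
        · obtain ⟨m, hm, rfl⟩ := hx
          rw [(p1 m hm).2.2, gchain_fixU hk fun e => s2 (by rw [Nat.succ_injective e])]
        · rw [(p2 e fun m hm e' => hx ⟨m, hm, e'⟩).2.2, map_one]
      · rw [p3, map_one]
      · rw [p4, map_one]
    have q2 : π (h (sA n k) (of (rg (ch k)))) =
        Wm.map (art k).toMonoidHom (π (of (rg (ch k)))) := by
      rw [t.r, (h1 k hk).1, (h1 k hk).2]
      simp only [map_mul π, map_inv π]
      rw [ev, r0 k hk, r1 k hk, (p1 k hk).1, (p1 k hk).2.2, inv_inv, gchain_rg hk]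
    have q3 : π (h (sA n k) (vv (ch k))) = Wm.map (art k).toMonoidHom (π (vv (ch k))) := by
      rw [t.v, ev, gchain_vv hk]
    refine eq_on_gen (f := π.comp (h (sA n k)).toMonoidHom)
      (g := (Wm.map (art k).toMonoidHom).comp π) (fun s _ => ?_) (mem_gen_univ u)
    change π (h (sA n k) (of s)) = Wm.map (art k).toMonoidHom (π (of s))
    by_cases s1 : s = lf (ch k)
    · have e : (of (lf (ch k)) : FreeGroup (GrL V E)) =
          of (eps (ch k)) * of (rg (ch k)) * vv (ch k) := by simp [vv, mul_assoc]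
      rw [s1, e]
      simp only [map_mul]
      rw [q2, q3, q1 _ (by simp) (by simp)]
    by_cases s2 : s = rg (ch k)
    · rw [s2, q2]
    · exact q1 s s1 s2
  let S : Subgroup (Br n) :=
    { carrier := {g | ∀ u, π (h g u) = Wm.map (act (inc n g)).toMonoidHom (π u)}
      one_mem' := fun u => by
        rw [map_one, map_one, map_one]
        rfl
      mul_mem' := fun {g g'} hg hg' u => by
        rw [map_mul, MulAut.mul_apply, hg, hg', map_mul, map_mul]
        rfl
      inv_mem' := fun {g} hg u => by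
        have e := hg (h g⁻¹ u)
        rw [← MulAut.mul_apply, ← map_mul, mul_inv_cancel, map_one, MulAut.one_apply] at e
        rw [e]
        ext φ
        · simp
        · rfl }
  have hb : b ∈ S := mem_of_ag (fun k u => by
    have e : act (sg k) = art k := mulAut_ext fun j => by rw [act_sg, art_of]
    rw [← sA_val, inc_sA k.2, e]
    exact gn k k.2 u) b
  have hK : π (h b (of (lf (ch j)))) ∈ gchainK i := by
    refine map_mem_of_gen π (fun s hs => ?_) h4
    rcases s with e | e | e | e | v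
    · by_cases hx : ∃ m < n, ch m = e
      · obtain ⟨m, hm, rfl⟩ := hx
        rw [(p1 m hm).1, if_neg fun e => hs (by rw [e]; rfl)]
        exact one_mem _
      · rw [(p2 e fun m hm e' => hx ⟨m, hm, e'⟩).1]
        exact one_mem _
    · by_cases hx : ∃ m < n, ch m = e
      · obtain ⟨m, hm, rfl⟩ := hx
        rw [(p1 m hm).2.1]
        exact gchain_memU (by omega) le_rfl (by omega)
      · rw [(p2 e fun m hm e' => hx ⟨m, hm, e'⟩).2.1]
        exact one_mem _
    · by_cases hx : ∃ m < n, ch m = e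
      · obtain ⟨m, hm, rfl⟩ := hx
        rw [(p1 m hm).2.2]
        exact gchain_memU le_rfl (by omega) (by omega)
      · rw [(p2 e fun m hm e' => hx ⟨m, hm, e'⟩).2.2]
        exact one_mem _
    · rw [p3]
      exact one_mem _
    · rw [p4]
      exact one_mem _
  rw [hb, (p1 j hj).2.1, gchainU] at hK
  refine ⟨fun hji => ?_, fun hij => ?_⟩
  · rw [if_pos (by omega), gchain_mapA] at hK
    exact gchain_memA.1 hK
  · rw [if_neg (by omega), gchain_mapB] at hK
    have := inv_mem (gchain_memB.1 hK)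
    rwa [← map_inv, mul_inv_rev, inv_inv] at this

end Pool.Agent.Lib.MP_19b52f_al.FC
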