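import Pool.Agent.Lib.MP_19b52f_al.FC.Surf

/-! The ribbon surface of a finite graph: letters and words. -/

namespace Pool.Agent.Lib.MP_19b52f_al.FC

open Pool.Agent.Lib.MP_19b52f_al.EA
open FreeGroup hiding map_mul map_inv map_one lift_unique

/-- The letters of the surface of a graph. -/
inductive GrL (V E : Type) : Type
  | eps (e : E) : GrL V E
  | lf (e : E) : GrL V E
  | rg (e : E) : GrL V E
  | sp (e : E) : GrL V E
  | vx (v : V) : GrL V E

open GrL

/-- A finite graph without loops, with enumerations of the edges and the vertices. -/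
structure Gr (V E : Type) where
  src : E → V
  tgt : E → V
  ne : ∀ e, src e ≠ tgt e
  en : List E
  en_nd : en.Nodup
  en_all : ∀ e, e ∈ en
  vn : List V
  vn_nd : vn.Nodup
  vn_all : ∀ v, v ∈ vn

variable {V E : Type}

/-- The second boundary word of the arc across an edge. -/
def vv (e : E) : FreeGroup (GrL V E) := (of (rg e))⁻¹ * (of (eps e))⁻¹ * of (lf e)

namespace Gr
variable (G : Gr V E)

open Classical in
/-- The side of the disc at `v` along which the band of `e` is attached. -/
noncomputable def ss (v : V) (e : E) : FreeGroup (GrL V E) :=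
  if G.src e = v then (of (lf e))⁻¹ else if G.tgt e = v then of (rg e) else 1

open Classical in
/-- The free side that follows it. -/
noncomputable def tt (v : V) (e : E) : FreeGroup (GrL V E) := if G.tgt e = v then of (sp e) else 1

/-- The loop around the puncture at a vertex. -/
noncomputable def xx (v : V) : FreeGroup (GrL V E) :=
  of (vx v) * (G.en.map fun e => G.ss v e * G.tt v e).prod

/-- The main boundary word. -/
noncomputable def cc : FreeGroup (GrL V E) :=
  ((G.vn.map fun v => of (vx v) * (G.en.map (G.tt v)).prod).prod)⁻¹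

lemma ss_src (e : E) : G.ss (G.src e) e = (of (lf e))⁻¹ := if_pos rfl

lemma ss_tgt (e : E) : G.ss (G.tgt e) e = of (rg e) := by rw [ss, if_neg (G.ne e), if_pos rfl]

lemma ss_not {v : V} {e : E} (h : G.src e ≠ v) (h' : G.tgt e ≠ v) : G.ss v e = 1 := by
  rw [ss, if_neg h, if_neg h']

lemma ss_mem {K : Subgroup (FreeGroup (GrL V E))} (v : V) {e : E} (h : of (lf e) ∈ K)
    (h' : of (rg e) ∈ K) : G.ss v e ∈ K := by
  unfold ss
  split_ifs
  · exact inv_mem h
  · exact h'
  · exact one_mem _

lemma tt_mem {K : Subgroup (FreeGroup (GrL V E))} (v : V) {e : E} (h : of (sp e) ∈ K) :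
    G.tt v e ∈ K := by
  unfold tt
  split_ifs
  · exact h
  · exact one_mem _

/-- The rest of the loop at a vertex, read cyclically after the side of an edge. -/
structure Rest (rest : V → E → FreeGroup (GrL V E)) : Prop where
  conj : ∀ v e, cl (G.xx v) = cl (G.ss v e * rest v e)
  mem : ∀ v e (K : Subgroup (FreeGroup (GrL V E))), of (vx v) ∈ K → (∀ e', of (sp e') ∈ K) →
    (∀ e' ≠ e, G.ss v e' ∈ K) → rest v e ∈ K
  two : ∀ v e e' (K : Subgroup (FreeGroup (GrL V E))), e ≠ e' → of (vx v) ∈ K →
    (∀ x, of (sp x) ∈ K) → (∀ x, x ≠ e → x ≠ e' → G.ss v x ∈ K) → ∃ a ∈ K, ∃ b ∈ K,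
      rest v e = a * G.ss v e' * b ∧ rest v e' = b * G.ss v e * a

/-- The half twist along an edge. -/
structure IsTw (rest : V → E → FreeGroup (GrL V E)) (e : E) (f : MulAut (FreeGroup (GrL V E))) :
    Prop where
  r : f (of (rg e)) = (of (eps e))⁻¹ * rest (G.src e) e * (vv e)⁻¹ * (of (rg e))⁻¹ *
    (rest (G.tgt e) e)⁻¹
  v : f (vv e) = vv e
  fix : ∀ s, s ≠ lf e → s ≠ rg e → f (of s) = of s

end Gr

end Pool.Agent.Lib.MP_19b52f_al.FC
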