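import Pool.Agent.Lib.MP_19b52f_al.FC.GDef

/-! The peripheral system of the surface of a graph is standard. -/

namespace Pool.Agent.Lib.MP_19b52f_al.FC

open Pool.Agent.Lib.MP_19b52f_al.EA
open FreeGroup hiding map_mul map_inv map_one lift_unique
open GrL

variable {V E : Type}

/-- The letters of the vertices and of the edges in a list. -/
def gstdY (L : List E) : Set (GrL V E) :=
  {s | ∀ e, s = eps e ∨ s = lf e ∨ s = rg e ∨ s = sp e → e ∈ L}

lemma gstd_cons (e : E) (L : List E) : (gstdY (e :: L) : Set (GrL V E)) =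
    insert (sp e) (insert (rg e) (insert (eps e) (insert (lf e) (gstdY L)))) := by
  ext s
  cases s <;> simp [gstdY]

lemma gstd_change {G : Type} [Group G] {K : Subgroup G} {L : List V} (hL : L.Nodup) {a : V}
    (ha : a ∈ L) {P Q μ μ' : V → G} (hP : ∀ v, P v ∈ K) (hQ : ∀ v, Q v ∈ K) (hμ : ∀ v, μ v ∈ K)
    (h1 : μ a = 1) (h2 : ∀ v ≠ a, μ' v = μ v) : ∃ u ∈ K, ∃ w ∈ K,
      ((L.map fun v => P v * μ v * Q v).prod)⁻¹ = u * w ∧
      ((L.map fun v => P v * μ' v * Q v).prod)⁻¹ = u * (μ' a)⁻¹ * w := by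
  obtain ⟨u, hu, w, hw, h⟩ := prod_change (K := K) hL ha (f := fun v => P v * μ v * Q v)
    fun v _ _ => mul_mem (mul_mem (hP v) (hμ v)) (hQ v)
  refine ⟨(Q a * w)⁻¹, inv_mem (mul_mem (hQ a) hw), (u * P a)⁻¹, inv_mem (mul_mem hu (hP a)),
    ?_, ?_⟩
  · rw [h _ fun _ _ => rfl, h1]
    group
  · rw [h (fun v => P v * μ' v * Q v) fun v hv => by rw [h2 v hv]]
    group

lemma gstd_list (G : Gr V E) (L : List E) (hL : L.Nodup) : SStd (gstdY L)
    (cl ((G.vn.map fun v => of (vx v) * ((L.map fun e => G.ss v e * G.tt v e).prod)⁻¹ *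
      (L.map (G.tt v)).prod).prod)⁻¹ ::ₘ
      (((G.vn.map fun v => cl (of (vx v : GrL V E)) : List _) : Multiset _) +
        (L.map fun e => ({cl (of (eps e)), cl (vv e)} : Multiset _)).sum)) := by
  classical
  induction L with
  | nil =>
    refine ⟨_, _, ⟨1, [], G.vn.map vx, ⟨fun _ _ => rfl, fun s hs => of_mem_gen hs⟩, ?_, ?_, rfl,
      rfl⟩, ?_⟩
    · simpa [lets] using G.vn_nd.map fun _ _ h => vx.inj h
    · intro s
      cases s <;> simp [gstdY, lets, G.vn_all]
    · simp [hw, pw, List.map_map, Function.comp_def]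
  | cons e L ih =>
    obtain ⟨he, hL'⟩ := List.nodup_cons.mp hL
    have ih := ih hL'
    set R : Multiset (ConjClasses (FreeGroup (GrL V E))) :=
      ((G.vn.map fun v => cl (of (vx v : GrL V E)) : List _) : Multiset _) +
        (L.map fun e => ({cl (of (eps e)), cl (vv e)} : Multiset _)).sum with hR
    set P : V → FreeGroup (GrL V E) :=
      fun v => of (vx v) * ((L.map fun e => G.ss v e * G.tt v e).prod)⁻¹ with hPd
    set Q : V → FreeGroup (GrL V E) := fun v => (L.map (G.tt v)).prod with hQd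
    have hP : ∀ v, P v ∈ gen (gstdY L) := fun v =>
      mul_mem (of_mem_gen (by simp [gstdY])) (inv_mem (prod_map_mem fun a ha => mul_mem
        (G.ss_mem v (of_mem_gen (by simpa [gstdY] using ha)) (of_mem_gen (by simpa [gstdY] using ha)))
        (G.tt_mem v (of_mem_gen (by simpa [gstdY] using ha)))))
    have hQ : ∀ v, Q v ∈ gen (gstdY L) := fun v =>
      prod_map_mem fun a ha => G.tt_mem v (of_mem_gen (by simpa [gstdY] using ha))
    let μ : V → FreeGroup (GrL V E) := fun v => if G.src e = v then of (lf e) else 1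
    let μ' : V → FreeGroup (GrL V E) := fun v => (G.tt v e)⁻¹ * (G.ss v e)⁻¹ * G.tt v e
    obtain ⟨u, hu, w, hw, e1, e2⟩ := gstd_change G.vn_nd (G.vn_all (G.src e)) (μ := fun _ => 1)
      (μ' := μ) hP hQ (fun _ => one_mem _) rfl fun v hv => if_neg hv.symm
    simp only [mul_one] at e1
    rw [show μ (G.src e) = of (lf e) from if_pos rfl] at e2
    rw [e1] at ih
    have a1 := ih.ins_new hu hw (e := lf e) (by simpa [gstdY] using he)
    rw [← e2, Multiset.cons_swap, ← one_mul (of (lf e))] at a1
    have a2 := a1.split (one_mem _) (of_mem_gen (by simp)) (e := eps e) (by simpa [gstdY] using he)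
    rw [one_mul, Multiset.cons_swap, ← one_mul ((of (eps e))⁻¹ * of (lf e))] at a2
    have a3 := a2.split (one_mem _) (mul_mem (inv_mem (of_mem_gen (by simp))) (of_mem_gen (by simp)))
      (e := rg e) (by simpa [gstdY] using he)
    have hs : gen (gstdY L : Set (GrL V E)) ≤
        gen (insert (rg e) (insert (eps e) (insert (lf e) (gstdY L)))) :=
      gen_mono fun s hs => Or.inr (Or.inr (Or.inr hs))
    obtain ⟨u', hu', w', hw', e3, e4⟩ := gstd_change G.vn_nd (G.vn_all (G.tgt e)) (μ := μ)
      (μ' := μ') (fun v => hs (hP v)) (fun v => hs (hQ v)) (fun v => by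
        simp only [μ]
        split_ifs
        · exact of_mem_gen (by simp)
        · exact one_mem _) (if_neg (G.ne e)) fun v hv => by
          simp only [μ, μ', Gr.tt, Gr.ss, if_neg hv.symm]
          split_ifs <;> simp
    have e5 : (μ' (G.tgt e))⁻¹ = (of (sp e))⁻¹ * of (rg e) * of (sp e) := by
      simp only [μ', G.ss_tgt, Gr.tt, if_true]
      group
    rw [one_mul, e3, Multiset.cons_swap (cl (of (eps e))), Multiset.cons_swap _ (cl (u' * w')),
      Multiset.cons_swap _ (cl (u' * w'))] at a3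
    have a4 := a3.ins_old' hu' hw' (of_mem_gen (by simp)) (e := sp e) (by simpa [gstdY] using he)
    rw [← e5, ← e4, ← gstd_cons] at a4
    convert a4 using 2
    · refine congrArg (fun l : List _ => cl l.prod⁻¹) (List.map_congr_left fun v _ => ?_)
      simp only [List.map_cons, List.prod_cons, μ', hPd, hQd]
      group
    · rw [List.map_cons, List.sum_cons, add_left_comm, ← hR, Multiset.cons_swap, vv, mul_assoc,
        Multiset.insert_eq_cons, Multiset.cons_add, Multiset.singleton_add]

theorem Gr.std [Fintype E] (G : Gr V E) : SStd Set.univ (cl G.cc ::ₘ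
    (((G.vn.map fun v => cl (G.xx v) : List _) : Multiset _) +
      ∑ e, {cl (of (eps e)), cl (vv e)})) := by
  classical
  obtain ⟨b, h1, h2⟩ := exists_elem (Set.range (vx : V → GrL V E)) (fun _ => 1)
    (fun s => match s with
      | vx v => (G.en.map fun e => G.ss v e * G.tt v e).prod
      | _ => 1) (fun _ _ => one_mem _) (by
      rintro _ ⟨v, rfl⟩
      exact prod_map_mem fun _ _ => mul_mem
        (G.ss_mem v (of_mem_gen (by simp)) (of_mem_gen (by simp))) (G.tt_mem v (of_mem_gen (by simp))))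
  have h3 : ∀ v, b (of (vx v)) = G.xx v := fun v => by
    rw [h1 _ ⟨v, rfl⟩, one_mul, Gr.xx]
  have h4 : ∀ w ∈ gen (Set.range (vx : V → GrL V E))ᶜ, b w = w := fun w hw => aut_fix_gen b h2 hw
  have hY : (gstdY G.en : Set (GrL V E)) = Set.univ :=
    Set.eq_univ_of_forall fun _ e _ => G.en_all e
  have h := gstd_list G G.en G.en_nd
  rw [hY, ← List.sum_toFinset _ G.en_nd,
    Finset.eq_univ_of_forall fun e => List.mem_toFinset.mpr (G.en_all e)] at h
  have h5 := h.aut (f := b) ⟨fun s hs => absurd (Set.mem_univ s) hs, fun _ _ => mem_gen_univ _⟩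
  rw [Multiset.map_cons, Multiset.map_add] at h5
  convert h5 using 3
  · rw [cm_cl, map_inv, map_list_prod, List.map_map, Gr.cc]
    refine congrArg (fun l : List _ => cl l.prod⁻¹) (List.map_congr_left fun v _ => ?_)
    have a1 := h4 _ (prod_map_mem (L := G.en) fun e _ => mul_mem
      (G.ss_mem v (e := e) (of_mem_gen (by simp)) (of_mem_gen (by simp)))
      (G.tt_mem v (e := e) (of_mem_gen (by simp))))
    have a2 := h4 _ (prod_map_mem (L := G.en) fun e _ => G.tt_mem v (e := e) (of_mem_gen (by simp)))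
    simp only [Function.comp_apply, MulEquiv.coe_toMonoidHom, map_mul, map_inv, a1, h3, Gr.xx]
    rw [a2]
    group
  · rw [Multiset.map_coe, List.map_map]
    exact congrArg _ (List.map_congr_left fun v _ => congrArg cl (h3 v).symm)
  · refine Eq.symm ((map_sum (Multiset.mapAddMonoidHom _) _ _).trans
      (Finset.sum_congr rfl fun e _ => ?_))
    have a1 : b (vv e) = vv e := h4 _ (mul_mem (mul_mem (inv_mem (of_mem_gen (by simp)))
      (inv_mem (of_mem_gen (by simp)))) (of_mem_gen (by simp)))
    simp [a1, h2 (eps e) (by simp)]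

/-- The surface of a graph. -/
noncomputable def Gr.surf [Fintype E] (G : Gr V E) : Surf where
  Ω := GrL V E
  A := E
  ε := eps
  inj := fun _ _ h => eps.inj h
  l e := of (lf e)
  r e := of (rg e)
  c := G.cc
  P := ((G.vn.map fun v => cl (G.xx v) : List _) : Multiset _)
  l_mem _ := of_mem_gen (by simp)
  r_mem _ := of_mem_gen (by simp)
  c_mem := inv_mem (prod_map_mem fun v _ => mul_mem (of_mem_gen (by simp))
    (prod_map_mem fun _ _ => G.tt_mem v (of_mem_gen (by simp))))
  P_mem x hx := by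
    obtain ⟨v, -, rfl⟩ := List.mem_map.mp (Multiset.mem_coe.mp hx)
    exact ⟨_, mul_mem (of_mem_gen (by simp)) (prod_map_mem fun _ _ => mul_mem
      (G.ss_mem v (of_mem_gen (by simp)) (of_mem_gen (by simp)))
      (G.tt_mem v (of_mem_gen (by simp)))), rfl⟩
  std := G.std

end Pool.Agent.Lib.MP_19b52f_al.FC
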