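import Pool.Agent.Lib.MP_19b52f_al.FC.GStd

/-! Half twists along the edges of a graph. -/

namespace Pool.Agent.Lib.MP_19b52f_al.FC

open Pool.Agent.Lib.MP_19b52f_al.EA
open FreeGroup hiding map_mul map_inv map_one lift_unique
open GrL

variable {V E : Type} {G : Gr V E} {rest : V → E → FreeGroup (GrL V E)} {e e' : E}
  {f f' : MulAut (FreeGroup (GrL V E))}

theorem Gr.exists_rest (G : Gr V E) : ∃ rest, G.Rest rest := by
  choose p q h1 h2 h3 using fun e => exists_split G.en_nd (G.en_all e)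
  have uq : ∀ e x y, G.en = x ++ e :: y → p e = x ∧ q e = y := fun e x y h => by
    have := (List.append_cons_inj_of_notMem (h2 e) (h3 e)).1 ((h1 e).symm.trans h)
    exact ⟨this.1, this.2.2⟩
  have pm : ∀ v (K : Subgroup (FreeGroup (GrL V E))) (L : List E), (∀ x, of (sp x) ∈ K) →
      (∀ x ∈ L, G.ss v x ∈ K) → (L.map fun x => G.ss v x * G.tt v x).prod ∈ K :=
    fun v K L a1 a2 => prod_map_mem fun x hx => mul_mem (a2 x hx) (G.tt_mem v (a1 x))
  have two : ∀ v e e' (K : Subgroup (FreeGroup (GrL V E))), e' ∈ q e → of (vx v) ∈ K →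
      (∀ x, of (sp x) ∈ K) → (∀ x, x ≠ e → x ≠ e' → G.ss v x ∈ K) → ∃ a ∈ K, ∃ b ∈ K,
      G.tt v e * ((q e).map fun x => G.ss v x * G.tt v x).prod * of (vx v) *
        ((p e).map fun x => G.ss v x * G.tt v x).prod = a * G.ss v e' * b ∧
      G.tt v e' * ((q e').map fun x => G.ss v x * G.tt v x).prod * of (vx v) *
        ((p e').map fun x => G.ss v x * G.tt v x).prod = b * G.ss v e * a := by
    intro v e e' K he a1 a2 a3
    obtain ⟨x, y, hq⟩ := List.append_of_mem he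
    obtain ⟨b1, b2⟩ := uq e' (p e ++ e :: x) y (by rw [h1 e, hq]; simp)
    have c1 := h3 e
    have c2 := h2 e'
    have c3 := h3 e'
    rw [hq] at c1
    rw [b1] at c2
    rw [b2] at c3
    simp only [List.mem_append, List.mem_cons, not_or] at c1 c2
    refine ⟨G.tt v e * (x.map fun x => G.ss v x * G.tt v x).prod,
      mul_mem (G.tt_mem v (a2 e)) (pm v K x a2 fun z hz =>
        a3 z (fun e1 => c1.1 (e1 ▸ hz)) fun e1 => c2.2.2 (e1 ▸ hz)),
      G.tt v e' * (y.map fun x => G.ss v x * G.tt v x).prod * of (vx v) *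
        ((p e).map fun x => G.ss v x * G.tt v x).prod,
      mul_mem (mul_mem (mul_mem (G.tt_mem v (a2 e')) (pm v K y a2 fun z hz =>
        a3 z (fun e1 => c1.2.2 (e1 ▸ hz)) fun e1 => c3 (e1 ▸ hz))) a1) (pm v K _ a2 fun z hz =>
        a3 z (fun e1 => h2 e (e1 ▸ hz)) fun e1 => c2.1 (e1 ▸ hz)), ?_, ?_⟩
    · rw [hq]
      simp only [List.map_append, List.map_cons, List.prod_append, List.prod_cons, mul_assoc]
    · rw [b1, b2]
      simp only [List.map_append, List.map_cons, List.prod_append, List.prod_cons, mul_assoc]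
  refine ⟨fun v e => G.tt v e * ((q e).map fun x => G.ss v x * G.tt v x).prod * of (vx v) *
    ((p e).map fun x => G.ss v x * G.tt v x).prod, fun v e => ?_, fun v e K a1 a2 a3 => ?_,
    fun v e e' K hne a1 a2 a3 => ?_⟩
  · rw [Gr.xx, h1 e, List.map_append, List.map_cons, List.prod_append, List.prod_cons,
      ← mul_assoc, cl_comm]
    simp only [mul_assoc]
  · exact mul_mem (mul_mem (mul_mem (G.tt_mem v (a2 e)) (pm v K _ a2 fun z hz =>
      a3 z fun e1 => h3 e (e1 ▸ hz))) a1) (pm v K _ a2 fun z hz => a3 z fun e1 => h2 e (e1 ▸ hz))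
  · by_cases he : e' ∈ q e
    · exact two v e e' K he a1 a2 a3
    · have h4 := G.en_all e'
      rw [h1 e, List.mem_append, List.mem_cons] at h4
      obtain ⟨x, y, hp⟩ := List.append_of_mem
        (h4.resolve_right fun h5 => h5.elim (fun h6 => hne h6.symm) he)
      have h5 := (uq e' x (y ++ e :: q e) (by rw [h1 e, hp]; simp)).2
      obtain ⟨a, ha, b, hb, c1, c2⟩ :=
        two v e' e K (by rw [h5]; simp) a1 a2 fun z d1 d2 => a3 z d2 d1
      exact ⟨b, hb, a, ha, c2, c1⟩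

/-- The elements fixed by an automorphism. -/
def gtwFix (f : MulAut (FreeGroup (GrL V E))) : Subgroup (FreeGroup (GrL V E)) :=
  f.toMonoidHom.eqLocus (MonoidHom.id _)

lemma gtw_mem {w : FreeGroup (GrL V E)} : w ∈ gtwFix f ↔ f w = w := Iff.rfl

lemma gtw_vv {K : Subgroup (FreeGroup (GrL V E))} (h1 : of (eps e) ∈ K) (h2 : of (lf e) ∈ K)
    (h3 : of (rg e) ∈ K) : vv e ∈ K := mul_mem (mul_mem (inv_mem h3) (inv_mem h1)) h2

lemma gtw_lf (e : E) : (of (lf e) : FreeGroup (GrL V E)) = of (eps e) * of (rg e) * vv e := by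
  rw [vv]
  group

/-- A subgroup that contains all letters except the two sides of `e` contains the rests. -/
lemma gtw_rest (h : G.Rest rest) {K : Subgroup (FreeGroup (GrL V E))}
    (hK : ∀ s, s ≠ lf e → s ≠ rg e → (∀ x, s ≠ eps x) → of s ∈ K) (v : V) : rest v e ∈ K :=
  h.mem v e K (hK _ (by simp) (by simp) (by simp)) (fun _ => hK _ (by simp) (by simp) (by simp))
    fun _ hx => G.ss_mem v (hK _ (by simpa using hx) (by simp) (by simp))
      (hK _ (by simp) (by simpa using hx) (by simp))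

lemma gtw_ss {K : Subgroup (FreeGroup (GrL V E))}
    (hK : ∀ s, s ≠ lf e → s ≠ rg e → of s ∈ K) (v : V) {x : E} (hx : x ≠ e) : G.ss v x ∈ K :=
  G.ss_mem v (hK _ (by simpa using hx) (by simp)) (hK _ (by simp) (by simpa using hx))

lemma gtw_ss' {K : Subgroup (FreeGroup (GrL V E))}
    (hK : ∀ s, s ≠ lf e → s ≠ rg e → of s ∈ K) {v : V} (h1 : G.src e ≠ v) (h2 : G.tgt e ≠ v)
    (x : E) : G.ss v x ∈ K := by
  by_cases hx : x = e
  · rw [hx, G.ss_not h1 h2]
    exact one_mem _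
  · exact gtw_ss hK v hx

lemma gtw_rest' (h : G.Rest rest) {K : Subgroup (FreeGroup (GrL V E))}
    (hK : ∀ s, s ≠ lf e → s ≠ rg e → of s ∈ K) {v : V} (h1 : G.src e ≠ v) (h2 : G.tgt e ≠ v)
    (x : E) : rest v x ∈ K :=
  h.mem v x K (hK _ (by simp) (by simp)) (fun _ => hK _ (by simp) (by simp))
    fun y _ => gtw_ss' hK h1 h2 y

/-- One side, the arc letter and the second boundary word generate both sides. -/
lemma gtw_sides {K : Subgroup (FreeGroup (GrL V E))} {a b : V}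
    (h : s(G.src e, G.tgt e) = s(a, b)) (h1 : of (eps e) ∈ K) (h2 : vv e ∈ K)
    (h3 : G.ss b e ∈ K) : of (lf e) ∈ K ∧ of (rg e) ∈ K := by
  rcases Sym2.eq_iff.1 h with ⟨-, rfl⟩ | ⟨rfl, -⟩
  · rw [G.ss_tgt] at h3
    exact ⟨gtw_lf (V := V) e ▸ mul_mem (mul_mem h1 h3) h2, h3⟩
  · rw [G.ss_src, inv_mem_iff] at h3
    refine ⟨h3, ?_⟩
    rw [show (of (rg e) : FreeGroup (GrL V E)) = (of (eps e))⁻¹ * of (lf e) * (vv e)⁻¹ by
      rw [vv]; group]
    exact mul_mem (mul_mem (inv_mem h1) h3) (inv_mem h2)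

/-- The uniform formula at both ends of the edge. -/
lemma gtw_end (h : G.Rest rest) (hf : G.IsTw rest e f) {a b : V}
    (h1 : s(G.src e, G.tgt e) = s(a, b)) : ∃ k, f (G.ss b e) = k * (G.ss b e)⁻¹ * (rest b e)⁻¹ ∧
      cl (G.xx a) = cl (k * (G.ss b e)⁻¹) ∧ ∀ K : Subgroup (FreeGroup (GrL V E)),
        of (eps e) ∈ K → vv e ∈ K → rest a e ∈ K → k ∈ K := by
  rcases Sym2.eq_iff.1 h1 with ⟨rfl, rfl⟩ | ⟨rfl, rfl⟩
  · refine ⟨(of (eps e))⁻¹ * rest (G.src e) e * (vv e)⁻¹, by rw [G.ss_tgt, hf.r], ?_,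
      fun K a1 a2 a3 => mul_mem (mul_mem (inv_mem a1) a3) (inv_mem a2)⟩
    rw [h.conj _ e, G.ss_src, G.ss_tgt, gtw_lf e]
    exact cl_eq (of (rg e) * vv e) (by group)
  · refine ⟨(vv e)⁻¹ * rest (G.tgt e) e * (of (eps e))⁻¹, ?_, ?_,
      fun K a1 a2 a3 => mul_mem (mul_mem (inv_mem a2) a3) (inv_mem a1)⟩
    · rw [G.ss_src, gtw_lf e, map_inv, map_mul, map_mul, hf.r, hf.v, hf.fix _ (by simp) (by simp)]
      group
    · rw [h.conj _ e, G.ss_src, G.ss_tgt, gtw_lf e]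
      exact cl_eq (of (rg e) * vv e)⁻¹ (by group)

lemma gtw_fix_rest (h : G.Rest rest) (hf : G.IsTw rest e f) (v : V) : f (rest v e) = rest v e :=
  gtw_rest (K := gtwFix f) h (fun s a1 a2 _ => hf.fix s a1 a2) v

lemma gtw_swap (h : G.Rest rest) (hf : G.IsTw rest e f) {a b : V}
    (h1 : s(G.src e, G.tgt e) = s(a, b)) : cm f.toMonoidHom (cl (G.xx b)) = cl (G.xx a) := by
  obtain ⟨k, a1, a2, -⟩ := gtw_end h hf h1
  rw [h.conj b e, cm_cl, a2]
  congr 1
  change f _ = _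
  rw [map_mul, a1, gtw_fix_rest h hf, inv_mul_cancel_right]

/-- The images of both sides. -/
lemma gtw_image (hf : G.IsTw rest e f) {K : Subgroup (FreeGroup (GrL V E))}
    (h1 : of (eps e) ∈ K) (h2 : of (lf e) ∈ K) (h3 : of (rg e) ∈ K) (h4 : rest (G.src e) e ∈ K)
    (h5 : rest (G.tgt e) e ∈ K) : f (of (lf e)) ∈ K ∧ f (of (rg e)) ∈ K := by
  have h6 : f (of (rg e)) ∈ K := by
    rw [hf.r]
    exact mul_mem (mul_mem (mul_mem (mul_mem (inv_mem h1) h4) (inv_mem (gtw_vv h1 h2 h3)))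
      (inv_mem h3)) (inv_mem h5)
  refine ⟨?_, h6⟩
  rw [gtw_lf e, map_mul, map_mul, hf.v, hf.fix _ (by simp) (by simp)]
  exact mul_mem (mul_mem h1 h6) (gtw_vv h1 h2 h3)

lemma gtw_fix_vv (hf : G.IsTw rest e f) (x : E) : f (vv x) = vv x := by
  by_cases hx : x = e
  · rw [hx, hf.v]
  · exact gtw_vv (K := gtwFix f) (hf.fix _ (by simp) (by simp))
      (hf.fix _ (by simpa using hx) (by simp)) (hf.fix _ (by simp) (by simpa using hx))

theorem Gr.Rest.exists_tw (h : G.Rest rest) (e : E) : ∃ f, G.IsTw rest e f := by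
  obtain ⟨g, g1, g2⟩ := exists_elem1 (lf e : GrL V E) (a := (of (rg e))⁻¹ * (of (eps e))⁻¹) (b := 1)
    (mul_mem (inv_mem (of_mem_gen (by simp))) (inv_mem (of_mem_gen (by simp)))) (one_mem _)
  have hr : ∀ v, rest v e ∈ gen ({rg e}ᶜ : Set (GrL V E)) :=
    gtw_rest h fun s _ a2 _ => of_mem_gen a2
  obtain ⟨k, k1, k2⟩ := exists_elem1' (rg e : GrL V E)
    (a := (of (eps e))⁻¹ * rest (G.src e) e * (of (lf e))⁻¹) (b := (rest (G.tgt e) e)⁻¹)
    (mul_mem (mul_mem (inv_mem (of_mem_gen (by simp))) (hr _)) (inv_mem (of_mem_gen (by simp))))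
    (inv_mem (hr _))
  have g3 : g (of (lf e)) = vv e := by rw [g1, mul_one, vv]
  have g4 : ∀ v, g (rest v e) = rest v e := gtw_rest (K := gtwFix g) h fun s a1 _ _ => g2 s a1
  refine ⟨g * k * g⁻¹, ?_, ?_, fun s a1 a2 => ?_⟩
  · rw [MulAut.mul_apply, MulAut.mul_apply, aut_inv_fix (g2 _ (by simp)), k1]
    simp only [map_mul, map_inv, g3, g4, g2 (eps e) (by simp), g2 (rg e) (by simp)]
  · rw [MulAut.mul_apply, MulAut.mul_apply, ← g3, MulAut.inv_apply_self, k2 _ (by simp)]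
  · rw [MulAut.mul_apply, MulAut.mul_apply, aut_inv_fix (g2 s a1), k2 s a2, g2 s a1]

theorem Gr.IsTw.mem_mod [Fintype E] (h : G.Rest rest) (hf : G.IsTw rest e f) : f ∈ G.surf.Mod := by
  classical
  refine ⟨?_, fun a => hf.fix _ (by simp [Gr.surf]) (by simp [Gr.surf]), gtw_fix_vv hf, ?_⟩
  · exact (inv_mem (prod_map_mem fun v _ => mul_mem (hf.fix _ (by simp) (by simp))
      (prod_map_mem fun _ _ => G.tt_mem v (hf.fix _ (by simp) (by simp)))) : G.cc ∈ gtwFix f)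
  · have h1 : ∀ v, cm f.toMonoidHom (cl (G.xx v)) =
        cl (G.xx (Equiv.swap (G.src e) (G.tgt e) v)) := fun v => by
      by_cases a1 : v = G.src e
      · rw [a1, Equiv.swap_apply_left]
        exact gtw_swap h hf Sym2.eq_swap
      by_cases a2 : v = G.tgt e
      · rw [a2, Equiv.swap_apply_right]
        exact gtw_swap h hf rfl
      rw [Equiv.swap_apply_of_ne_of_ne a1 a2]
      exact congrArg cl (mul_mem (hf.fix _ (by simp) (by simp)) (prod_map_mem fun x _ =>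
        mul_mem (gtw_ss' hf.fix (Ne.symm a1) (Ne.symm a2) x)
          (G.tt_mem v (hf.fix _ (by simp) (by simp)))) : G.xx v ∈ gtwFix f)
    have h2 : (G.vn.map (Equiv.swap (G.src e) (G.tgt e))).Perm G.vn :=
      (List.perm_ext_iff_of_nodup (G.vn_nd.map (Equiv.injective _)) G.vn_nd).2 fun v =>
        ⟨fun _ => G.vn_all v, fun _ => List.mem_map.2
          ⟨_, G.vn_all (Equiv.swap (G.src e) (G.tgt e) v), Equiv.swap_apply_self _ _ _⟩⟩
    have h3 := h2.map fun v => cl (G.xx v)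
    change Multiset.map _ (Multiset.ofList (G.vn.map fun v => cl (G.xx v))) =
      Multiset.ofList (G.vn.map fun v => cl (G.xx v))
    rw [Multiset.map_coe, Multiset.coe_eq_coe, List.map_map]
    rw [List.map_map] at h3
    exact (List.map_congr_left fun v _ => h1 v) ▸ h3

lemma gtw_D (h : G.Rest rest) (hf : G.IsTw rest e f) {a : E} (ha' : a ≠ e) :
    f (of (lf a)) = of (lf a) ∧
      ∀ w ∈ gen ({eps a}ᶜ : Set (GrL V E)), f w ∈ gen ({eps a}ᶜ : Set (GrL V E)) := by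
  refine ⟨hf.fix (lf a) (by simpa using ha') (by simp), fun w hw => ?_⟩
  have hr : ∀ v, rest v e ∈ gen ({eps a}ᶜ : Set (GrL V E)) :=
    gtw_rest h fun s _ _ a3 => of_mem_gen (a3 a)
  obtain ⟨h1, h2⟩ := gtw_image (K := gen ({eps a}ᶜ : Set (GrL V E))) hf
    (of_mem_gen (by simpa using ha'.symm)) (of_mem_gen (by simp)) (of_mem_gen (by simp))
    (hr _) (hr _)
  refine aut_mem_of_gen f (X := {eps a}ᶜ) (K := gen {eps a}ᶜ) (fun s hs => ?_) hw
  by_cases a1 : s = lf e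
  · rwa [a1]
  by_cases a2 : s = rg e
  · rwa [a2]
  rw [hf.fix s a1 a2]
  exact of_mem_gen hs

theorem Gr.IsTw.mem_D [Fintype E] (h : G.Rest rest) (hf : G.IsTw rest e f) :
    (⟨f, hf.mem_mod h⟩ : G.surf.Mod) ∈ G.surf.D ({e}ᶜ : Set E) := by
  exact fun a ha => gtw_D h hf ha

lemma gtw_far (h : G.Rest rest) (hf : G.IsTw rest e f) (hf' : G.IsTw rest e' f')
    (h1 : G.src e ≠ G.src e') (h2 : G.src e ≠ G.tgt e') (h3 : G.tgt e ≠ G.src e')
    (h4 : G.tgt e ≠ G.tgt e') {s : GrL V E} (hs : s = lf e' ∨ s = rg e') :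
    f (f' (of s)) = f' (f (of s)) := by
  have hne : e' ≠ e := fun a => h1 (by rw [a])
  have a1 : f (of (lf e')) = of (lf e') := hf.fix _ (by simpa using hne) (by simp)
  have a2 : f (of (rg e')) = of (rg e') := hf.fix _ (by simp) (by simpa using hne)
  obtain ⟨b1, b2⟩ := gtw_image (K := gtwFix f) hf' (hf.fix _ (by simp) (by simp)) a1 a2
    (gtw_rest' h hf.fix h1 h3 _) (gtw_rest' h hf.fix h2 h4 _)
  rcases hs with rfl | rfl
  · rw [a1]
    exact b1
  · rw [a2]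
    exact b2

theorem Gr.IsTw.comm (h : G.Rest rest) (hf : G.IsTw rest e f) (hf' : G.IsTw rest e' f')
    (h1 : G.src e ≠ G.src e') (h2 : G.src e ≠ G.tgt e') (h3 : G.tgt e ≠ G.src e')
    (h4 : G.tgt e ≠ G.tgt e') : Commute f f' := by
  refine aut_ext fun s => ?_
  rw [MulAut.mul_apply, MulAut.mul_apply]
  by_cases a1 : s = lf e' ∨ s = rg e'
  · exact gtw_far h hf hf' h1 h2 h3 h4 a1
  by_cases a2 : s = lf e ∨ s = rg e
  · exact (gtw_far h hf' hf h1.symm h3.symm h2.symm h4.symm a2).symm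
  rw [not_or] at a1 a2
  rw [hf.fix s a2.1 a2.2, hf'.fix s a1.1 a1.2, hf.fix s a2.1 a2.2]

lemma gtw_not {a b c : V} (h : s(G.src e, G.tgt e) = s(b, c)) (h1 : a ≠ b) (h2 : a ≠ c) :
    G.src e ≠ a ∧ G.tgt e ≠ a := by
  rcases Sym2.eq_iff.1 h with ⟨rfl, rfl⟩ | ⟨rfl, rfl⟩
  · exact ⟨h1.symm, h2.symm⟩
  · exact ⟨h2.symm, h1.symm⟩

lemma gtw_ne {a b : V} (h : s(G.src e, G.tgt e) = s(a, b)) : a ≠ b := by
  rcases Sym2.eq_iff.1 h with ⟨rfl, rfl⟩ | ⟨rfl, rfl⟩
  · exact G.ne e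
  · exact (G.ne e).symm

theorem Gr.IsTw.braid (h : G.Rest rest) (hf : G.IsTw rest e f) (hf' : G.IsTw rest e' f')
    {a b c : V} (h1 : s(G.src e, G.tgt e) = s(a, b)) (h2 : s(G.src e', G.tgt e') = s(b, c))
    (h3 : a ≠ c) : f * f' * f = f' * f * f' := by
  have h2' : s(G.src e', G.tgt e') = s(c, b) := h2.trans Sym2.eq_swap
  have na := gtw_not h2 (gtw_ne h1) h3
  have nc := gtw_not h1 h3.symm (gtw_ne h2')
  have hne : e ≠ e' := fun a1 => (gtw_not (a1 ▸ h2 : s(G.src e, G.tgt e) = s(b, c))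
    (gtw_ne h1) h3).elim fun a2 a3 => by
      rcases Sym2.eq_iff.1 h1 with ⟨a4, -⟩ | ⟨-, a4⟩
      · exact a2 a4
      · exact a3 a4
  obtain ⟨k, k1, -, k2⟩ := gtw_end h hf h1
  obtain ⟨k', l1, -, l2⟩ := gtw_end h hf' h2'
  have k3 : f k = k := k2 (gtwFix f) (hf.fix _ (by simp) (by simp)) hf.v (gtw_fix_rest h hf a)
  have k4 : f' k = k := k2 (gtwFix f') (hf'.fix _ (by simp) (by simp)) (gtw_fix_vv hf' e)
    (gtw_rest' h hf'.fix na.1 na.2 e)
  have l3 : f' k' = k' := l2 (gtwFix f') (hf'.fix _ (by simp) (by simp)) hf'.v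
    (gtw_fix_rest h hf' c)
  have l4 : f k' = k' := l2 (gtwFix f) (hf.fix _ (by simp) (by simp)) (gtw_fix_vv hf e')
    (gtw_rest' h hf.fix nc.1 nc.2 e')
  obtain ⟨x, ⟨x1, x2⟩, y, ⟨y1, y2⟩, r1, r2⟩ := h.two b e e' (gtwFix f ⊓ gtwFix f') hne
    ⟨hf.fix _ (by simp) (by simp), hf'.fix _ (by simp) (by simp)⟩
    (fun _ => ⟨hf.fix _ (by simp) (by simp), hf'.fix _ (by simp) (by simp)⟩)
    fun z z1 z2 => ⟨gtw_ss hf.fix b z1, gtw_ss hf'.fix b z2⟩
  replace x1 : f x = x := x1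
  replace x2 : f' x = x := x2
  replace y1 : f y = y := y1
  replace y2 : f' y = y := y2
  have s1 : f (G.ss b e') = G.ss b e' := gtw_ss (K := gtwFix f) hf.fix b hne.symm
  have s2 : f' (G.ss b e) = G.ss b e := gtw_ss (K := gtwFix f') hf'.fix b hne
  rw [r1] at k1
  rw [r2] at l1
  have t1 : f' (f (G.ss b e)) = k * x * G.ss b e' * k'⁻¹ * x⁻¹ := by
    rw [k1]
    simp only [map_mul, map_inv, k4, s2, x2, y2, l1]
    group
  have t2 : f (f' (G.ss b e')) = k' * y * G.ss b e * k⁻¹ * y⁻¹ := by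
    rw [l1]
    simp only [map_mul, map_inv, l4, s1, x1, y1, k1]
    group
  let K := (f * f' * f).toMonoidHom.eqLocus (f' * f * f').toMonoidHom
  have hK : ∀ w, f (f' (f w)) = f' (f (f' w)) → w ∈ K := fun w hw => hw
  have hK' : ∀ w, f w = w → f' w = w → w ∈ K := fun w a1 a2 => hK w (by rw [a1, a2, a1, a2])
  have u1 := gtw_sides (K := K) h1
    (hK' _ (hf.fix _ (by simp) (by simp)) (hf'.fix _ (by simp) (by simp)))
    (hK' _ hf.v (gtw_fix_vv hf' e)) (hK _ (by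
      rw [s2, t1]
      simp only [map_mul, map_inv, k3, x1, s1, l4]))
  have u2 := gtw_sides (K := K) h2'
    (hK' _ (hf.fix _ (by simp) (by simp)) (hf'.fix _ (by simp) (by simp)))
    (hK' _ (gtw_fix_vv hf e') hf'.v) (hK _ (by
      rw [s1, t2]
      simp only [map_mul, map_inv, l3, y2, s2, k4]))
  refine aut_ext fun s => ?_
  change of s ∈ K
  by_cases a1 : s = lf e
  · exact a1 ▸ u1.1
  by_cases a2 : s = rg e
  · exact a2 ▸ u1.2
  by_cases a3 : s = lf e'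
  · exact a3 ▸ u2.1
  by_cases a4 : s = rg e'
  · exact a4 ▸ u2.2
  exact hK' _ (hf.fix s a1 a2) (hf'.fix s a3 a4)

end Pool.Agent.Lib.MP_19b52f_al.FC
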