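import Pool.Agent.Lib.MP_19b52f_al.FC.Coc
import Pool.Agent.Lib.MP_19b52f_al.FC.Cone

/-! The amalgam step along a pair of generators with label infinity, and the induction. -/

namespace Pool.Agent.Lib.MP_19b52f_al.FC

open Pool.Agent.Lib.MP_19b52f_al.EA Pool.Agent.Lib.MP_19b52f_al.EA2

lemma syl_left {A : Type} [Group A] {G1 G2 : Subgroup A} {q h : A} {L : List A}
    (hL : ∀ x ∈ q :: L, x ∈ G1 ∨ x ∈ G2) (h1 : h ∈ G1) (h2 : h ∈ G2) :
    Syl G1 G2 (L.length + 1) (h * (q :: L).prod) := by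
  refine ⟨(h * q) :: L, by simp, fun x hx => ?_, by simp [mul_assoc]⟩
  rcases List.mem_cons.mp hx with rfl | hx
  · exact (hL q (by simp)).imp (mul_mem h1) (mul_mem h2)
  · exact hL x (by simp [hx])

lemma syl_right {A : Type} [Group A] {G1 G2 : Subgroup A} {q h : A} {L : List A}
    (hL : ∀ x ∈ q :: L, x ∈ G1 ∨ x ∈ G2) (h1 : h ∈ G1) (h2 : h ∈ G2) :
    Syl G1 G2 (L.length + 1) ((q :: L).prod * h) := by
  induction L generalizing q with
  | nil =>
    exact ⟨[q * h], by simp, by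
      simpa using (hL q (by simp)).imp (mul_mem · h1) (mul_mem · h2), by simp⟩
  | cons a L ih =>
    obtain ⟨L', k1, k2, k3⟩ := ih (q := a) (fun x hx => hL x (List.mem_cons_of_mem _ hx))
    refine ⟨q :: L', by simpa using k1, fun x hx => ?_, by rw [List.prod_cons, k3]; simp [mul_assoc]⟩
    rcases List.mem_cons.mp hx with rfl | hx
    · exact hL _ (by simp)
    · exact k2 x hx

lemma alt_aux {a1 a2 b1 b2 : Prop} (h : ¬ (a1 ∧ b1) ∧ ¬ (a2 ∧ b2)) (ha : a1 ∨ a2) (hb : b1 ∨ b2) :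
    ¬ (b1 ∧ b2) ∧ (a1 → b2) ∧ (a2 → b1) := by tauto

variable {S : Type} {M : CoxeterMatrix S}

lemma sep_glue {J : Set S} {u v : S} (huv : u ≠ v) (hN : M u v = 0)
    (g1 : ∃ D : Co M, D.Sep (J \ {u})) (g2 : ∃ D : Co M, D.Sep (J \ {v})) :
    ∃ D : Co M, D.Sep J := by
  classical
  obtain ⟨D, h1, h2⟩ : ∃ D : Co M, D.Sep (J \ {u}) ∧ D.Sep (J \ {v}) := by
    obtain ⟨D1, h1⟩ := g1
    obtain ⟨D2, h2⟩ := g2
    obtain ⟨D, p1, p2, hD⟩ := D1.exists_prod D2
    exact ⟨D, fun φ T U g hg hc => h1 _ T U g hg (hD _ _ _ _ hc).1,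
      fun φ T U g hg hc => h2 _ T U g hg (hD _ _ _ _ hc).2⟩
  obtain ⟨Z, ι, j, t, W, c1, c2, c3, c4, c5, c6, c7⟩ := D.Z.exists_cone
  let H : Set S := {j | j ≠ u ∧ j ≠ v}
  let Ψ : Artin M →* Wm D.Φ Z.Mod :=
    { toFun := fun g => ⟨fun φ => ι (D.c φ g), D.θ g⟩
      map_one' := by ext1 <;> simp [funext_iff]
      map_mul' := fun g h => by ext1 <;> simp [D.c_mul, funext_iff] }
  let Tt : Wm D.Φ Z.Mod := ⟨fun φ => t (D.V H φ), 1⟩
  let Cj : Artin M →* Wm D.Φ Z.Mod := (MulAut.conj Tt).toMonoidHom.comp Ψ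
  have hCj : ∀ g φ, (Cj g).c φ = t (D.V H φ) * ι (D.c φ g) * (t (D.V H (φ * D.θ g)))⁻¹ := by
    intro g φ
    simp [Cj, Tt, Ψ]
  have hCja : ∀ g, (Cj g).a = D.θ g := by
    intro g
    simp [Cj, Tt, Ψ]
  have hH : ∀ g ∈ pa M H, Cj g = Ψ g := by
    intro g hg
    ext1
    · funext φ
      rw [hCj, D.V_inv hg, mul_inv_eq_iff_eq_mul]
      exact (c3 _ _ (D.c_mem hg φ)).eq
    · exact hCja g
  let f0 : S → Wm D.Φ Z.Mod := fun s => if s = u then Cj (ag M s) else Ψ (ag M s)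
  have hf1 : ∀ s, s ≠ u → f0 s = Ψ (ag M s) := fun s hs => if_neg hs
  have hf2 : ∀ s, s ≠ v → f0 s = Cj (ag M s) := fun s hs => by
    by_cases h : s = u
    · exact if_pos h
    · rw [hf1 s h, hH _ (pa_mem (show s ∈ H from ⟨h, hs⟩))]
  let Ψ' : Artin M →* Wm D.Φ Z.Mod := artinLift M f0 (fun s t hst h0 => by
    have hr := ag_rel M hst h0
    by_cases h : s ≠ u ∧ t ≠ u
    · rw [hf1 s h.1, hf1 t h.2, ← map_omega, ← map_omega, hr]
    · have h3 : s ≠ v ∧ t ≠ v := by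
        by_cases hs : s = u
        · exact ⟨fun e => huv (hs.symm.trans e), fun e => h0 (by rw [hs, e, hN])⟩
        · have ht : t = u := by_contra fun e => h ⟨hs, e⟩
          exact ⟨fun e => h0 (by rw [ht, e, M.symmetric, hN]), fun e => huv (ht.symm.trans e)⟩
      rw [hf2 s h3.1, hf2 t h3.2, ← map_omega, ← map_omega, hr])
  have ka : ∀ g, (Ψ' g).a = D.θ g := by
    intro g
    have : Wm.aHom.comp Ψ' = D.θ := artin_ext fun s => by
      simp only [MonoidHom.comp_apply, Ψ', artinLift_ag, f0]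
      split_ifs
      · exact hCja _
      · rfl
    exact DFunLike.congr_fun this g
  let D' : Co M :=
    { Z := Z
      Φ := D.Φ
      θ := D.θ
      c := fun φ g => (Ψ' g).c φ
      c_mul := fun φ g h => by rw [map_mul, Wm.mul_c, ka]
      V := fun T φ => j (D.V T φ)
      V_gen := fun T φ s h => by rw [D.V_gen T φ s h]
      V_mem := fun T φ s hs => by
        have h3 := c1 _ _ (D.V_mem T φ s hs)
        simp only [Ψ', artinLift_ag, f0]
        split_ifs
        · rw [hCj]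
          exact mul_mem (mul_mem (c2 _ _) h3) (inv_mem (c2 _ _))
        · exact h3 }
  have k0 : ∀ φ g h, D'.c φ (g * h) = D'.c φ g * D'.c (φ * D.θ g) h := D'.c_mul
  have k1 : ∀ g ∈ pa M (J \ {u}), ∀ φ, D'.c φ g = ι (D.c φ g) := fun g hg φ =>
    congrArg (Wm.c · φ) (eq_of_pa (f := Ψ') (f' := Ψ)
      (fun s hs => by rw [artinLift_ag, hf1 s hs.2]) hg)
  have k2 : ∀ g ∈ pa M (J \ {v}), ∀ φ,
      D'.c φ g = t (D.V H φ) * ι (D.c φ g) * (t (D.V H (φ * D.θ g)))⁻¹ := fun g hg φ =>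
    (congrArg (Wm.c · φ) (eq_of_pa (f := Ψ') (f' := Cj)
      (fun s hs => by rw [artinLift_ag, hf2 s hs.2]) hg)).trans (hCj g φ)
  have hS : ∀ {T U φ g}, g ∈ pa M (J \ {u}) ∨ g ∈ pa M (J \ {v}) → D.Hyp T U φ g →
      Mem2 (pa M (T ∩ J)) (pa M (U ∩ J)) g := by
    have hJ : ∀ (X : Set S) w, pa M (X ∩ (J \ {w})) ≤ pa M (X ∩ J) := fun X w =>
      pa_mono (Set.inter_subset_inter_right _ Set.sdiff_subset)
    rintro T U φ g (hg | hg) h
    · exact (h1 _ _ _ _ hg h).map (MonoidHom.id _) (hJ _ _) (hJ _ _)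
    · exact (h2 _ _ _ _ hg h).map (MonoidHom.id _) (hJ _ _) (hJ _ _)
  have s1 : pa M (H ∩ J) ≤ pa M (J \ {u}) := pa_mono fun j hj => ⟨hj.2, hj.1.1⟩
  have s2 : pa M (H ∩ J) ≤ pa M (J \ {v}) := pa_mono fun j hj => ⟨hj.2, hj.1.2⟩
  have tail : ∀ U (L : List (Artin M)) p φ,
      (∀ x ∈ p :: L, x ∈ pa M (J \ {u}) ∨ x ∈ pa M (J \ {v})) →
      Alt (pa M (J \ {u})) (pa M (J \ {v})) (p :: L) →
      ¬ (p ∈ pa M (J \ {u}) ∧ p ∈ pa M (J \ {v})) →
      (∃ L0 q, p :: L = L0 ++ [q] ∧ Mem2 (pa M (H ∩ J)) (pa M (U ∩ J)) q) ∨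
      ∃ e ∈ Z.D (j (D.V U (φ * D.θ (p :: L).prod))),
        (p ∈ pa M (J \ {u}) → W (D.V H φ) (D.V U (φ * D.θ (p :: L).prod))
          ((t (D.V H φ))⁻¹ * (D'.c φ (p :: L).prod * e))) ∧
        (p ∈ pa M (J \ {v}) → W (D.V H φ) (D.V U (φ * D.θ (p :: L).prod))
          (D'.c φ (p :: L).prod * e)) := by
    intro U L
    induction L with
    | nil =>
      intro p φ hL _ hp
      by_cases h : D.Hyp H U φ p
      · exact Or.inl ⟨[], p, rfl, hS (hL p (by simp)) h⟩
      simp only [List.prod_cons, List.prod_nil, mul_one]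
      rcases hL p (by simp) with h3 | h3
      · refine Or.inr ⟨1, one_mem _, fun _ => ?_, fun h4 => absurd ⟨h3, h4⟩ hp⟩
        rw [mul_one, k1 p h3]
        exact c5 _ _ _ _ h (Or.inr rfl)
      · refine Or.inr ⟨_, c2 (D.V H (φ * D.θ p)) _, fun h4 => absurd ⟨h4, h3⟩ hp, fun _ => ?_⟩
        rw [k2 p h3, inv_mul_cancel_right]
        exact c5 _ _ _ _ h (Or.inl rfl)
    | cons q L ih =>
      intro p φ hL hA hp
      have hp' := hL p (by simp)
      have hpq := alt_aux (List.isChain_cons_cons.mp hA).1 hp' (hL q (by simp))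
      rcases ih q (φ * D.θ p) (fun x hx => hL x (List.mem_cons_of_mem _ hx)) hA.tail
        hpq.1 with ⟨L0, x, e1, e2⟩ | ⟨e, he, e1, e2⟩
      · exact Or.inl ⟨p :: L0, x, by rw [e1]; rfl, e2⟩
      have h : ¬ D.Hyp H H φ p := fun h => by
        obtain ⟨a, ha, b, hb, rfl⟩ := hS hp' h
        exact hp ⟨s1 (mul_mem ha hb), s2 (mul_mem ha hb)⟩
      rw [List.prod_cons (a := p), map_mul, ← mul_assoc, k0]
      refine Or.inr ⟨e, he, fun h3 => ?_, fun h3 => ?_⟩
      · rw [k1 p h3, mul_assoc (ι _)]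
        exact c6 _ _ _ _ _ _ (e2 (hpq.2.1 h3)) h (Or.inr rfl)
      · rw [k2 p h3, mul_assoc (_ * (t _)⁻¹), mul_assoc (_ * ι _), mul_assoc (t _)]
        exact c6 _ _ _ _ _ _ (e1 (hpq.2.2 h3)) h (Or.inl rfl)
  have main : ∀ T U k φ g, Syl (pa M (J \ {u})) (pa M (J \ {v})) (k + 1) g →
      D'.Hyp T U φ g → Mem2 (pa M (T ∩ J)) (pa M (U ∩ J)) g := by
    intro T U k
    induction k with
    | zero =>
      intro φ g hg hm
      refine hS (φ := φ) hg.one (c4 _ _ _ ?_)
      rcases hg.one with hg | hg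
      · rw [← k1 g hg]; exact hm
      · have := (Surf.X.left hm (inv_mem (c2 (D.V H φ) _))).right (c2 (D.V H (φ * D.θ g)) _)
        rwa [k2 g hg, ← mul_assoc, inv_mul_cancel_right, inv_mul_cancel_left] at this
    | succ k ih =>
      rintro φ g ⟨L, l1, l2, rfl⟩ hm
      by_cases hl : L.length ≤ k + 1
      · exact ih φ _ ⟨L, hl, l2, rfl⟩ hm
      rcases alt_or_shorter L l2 with hA | ⟨L', l3, l4, l5⟩
      swap
      · exact ih φ _ ⟨L', by omega, l4, l5⟩ hm
      obtain ⟨p, q, L, rfl⟩ : ∃ p q L', L = p :: q :: L' := by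
        rcases L with _ | ⟨p, _ | ⟨q, L⟩⟩
        · simp at hl
        · simp at hl
        · exact ⟨p, q, L, rfl⟩
      have hk : L.length = k := by simp at l1 hl; omega
      have hp := l2 p (by simp)
      have hpq := alt_aux (List.isChain_cons_cons.mp hA).1 hp (l2 q (by simp))
      have l3 : ∀ x ∈ q :: L, _ := fun x hx => l2 x (List.mem_cons_of_mem _ hx)
      rcases tail U L q (φ * D.θ p) l3 hA.tail hpq.1 with
        ⟨L0, x, e1, h, hh, b, hb, rfl⟩ | ⟨e, he, e1, e2⟩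
      · have e2 : (p :: q :: L).prod = (p :: L0).prod * h * b := by rw [e1]; simp [mul_assoc]
        have e3 : L0.length = k := by simpa [hk] using (congrArg List.length e1).symm
        have h7 := ih φ _ (e3 ▸ syl_right (q := p) (L := L0) (fun x hx => l2 x (by
          rw [e1, ← List.cons_append]; exact List.mem_append_left _ hx)) (s1 hh) (s2 hh)) (by
            simpa only [e2, mul_inv_cancel_right] using
              hm.right (inv_mem (pa_mono Set.inter_subset_left hb)))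
        rw [e2]
        simpa using h7.mul (one_mem _) hb
      by_cases h : D.Hyp T H φ p
      · obtain ⟨a, ha, y, hh, rfl⟩ := hS hp h
        have h7 := ih (φ * D.θ a) _ (hk ▸ syl_left l3 (s1 hh) (s2 hh)) (by
          simpa only [List.prod_cons (a := a * y), mul_assoc, inv_mul_cancel_left] using
            hm.left (pa_mono Set.inter_subset_left ha))
        simpa [mul_assoc] using h7.mul ha (one_mem _)
      exfalso
      have h5 : Z.X (j (D.V T φ)) (j (D.V U (φ * D.θ p * D.θ (q :: L).prod)))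
          (D'.c φ p * (D'.c (φ * D.θ p) (q :: L).prod * e)) := by
        rw [← mul_assoc (D'.c φ p), ← k0]
        refine Surf.X.right ?_ he
        rw [mul_assoc φ, ← map_mul]
        exact hm
      rcases hp with h3 | h3
      · exact c7 _ _ _ _ _ (e2 (hpq.2.1 h3)) h (k1 p h3 φ ▸ h5)
      · refine c7 _ _ _ _ _ (e1 (hpq.2.2 h3)) h ?_
        have := h5.left (inv_mem (c2 (D.V H φ) _))
        rwa [k2 p h3, mul_assoc (_ * ι _), mul_assoc (t _), inv_mul_cancel_left] at this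
  refine ⟨D', fun φ T U g hg hm => ?_⟩
  have hg' : g ∈ pa M (J \ {u}) ⊔ pa M (J \ {v}) := by
    refine pa_le (fun s hs => ?_) hg
    by_cases h : s = u
    · exact Subgroup.mem_sup_right (pa_mem ⟨hs, fun e => huv (h.symm.trans e)⟩)
    · exact Subgroup.mem_sup_left (pa_mem ⟨hs, h⟩)
  obtain ⟨k, L', h3, h4, h5⟩ := syl_exists hg'
  exact main T U k φ g ⟨L', by omega, h4, h5⟩ hm

theorem exists_sep_all [Finite S] (D0 : Co M)
    (h : ∀ J : Set S, (∀ s ∈ J, ∀ t ∈ J, M s t ≠ 0) → Irred M J → ∃ D : Co M, D.SepP J) :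
    ∃ D : Co M, D.Sep Set.univ := by
  classical
  have clique : ∀ n, ∀ J : Set S, J.ncard ≤ n → (∀ u ∈ J, ∀ v ∈ J, M u v ≠ 0) →
      ∃ D : Co M, D.SepP J := by
    intro n
    induction n with
    | zero =>
      intro J hJ _
      obtain rfl : J = ∅ := (Set.ncard_eq_zero).mp (by omega)
      exact ⟨D0, fun _ _ _ g _ hg _ _ => ⟨1, one_mem _, 1, one_mem _, by rw [pa_empty hg, mul_one]⟩⟩
    | succ n ih =>
      intro J hn hJ
      by_cases h0 : J.ncard ≤ n
      · exact ih J h0 hJ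
      by_cases h1 : Irred M J
      · exact h J hJ h1
      have hne : J.Nonempty := Set.nonempty_of_ncard_ne_zero (by omega)
      simp only [Irred, hne, true_and, not_forall] at h1
      obtain ⟨K, k1, k2, k3, k4⟩ := h1
      have e1 := Set.ncard_lt_ncard (Set.ssubset_iff_subset_ne.mpr ⟨k1, k4⟩)
      have e2 : (J \ K).ncard < J.ncard :=
        Set.ncard_lt_ncard (Set.sdiff_ssubset_left_iff.mpr (by rwa [Set.inter_eq_right.mpr k1]))
      rw [← Set.union_sdiff_cancel k1]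
      exact sepP_join' (fun t ht => ⟨ht.2, fun s hs => k3 s hs t ht⟩)
        (ih K (by omega) fun a ha b hb => hJ a (k1 ha) b (k1 hb))
        (ih _ (by omega) fun a ha b hb => hJ a ha.1 b hb.1)
  have all : ∀ J : Finset S, ∃ D : Co M, D.Sep J := by
    intro J
    induction J using Finset.strongInduction with
    | H J ih =>
      by_cases h : ∀ u ∈ J, ∀ v ∈ J, M u v ≠ 0
      · obtain ⟨D, hD⟩ := clique _ J le_rfl h
        exact ⟨D, fun φ T U g hg hm => hD φ T U g 1 hg (one_mem _) (by rwa [mul_one])⟩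
      · push Not at h
        obtain ⟨u, hu, v, hv, h⟩ := h
        refine sep_glue (fun e : u = v => by simp [e] at h) h ?_ ?_
        · simpa using ih _ (Finset.erase_ssubset hu)
        · simpa using ih _ (Finset.erase_ssubset hv)
  have := Fintype.ofFinite S
  simpa using all Finset.univ

end Pool.Agent.Lib.MP_19b52f_al.FC
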