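import Pool.Agent.Lib.MP_19b52f_al.FC.GTw
import Pool.Agent.Lib.MP_19b52f_al.FC.GChain

/-! The ribbon surface of a finite graph and the half twists along its edges. -/

namespace Pool.Agent.Lib.MP_19b52f_al.FC

open Pool.Agent.Lib.MP_19b52f_al.EA Pool.Agent.Lib.MP_19b52f_al.EA2
open FreeGroup hiding map_mul map_inv map_one lift_unique

theorem exists_graph {V E : Type} [Finite V] [Finite E] (src tgt : E → V)
    (hne : ∀ e, src e ≠ tgt e) : ∃ (Z : Surf) (ar : E → Z.A) (tw : E → Z.Mod),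
    Function.Injective ar ∧ (∀ e, tw e ∈ Z.D {ar e}ᶜ) ∧
    (∀ e e', src e ≠ src e' → src e ≠ tgt e' → tgt e ≠ src e' → tgt e ≠ tgt e' →
      Commute (tw e) (tw e')) ∧
    (∀ e e' a b c, s(src e, tgt e) = s(a, b) → s(src e', tgt e') = s(b, c) → a ≠ c →
      tw e * tw e' * tw e = tw e' * tw e * tw e') ∧
    ∀ (n : ℕ) (ch : ℕ → E) (vx : ℕ → V), (∀ i < n, src (ch i) = vx i ∧ tgt (ch i) = vx (i + 1)) →
      (∀ i ≤ n, ∀ j ≤ n, vx i = vx j → i = j) → ∀ h : Br n →* Z.Mod,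
      (∀ i < n, h (sA n i) = tw (ch i)) → ∀ b, ∀ i < n, ∀ j < n,
      Z.Y (ar (ch i)) (ar (ch j)) (h b) →
        (j ≤ i → act (inc n b) (dP (j + 1)) ∈ gen {x : ℕ | x ≤ i}) ∧
        (i < j → act (inc n b) (dP (n + 1) * (dP (j + 1))⁻¹) ∈ gen {x : ℕ | i < x}) := by
  have := Fintype.ofFinite V
  have := Fintype.ofFinite E
  let G : Gr V E := ⟨src, tgt, hne, Finset.univ.toList, Finset.nodup_toList _, by simp,
    Finset.univ.toList, Finset.nodup_toList _, by simp⟩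
  obtain ⟨rest, hr⟩ := G.exists_rest
  choose f hf using hr.exists_tw
  refine ⟨G.surf, id, fun e => ⟨f e, (hf e).mem_mod hr⟩, fun _ _ h => h, fun e => (hf e).mem_D hr,
    fun e e' h1 h2 h3 h4 => Subtype.ext ((hf e).comm hr (hf e') h1 h2 h3 h4),
    fun e e' a b c h1 h2 h3 => Subtype.ext ((hf e).braid hr (hf e') h1 h2 h3),
    fun n ch vx h1 h2 h h3 b i hi j hj h4 => ?_⟩
  exact hr.chain h1 h2 (G.surf.Mod.subtype.comp h) (fun i hi => by
    have := hf (ch i)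
    rw [← show (h (sA n i)).1 = f (ch i) from congrArg Subtype.val (h3 i hi)] at this
    exact this) b hi hj h4

end Pool.Agent.Lib.MP_19b52f_al.FC
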