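import Pool.Agent.Lib.MP_19b52f_al.FC.Fox

/-! The surface with a hub, and the extension of mapping classes to it. -/

namespace Pool.Agent.Lib.MP_19b52f_al.FC

open Pool.Agent.Lib.MP_19b52f_al.EA
open FreeGroup hiding map_mul map_inv map_one lift_unique

variable (S : Surf) (p : S.A → Prop)

/-- The slots. -/
abbrev HS : Type := {a // ¬ p a}

/-- The new alphabet. -/
abbrev HΩ : Type := S.Ω ⊕ (HS S p × Bool) ⊕ Bool

/-- The letter of the boundary band. -/
abbrev hz : HΩ S p := .inr (.inr false)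

/-- The letter of the fixed new puncture. -/
abbrev hx : HΩ S p := .inr (.inr true)

/-- Old words. -/
abbrev ho : FreeGroup S.Ω →* FreeGroup (HΩ S p) := map Sum.inl

variable {S p}

/-- The two bands of a slot. -/
abbrev ht (a : HS S p) (b : Bool) : FreeGroup (HΩ S p) := of (.inr (.inl (a, b)))

/-- The old letter of a slot. -/
abbrev he (a : HS S p) : HΩ S p := .inl (S.ε a)

/-- The part of the hub boundary along a slot. -/
def hN (a : HS S p) : FreeGroup (HΩ S p) := ht a false * of (he a) * ht a true * ho S p (S.v a)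

lemma hN_mem {K : Subgroup (FreeGroup (HΩ S p))} {a : HS S p} (h1 : ∀ b, ht a b ∈ K)
    (h2 : of (he a) ∈ K) (h3 : ho S p (S.l a) ∈ K) (h4 : ho S p (S.r a) ∈ K) : hN a ∈ K := by
  simp only [hN, Surf.v, map_mul, map_inv, map.of]
  exact mul_mem (mul_mem (mul_mem (h1 _) h2) (h1 _))
    (mul_mem (mul_mem (inv_mem h4) (inv_mem h2)) h3)

lemma ho_gen {X : Set (HΩ S p)} (h : ∀ s, (∀ b, S.ε b ≠ s) → Sum.inl s ∈ X) {w : FreeGroup S.Ω}
    (hw : w ∈ gen (Set.range S.ε)ᶜ) : ho S p w ∈ gen X :=
  map_mem_gen (fun s hs => h s (by simpa using hs)) hw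

lemma hN_gen {X : Set (HΩ S p)} {a : HS S p} (h : ∀ s, (∀ b, S.ε b ≠ s) → Sum.inl s ∈ X)
    (h1 : ∀ b, .inr (.inl (a, b)) ∈ X) (h2 : he a ∈ X) : hN a ∈ gen X :=
  hN_mem (fun b => of_mem_gen (h1 b)) (of_mem_gen h2) (ho_gen h (S.l_mem a)) (ho_gen h (S.r_mem a))

lemma ho_new {X : Set (HΩ S p)} (h : ∀ s, Sum.inl s ∈ X) (w : FreeGroup S.Ω) : ho S p w ∈ gen X :=
  map_mem_gen (fun s _ => h s) (mem_gen_univ w)

/-- The letters that are present when the slots of a list are attached. -/
abbrev hY (L : List (HS S p)) : Set (HΩ S p) :=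
  {s | Sum.elim (fun _ => True) (Sum.elim (fun x => x.1 ∈ L) (fun _ => True)) s}

lemma hub_std (L : List (HS S p)) (hL : L.Nodup) : ∀ R : Multiset (ConjClasses (FreeGroup (HΩ S p))),
    (∀ x ∈ R, ∃ w, x = cl (ho S p w)) →
    SStd (Set.range Sum.inl) (cl (ho S p S.c) ::ₘ
      (R + (L.map fun a => {cl (of (he a)), cl (ho S p (S.v a))}).sum)) →
    SStd (hY L)
      (cl ((L.map hN).prod * of (hz S p) * (of (hx S p))⁻¹) ::ₘ
        cl (ho S p S.c * ((L.map fun a => ht a false * ht a true).prod * of (hz S p))⁻¹) ::ₘ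
        cl (of (hx S p)) ::ₘ R) := by
  induction L using List.reverseRecOn with
  | nil =>
    intro R _ h
    have h1 := SStd.ins_new (u := ho S p S.c) (v := 1) (e := hz S p) (by simpa using h)
      (map_mem_range _) (one_mem _) (by simp)
    rw [Multiset.cons_swap] at h1
    have h2 := SStd.ins_new (u := of (hz S p)) (v := 1) (e := hx S p) (by simpa using h1)
      (of_mem_gen (by simp)) (one_mem _) (by simp)
    rw [Multiset.cons_swap (cl (of (hx S p)))] at h2
    convert h2 using 1
    · ext s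
      rcases s with s | ⟨a, b⟩ | _ | _ <;> simp
    · simp
  | append_singleton L a ih =>
    intro R hR h
    rw [List.nodup_append] at hL
    have ha : a ∉ L := fun h => hL.2.2 a h a (by simp) rfl
    have h1 := ih hL.1 (cl (of (he a)) ::ₘ cl (ho S p (S.v a)) ::ₘ R) (by
      intro x hx
      simp only [Multiset.mem_cons] at hx
      rcases hx with rfl | rfl | hx
      · exact ⟨of (S.ε a), rfl⟩
      · exact ⟨_, rfl⟩
      · exact hR x hx) (by
      convert h using 2
      simp only [List.map_append, List.sum_append, List.map_singleton, List.sum_singleton,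
        ← Multiset.singleton_add, Multiset.insert_eq_cons]
      abel)
    have m0 : ∀ w, ho S p w ∈ gen (hY L \ {hz S p}) :=
      ho_new (by simp)
    have h2 := SStd.hub_step (A := hz S p) (t := .inr (.inl (a, false)))
      (t' := .inr (.inl (a, true))) (c := ho S p S.c)
      (q := (L.map fun a => ht a false * ht a true).prod) (N := (L.map hN).prod)
      (y := (of (hx S p))⁻¹) (w := of (he a)) (w' := ho S p (S.v a)) (R := cl (of (hx S p)) ::ₘ R)
      (by
        convert h1 using 2
        simp only [← Multiset.singleton_add]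
        abel)
      (by simp) (m0 _)
      (prod_map_mem fun b hb => mul_mem (of_mem_gen (by simpa using hb))
        (of_mem_gen (by simpa using hb)))
      (prod_map_mem fun b hb => hN_gen (by simp) (fun _ => by simpa using hb) (by simp))
      (inv_mem (of_mem_gen (by simp))) (of_mem_gen (by simp)) (m0 _)
      (by
        intro x hx
        rcases Multiset.mem_cons.mp hx with rfl | hx
        · exact ⟨_, of_mem_gen (by simp), rfl⟩
        · obtain ⟨w, rfl⟩ := hR x hx
          exact ⟨_, m0 w, rfl⟩)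
      (by simpa using ha) (by simpa using ha) (by simp)
    convert h2 using 1
    · ext s
      rcases s with s | ⟨b, _ | _⟩ | _ | _ <;> simp [or_comm]
    · simp [hN]

variable (S p) [DecidablePred p]

/-- The list of all slots. -/
noncomputable def hL : List (HS S p) := Finset.univ.toList

/-- The product of all slot words. -/
noncomputable def hP : FreeGroup (HΩ S p) := ((hL S p).map hN).prod

/-- The moving new puncture. -/
noncomputable def hm : FreeGroup (HΩ S p) := hP S p * of (hz S p) * (of (hx S p))⁻¹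

/-- The letters of the surviving arcs. -/
abbrev hC : Set (HΩ S p) := (Set.range fun a : {a // p a} => Sum.inl (S.ε a))ᶜ

variable {S p}

omit [DecidablePred p] in
lemma ho_hC {w : FreeGroup S.Ω} (hw : w ∈ gen (Set.range S.ε)ᶜ) : ho S p w ∈ gen (hC S p) :=
  ho_gen (fun s hs => by simpa using fun a _ => hs a) hw

omit [DecidablePred p] in
lemma he_hC (a : HS S p) : he a ∈ hC S p := by
  simpa using fun b (hb : p b) (e : S.ε b = S.ε a) => a.2 (S.inj e ▸ hb)

omit [DecidablePred p] in
lemma hN_hC (a : HS S p) : hN a ∈ gen (hC S p) :=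
  hN_gen (fun s hs => by simpa using fun a _ => hs a) (by simp) (he_hC a)

lemma hP_mem {K : Subgroup (FreeGroup (HΩ S p))} (h : ∀ a, hN a ∈ K) : hP S p ∈ K :=
  prod_map_mem fun a _ => h a

variable (S p)

/-- The surface with the hub. -/
noncomputable abbrev hub : Surf where
  Ω := HΩ S p
  A := {a // p a}
  ε a := .inl (S.ε a)
  inj a b h := Subtype.ext (S.inj (Sum.inl_injective h))
  l a := ho S p (S.l a)
  r a := ho S p (S.r a)
  c := ho S p S.c * (((hL S p).map fun a => ht a false * ht a true).prod * of (hz S p))⁻¹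
  P := cl (hm S p) ::ₘ cl (of (hx S p)) ::ₘ S.P.map (cm (ho S p))
  l_mem a := ho_hC (S.l_mem a)
  r_mem a := ho_hC (S.r_mem a)
  c_mem := mul_mem (ho_hC S.c_mem) (inv_mem (mul_mem (prod_map_mem fun a _ =>
    mul_mem (of_mem_gen (by simp)) (of_mem_gen (by simp))) (of_mem_gen (by simp))))
  P_mem x hx := by
    simp only [Multiset.mem_cons, Multiset.mem_map] at hx
    rcases hx with rfl | rfl | ⟨y, hy, rfl⟩
    · exact ⟨_, mul_mem (mul_mem (hP_mem hN_hC) (of_mem_gen (by simp)))
        (inv_mem (of_mem_gen (by simp))), rfl⟩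
    · exact ⟨_, of_mem_gen (by simp), rfl⟩
    · obtain ⟨w, hw, rfl⟩ := S.P_mem y hy
      exact ⟨_, ho_hC hw, rfl⟩
  std := by
    have h0 := S.std.map (ι := (Sum.inl : S.Ω → HΩ S p)) Sum.inl_injective
    have h1 := hub_std (hL S p) (Finset.nodup_toList _) (S.P.map (cm (ho S p)) +
      ∑ a : {a // p a}, {cl (of (.inl (S.ε a))), cl (ho S p (S.v a))}) (by
        intro x hx
        simp only [Multiset.mem_add, Multiset.mem_map, Multiset.mem_sum,
          Multiset.insert_eq_cons, Multiset.mem_cons, Multiset.mem_singleton] at hx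
        rcases hx with ⟨y, -, rfl⟩ | ⟨a, -, rfl | rfl⟩
        · obtain ⟨w, rfl⟩ := ConjClasses.mk_surjective y
          exact ⟨w, rfl⟩
        · exact ⟨of (S.ε a), rfl⟩
        · exact ⟨_, rfl⟩) (by
        convert h0 using 1
        rw [hL, Finset.sum_map_toList, add_assoc, Multiset.map_cons, Multiset.map_add,
          ← Multiset.coe_mapAddMonoidHom, map_sum,
          ← Fintype.sum_subtype_add_sum_subtype p]
        rfl)
    convert h1 using 1
    · ext s
      rcases s with s | ⟨b, _ | _⟩ | _ | _ <;> simp [hL]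
    · simp only [← Multiset.singleton_add, hm, hP, Surf.v, map_mul, map_inv, map.of]
      abel

variable {S p}

lemma hub_mod {T : MulAut (FreeGroup (HΩ S p))}
    (h0 : ∀ s, s ≠ hx S p → (∀ a, s ≠ he a) → T (of s) = of s) (h1 : cl (T (hm S p)) = cl (hm S p))
    (h2 : cl (T (of (hx S p))) = cl (of (hx S p))) (h3 : T (of (hx S p)) ∈ gen (hC S p))
    (h4 : ∀ a, T (of (he a)) ∈ gen (hC S p)) :
    ∃ h : T ∈ (hub S p).Mod, (⟨T, h⟩ : (hub S p).Mod) ∈ (hub S p).D Set.univ := by
  have g0 : ∀ w ∈ gen (Set.range S.ε)ᶜ, ho S p w ∈ gen {s | s ≠ hx S p ∧ ∀ a, s ≠ he a} :=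
    fun w hw => ho_gen (fun s hs => by
      exact ⟨Sum.inl_ne_inr, fun a e => hs a.1 (Sum.inl_injective e).symm⟩) hw
  have f0 : ∀ w ∈ gen (Set.range S.ε)ᶜ, T (ho S p w) = ho S p w := fun w hw =>
    aut_fix_gen T (fun s hs => h0 s hs.1 hs.2) (g0 w hw)
  have f1 : ∀ a : {a // p a}, T (of (.inl (S.ε a))) = of (.inl (S.ε a)) := fun a =>
    h0 _ (by simp) (fun b e => b.2 (S.inj (Sum.inl_injective e) ▸ a.2))
  refine ⟨⟨?_, f1, fun a => ?_, ?_⟩, fun a _ => ⟨f0 _ (S.l_mem a.1), fun w hw => ?_⟩⟩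
  · refine aut_fix_gen T (X := {s | s ≠ hx S p ∧ ∀ a, s ≠ he a}) (fun s hs => h0 s hs.1 hs.2) ?_
    exact mul_mem (g0 _ S.c_mem) (inv_mem (mul_mem (prod_map_mem fun a _ =>
        mul_mem (of_mem_gen (by simp)) (of_mem_gen (by simp))) (of_mem_gen (by simp))))
  · simp only [Surf.v, map_mul, map_inv, f1, f0 _ (S.l_mem _), f0 _ (S.r_mem _)]
  · rw [Multiset.map_cons, Multiset.map_cons, map_cm_fix, cm_cl, cm_cl]
    · exact congrArg₂ _ h1 (congrArg₂ _ h2 rfl)
    · intro x hx
      obtain ⟨y, hy, rfl⟩ := Multiset.mem_map.mp hx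
      obtain ⟨w, hw, rfl⟩ := S.P_mem y hy
      exact ⟨_, f0 w hw, rfl⟩
  · refine aut_mem_of_gen T (fun s hs => ?_) hw
    by_cases c1 : s = hx S p
    · exact c1 ▸ (hub S p).le_cut a h3
    · by_cases c2 : ∃ b, s = he b
      · obtain ⟨b, rfl⟩ := c2
        exact (hub S p).le_cut a (h4 b)
      · rw [h0 s c1 (by simpa using c2)]
        exact of_mem_gen hs

lemma exists_hub_ext : ∃ i : S.Mod →* (hub S p).Mod,
    (∀ d w, (i d).1 (ho S p w) = ho S p (d.1 w)) ∧ (∀ d s, (i d).1 (of (.inr s)) = of (.inr s)) ∧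
    ∀ d a, (i d).1 (hN a) = hN a := by
  obtain ⟨E, e1, e2⟩ := exists_ext (ι := (Sum.inl : S.Ω → HΩ S p)) Sum.inl_injective
  have e3 : ∀ d s, E d (of (.inr s)) = of (.inr s) := fun d s => e2 d _ (by simp)
  have e4 : ∀ d ∈ S.Mod, ∀ a, E d (of (.inl (S.ε a))) = of (.inl (S.ε a)) := fun d hd a => by
    rw [← map.of (f := Sum.inl), e1, hd.2.1]
  have e5 : ∀ d ∈ S.Mod, ∀ a : HS S p, E d (hN a) = hN a := fun d hd a => by
    simp only [hN, map_mul, e3, e4 d hd, e1, hd.2.2.1 a]
  have hm : ∀ d : S.Mod, E d.1 ∈ (hub S p).Mod := by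
    rintro ⟨d, hd⟩
    refine ⟨?_, fun a => e4 d hd a.1, fun a => ?_, ?_⟩
    · have := prod_map_mem (K := (E d).toMonoidHom.eqLocus (MonoidHom.id _)) (L := hL S p)
        (f := fun a => ht a false * ht a true) (fun a _ => mul_mem (e3 d _) (e3 d _))
      change E d _ = _ at this
      simp only [map_mul, map_inv, e1, e3, hd.1, this, MonoidHom.id_apply]
    · have := e1 d (S.v a.1)
      rw [hd.2.2.1] at this
      simpa [Surf.v] using this
    · have := hP_mem (K := (E d).toMonoidHom.eqLocus (MonoidHom.id _)) (e5 d hd)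
      change E d _ = _ at this
      rw [Multiset.map_cons, Multiset.map_cons, cm_cl, cm_cl, Multiset.map_map]
      refine congrArg₂ _ (by simp [hm, e3, this]) (congrArg₂ _ (by simp [e3]) ?_)
      conv_rhs => rw [← hd.2.2.2, Multiset.map_map]
      refine Multiset.map_congr rfl fun x _ => ?_
      obtain ⟨w, rfl⟩ := ConjClasses.mk_surjective x
      exact congrArg cl (e1 d w)
  exact ⟨(E.comp S.Mod.subtype).codRestrict _ hm, fun d => e1 d.1, fun d => e3 d.1,
    fun d => e5 d.1 d.2⟩

end Pool.Agent.Lib.MP_19b52f_al.FC
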