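import Pool.Agent.Lib.MP_19b52f_al.FC.HubDef

/-! The point pushing maps of the hub and their Fox derivatives. -/

namespace Pool.Agent.Lib.MP_19b52f_al.FC

open Pool.Agent.Lib.MP_19b52f_al.EA
open FreeGroup hiding map_mul map_inv map_one lift_unique

variable {S : Surf} {p : S.A → Prop}

lemma hN_xz (a : HS S p) : hN a ∈ gen {hx S p, hz S p}ᶜ := hN_gen (by simp) (by simp) (by simp)

lemma ho_xz (w : FreeGroup S.Ω) : ho S p w ∈ gen {hx S p, hz S p}ᶜ := ho_new (by simp) w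

lemma xz_x : gen {hx S p, hz S p}ᶜ ≤ gen {hx S p}ᶜ := gen_mono (by simp)

lemma xz_z : gen {hx S p, hz S p}ᶜ ≤ gen {hz S p}ᶜ := gen_mono (by simp)

lemma hN_eq (a : HS S p) : hN a = ht a false * of (he a) * ht a true *
    ((ho S p (S.r a))⁻¹ * (of (he a))⁻¹ * ho S p (S.l a)) := by simp [hN, Surf.v]

variable [DecidablePred p]

/-- Forgetting the moving puncture, a change of basis, and the derivative. -/
structure HFox (π ψ : FreeGroup (HΩ S p) →* FreeGroup (HΩ S p))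
    (D : FreeGroup (HΩ S p) → (FreeGroup (HΩ S p) → ℤ) → ℤ) : Prop where
  cr : Cr ψ D
  p1 : π (of (hx S p)) = hP S p * of (hz S p)
  p2 : ∀ s ≠ hx S p, π (of s) = of s
  q1 : ψ (of (hx S p)) = of (hz S p)
  q2 : ψ (of (hz S p)) = (hP S p)⁻¹ * of (hz S p)
  q3 : ∀ s, s ≠ hx S p → s ≠ hz S p → ψ (of s) = of s
  d1 : ∀ ℓ, D (of (hx S p)) ℓ = ℓ 1
  d2 : ∀ s ≠ hx S p, ∀ ℓ, D (of s) ℓ = 0

lemma exists_hfox : ∃ π ψ D, HFox (S := S) (p := p) π ψ D := by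
  classical
  let ψ : FreeGroup (HΩ S p) →* FreeGroup (HΩ S p) := lift fun s => if s = hx S p then of (hz S p)
    else if s = hz S p then (hP S p)⁻¹ * of (hz S p) else of s
  obtain ⟨D, h1, h2⟩ := exists_cr ψ (fun s ℓ => if s = hx S p then ℓ 1 else 0)
  exact ⟨lift fun s => if s = hx S p then hP S p * of (hz S p) else of s, ψ, D, h1, by simp,
    fun s h => by simp [h], by simp [ψ], by simp [ψ], fun s h h' => by simp [ψ, h, h'],
    by simp [h2], fun s h => by simp [h2, h]⟩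

namespace HFox
variable {π ψ : FreeGroup (HΩ S p) →* FreeGroup (HΩ S p)}
  {D : FreeGroup (HΩ S p) → (FreeGroup (HΩ S p) → ℤ) → ℤ} (H : HFox π ψ D)
include H

lemma pfix {w} (hw : w ∈ gen {hx S p}ᶜ) : π w = w := eq_on_gen (g := MonoidHom.id _) H.p2 hw

lemma dzero {w} (hw : w ∈ gen {hx S p}ᶜ) (ℓ) : D w ℓ = 0 := H.cr.zero H.d2 hw ℓ

lemma qfix {w} (hw : w ∈ gen {hx S p, hz S p}ᶜ) : ψ w = w :=
  eq_on_gen (g := MonoidHom.id _) (X := {hx S p, hz S p}ᶜ)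
    (fun s hs => H.q3 s (fun e => hs (by simp [e])) (fun e => hs (by simp [e]))) hw

lemma pmem (w) : π w ∈ gen {hx S p}ᶜ :=
  map_mem_of_gen π (fun s _ => by
    by_cases h : s = hx S p
    · rw [h, H.p1]
      exact mul_mem (xz_x (hP_mem hN_xz)) (of_mem_gen (by simp))
    · rw [H.p2 s h]; exact of_mem_gen h) (mem_gen_univ w)

lemma qp (w) : ψ (π w) = ψ w :=
  eq_on_gen (f := ψ.comp π) (fun s _ => by
    by_cases h : s = hx S p
    · simp [h, H.p1, H.q1, H.q2, H.qfix (hP_mem hN_xz)]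
    · simp [H.p2 s h]) (mem_gen_univ w)

lemma qT {T : MulAut (FreeGroup (HΩ S p))} (h : ∀ w, π (T w) = π w) (w) : ψ (T w) = ψ w := by
  rw [← H.qp, h, H.qp]

lemma push_of {T : MulAut (FreeGroup (HΩ S p))} {g} (h : ∀ w, π (T w) = π w)
    (h1 : ∀ ℓ, D (T (of (hx S p))) ℓ = ℓ g + D (T (hP S p * of (hz S p))) ℓ) : Push π D T g := by
  refine ⟨h, fun w ℓ => Cr.ext_gen (ψ := ψ) (D := fun w => D (T w))
    (D' := fun w ℓ => D w (fun y => ℓ (y * g)) + D (T (π w)) ℓ) (fun u v ℓ => ?_) (fun u v ℓ => ?_)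
    (fun s _ ℓ => ?_) (mem_gen_univ w) ℓ⟩
  · simp only [map_mul, H.cr _ _ ℓ, H.qT h]
  · simp only [map_mul, H.cr _ _ ℓ, H.cr u v, H.qT h, H.qp, mul_assoc]
    omega
  · by_cases e : s = hx S p
    · simp only [e, h1, H.d1, H.p1, one_mul]
    · simp only [H.d2 s e, H.p2 s e, zero_add]

lemma qm : ψ (hm S p) = 1 := by simp [hm, H.q1, H.q2, H.qfix (hP_mem hN_xz)]

lemma dm (ℓ) : D (hm S p) ℓ = -ℓ 1 := by
  rw [hm, H.cr, H.dzero (mul_mem (xz_x (hP_mem hN_xz)) (of_mem_gen (by simp))), H.cr.inv, H.d1]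
  simp [H.q1, H.q2, H.qfix (hP_mem hN_xz)]

lemma exists_tau (a : HS S p) : ∃ T : MulAut (FreeGroup (HΩ S p)),
    ∃ O ∈ Subgroup.closure (Set.range (hN (S := S) (p := p))),
    (∀ s ≠ he a, T (of s) = of s) ∧
    (∀ K : Subgroup (FreeGroup (HΩ S p)), (∀ b, hN b ∈ K) → (∀ s, of (.inr s) ∈ K) →
      ho S p (S.l a) ∈ K → ho S p (S.r a) ∈ K → of (he a) ∈ K → T (of (he a)) ∈ K) ∧
    cl (T (hm S p)) = cl (hm S p) ∧
    Push π D T (O * ht a false * ho S p (S.l a) * (O * hN a)⁻¹) ∧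
    ∀ ℓ, D (T (of (he a))) ℓ = -ℓ (ho S p (S.l a) * (O * hN a)⁻¹) := by
  obtain ⟨O, hO, R, hR, e⟩ := prod_change (K := Subgroup.closure (hN '' {b | b ≠ a}))
    (L := hL S p) (Finset.nodup_toList _) (a := a) (by simp [hL]) (f := hN)
    (fun b _ hb => Subgroup.subset_closure ⟨b, hb, rfl⟩)
  have eP : hP S p = O * hN a * R := e hN (fun _ _ => rfl)
  have hK : ∀ K : Subgroup (FreeGroup (HΩ S p)), (∀ b ≠ a, hN b ∈ K) → O ∈ K ∧ R ∈ K := by
    intro K h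
    have : Subgroup.closure (hN '' {b | b ≠ a}) ≤ K := by
      rw [Subgroup.closure_le]
      rintro _ ⟨b, hb, rfl⟩
      exact h b hb
    exact ⟨this hO, this hR⟩
  have n0 : ∀ s, (∀ b, S.ε b ≠ s) → Sum.inl s ∈ ({he a}ᶜ : Set (HΩ S p)) := fun s hs h =>
    hs a (Sum.inl_injective h).symm
  obtain ⟨o1, r1⟩ := hK (gen {he a}ᶜ) fun b hb => hN_gen n0 (by simp)
    (fun h => hb (Subtype.ext (S.inj (Sum.inl_injective h))))
  obtain ⟨o2, r2⟩ := hK _ fun b _ => hN_xz b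
  have l1 := ho_gen n0 (S.l_mem a)
  have l2 := ho_gen n0 (S.r_mem a)
  have n1 : ∀ s, (of (.inr s) : FreeGroup (HΩ S p)) ∈ gen {he a}ᶜ := fun s => of_mem_gen (by simp)
  obtain ⟨T, t1, t2⟩ := exists_elem1 (he a)
    (a := ho S p (S.l a) * R * of (hz S p) * (of (hx S p))⁻¹ * (O * ht a false))
    (b := ht a true * (ho S p (S.r a))⁻¹)
    (mul_mem (mul_mem (mul_mem (mul_mem l1 r1) (n1 _)) (inv_mem (n1 _))) (mul_mem o1 (n1 _)))
    (mul_mem (n1 _) (inv_mem l2))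
  have t3 : ∀ w ∈ gen {he a}ᶜ, T w = w := fun w hw => aut_fix_gen T t2 hw
  have x1 : ∀ b, ht a b ∈ gen {hx S p, hz S p}ᶜ := fun b => of_mem_gen (by simp)
  have x2 : of (he a) ∈ gen {hx S p, hz S p}ᶜ := of_mem_gen (by simp)
  have x3 : of (hz S p) ∈ gen {hx S p}ᶜ := of_mem_gen (by simp)
  set G := O * ht a false * (ho S p (S.l a) * R * of (hz S p) * (of (hx S p))⁻¹) with hG
  have t4 : T (hm S p) = G * hm S p * G⁻¹ := by
    simp only [hm, eP, hN_eq a, map_mul, map_inv, t1, t3 _ o1, t3 _ r1, t3 _ l1, t3 _ l2,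
      t3 _ (n1 _), hG]
    group
  have t5 : ∀ w, π (T w) = π w := fun w => eq_on_gen (f := π.comp T.toMonoidHom) (fun s _ => by
    by_cases h : s = he a
    · simp only [h, MonoidHom.comp_apply, MulEquiv.coe_toMonoidHom, t1, map_mul, map_inv, H.p1,
        H.pfix (xz_x o2), H.pfix (xz_x r2), H.pfix (xz_x (ho_xz _)), H.pfix (xz_x (x1 _)),
        H.pfix (xz_x x2), H.pfix x3, eP, hN_eq a]
      group
    · simp [t2 s h]) (mem_gen_univ w)
  refine ⟨T, O, (hK _ fun b _ => Subgroup.subset_closure (Set.mem_range_self b)).1, t2,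
    fun K k1 k2 k3 k4 k5 => ?_, (cl_eq G t4.symm).symm, H.push_of t5 fun ℓ => ?_, fun ℓ => ?_⟩
  · obtain ⟨k6, k7⟩ := hK K fun b _ => k1 b
    rw [t1]
    exact mul_mem (mul_mem (mul_mem (mul_mem (mul_mem (mul_mem k3 k7) (k2 _)) (inv_mem (k2 _)))
      (mul_mem k6 (k2 _))) k5) (mul_mem (k2 _) (inv_mem k4))
  · have e1 : hP S p * of (hz S p) = hm S p * of (hx S p) := by simp [hm]
    have e2 : ψ G = O * ht a false * ho S p (S.l a) * (O * hN a)⁻¹ := by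
      simp only [hG, map_mul, map_inv, H.q1, H.q2, H.qfix o2, H.qfix r2, H.qfix (ho_xz _),
        H.qfix (x1 _), eP]
      group
    rw [e1, map_mul, t3 _ (n1 _), H.cr, H.qT t5, H.qm, t4, H.cr.conj _ H.qm, H.dm, H.d1, H.d1, e2]
    simp
  · rw [t1, H.cr, H.cr, H.cr, H.cr, H.dzero (xz_x x2),
      H.dzero (mul_mem (xz_x (x1 _)) (inv_mem (xz_x (ho_xz _)))),
      H.dzero (mul_mem (xz_x o2) (xz_x (x1 _))),
      H.dzero (mul_mem (mul_mem (xz_x (ho_xz _)) (xz_x r2)) x3), H.cr.inv, H.d1]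
    simp only [map_mul, H.q1, H.q2, H.qfix r2, H.qfix (ho_xz _), eP, zero_add, add_zero]
    congr 2
    group

lemma exists_zeta : ∃ Z : (hub S p).Mod, Z ∈ (hub S p).D Set.univ ∧
    (∀ s ≠ hx S p, Z.1 (of s) = of s) ∧
    Z.1 (of (hx S p)) = hP S p * of (hz S p) * of (hx S p) * (hP S p * of (hz S p))⁻¹ ∧
    (∀ w, π (Z.1 w) = π w) ∧ ∀ w ℓ, D (Z.1 w) ℓ = D w (fun y => ℓ (y * of (hz S p))) := by
  have x1 : hP S p * of (hz S p) ∈ gen {hx S p}ᶜ :=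
    mul_mem (xz_x (hP_mem hN_xz)) (of_mem_gen (by simp))
  obtain ⟨Z, z1, z2⟩ := exists_elem1 (hx S p) x1 (inv_mem x1)
  have z3 : ∀ w ∈ gen {hx S p}ᶜ, Z w = w := fun w hw => aut_fix_gen Z z2 hw
  have c1 : hP S p * of (hz S p) ∈ gen (hC S p) := mul_mem (hP_mem hN_hC) (of_mem_gen (by simp))
  obtain ⟨h1, h2⟩ := hub_mod (T := Z) (fun s h _ => z2 s h)
    (cl_eq (hP S p * of (hz S p)) (by rw [hm, map_mul, map_inv, z1, z3 _ x1]; group)).symm
    (cl_eq _ z1.symm).symm (z1 ▸ mul_mem (mul_mem c1 (of_mem_gen (by simp))) (inv_mem c1))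
    (fun a => by rw [z2 _ (by simp)]; exact of_mem_gen (he_hC a))
  have z4 : ∀ w, π (Z w) = π w := fun w => eq_on_gen (f := π.comp Z.toMonoidHom) (fun s _ => by
    by_cases h : s = hx S p
    · simp only [h, MonoidHom.comp_apply, MulEquiv.coe_toMonoidHom, z1, map_mul π _ (_)⁻¹,
        map_mul π _ (of (hx S p)), map_inv, H.pfix x1, H.p1, mul_inv_cancel_right]
    · simp [z2 s h]) (mem_gen_univ w)
  refine ⟨⟨Z, h1⟩, h2, z2, z1, z4, fun w ℓ => ?_⟩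
  have := (H.push_of (g := of (hz S p)) z4 (fun ℓ => by
    rw [z3 _ x1, z1, H.cr, H.cr, H.dzero x1, H.dzero (inv_mem x1), H.d1, ← H.p1, H.qp, H.q1]
    simp)).2 w ℓ
  rwa [z3 _ (H.pmem w), H.dzero (H.pmem w), add_zero] at this

lemma ext_comm {E : MulAut (FreeGroup (HΩ S p))} {d : MulAut (FreeGroup S.Ω)}
    (e1 : ∀ w, E (ho S p w) = ho S p (d w)) (e2 : ∀ s, E (of (.inr s)) = of (.inr s))
    (e3 : ∀ a, E (hN a) = hN a) (w) :
    π (E w) = E (π w) ∧ ∀ ℓ, D (E w) ℓ = D w (fun y => ℓ (E y)) := by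
  have e4 : E (hP S p) = hP S p := hP_mem (K := E.toMonoidHom.eqLocus (MonoidHom.id _)) e3
  have e5 : ∀ s, s = hx S p ∨ s = hz S p ∨ (s ≠ hx S p ∧ s ≠ hz S p ∧
      E (of s) ∈ gen {hx S p, hz S p}ᶜ) := by
    rintro (s | s | _ | _)
    · refine Or.inr (Or.inr ⟨by simp, by simp, ?_⟩)
      rw [← map.of (f := Sum.inl), e1]; exact ho_xz _
    · refine Or.inr (Or.inr ⟨by simp, by simp, ?_⟩)
      rw [e2]; exact of_mem_gen (by simp)
    · simp
    · simp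
  have e6 : ∀ w, ψ (E w) = E (ψ w) := fun w =>
    eq_on_gen (f := ψ.comp E.toMonoidHom) (g := E.toMonoidHom.comp ψ) (fun s _ => by
      rcases e5 s with rfl | rfl | ⟨h1, h2, h3⟩
      · simp [e2, H.q1]
      · simp [e2, H.q2, e4]
      · simp [H.q3 s h1 h2, H.qfix h3]) (mem_gen_univ w)
  refine ⟨eq_on_gen (f := π.comp E.toMonoidHom) (g := E.toMonoidHom.comp π) (fun s _ => ?_)
    (mem_gen_univ w), fun ℓ => Cr.ext_gen (ψ := E.toMonoidHom.comp ψ) (D := fun w => D (E w))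
    (D' := fun w ℓ => D w (fun y => ℓ (E y))) (fun u v ℓ => ?_) (fun u v ℓ => ?_)
    (fun s _ ℓ => ?_) (mem_gen_univ w) ℓ⟩
  · rcases e5 s with rfl | rfl | ⟨h1, h2, h3⟩
    · simp [e2, H.p1, e4]
    · simp [e2, H.p2]
    · simp [H.p2 s h1, H.pfix (xz_x h3)]
  · simp [H.cr _ _ ℓ, e6]
  · simp [H.cr u v]
  · rcases e5 s with rfl | rfl | ⟨h1, h2, h3⟩
    · simp [e2, H.d1]
    · simp [e2, H.d2]
    · simp [H.d2 s h1, H.dzero (xz_x h3)]

end HFox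

end Pool.Agent.Lib.MP_19b52f_al.FC
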