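import Pool.Agent.Lib.MP_19b52f_al.FC.Std

/-! Operations on standard systems. -/

namespace Pool.Agent.Lib.MP_19b52f_al.FC

open Pool.Agent.Lib.MP_19b52f_al.EA
open FreeGroup hiding map_mul map_inv map_one lift_unique

variable {Ω : Type} {Y Y' : Set Ω} {R R' : Multiset (ConjClasses (FreeGroup Ω))}
  {u v w w' : FreeGroup Ω} {e : Ω}

lemma On.mul {f g : MulAut (FreeGroup Ω)} (hf : On Y f) (hg : On Y g) : On Y (f * g) :=
  ⟨fun s hs => by rw [MulAut.mul_apply, hg.out s hs, hf.out s hs],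
    fun s hs => aut_mem_of_gen f hf.mem (hg.mem s hs)⟩

lemma On.mono {f : MulAut (FreeGroup Ω)} (hf : On Y f) (h : Y ⊆ Y') : On Y' f :=
  ⟨fun s hs => hf.out s fun k => hs (h k), fun s hs => by
    by_cases k : s ∈ Y
    · exact gen_mono h (hf.mem s k)
    · rw [hf.out s k]
      exact of_mem_gen hs⟩

lemma On.one_letter {f : MulAut (FreeGroup Ω)} (he : e ∈ Y) (h1 : f (of e) ∈ gen Y)
    (h2 : ∀ s ≠ e, f (of s) = of s) : On Y f :=
  ⟨fun s hs => h2 s fun k => hs (k ▸ he), fun s hs => by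
    by_cases k : s = e
    · exact k ▸ h1
    · rw [h2 s k]
      exact of_mem_gen hs⟩

lemma ops_hw {lh : List (Ω × Ω)} (h : ∀ s ∈ lets lh [], s ∈ Y) : hw lh ∈ gen Y := by
  simpa [pw] using std_mem h

lemma ops_pw {lp : List Ω} (h : ∀ s ∈ lp, s ∈ Y) : pw lp ∈ gen Y :=
  prod_map_mem fun s hs => of_mem_gen (h s hs)

lemma ops_hw_app (a b : List (Ω × Ω)) : hw (a ++ b) = hw a * hw b := by simp [hw]

lemma ops_pw_app (a b : List Ω) : pw (a ++ b) = pw a * pw b := by simp [pw]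

lemma StdOn.mem {d : FreeGroup Ω} (h : StdOn Y d R) : d ∈ gen Y := by
  obtain ⟨f, lh, lp, h1, -, h3, rfl, -⟩ := h
  exact aut_mem_of_gen f h1.mem (std_mem fun s hs => (h3 s).2 hs)

lemma StdOn.conj {d c : FreeGroup Ω} (h : StdOn Y d R) (hc : c ∈ gen Y) :
    StdOn Y (c * d * c⁻¹) R := by
  classical
  let p : FreeGroup Ω → FreeGroup Ω →* FreeGroup Ω := fun a =>
    lift fun s => if s ∈ Y then a * of s * a⁻¹ else of s
  have hp : ∀ a, ∀ w ∈ gen Y, p a w = a * w * a⁻¹ := fun a w hw =>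
    eq_on_gen (g := (MulAut.conj a).toMonoidHom) (fun s hs => by simp [p, hs]) hw
  have hq : ∀ a, ∀ s ∉ Y, p a (of s) = of s := fun a s hs => by simp [p, hs]
  have hi : ∀ a ∈ gen Y, (p a⁻¹).comp (p a) = MonoidHom.id _ := fun a ha => by
    ext s
    by_cases k : s ∈ Y
    · have := of_mem_gen k
      rw [MonoidHom.comp_apply, hp a _ this, hp _ _ (mul_mem (mul_mem ha this) (inv_mem ha))]
      simp [mul_assoc]
    · simp [hq _ s k]
  let g : MulAut (FreeGroup Ω) :=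
    MonoidHom.toMulEquiv (p c) (p c⁻¹) (hi c hc) (by simpa using hi c⁻¹ (inv_mem hc))
  have hg : ∀ w ∈ gen Y, g w = c * w * c⁻¹ := hp c
  have hd := h.mem
  obtain ⟨f, lh, lp, h1, h2, h3, rfl, rfl⟩ := h
  refine ⟨g * f, lh, lp, On.mul ⟨hq c, fun s hs => ?_⟩ h1, h2, h3, hg _ hd, ?_⟩
  · rw [hg _ (of_mem_gen hs)]
    exact mul_mem (mul_mem hc (of_mem_gen hs)) (inv_mem hc)
  · congr 1
    exact List.map_congr_left fun s hs =>
      cl_eq c (hg _ (h1.mem s ((h3 s).2 (List.mem_append_right _ hs)))).symm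

lemma ops_cj {l : List Ω} {a : FreeGroup Ω} (h1 : a ∈ gen Y) (h2 : a ∈ gen {s | s ∈ l}ᶜ)
    (hl : ∀ s ∈ l, s ∈ Y) : ∃ g : MulAut (FreeGroup Ω), On Y g ∧ g (pw l) = a * pw l * a⁻¹ ∧
      (∀ w ∈ gen {s | s ∈ l}ᶜ, g w = w) ∧
      ∀ (f : MulAut (FreeGroup Ω)) s, cl ((f * g) (of s)) = cl (f (of s)) := by
  obtain ⟨g, g1, g2⟩ := exists_elem {s | s ∈ l} (fun _ => a) (fun _ => a⁻¹) (fun _ _ => h2)
    (fun _ _ => inv_mem h2)
  refine ⟨g, ⟨fun s hs => g2 s fun k => hs (hl s k), fun s hs => ?_⟩,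
    eq_on_gen (f := g.toMonoidHom) (g := (MulAut.conj a).toMonoidHom) g1 (ops_pw fun _ h => h),
    fun w hw => aut_fix_gen g g2 hw, fun f s => ?_⟩
  · by_cases k : s ∈ l
    · rw [g1 s k]
      exact mul_mem (mul_mem h1 (of_mem_gen hs)) (inv_mem h1)
    · rw [g2 s k]
      exact of_mem_gen hs
  · by_cases k : s ∈ l
    · exact (cl_eq (f a) (by simp [g1 s k])).symm
    · rw [MulAut.mul_apply, g2 s k]

lemma ops_mk {f : MulAut (FreeGroup Ω)} (hf : On Y f) {a b : List (Ω × Ω)} {p q : List Ω}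
    (h2 : (lets a p ++ lets b q).Nodup) (h3 : ∀ s, s ∈ Y ↔ s ∈ lets a p ++ lets b q) :
    StdOn Y (f (hw a * pw p * (hw b * pw q)))
      (((p ++ q).map fun s => cl (f (of s)) : List _) : Multiset _) := by
  classical
  have e : (lets (a ++ b) (p ++ q)).Perm (lets a p ++ lets b q) :=
    List.perm_iff_count.2 fun s => by
      simp only [lets, List.map_append, List.count_append]
      omega
  have k : ∀ s, s ∈ lets a [] ∨ s ∈ lets b [] ∨ s ∈ q → s ∈ {s | s ∈ p}ᶜ := fun s hs hp => by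
    have := List.nodup_iff_count_le_one.1 h2 s
    simp only [lets, Set.mem_ofPred_eq, List.append_nil, ← List.count_pos_iff,
      List.count_append] at this hs hp
    omega
  have kb := ops_hw fun s hs => k s (Or.inr (Or.inl hs))
  obtain ⟨g, g1, g2, g3, g4⟩ := ops_cj (Y := Y) (l := p) (a := (hw b)⁻¹)
    (inv_mem (ops_hw fun s hs => (h3 s).2 (by
      simp only [lets, List.append_nil, List.mem_append] at hs ⊢
      exact Or.inr (Or.inl hs)))) (inv_mem kb)
    (fun s hs => (h3 s).2 (by simp [lets, hs]))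
  refine ⟨f * g, a ++ b, p ++ q, hf.mul g1, e.nodup_iff.2 h2, fun s => (h3 s).trans e.mem_iff.symm,
    ?_, by simp only [g4]⟩
  rw [MulAut.mul_apply, ops_hw_app, ops_pw_app, map_mul g, map_mul g, map_mul g, g2, g3 _ kb,
    g3 _ (ops_hw fun s hs => k s (Or.inl hs)), g3 _ (ops_pw fun s hs => k s (Or.inr (Or.inr hs)))]
  congr 1
  group

lemma StdOn.last {d : FreeGroup Ω} {x : ConjClasses (FreeGroup Ω)} (h : StdOn Y d (x ::ₘ R)) :
    ∃ (f : MulAut (FreeGroup Ω)) (lh : List (Ω × Ω)) (l : List Ω) (s : Ω), On Y f ∧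
      (lets lh l ++ [s]).Nodup ∧ (∀ t, t ∈ Y ↔ t ∈ lets lh l ++ [s]) ∧
      f (hw lh * pw l * of s) = d ∧ x = cl (f (of s)) ∧
      R = ((l.map fun s => cl (f (of s)) : List _) : Multiset _) := by
  classical
  obtain ⟨f, lh, lp, h1, h2, h3, rfl, h5⟩ := h
  obtain ⟨s, hs, rfl⟩ := List.mem_map.1 (Multiset.mem_coe.1 (h5 ▸ Multiset.mem_cons_self x R))
  obtain ⟨p, q, rfl⟩ := List.append_of_mem hs
  have e : (lets lh (p ++ q) ++ [s]).Perm (lets lh (p ++ s :: q)) :=
    List.perm_iff_count.2 fun t => by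
      simp only [lets, List.count_append, List.count_cons, List.count_nil]
      omega
  have k : ∀ t, t ∈ lets lh [] ∨ t ∈ p ∨ t = s → t ∈ {t | t ∈ q}ᶜ := fun t ht hq => by
    have := List.nodup_iff_count_le_one.1 h2 t
    simp only [lets, Set.mem_ofPred_eq, List.append_nil, ← List.count_pos_iff,
      List.count_append, List.count_cons, beq_iff_eq, eq_comm (a := t)] at this ht hq
    split_ifs at this with k
    · omega
    · simp only [k, or_false] at ht
      omega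
  have ks := of_mem_gen (k s (Or.inr (Or.inr rfl)))
  obtain ⟨g, g1, g2, g3, g4⟩ := ops_cj (Y := Y) (l := q) (a := of s)
    (of_mem_gen ((h3 s).2 (List.mem_append_right _ hs))) ks
    (fun t ht => (h3 t).2 (by simp [lets, ht]))
  refine ⟨f * g, lh, p ++ q, s, h1.mul g1, e.nodup_iff.2 h2, fun t => (h3 t).trans e.mem_iff.symm,
    ?_, (g4 f s).symm, ?_⟩
  · rw [MulAut.mul_apply, ops_pw_app, map_mul g, map_mul g, map_mul g, g2, g3 _ ks,
      g3 _ (ops_hw fun t ht => k t (Or.inl ht)),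
      g3 _ (ops_pw fun t ht => k t (Or.inr (Or.inl ht))), ops_pw_app]
    congr 1
    simp [pw, mul_assoc]
  · simp only [g4]
    rw [← Multiset.cons_inj_right (cl (f (of s))), h5, Multiset.cons_coe, Multiset.coe_eq_coe,
      List.map_append, List.map_append]
    exact List.perm_middle

lemma ops_last {lh : List (Ω × Ω)} {l : List Ω} {s : Ω} (h : (lets lh l ++ [s]).Nodup) :
    hw lh * pw l ∈ gen {s}ᶜ :=
  std_mem fun t ht k => (List.nodup_append.1 h).2.2 t ht s (by simp) k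

lemma SStd.pick (h : SStd Y (cl w ::ₘ R)) (hw' : w ∈ gen Y) : StdOn Y w⁻¹ R := by
  have key : ∀ d, StdOn Y d R → cl w = cl d⁻¹ → StdOn Y w⁻¹ R := fun d hd e => by
    obtain ⟨c, hc, k⟩ := conj_in_gen (inv_mem hd.mem) hw'
      (ConjClasses.mk_eq_mk_iff_isConj.1 e.symm)
    convert hd.conj hc using 1
    rw [← k]
    group
  obtain ⟨d, R', h, e⟩ := h
  rcases Multiset.cons_eq_cons.1 e with ⟨e1, rfl⟩ | ⟨-, R0, rfl, rfl⟩
  · exact key d h e1
  obtain ⟨f, lh, l, s, h1, h2, h3, rfl, h5, rfl⟩ := h.last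
  have k := ops_last h2
  obtain ⟨g, g1, g2⟩ := exists_elem1' s (inv_mem k) (one_mem _)
  have hs := (h3 s).2 (by simp)
  refine key (f (of s))⁻¹ ⟨f * g, lh, l ++ [s], h1.mul (On.one_letter hs ?_ g2),
    by rwa [lets, ← List.append_assoc], by rwa [lets, ← List.append_assoc], ?_, ?_⟩
    (by rw [inv_inv, h5])
  · rw [g1]
    exact mul_mem (mul_mem (inv_mem (std_mem fun t ht => (h3 t).2 (List.mem_append_left _ ht)))
      (inv_mem (of_mem_gen hs))) (one_mem _)
  · rw [MulAut.mul_apply, ops_pw_app, ← mul_assoc, map_mul g, aut_fix_gen g g2 k]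
    simp [pw, g1, mul_assoc]
  · rw [List.map_append, ← Multiset.coe_add, add_comm, List.map_singleton, Multiset.coe_singleton,
      Multiset.singleton_add]
    congr 1
    · rw [MulAut.mul_apply, g1, ← map_inv]
      exact cl_eq (f (of s)) (by simp [mul_assoc])
    · congr 1
      refine List.map_congr_left fun t ht => ?_
      rw [MulAut.mul_apply, g2 t fun k =>
        (List.nodup_append.1 h2).2.2 t (List.mem_append_right _ ht) s (by simp) k]

lemma ops_new {f g : MulAut (FreeGroup Ω)} (hf : On Y f) (he : e ∉ Y)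
    (h1 : g (of e) ∈ gen (insert e Y)) (h2 : ∀ s ≠ e, g (of s) = of s) :
    On (insert e Y) (g * f) ∧ (g * f) (of e) = g (of e) ∧ ∀ w ∈ gen Y, (g * f) w = f w :=
  ⟨(On.one_letter (Set.mem_insert _ _) h1 h2).mul (hf.mono (Set.subset_insert _ _)),
    by rw [MulAut.mul_apply, hf.out e he], fun _ hw =>
    aut_fix_gen g (fun s hs => h2 s fun k => he (k ▸ hs)) (aut_mem_of_gen f hf.mem hw)⟩

theorem SStd.split (h : SStd Y (cl (u * v) ::ₘ R)) (hu : u ∈ gen Y) (hv : v ∈ gen Y) (he : e ∉ Y) :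
    SStd (insert e Y) (cl (u * of e) ::ₘ cl ((of e)⁻¹ * v) ::ₘ R) := by
  obtain ⟨f, lh, lp, h1, h2, h3, h4, rfl⟩ := h.pick (mul_mem hu hv)
  obtain ⟨g, g1, g2⟩ := exists_elem1 e (a := u) (gen_mono (Set.subset_compl_singleton_iff.2 he) hu)
    (one_mem _)
  rw [mul_one] at g1
  obtain ⟨k1, k2, k3⟩ := ops_new h1 he (g1 ▸ mul_mem (gen_mono (Set.subset_insert _ _) hu)
    (of_mem_gen (Set.mem_insert _ _))) g2
  refine ⟨_, _, ops_mk (a := lh) (p := lp) (b := []) (q := [e]) k1 ?_ (fun s => ?_), ?_⟩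
  · exact List.nodup_append.2 ⟨h2, by simp [lets], fun s hs t ht k =>
      he ((h3 e).2 (List.mem_singleton.1 ht ▸ k ▸ hs))⟩
  · rw [List.mem_append, ← h3, Set.mem_insert_iff, or_comm]
    simp [lets]
  · rw [Multiset.cons_swap, map_mul, k3 _ (std_mem fun s hs => (h3 s).2 hs), h4, List.map_append,
      ← Multiset.coe_add, add_comm, List.map_singleton, Multiset.coe_singleton,
      Multiset.singleton_add, k2, g1, List.map_congr_left (l := lp) fun s hs =>
        congrArg cl (k3 _ (of_mem_gen ((h3 s).2 (List.mem_append_right _ hs))))]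
    congr 2
    simp [hw, pw, -MulAut.mul_apply, k2, g1, mul_assoc]

theorem SStd.merge (h : SStd Y (cl w ::ₘ cl w' ::ₘ R)) (hw : w ∈ gen Y) (hw' : w' ∈ gen Y)
    (he : e ∉ Y) : SStd (insert e Y) (cl (w * (of e * w' * (of e)⁻¹)) ::ₘ R) := by
  obtain ⟨f, lh, l, s, h1, h2, h3, h4, h5, rfl⟩ := (h.pick hw).last
  have hs := (h3 s).2 (by simp)
  obtain ⟨c, hc, e1⟩ := conj_in_gen (h1.mem s hs) hw' (ConjClasses.mk_eq_mk_iff_isConj.1 h5.symm)
  obtain ⟨g, g1, g2⟩ := exists_elem1 e (b := c) (one_mem _)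
    (gen_mono (Set.subset_compl_singleton_iff.2 he) hc)
  rw [one_mul] at g1
  obtain ⟨k1, k2, k3⟩ := ops_new h1 he (g1 ▸ mul_mem (of_mem_gen (Set.mem_insert _ _))
    (gen_mono (Set.subset_insert _ _) hc)) g2
  have he' := fun k => he ((h3 e).2 k)
  refine ⟨_, _, ops_mk (a := lh) (p := l) (b := [(s, e)]) (q := []) k1 ?_ (fun t => ?_), ?_⟩
  · have := List.nodup_append.2 ⟨h2, List.nodup_singleton e, fun s hs t ht k =>
      he' ((List.mem_singleton.1 ht) ▸ k ▸ hs)⟩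
    simpa [lets] using this
  · rw [Set.mem_insert_iff, h3, or_comm]
    simp [lets, or_assoc]
  · rw [List.append_nil, List.map_congr_left (l := l) fun t ht => congrArg cl
      (k3 _ (of_mem_gen ((h3 t).2 (List.mem_append_left _ (List.mem_append_right _ ht)))))]
    congr 1
    have e2 : (g * f) (FC.hw lh * pw l * of s) = w⁻¹ := by
      rw [k3 _ (mul_mem (std_mem fun t ht => (h3 t).2 (List.mem_append_left _ ht))
        (of_mem_gen hs)), h4]
    rw [show FC.hw lh * pw l * (FC.hw [(s, e)] * pw []) =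
        FC.hw lh * pw l * of s * (of e * (of s)⁻¹ * (of e)⁻¹) by simp [FC.hw, pw, mul_assoc],
      map_mul, e2, map_mul, map_mul, map_inv, map_inv, k2, g1, k3 _ (of_mem_gen hs), ← e1]
    exact cl_eq w⁻¹ (by group)

theorem SStd.sum (h : SStd Y (cl w ::ₘ R)) (h' : SStd Y' (cl w' ::ₘ R')) (hw : w ∈ gen Y)
    (hw' : w' ∈ gen Y') (hd : Disjoint Y Y') : SStd (Y ∪ Y') (cl (w * w') ::ₘ (R + R')) := by
  obtain ⟨f, lh, lp, h1, h2, h3, h4, rfl⟩ := h.pick hw
  obtain ⟨f', lh', lp', k1, k2, k3, k4, rfl⟩ := h'.pick hw'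
  have e1 : ∀ x ∈ gen Y, (f * f') x = f x := fun x hx => congrArg f
    (aut_fix_gen f' (fun s hs => k1.out s (Set.disjoint_left.1 hd hs)) hx)
  have e2 : ∀ x ∈ gen Y', (f * f') x = f' x := fun x hx =>
    aut_fix_gen f (fun s hs => h1.out s (Set.disjoint_right.1 hd hs)) (aut_mem_of_gen f' k1.mem hx)
  refine ⟨_, _, ops_mk (a := lh') (p := lp') (b := lh) (q := lp)
    ((h1.mono Set.subset_union_left).mul (k1.mono Set.subset_union_right))
    (List.nodup_append.2 ⟨k2, h2, fun s hs t ht k =>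
      Set.disjoint_left.1 hd ((h3 t).2 ht) (k ▸ (k3 s).2 hs)⟩)
    (fun s => by rw [List.mem_append, ← h3, ← k3, Set.mem_union, or_comm]), ?_⟩
  rw [map_mul, e1 _ (std_mem fun s hs => (h3 s).2 hs), e2 _ (std_mem fun s hs => (k3 s).2 hs), h4,
    k4, List.map_append, ← Multiset.coe_add, add_comm,
    List.map_congr_left (l := lp) fun s hs =>
      congrArg cl (e1 _ (of_mem_gen ((h3 s).2 (List.mem_append_right _ hs)))),
    List.map_congr_left (l := lp') fun s hs =>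
      congrArg cl (e2 _ (of_mem_gen ((k3 s).2 (List.mem_append_right _ hs))))]
  simp

/-- A new puncture inserted into a peripheral word. -/
theorem SStd.ins_new (h : SStd Y (cl (u * v) ::ₘ R)) (hu : u ∈ gen Y) (hv : v ∈ gen Y)
    (he : e ∉ Y) : SStd (insert e Y) (cl (u * (of e)⁻¹ * v) ::ₘ cl (of e) ::ₘ R) := by
  have := SStd.split (u := 1) (v := v * u) (by rwa [one_mul, cl_comm]) (one_mem _) (mul_mem hv hu) he
  rwa [one_mul, Multiset.cons_swap, cl_eq u (w := u * (of e)⁻¹ * v) (by group)] at this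

theorem SStd.ins_new' (h : SStd Y (cl (u * v) ::ₘ R)) (hu : u ∈ gen Y) (hv : v ∈ gen Y)
    (he : e ∉ Y) : SStd (insert e Y) (cl (u * of e * v) ::ₘ cl (of e)⁻¹ ::ₘ R) := by
  have := SStd.split (u := v * u) (v := 1) (by rwa [mul_one, cl_comm]) (mul_mem hv hu) (one_mem _) he
  rwa [mul_one, cl_eq v⁻¹ (w := u * of e * v) (by group)] at this

/-- An old puncture joined to a peripheral word by a band. -/
theorem SStd.ins_old (h : SStd Y (cl (u * v) ::ₘ cl w ::ₘ R)) (hu : u ∈ gen Y) (hv : v ∈ gen Y)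
    (hw : w ∈ gen Y) (he : e ∉ Y) :
    SStd (insert e Y) (cl (u * (of e * w * (of e)⁻¹) * v) ::ₘ R) := by
  have := SStd.merge (w := v * u) (by rwa [cl_comm]) (mul_mem hv hu) hw he
  rwa [cl_eq v⁻¹ (w := u * (of e * w * (of e)⁻¹) * v) (by group)] at this

theorem SStd.ins_old' (h : SStd Y (cl (u * v) ::ₘ cl w ::ₘ R)) (hu : u ∈ gen Y) (hv : v ∈ gen Y)
    (hw : w ∈ gen Y) (he : e ∉ Y) :
    SStd (insert e Y) (cl (u * ((of e)⁻¹ * w * of e) * v) ::ₘ R) := by
  obtain ⟨f, h1, h2⟩ := exists_flip {e}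
  have h3 : ∀ s ∈ Y, f (of s) = of s := fun s hs => h2 s (fun h => he (h ▸ hs))
  have h4 := h.map_fix h3
  simp only [Multiset.map_cons, cm_cl, MulEquiv.coe_toMonoidHom, map_mul, aut_fix_gen f h3 hu,
    aut_fix_gen f h3 hv, aut_fix_gen f h3 hw, Multiset.cons_inj_right] at h4
  have := (h.ins_old hu hv hw he).aut (f := f) ⟨fun s hs => h2 s (fun h => hs (Or.inl h)), by
    rintro s (rfl | hs)
    · rw [h1 s rfl]; exact inv_mem (of_mem_gen (Or.inl rfl))
    · rw [h3 s hs]; exact of_mem_gen (Or.inr hs)⟩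
  simpa only [Multiset.map_cons, cm_cl, MulEquiv.coe_toMonoidHom, map_mul, map_inv, h1 e rfl,
    aut_fix_gen f h3 hu, aut_fix_gen f h3 hv, aut_fix_gen f h3 hw, h4, inv_inv] using this

end Pool.Agent.Lib.MP_19b52f_al.FC
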