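import Pool.Agent.Lib.MP_19b52f_al.FC.Surf

/-! Boundary sum of two surfaces. -/

namespace Pool.Agent.Lib.MP_19b52f_al.FC

open Pool.Agent.Lib.MP_19b52f_al.EA
open FreeGroup hiding map_mul map_inv map_one lift_unique

section
variable (S1 S2 : Surf)

lemma prod_inl {w : FreeGroup S1.Ω} (h : w ∈ gen (Set.range S1.ε)ᶜ) :
    map (Sum.inl : S1.Ω → S1.Ω ⊕ S2.Ω) w ∈ gen (Set.range (Sum.map S1.ε S2.ε))ᶜ := by
  refine map_mem_gen (fun s hs => ?_) h
  rintro ⟨a | a, ha⟩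
  · exact hs ⟨a, Sum.inl_injective ha⟩
  · exact Sum.inr_ne_inl ha

lemma prod_inr {w : FreeGroup S2.Ω} (h : w ∈ gen (Set.range S2.ε)ᶜ) :
    map (Sum.inr : S2.Ω → S1.Ω ⊕ S2.Ω) w ∈ gen (Set.range (Sum.map S1.ε S2.ε))ᶜ := by
  refine map_mem_gen (fun s hs => ?_) h
  rintro ⟨a | a, ha⟩
  · exact Sum.inl_ne_inr ha
  · exact hs ⟨a, Sum.inr_injective ha⟩

lemma prod_map_sum {Ω Ω' A : Type} [Fintype A] (ι : Ω → Ω') (ε : A → Ω) (l r : A → FreeGroup Ω) :
    Multiset.map (cm (map ι)) (∑ a, ({cl (of (ε a)), cl ((r a)⁻¹ * (of (ε a))⁻¹ * l a)} :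
      Multiset (ConjClasses (FreeGroup Ω)))) =
    ∑ a, ({cl (of (ι (ε a))), cl ((map ι (r a))⁻¹ * (of (ι (ε a)))⁻¹ * map ι (l a))} :
      Multiset (ConjClasses (FreeGroup Ω'))) := by
  refine (map_sum (Multiset.mapAddMonoidHom (cm (map ι))) _ _).trans ?_
  refine Finset.sum_congr rfl fun a _ => ?_
  rw [Multiset.coe_mapAddMonoidHom]
  simp only [Multiset.insert_eq_cons, Multiset.map_cons, Multiset.map_singleton, cm_cl, map_mul,
    map_inv, map.of]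

/-- The boundary sum. -/
noncomputable def prodSurf : Surf where
  Ω := S1.Ω ⊕ S2.Ω
  A := S1.A ⊕ S2.A
  ε := Sum.map S1.ε S2.ε
  inj := S1.inj.sumMap S2.inj
  l := Sum.elim (fun a => map Sum.inl (S1.l a)) (fun a => map Sum.inr (S2.l a))
  r := Sum.elim (fun a => map Sum.inl (S1.r a)) (fun a => map Sum.inr (S2.r a))
  c := map Sum.inl S1.c * map Sum.inr S2.c
  P := S1.P.map (cm (map Sum.inl)) + S2.P.map (cm (map Sum.inr))
  l_mem := by
    rintro (a | a)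
    · exact prod_inl S1 S2 (S1.l_mem a)
    · exact prod_inr S1 S2 (S2.l_mem a)
  r_mem := by
    rintro (a | a)
    · exact prod_inl S1 S2 (S1.r_mem a)
    · exact prod_inr S1 S2 (S2.r_mem a)
  c_mem := mul_mem (prod_inl S1 S2 S1.c_mem) (prod_inr S1 S2 S2.c_mem)
  P_mem := by
    intro x hx
    rcases Multiset.mem_add.1 hx with h | h
    · obtain ⟨y, hy, rfl⟩ := Multiset.mem_map.1 h
      obtain ⟨w, hw, rfl⟩ := S1.P_mem y hy
      exact ⟨_, prod_inl S1 S2 hw, rfl⟩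
    · obtain ⟨y, hy, rfl⟩ := Multiset.mem_map.1 h
      obtain ⟨w, hw, rfl⟩ := S2.P_mem y hy
      exact ⟨_, prod_inr S1 S2 hw, rfl⟩
  std := by
    have h1 := S1.std.map (ι := (Sum.inl : S1.Ω → S1.Ω ⊕ S2.Ω)) Sum.inl_injective
    have h2 := S2.std.map (ι := (Sum.inr : S2.Ω → S1.Ω ⊕ S2.Ω)) Sum.inr_injective
    rw [Multiset.map_cons, cm_cl, Multiset.map_add, prod_map_sum] at h1 h2
    have h := h1.sum h2 (map_mem_range _) (map_mem_range _)
      Set.isCompl_range_inl_range_inr.disjoint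
    rw [Set.range_inl_union_range_inr, add_add_add_comm] at h
    rw [Fintype.sum_sum_type]
    exact h

end

lemma prod_cm {Ω Ω' : Type} {ι : Ω → Ω'} {f : MulAut (FreeGroup Ω')} {d : MulAut (FreeGroup Ω)}
    (h : ∀ w, f (map ι w) = map ι (d w)) {P : Multiset (ConjClasses (FreeGroup Ω))}
    (hP : P.map (cm d.toMonoidHom) = P) :
    (P.map (cm (map ι))).map (cm f.toMonoidHom) = P.map (cm (map ι)) := by
  conv_rhs => rw [← hP]
  rw [Multiset.map_map, Multiset.map_map]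
  refine Multiset.map_congr rfl fun x _ => ?_
  obtain ⟨w, rfl⟩ := ConjClasses.mk_surjective x
  exact congrArg cl (h w)

lemma prod_mem_Mod {S1 S2 : Surf} {f : MulAut (FreeGroup (S1.Ω ⊕ S2.Ω))} (a : S1.Mod) (b : S2.Mod)
    (h1 : ∀ w, f (map Sum.inl w) = map Sum.inl (a.1 w))
    (h2 : ∀ w, f (map Sum.inr w) = map Sum.inr (b.1 w)) : f ∈ (prodSurf S1 S2).Mod := by
  obtain ⟨a1, a2, a3, a4⟩ := a.2
  obtain ⟨b1, b2, b3, b4⟩ := b.2
  refine ⟨?_, ?_, ?_, ?_⟩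
  · show f (map Sum.inl S1.c * map Sum.inr S2.c) = map Sum.inl S1.c * map Sum.inr S2.c
    rw [map_mul, h1, h2, a1, b1]
  · rintro (x | x)
    · have := h1 (of (S1.ε x))
      rw [a2, map.of] at this
      exact this
    · have := h2 (of (S2.ε x))
      rw [b2, map.of] at this
      exact this
  · rintro (x | x)
    · have e : map (Sum.inl : S1.Ω → S1.Ω ⊕ S2.Ω) (S1.v x) = (prodSurf S1 S2).v (Sum.inl x) := by
        rw [Surf.v, map_mul, map_mul, map_inv, map_inv, map.of]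
        rfl
      have := h1 (S1.v x)
      rw [a3, e] at this
      exact this
    · have e : map (Sum.inr : S2.Ω → S1.Ω ⊕ S2.Ω) (S2.v x) = (prodSurf S1 S2).v (Sum.inr x) := by
        rw [Surf.v, map_mul, map_mul, map_inv, map_inv, map.of]
        rfl
      have := h2 (S2.v x)
      rw [b3, e] at this
      exact this
  · show Multiset.map (cm f.toMonoidHom)
      (S1.P.map (cm (map Sum.inl)) + S2.P.map (cm (map Sum.inr))) =
      S1.P.map (cm (map Sum.inl)) + S2.P.map (cm (map Sum.inr))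
    rw [Multiset.map_add, prod_cm h1 a4, prod_cm h2 b4]

theorem Surf.exists_prod (S1 S2 : Surf) : ∃ (S : Surf) (i1 : S1.Mod →* S.Mod)
    (i2 : S2.Mod →* S.Mod) (j : Set S1.A → Set S2.A → Set S.A),
    (∀ a b, Commute (i1 a) (i2 b)) ∧
    (∀ α1 α2 a b, a ∈ S1.D α1 → b ∈ S2.D α2 → i1 a * i2 b ∈ S.D (j α1 α2)) ∧
    ∀ α1 α2 β1 β2 a b, S.X (j α1 α2) (j β1 β2) (i1 a * i2 b) → S1.X α1 β1 a ∧ S2.X α2 β2 b := by
  obtain ⟨E1, p1, q1⟩ := exists_ext (ι := (Sum.inl : S1.Ω → S1.Ω ⊕ S2.Ω)) Sum.inl_injective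
  obtain ⟨E2, p2, q2⟩ := exists_ext (ι := (Sum.inr : S2.Ω → S1.Ω ⊕ S2.Ω)) Sum.inr_injective
  have r1 : ∀ d w, E1 d (map Sum.inr w) = map Sum.inr w := fun d w =>
    aut_fix_gen _ (by rintro _ ⟨s, rfl⟩; exact q1 d _ fun x => Sum.inl_ne_inr) (map_mem_range w)
  have r2 : ∀ d w, E2 d (map Sum.inl w) = map Sum.inl w := fun d w =>
    aut_fix_gen _ (by rintro _ ⟨s, rfl⟩; exact q2 d _ fun x => Sum.inr_ne_inl) (map_mem_range w)
  let i1 : S1.Mod →* (prodSurf S1 S2).Mod := (E1.comp S1.Mod.subtype).codRestrict _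
    fun a => prod_mem_Mod a 1 (p1 a.1) (r1 a.1)
  let i2 : S2.Mod →* (prodSurf S1 S2).Mod := (E2.comp S2.Mod.subtype).codRestrict _
    fun b => prod_mem_Mod 1 b (r2 b.1) (p2 b.1)
  have t1 : ∀ (a : S1.Mod) (b : S2.Mod) w,
      (i1 a * i2 b).1 (map Sum.inl w) = map Sum.inl (a.1 w) := fun a b w => by
    show E1 a.1 (E2 b.1 (map Sum.inl w)) = _
    rw [r2, p1]
  have t2 : ∀ (a : S1.Mod) (b : S2.Mod) w,
      (i1 a * i2 b).1 (map Sum.inr w) = map Sum.inr (b.1 w) := fun a b w => by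
    show E1 a.1 (E2 b.1 (map Sum.inr w)) = _
    rw [p2, r1]
  refine ⟨prodSurf S1 S2, i1, i2, fun α1 α2 => {x | Sum.elim (· ∈ α1) (· ∈ α2) x},
    fun a b => ?_, fun α1 α2 a b ha hb => ?_, fun α1 α2 β1 β2 a b h => ⟨?_, ?_⟩⟩
  · refine Subtype.ext (aut_ext ?_)
    rintro (s | s)
    · show E1 a.1 (E2 b.1 (of (Sum.inl s))) = E2 b.1 (E1 a.1 (of (Sum.inl s)))
      rw [← map.of (f := Sum.inl), r2, p1, r2]
    · show E1 a.1 (E2 b.1 (of (Sum.inr s))) = E2 b.1 (E1 a.1 (of (Sum.inr s)))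
      rw [← map.of (f := Sum.inr), p2, r1, r1, p2]
  · rintro (x | x) hx
    · refine ⟨(t1 a b (S1.l x)).trans (congrArg (map Sum.inl) (ha x hx).1), fun w hw => ?_⟩
      refine aut_mem_of_gen _ ?_ hw
      rintro (s | s) hs
      · have k : map Sum.inl (a.1 (of s)) ∈ gen ({Sum.inl (S1.ε x)}ᶜ : Set (S1.Ω ⊕ S2.Ω)) :=
          map_mem_gen (ι := Sum.inl) (X := {S1.ε x}ᶜ) (Y := {Sum.inl (S1.ε x)}ᶜ)
            (fun t ht e => ht (Sum.inl_injective e))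
            ((ha x hx).2 _ (of_mem_gen fun e => hs (congrArg Sum.inl e)))
        rw [← t1 a b, map.of] at k
        exact k
      · have k : map Sum.inr (b.1 (of s)) ∈ gen ({Sum.inl (S1.ε x)}ᶜ : Set (S1.Ω ⊕ S2.Ω)) :=
          map_mem_gen (X := Set.univ) (fun t _ => Sum.inr_ne_inl) (mem_gen_univ _)
        rw [← t2 a b, map.of] at k
        exact k
    · refine ⟨(t2 a b (S2.l x)).trans (congrArg (map Sum.inr) (hb x hx).1), fun w hw => ?_⟩
      refine aut_mem_of_gen _ ?_ hw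
      rintro (s | s) hs
      · have k : map Sum.inl (a.1 (of s)) ∈ gen ({Sum.inr (S2.ε x)}ᶜ : Set (S1.Ω ⊕ S2.Ω)) :=
          map_mem_gen (X := Set.univ) (fun t _ => Sum.inl_ne_inr) (mem_gen_univ _)
        rw [← t1 a b, map.of] at k
        exact k
      · have k : map Sum.inr (b.1 (of s)) ∈ gen ({Sum.inr (S2.ε x)}ᶜ : Set (S1.Ω ⊕ S2.Ω)) :=
          map_mem_gen (ι := Sum.inr) (X := {S2.ε x}ᶜ) (Y := {Sum.inr (S2.ε x)}ᶜ)
            (fun t ht e => ht (Sum.inr_injective e))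
            ((hb x hx).2 _ (of_mem_gen fun e => hs (congrArg Sum.inr e)))
        rw [← t2 a b, map.of] at k
        exact k
  · intro x hx y hy
    have h1 : (i1 a * i2 b).1 (map Sum.inl (S1.l y)) ∈
        gen ({Sum.inl (S1.ε x)}ᶜ : Set (S1.Ω ⊕ S2.Ω)) := h (Sum.inl x) hx (Sum.inl y) hy
    rw [t1] at h1
    refine gen_mono (Y := {S1.ε x}ᶜ) ?_ (mem_gen_of_map Sum.inl_injective h1)
    exact fun s hs e => hs (congrArg Sum.inl e)
  · intro x hx y hy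
    have h1 : (i1 a * i2 b).1 (map Sum.inr (S2.l y)) ∈
        gen ({Sum.inr (S2.ε x)}ᶜ : Set (S1.Ω ⊕ S2.Ω)) := h (Sum.inr x) hx (Sum.inr y) hy
    rw [t2] at h1
    refine gen_mono (Y := {S2.ε x}ᶜ) ?_ (mem_gen_of_map Sum.inr_injective h1)
    exact fun s hs e => hs (congrArg Sum.inr e)

end Pool.Agent.Lib.MP_19b52f_al.FC
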