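import Pool.Agent.Lib.MP_19b52f_al.EA2.Final

/-! Labels of the roots in a rank two window. -/

namespace Pool.Agent.Lib.MP_19b52f_al.FC

open Pool.Agent.Lib.MP_19b52f_al.EA Pool.Agent.Lib.MP_19b52f_al.EA2

variable {F V K : Type} [Field F] [AddCommGroup V] [Module F V] [Group K]

/-- The isometries that preserve a set of vectors. -/
def isoR (B : V →ₗ[F] V →ₗ[F] F) (R : Set V) : Subgroup (V ≃ₗ[F] V) where
  carrier := {f | (∀ v w, B (f v) (f w) = B v w) ∧ ∀ y, f y ∈ R ↔ y ∈ R}
  one_mem' := ⟨fun _ _ => rfl, fun _ => Iff.rfl⟩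
  mul_mem' := fun {f g} hf hg => ⟨fun v w => (hf.1 _ _).trans (hg.1 v w),
    fun y => (hf.2 _).trans (hg.2 y)⟩
  inv_mem' := fun {f} hf => ⟨fun v w => by rw [← hf.1]; simp, fun y => by rw [← hf.2]; simp⟩

/-- Factors equal to one can be dropped from a product. -/
lemma win_red {G : Type} [Group G] (E : ℤ → G) {d k0 : ℤ} (h1 : 1 ≤ k0) (h2 : k0 ≤ d)
    (hE : ∀ k, ¬ d ∣ k - k0 → E k = 1) (n : ℕ) : ∀ t : ℕ, k0 + d * (t - 1) ≤ n → n < k0 + d * t →
    pp (fun j : ℕ => E (j + 1)) n = pp (fun s : ℕ => E (k0 + d * s)) t := by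
  have hd : 0 < d := by omega
  induction n with
  | zero =>
    intro t a _
    rcases t with _ | t
    · rfl
    · have : 0 ≤ d * (t : ℤ) := mul_nonneg hd.le (Int.natCast_nonneg t)
      push_cast at a
      rw [add_sub_cancel_right] at a
      omega
  | succ n ih =>
    intro t a b
    push_cast at a b
    by_cases h : k0 + d * (t - 1) = n + 1
    · rcases t with _ | t
      · push_cast at h
        omega
      · push_cast at h
        rw [add_sub_cancel_right] at h
        rw [pp, pp, ih t (by rw [mul_sub]; omega) (by omega), h]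
    · rw [pp, ih t (by omega) (by omega), hE, mul_one]
      rintro ⟨s, hs⟩
      have e1 : d * (t - 1) < d * s := by omega
      have e2 : d * s < d * t := by omega
      have e3 := lt_of_mul_lt_mul_left e1 hd.le
      have e4 := lt_of_mul_lt_mul_left e2 hd.le
      omega

lemma win_pal {G : Type} [Group G] (E : ℤ → G) {d q : ℕ} {k0 : ℤ} (h1 : 1 ≤ k0) (h2 : k0 ≤ d)
    (hE : ∀ k, ¬ (d : ℤ) ∣ k - k0 → E k = 1) (h : Pal (fun t => E (k0 + d * (t - 1))) q) :
    Pal E (d * q) := by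
  have e1 := win_red E h1 h2 hE (d * q) q (by push_cast; rw [mul_sub]; omega) (by push_cast; omega)
  have e2 := win_red (fun k => E ((d * q : ℕ) + 1 - k)) (d := d) (k0 := d + 1 - k0) (by omega)
    (by omega) (fun k hk => hE _ fun ⟨s, hs⟩ => hk ⟨q - 1 - s, by
      push_cast at hs
      linear_combination -hs⟩) (d * q) q (by push_cast; rw [mul_sub]; omega) (by push_cast; omega)
  simp only [add_sub_add_right_eq_sub] at e2
  simp only [Pal, add_sub_cancel_right] at h
  rw [Pal, e1, e2, h]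
  congr 1
  funext s
  congr 1
  push_cast
  ring

/-- A set of integers that is closed under its point reflections is a progression. -/
lemma win_prog {I : Set ℤ} (hI : ∀ j ∈ I, ∀ k ∈ I, 2 * j - k ∈ I) {a m : ℤ} (hm : 0 < m)
    (ha : a ∈ I) (hb : a + m ∈ I) : ∃ d : ℕ, 0 < d ∧ ∀ k, k ∈ I ↔ (d : ℤ) ∣ k - a := by
  classical
  have hex : ∃ d : ℕ, 0 < d ∧ a + d ∈ I :=
    ⟨m.toNat, by omega, by rwa [Int.toNat_of_nonneg hm.le]⟩
  obtain ⟨hd, hd'⟩ := Nat.find_spec hex
  have hmin : ∀ r : ℤ, 0 < r → r < Nat.find hex → a + r ∉ I := fun r h1 h2 h3 =>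
    Nat.find_min hex (m := r.toNat) (by omega) ⟨by omega, by rwa [Int.toNat_of_nonneg h1.le]⟩
  generalize Nat.find hex = d at hd hd' hmin
  have h1 : ∀ n : ℤ, a + d * n ∈ I ∧ a + d * (n + 1) ∈ I := by
    intro n
    induction n using Int.induction_on with
    | zero => exact ⟨by simpa using ha, by simpa using hd'⟩
    | succ i ih => exact ⟨ih.2, by convert hI _ ih.2 _ ih.1 using 1; ring⟩
    | pred i ih =>
      exact ⟨by convert hI _ ih.1 _ ih.2 using 1; ring, by convert ih.1 using 1; ring⟩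
  refine ⟨d, hd, fun k => ⟨fun hk => ?_, ?_⟩⟩
  · have hd0 : (0 : ℤ) < d := by exact_mod_cast hd
    have e1 := Int.mul_ediv_add_emod (k - a) d
    have e2 := Int.emod_nonneg (k - a) hd0.ne'
    have e3 := Int.emod_lt_of_pos (k - a) hd0
    refine Int.dvd_of_emod_eq_zero (by_contra fun e4 => ?_)
    rcases Int.even_or_odd' ((k - a) / d) with ⟨s, hs | hs⟩
    · refine hmin ((k - a) % d) (by omega) e3 ?_
      convert hI _ (h1 (-s)).1 _ (hI _ ha _ hk) using 1
      rw [hs] at e1
      linear_combination e1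
    · refine hmin (d - (k - a) % d) (by omega) (by omega) ?_
      convert hI _ (h1 (s + 1)).1 _ hk using 1
      rw [hs] at e1
      linear_combination -e1
  · rintro ⟨s, hs⟩
    convert (h1 s).1 using 1
    linear_combination hs

section full
variable {B : V →ₗ[F] V →ₗ[F] F} {R : Set V} (tw : V → K) (L : V → Wm (isoR B R) K)
  (h1 : ∀ y ∈ R, IsRefl B y (L y).a.1 ∧ ∀ w, (L y).c w = tw (w.1 y))
include h1

lemma win_prod {z : F} {m : ℤ} {x y : V} (P : Pair B z m x y) (hx : x ∈ R) (hy : y ∈ R) (n : ℕ) :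
    pp (fun j : ℕ => L (bb z x y (j + 1))) n =
      ⟨fun w => W (tw (w.1 x)) (tw (w.1 y)) n, (W (L x).a (L y).a n)⁻¹⟩ := by
  induction n with
  | zero => ext w <;> simp [pp]
  | succ n ih =>
    have e0 : (W (L x).a (L y).a n).1 = W (L x).a.1 (L y).a.1 n := map_W _ _ _ (isoR B R).subtype
    have e1 := (P.W_root (h1 x hx).1 (h1 y hy).1 n).1
    rw [← e0] at e1
    have hu : lt x y (n + 1) ∈ R := by
      unfold lt
      split_ifs
      · exact hy
      · exact hx
    have hu2 : B (lt x y (n + 1)) (lt x y (n + 1)) = 2 := by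
      unfold lt
      split_ifs
      · exact P.yy
      · exact P.xx
    have hb : bb z x y (n + 1) ∈ R := e1 ▸ ((W (L x).a (L y).a n).2.2 _).mpr hu
    have e2 : (L (bb z x y (n + 1))).a * W (L x).a (L y).a n =
        W (L x).a (L y).a n * (L (lt x y (n + 1))).a := by
      refine Subtype.ext (LinearEquiv.ext fun v => ?_)
      rw [Subgroup.coe_mul, Subgroup.coe_mul, LinearEquiv.mul_apply, LinearEquiv.mul_apply,
        (h1 _ hb).1, (h1 _ hu).1, map_sub, map_smul, ← e1, (W (L x).a (L y).a n).2.1]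
    have e3 : (L (lt x y (n + 1))).a * (L (lt x y (n + 1))).a = 1 :=
      Subtype.ext ((h1 _ hu).1.sq hu2)
    rw [pp, ih]
    push_cast
    refine Wm.ext (funext fun w => ?_) ?_
    · rw [Wm.mul_c, (h1 _ hb).2]
      dsimp only
      rw [W_succ, ← e1, ← map_lt x y _ (fun v => tw (w.1 v))]
      simp
    · rw [Wm.mul_a]
      dsimp only
      rw [W_succ, ← map_lt x y _ (fun v => (L v).a), mul_inv_rev,
        inv_eq_of_mul_eq_one_right e3, inv_mul_eq_iff_eq_mul, ← mul_assoc, ← e2,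
        mul_inv_cancel_right]

lemma win_full (hbr : ∀ (ζ : F) (q : ℕ), ∀ x ∈ R, ∀ y ∈ R, Pair B ζ q x y →
      W (tw x) (tw y) q = W (tw y) (tw x) q) {z : F} {m : ℕ} {x y : V} (P : Pair B z m x y)
    (hx : x ∈ R) (hy : y ∈ R) : Pal (fun k => L (bb z x y k)) m := by
  have e1 := win_prod tw L h1 P hx hy m
  have e2 := win_prod tw L h1 P.swap hy hx m
  simp only [P.root.bb_swap x y, add_sub_add_right_eq_sub] at e2
  rw [Pal, e1, e2]
  refine Wm.ext (funext fun w => hbr z m _ ((w.2.2 _).mpr hx) _ ((w.2.2 _).mpr hy)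
    ⟨P.root, P.symm, (w.2.1 _ _).trans P.xx, (w.2.1 _ _).trans P.yy, (w.2.1 _ _).trans P.xy⟩) ?_
  refine congrArg Inv.inv (Subtype.ext ?_)
  exact ((map_W _ _ _ (isoR B R).subtype).trans (P.braid (h1 x hx).1 (h1 y hy).1)).trans
    (map_W _ _ _ (isoR B R).subtype).symm

end full

lemma win_refl {z : F} {m : ℤ} (h : Root z m) (x y : V) (j k : ℤ) :
    bb z x y k - (z ^ (j - k) + z ^ (-(j - k))) • bb z x y j = -bb z x y (2 * j - k) := by
  have key : ∀ j k : ℤ, qi z k - (z ^ (j - k) + z ^ (-(j - k))) * qi z j = -qi z (2 * j - k) := by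
    intro j k
    have h1 := zpow_ne_zero j h.ne
    have h2 := zpow_ne_zero k h.ne
    simp only [qi, two_mul, neg_sub, zpow_sub₀ h.ne, zpow_add₀ h.ne, zpow_neg]
    generalize z - z⁻¹ = D
    field_simp
    ring
  have a := key j k
  have b := key (j - 1) (k - 1)
  rw [sub_sub_sub_cancel_right, show 2 * (j - 1) - (k - 1) = 2 * j - k - 1 by ring] at b
  simp only [bb]
  linear_combination (norm := module) a • x + b • y

lemma win_sub {B : V →ₗ[F] V →ₗ[F] F} {z : F} {d q : ℕ} {x y : V}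
    (P : Pair B z (d * q : ℕ) x y) (hd : 0 < d) (hq : 2 ≤ q) (k0 : ℤ) :
    Pair B (z ^ (d : ℤ)) q (bb z x y k0) (-bb z x y (k0 - d)) ∧
      ∀ t, bb (z ^ (d : ℤ)) (bb z x y k0) (-bb z x y (k0 - d)) t = bb z x y (k0 + d * (t - 1)) := by
  have hd0 : (d : ℤ) ≠ 0 := by omega
  have hr : Root (z ^ (d : ℤ)) q := ⟨by omega, zpow_ne_zero _ P.root.ne, fun k => by
    rw [← zpow_mul, P.root.dvd, Nat.cast_mul, mul_left_comm, mul_dvd_mul_iff_left hd0]⟩
  refine ⟨⟨hr, P.symm, ?_, ?_, ?_⟩, fun t => ?_⟩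
  · rw [P.form]
    norm_num
  · rw [map_neg, map_neg, LinearMap.neg_apply, neg_neg, P.form]
    norm_num
  · rw [map_neg, P.form, sub_sub_cancel, zpow_neg]
  · have h1 := hr.den
    have h2 := P.root.den
    have h3 : ∀ s : ℤ, qi z d * qi (z ^ (d : ℤ)) s = qi z (d * s) := fun s => by
      rw [qi, qi, qi, ← zpow_mul, ← zpow_mul, mul_neg, zpow_neg z d, mul_comm,
        div_mul_div_cancel₀ h1]
    have h4 : qi z d ≠ 0 := div_ne_zero (by rwa [zpow_neg]) h2
    have h5 := P.root.bb_three x y (k0 - d) k0 (k0 + d * (t - 1))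
    rw [sub_sub_cancel, show k0 - (k0 + d * (t - 1)) = -(d * (t - 1)) by ring, qi_neg,
      show k0 + d * (t - 1) - (k0 - d) = d * t by ring, ← h3, ← h3] at h5
    refine smul_right_injective V h4 ?_
    simp only [h5]
    rw [bb]
    module

theorem pal_window {B : V →ₗ[F] V →ₗ[F] F} {R : Set V} (tw : V → K)
    (hcl : ∀ x ∈ R, ∀ y ∈ R, y - B x y • x ∈ R)
    (hbr : ∀ (ζ : F) (q : ℕ), ∀ x ∈ R, ∀ y ∈ R, Pair B ζ q x y →
      W (tw x) (tw y) q = W (tw y) (tw x) q)
    (L : V → Wm (isoR B R) K) (h0 : ∀ y ∉ R, L y = 1)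
    (h1 : ∀ y ∈ R, IsRefl B y (L y).a.1 ∧ ∀ w, (L y).c w = tw (w.1 y))
    {z : F} {m : ℕ} {x y : V} (P : Pair B z m x y) : Pal (fun k => L (bb z x y k)) m := by
  have hneg : ∀ k, bb z x y k ∈ R → -bb z x y k ∈ R := fun k hk => by
    have := hcl _ hk _ hk
    rw [P.form, win_refl P.root] at this
    rwa [show 2 * k - k = k by ring] at this
  have hm := P.root.two
  by_cases hI : ∃ a, bb z x y a ∈ R
  · obtain ⟨a, ha⟩ := hI
    obtain ⟨d, hd, hI⟩ := win_prog (I := {k | bb z x y k ∈ R}) (fun j hj k hk => by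
      have h2 := hcl _ hj _ hk
      rw [P.form, win_refl P.root, ← P.root.bb_add_m] at h2
      have h3 := hneg _ h2
      rwa [P.root.bb_add_m, neg_neg] at h3) (a := a) (m := m) (by omega) ha (by
      have := hneg _ ha
      rwa [← P.root.bb_add_m] at this)
    have hdm : (d : ℤ) ∣ m := by
      have := (hI (a + m)).mp (by
        have := hneg _ ha
        rwa [← P.root.bb_add_m] at this)
      rwa [add_sub_cancel_left] at this
    obtain ⟨q, rfl⟩ := Int.natCast_dvd_natCast.mp hdm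
    have hd0 : (0 : ℤ) < d := by omega
    have e1 := Int.mul_ediv_add_emod (a - 1) d
    have e2 := Int.emod_nonneg (a - 1) hd0.ne'
    have e3 := Int.emod_lt_of_pos (a - 1) hd0
    have hJ : ∀ k, bb z x y k ∈ R ↔ (d : ℤ) ∣ k - ((a - 1) % d + 1) := fun k => by
      refine (hI k).trans ?_
      rw [show k - ((a - 1) % d + 1) = k - a + d * ((a - 1) / d) by linear_combination -e1,
        dvd_add_left (dvd_mul_right _ _)]
    refine win_pal (k0 := (a - 1) % d + 1) _ (by omega) (by omega)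
      (fun k hk => h0 _ fun h => hk ((hJ k).mp h)) ?_
    generalize (a - 1) % d + 1 = k0 at hJ
    rcases Nat.lt_or_ge q 2 with hq | hq
    · exact pal_of_comm fun i j _ _ => by omega
    · obtain ⟨P', hb⟩ := win_sub P hd hq k0
      have := win_full tw L h1 hbr P' ((hJ _).mpr (by simp)) (hneg _ ((hJ _).mpr (by simp)))
      simpa only [hb] using this
  · refine pal_of_comm fun i j _ _ => ?_
    simp only [h0 _ fun h => hI ⟨_, h⟩]
    exact Commute.refl _

end Pool.Agent.Lib.MP_19b52f_al.FC
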