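import Pool.Agent.Lib.MP_19b52f_al.FC.Coc
import Pool.Agent.Lib.MP_19b52f_al.FC.Win

/-! The basic cocycle of a finite root system inside the reflection model. -/

namespace Pool.Agent.Lib.MP_19b52f_al.FC

open Pool.Agent.Lib.MP_19b52f_al.EA Pool.Agent.Lib.MP_19b52f_al.EA2

variable {S : Type} {M : CoxeterMatrix S}

lemma root_mem {F V : Type} [Field F] [AddCommGroup V] [Module F V] {B : V →ₗ[F] V →ₗ[F] F}
    (hB : ∀ v w, B v w = B w v) {R : Set V} (hcl : ∀ x ∈ R, ∀ y ∈ R, y - B x y • x ∈ R)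
    {y : V} (hy : y ∈ R) (h2 : B y y = 2) {f : V ≃ₗ[F] V} (hf : IsRefl B y f) : f ∈ isoR B R := by
  refine ⟨fun v w => ?_, fun x => ⟨fun h => ?_, fun h => hf x ▸ hcl y hy x h⟩⟩
  · rw [hf v, hf w]
    simp only [map_sub, map_smul, LinearMap.sub_apply, LinearMap.smul_apply, smul_eq_mul, h2,
      hB v y]
    ring
  · have := hcl y hy _ h
    rwa [← hf, ← LinearEquiv.mul_apply, hf.sq h2] at this

lemma root_refl {F V : Type} [Field F] [AddCommGroup V] [Module F V] (B : V →ₗ[F] V →ₗ[F] F)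
    {y : V} (h2 : B y y = 2) : ∃ f : V ≃ₗ[F] V, IsRefl B y f :=
  ⟨LinearEquiv.ofInvolutive (LinearMap.id - (B y).smulRight y) (fun v => by
    simp only [LinearMap.sub_apply, LinearMap.id_apply, LinearMap.smulRight_apply, map_sub,
      map_smul, h2]
    module), fun _ => rfl⟩

lemma root_lab {F V K : Type} [Field F] [AddCommGroup V] [Module F V] [Group K]
    {B : V →ₗ[F] V →ₗ[F] F} (hB : ∀ v w, B v w = B w v) {R : Set V} (h2 : ∀ y ∈ R, B y y = 2)
    (hcl : ∀ x ∈ R, ∀ y ∈ R, y - B x y • x ∈ R) (tw : V → K) :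
    ∃ L : V → Wm (isoR B R) K, (∀ y ∉ R, L y = 1) ∧
      ∀ y ∈ R, IsRefl B y (L y).a.1 ∧ ∀ w, (L y).c w = tw (w.1 y) := by
  have : ∀ y, ∃ x : Wm (isoR B R) K, (y ∉ R → x = 1) ∧
      (y ∈ R → IsRefl B y x.a.1 ∧ ∀ w, x.c w = tw (w.1 y)) := by
    intro y
    by_cases hy : y ∈ R
    · obtain ⟨f, hf⟩ := root_refl B (h2 y hy)
      exact ⟨⟨fun w => tw (w.1 y), ⟨f, root_mem hB hcl hy (h2 y hy) hf⟩⟩, fun h => absurd hy h,
        fun _ => ⟨hf, fun _ => rfl⟩⟩
    · exact ⟨1, fun _ => rfl, fun h => absurd h hy⟩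
  choose L h0 h1 using this
  exact ⟨L, h0, h1⟩

lemma root_fix [Finite S] {Φ F : Type} [Group Φ] [Field F] {θ : Artin M →* Φ} {G : Geo θ F}
    {z : ℕ → F} (hG : G.Std z) {J : Set S} {y : S → F} (hy : ∀ s ∉ J, y s = 0) :
    ∀ g ∈ pa M (cent M J), G.act (θ g) y = y := by
  classical
  have := Fintype.ofFinite S
  intro g hg
  have e : y = ∑ s, y s • G.α s := by
    ext x
    rw [Finset.sum_apply, Finset.sum_eq_single x (fun s _ h => by simp [hG.zero s x h.symm])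
      (by simp)]
    simp [hG.one]
  rw [e, map_sum]
  refine Finset.sum_congr rfl fun s _ => ?_
  by_cases hs : s ∈ J
  · rw [map_smul, hG.fix_cent hs hg]
  · rw [hy s hs, zero_smul, map_zero]

lemma root_word {I : Type} (e : I → S) {g : Artin M} (hg : g ∈ pa M (Set.range e)) :
    ∃ w : FreeGroup I, g = FreeGroup.lift (fun i => ag M (e i)) w :=
  (pa_le (H := (FreeGroup.lift (fun i => ag M (e i))).range) (by
    rintro _ ⟨i, rfl⟩
    exact ⟨FreeGroup.of i, by simp⟩) hg).imp fun _ h => h.symm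

theorem root_base [Finite S] {Φ F : Type} [Group Φ] [Finite Φ] [Field F] [Finite F]
    {θ : Artin M →* Φ} {G : Geo θ F} {z : ℕ → F} (hG : G.Std z) (hB : ∀ v w, G.B v w = G.B w v)
    {I : Type} (e : I → S) (R : Set (S → F)) (Z : Surf) (tw : (S → F) → Z.Mod)
    (ar : (S → F) → Z.A) (h2 : ∀ y ∈ R, G.B y y = 2)
    (hcl : ∀ x ∈ R, ∀ y ∈ R, y - G.B x y • x ∈ R) (hs : ∀ y ∈ R, ∀ s ∉ Set.range e, y s = 0)
    (hα : ∀ i, G.α (e i) ∈ R) (hD : ∀ y ∈ R, tw y ∈ Z.D {ar y}ᶜ)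
    (hbr : ∀ (ζ : F) (q : ℕ), ∀ x ∈ R, ∀ y ∈ R, Pair G.B ζ q x y →
      W (tw x) (tw y) q = W (tw y) (tw x) q)
    (hsep : ∀ (T U : Set S) (w : FreeGroup I),
      Z.X {a | ∀ y ∈ R, (∀ s ∉ T, y s = 0) → a ≠ ar y} {a | ∀ y ∈ R, (∀ s ∉ U, y s = 0) → a ≠ ar y}
        (FreeGroup.lift (fun i => tw (G.α (e i))) w) →
      Mem2 (pa M (T ∩ Set.range e)) (pa M (U ∩ Set.range e))
        (FreeGroup.lift (fun i => ag M (e i)) w)) :
    ∃ D : Co M, D.SepAt (Set.range e) 1 := by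
  have hfin : Finite ((S → F) ≃ₗ[F] (S → F)) :=
    Finite.of_injective (fun f : (S → F) ≃ₗ[F] (S → F) => (f : (S → F) → S → F))
      DFunLike.coe_injective
  obtain ⟨L, hL0, hL1⟩ := root_lab hB h2 hcl tw
  obtain ⟨c, hc, hc1⟩ := exists_lab (θ := θ) (fun φ r => L (G.act φ (G.α r))) (by
    intro φ r r' hr h0
    have P := hG.pair r r' hr h0
    have P' : Pair G.B (z (M r r')) (M r r') (G.act φ (G.α r)) (G.act φ (G.α r')) :=
      ⟨P.root, P.symm, (G.iso φ _ _).trans P.xx, (G.iso φ _ _).trans P.yy,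
        (G.iso φ _ _).trans P.xy⟩
    have hb : ∀ k, G.act φ (bb (z (M r r')) (G.α r) (G.α r') k) =
        bb (z (M r r')) (G.act φ (G.α r)) (G.act φ (G.α r')) k := fun k => by
      simp only [bb, map_add, map_smul]
    simp only [G.act_mul, (G.root P _).1, (G.root P.swap _).1, P.root.bb_swap (G.α r),
      add_sub_add_right_eq_sub, hb]
    exact pal_window tw hcl hbr L hL0 hL1 P')
  have c1 : ∀ φ, c φ 1 = 1 := fun φ => by simpa using hc φ 1 1
  have ci : ∀ φ g, c φ g⁻¹ = (c (φ * θ g⁻¹) g)⁻¹ := fun φ g => by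
    have := hc φ g⁻¹ g
    rw [inv_mul_cancel, c1] at this
    exact eq_inv_of_mul_eq_one_left this.symm
  obtain ⟨D, p, q, hp, hq, hH⟩ := exists_two θ Z c hc
    (fun T φ ψ => {a | ∀ y ∈ R, G.In T φ y → a ≠ ar (ψ.1 y)}) (fun T φ ψ s hsT => by
      simp only [hG.in_gen hsT, hc1]
      by_cases hy : G.act φ (G.α s) ∈ R
      · obtain ⟨hf, -⟩ := hL1 _ hy
        have hin : ∀ y, G.In T φ y → G.In T φ ((L (G.act φ (G.α s))).a.1 y) := by
          rintro _ ⟨v, hv, rfl⟩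
          refine ⟨v - G.B (G.α s) v • G.α s, fun x hx => ?_, ?_⟩
          · simp [hv x hx, hG.zero s x (fun e => hx (e ▸ hsT))]
          · rw [hf, G.iso, map_sub, map_smul]
        have hR := (L (G.act φ (G.α s))).a.2.2
        ext a
        refine ⟨fun h y h3 h4 => ?_, fun h y h3 h4 => h _ ((hR y).mpr h3) (hin y h4)⟩
        have h5 := h _ ((hR y).mpr h3) (hin y h4)
        rwa [Subgroup.coe_mul, LinearEquiv.mul_apply, ← LinearEquiv.mul_apply _ _ y,
          hf.sq (h2 _ hy)] at h5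
      · rw [hL0 _ hy, Wm.one_a, mul_one]) (fun T φ ψ s hsT => by
      rw [hc1]
      by_cases hy : G.act φ (G.α s) ∈ R
      · rw [(hL1 _ hy).2]
        refine Z.D_mono (fun a ha => ?_) (hD _ ((ψ.2.2 _).mpr hy))
        exact ha _ hy (hG.in_self hsT φ).1
      · rw [hL0 _ hy]
        exact one_mem _)
  have key : ∀ w : FreeGroup I, G.act (θ (FreeGroup.lift (fun i => ag M (e i)) w)) ∈ isoR G.B R ∧
      ∀ (φ : Φ) (ψ : isoR G.B R), ψ.1 * G.act φ = 1 →
      (c φ (FreeGroup.lift (fun i => ag M (e i)) w)).c ψ =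
        FreeGroup.lift (fun i => tw (G.α (e i))) w ∧
      (ψ * (c φ (FreeGroup.lift (fun i => ag M (e i)) w)).a).1 *
        G.act (φ * θ (FreeGroup.lift (fun i => ag M (e i)) w)) = 1 := by
    intro w
    induction w using FreeGroup.induction_on with
    | C1 => exact ⟨by simp, fun φ ψ h => by simpa [c1] using h⟩
    | of i =>
      simp only [FreeGroup.lift_apply_of, hc1]
      refine ⟨root_mem hB hcl (hα i) (G.diag _) (G.refl _), fun φ ψ h => ?_⟩
      have h1 : ∀ v, ψ.1 (G.act φ v) = v := fun v => by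
        rw [← LinearEquiv.mul_apply, h]; rfl
      have hy : G.act φ (G.α (e i)) ∈ R := (ψ.2.2 _).mp ((h1 _).symm ▸ hα i)
      obtain ⟨hf, hv⟩ := hL1 _ hy
      refine ⟨by rw [hv, h1], ?_⟩
      ext1 v
      rw [Subgroup.coe_mul, LinearEquiv.mul_apply, LinearEquiv.mul_apply, G.act_mul, hf, G.iso,
        ← map_smul, ← map_sub, h1, ← G.refl, ← LinearEquiv.mul_apply, (G.refl _).sq (G.diag _)]
    | inv_of i ih =>
      obtain ⟨h0, ih⟩ := ih
      simp only [map_inv]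
      generalize FreeGroup.lift (fun i => ag M (e i)) (FreeGroup.of i) = g at *
      refine ⟨inv_mem h0, fun φ ψ h => ?_⟩
      obtain ⟨k1, k2⟩ := ih (φ * (θ g)⁻¹) (⟨_, h0⟩ * ψ) (by
        rw [Subgroup.coe_mul, map_mul, mul_assoc, ← mul_assoc ψ.1, h, map_inv]; simp)
      rw [inv_mul_cancel_right, ← h] at k2
      have k3 : ψ * (c (φ * (θ g)⁻¹) g).a⁻¹ = ⟨_, h0⟩ * ψ := by
        rw [mul_inv_eq_iff_eq_mul]
        exact Subtype.ext (mul_right_cancel k2).symm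
      rw [ci, map_inv, Wm.inv_c, Wm.inv_a, k3, k1]
      refine ⟨rfl, ?_⟩
      rw [Subgroup.coe_mul, map_mul, mul_assoc, ← mul_assoc ψ.1, h, map_inv]
      simp
    | mul x y ihx ihy =>
      simp only [map_mul] at *
      refine ⟨mul_mem ihx.1 ihy.1, fun φ ψ h => ?_⟩
      obtain ⟨k1, k2⟩ := ihx.2 φ ψ h
      obtain ⟨k3, k4⟩ := ihy.2 (φ * θ _) _ (by rw [map_mul]; exact k2)
      rw [hc, Wm.mul_c, Wm.mul_a, k1, k3, ← mul_assoc ψ]
      refine ⟨rfl, ?_⟩
      simpa only [map_mul, mul_assoc] using k4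
  refine ⟨D, fun T U g g' hg hg' hm => ?_⟩
  have hone : ∀ y ∈ pa M (cent M (Set.range e)), c (θ g * θ y) g' = 1 := by
    clear hm
    induction hg' using Subgroup.closure_induction with
    | mem x hx =>
      obtain ⟨t, ht, rfl⟩ := hx
      intro y hy
      rw [hc1]
      exact hL0 _ fun h => hG.blind (root_fix hG (hs _ h)) (hs _ h) hg hy ht rfl
    | one => exact fun y _ => c1 _
    | mul x x' hx _ ihx ihx' =>
      intro y hy
      rw [hc, ihx y hy, mul_assoc, ← map_mul, ihx' _ (mul_mem hy hx), mul_one]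
    | inv x hx ih =>
      intro y hy
      rw [ci, mul_assoc, ← map_mul, ih _ (mul_mem hy (inv_mem hx)), inv_one]
  have h4 := hone 1 (one_mem _)
  rw [map_one, mul_one] at h4
  have h5 := hH T U 1 _ hm
  rw [hp, hq, hc, one_mul (θ g), h4, mul_one, one_mul] at h5
  obtain ⟨w, rfl⟩ := root_word e hg
  obtain ⟨k1, k2⟩ := (key w).2 1 1 (by simp)
  rw [k1] at h5
  refine hsep T U w (h5.mono (fun a ha y hy hin => ?_) (fun a ha y hy hin => ?_))
  · obtain ⟨v, hv, rfl⟩ := hin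
    rw [map_one] at hy ⊢
    exact ha v hy hv
  · obtain ⟨v, hv, rfl⟩ := Geo.blind_in (root_fix hG (hs _ hy)) hg hg' hin
    rw [one_mul (θ _)] at k2
    have h6 := DFunLike.congr_fun k2 v
    rw [LinearEquiv.mul_apply] at h6
    rw [h6]
    exact ha v (h6 ▸ (Subtype.property _ : _ ∈ isoR G.B R).2 _ |>.mpr hy) hv

end Pool.Agent.Lib.MP_19b52f_al.FC
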