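import Pool.Agent.Lib.MP_19b52f_al.FC.Defs
import Pool.Agent.Lib.MP_19b52f_al.FC.Free

/-! Standard systems of peripheral classes in a free factor. -/

namespace Pool.Agent.Lib.MP_19b52f_al.FC

open Pool.Agent.Lib.MP_19b52f_al.EA
open FreeGroup hiding map_mul map_inv map_one lift_unique

/-- The conjugacy class of an element. -/
abbrev cl {G : Type} [Group G] (w : G) : ConjClasses G := ConjClasses.mk w

/-- The map on conjugacy classes. -/
def cm {G H : Type} [Group G] [Group H] (f : G →* H) : ConjClasses G → ConjClasses H :=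
  ConjClasses.map f

@[simp] lemma cm_cl {G H : Type} [Group G] [Group H] (f : G →* H) (w : G) :
    cm f (cl w) = cl (f w) := rfl

lemma cl_eq {G : Type} [Group G] {u w : G} (c : G) (h : c * u * c⁻¹ = w) : cl u = cl w :=
  ConjClasses.mk_eq_mk_iff_isConj.mpr (isConj_iff.mpr ⟨c, h⟩)

lemma cl_comm {G : Type} [Group G] (u w : G) : cl (u * w) = cl (w * u) := cl_eq w (by group)

lemma cm_cm {G H K : Type} [Group G] [Group H] [Group K] (f : G →* H) (g : H →* K)
    (x : ConjClasses G) : cm g (cm f x) = cm (g.comp f) x := by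
  obtain ⟨w, rfl⟩ := ConjClasses.mk_surjective x
  rfl

lemma cm_id {G : Type} [Group G] (x : ConjClasses G) : cm (MonoidHom.id G) x = x := by
  obtain ⟨w, rfl⟩ := ConjClasses.mk_surjective x
  rfl

variable {Ω Ω' : Type}

/-- The product of the commutators. -/
def hw (lh : List (Ω × Ω)) : FreeGroup Ω :=
  (lh.map fun p => of p.1 * of p.2 * (of p.1)⁻¹ * (of p.2)⁻¹).prod

/-- The product of the letters. -/
def pw (lp : List Ω) : FreeGroup Ω := (lp.map of).prod

/-- All letters used. -/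
def lets (lh : List (Ω × Ω)) (lp : List Ω) : List Ω := lh.map Prod.fst ++ lh.map Prod.snd ++ lp

/-- The automorphism is supported on the free factor on `Y`. -/
structure On (Y : Set Ω) (f : MulAut (FreeGroup Ω)) : Prop where
  out : ∀ s ∉ Y, f (of s) = of s
  mem : ∀ s ∈ Y, f (of s) ∈ gen Y

/-- A boundary word and puncture classes that are standard up to an automorphism. -/
def StdOn (Y : Set Ω) (d : FreeGroup Ω) (R : Multiset (ConjClasses (FreeGroup Ω))) : Prop :=
  ∃ (f : MulAut (FreeGroup Ω)) (lh : List (Ω × Ω)) (lp : List Ω), On Y f ∧ (lets lh lp).Nodup ∧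
    (∀ s, s ∈ Y ↔ s ∈ lets lh lp) ∧ f (hw lh * pw lp) = d ∧
    R = ((lp.map fun s => cl (f (of s)) : List _) : Multiset _)

/-- The symmetric version: the inverse of the boundary word is one more puncture. -/
def SStd (Y : Set Ω) (R : Multiset (ConjClasses (FreeGroup Ω))) : Prop :=
  ∃ d R', StdOn Y d R' ∧ R = cl d⁻¹ ::ₘ R'

variable {Y : Set Ω} {R : Multiset (ConjClasses (FreeGroup Ω))}

lemma std_mem {lh : List (Ω × Ω)} {lp : List Ω} (h : ∀ s ∈ lets lh lp, s ∈ Y) :
    hw lh * pw lp ∈ gen Y := by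
  refine mul_mem (prod_map_mem fun p hp => ?_)
    (prod_map_mem fun s hs => of_mem_gen (h s (List.mem_append_right _ hs)))
  have h1 := of_mem_gen (h p.1 (List.mem_append_left _
    (List.mem_append_left _ (List.mem_map_of_mem hp))))
  have h2 := of_mem_gen (h p.2 (List.mem_append_left _
    (List.mem_append_right _ (List.mem_map_of_mem hp))))
  exact mul_mem (mul_mem (mul_mem h1 h2) (inv_mem h1)) (inv_mem h2)

lemma std_lets (ι : Ω → Ω') (lh : List (Ω × Ω)) (lp : List Ω) :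
    lets (lh.map (Prod.map ι ι)) (lp.map ι) = (lets lh lp).map ι := by
  simp [lets, Function.comp_def]

lemma std_word (ι : Ω → Ω') (lh : List (Ω × Ω)) (lp : List Ω) :
    hw (lh.map (Prod.map ι ι)) * pw (lp.map ι) = map ι (hw lh * pw lp) := by
  simp [hw, pw, map_list_prod, Function.comp_def]

lemma std_rt {f : MulAut (FreeGroup Ω)} (hf : On Y f) (u : FreeGroup Ω) :
    f (rt Y u) = rt Y (f u) :=
  eq_on_gen (f := f.toMonoidHom.comp (rt Y)) (g := (rt Y).comp f.toMonoidHom) (fun s _ => by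
    by_cases h : s ∈ Y
    · simp [rt_of_mem h, rt_eq (hf.mem s h)]
    · simp [rt_of_not h, hf.out s h]) (mem_gen_univ u)

lemma std_back {ι : Ω → Ω'} (hι : Function.Injective ι) (w : FreeGroup Ω') :
    map ι (back ι w) = rt (Set.range ι) w :=
  eq_on_gen (f := (map ι).comp (back ι)) (fun s _ => by
    by_cases h : s ∈ Set.range ι
    · obtain ⟨x, rfl⟩ := h
      simp [back_of hι, rt_of_mem (Set.mem_range_self (f := ι) x)]
    · simp [rt_of_not h, back_not (ι := ι) (s := s) fun x e => h ⟨x, e⟩]) (mem_gen_univ w)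

theorem SStd.nil : SStd (∅ : Set Ω) {cl 1} := by
  exact ⟨1, 0, ⟨1, [], [], ⟨fun _ _ => rfl, fun _ h => h.elim⟩, by simp [lets], by simp [lets],
    by simp [hw, pw], by simp⟩, by simp⟩

theorem SStd.finite (h : SStd Y R) : Y.Finite := by
  obtain ⟨d, R', ⟨f, lh, lp, -, -, h3, -⟩, -⟩ := h
  exact (lets lh lp).finite_toSet.subset fun s hs => (h3 s).1 hs

theorem SStd.rep (h : SStd Y R) : ∀ x ∈ R, ∃ w ∈ gen Y, x = cl w := by
  obtain ⟨d, R', ⟨f, lh, lp, h1, -, h3, rfl, rfl⟩, rfl⟩ := h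
  intro x hx
  rcases Multiset.mem_cons.1 hx with rfl | hx
  · exact ⟨_, inv_mem (aut_mem_of_gen f h1.mem (std_mem fun s hs => (h3 s).2 hs)), rfl⟩
  · obtain ⟨s, hs, rfl⟩ := List.mem_map.1 (Multiset.mem_coe.1 hx)
    exact ⟨_, h1.mem s ((h3 s).2 (List.mem_append_right _ hs)), rfl⟩

theorem SStd.map_fix (h : SStd Y R) {f : MulAut (FreeGroup Ω)} (hf : ∀ s ∈ Y, f (of s) = of s) :
    R.map (cm f.toMonoidHom) = R := by
  refine (Multiset.map_congr rfl fun x hx => ?_).trans (Multiset.map_id' _)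
  obtain ⟨w, hw, rfl⟩ := h.rep x hx
  exact congrArg cl (aut_fix_gen f hf hw)

theorem SStd.aut (h : SStd Y R) {f : MulAut (FreeGroup Ω)} (hf : On Y f) :
    SStd Y (R.map (cm f.toMonoidHom)) := by
  obtain ⟨d, R', ⟨f0, lh, lp, h1, h2, h3, rfl, rfl⟩, rfl⟩ := h
  refine ⟨_, _, ⟨f * f0, lh, lp, ⟨fun s hs => ?_, fun s hs => ?_⟩, h2, h3, rfl, rfl⟩, ?_⟩
  · rw [MulAut.mul_apply, h1.out s hs, hf.out s hs]
  · exact aut_mem_of_gen f hf.mem (h1.mem s hs)
  · rw [Multiset.map_cons, Multiset.map_coe, List.map_map, cm_cl, map_inv]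
    rfl

theorem SStd.map {R : Multiset (ConjClasses (FreeGroup Ω))} (h : SStd Set.univ R) {ι : Ω → Ω'}
    (hι : Function.Injective ι) : SStd (Set.range ι) (R.map (cm (map ι))) := by
  obtain ⟨d, R', ⟨f, lh, lp, -, h2, h3, rfl, rfl⟩, rfl⟩ := h
  obtain ⟨E, e1, e2⟩ := exists_ext hι
  have e3 : ∀ s, E f (of (ι s)) = FreeGroup.map ι (f (of s)) := fun s => by rw [← e1, map.of]
  refine ⟨_, _, ⟨E f, lh.map (Prod.map ι ι), lp.map ι, ⟨fun s hs => ?_, ?_⟩, ?_, fun s => ?_, rfl,
    rfl⟩, ?_⟩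
  · exact e2 f s fun x e => hs ⟨x, e⟩
  · rintro _ ⟨s, rfl⟩
    rw [e3]
    exact map_mem_range _
  · rw [std_lets]
    exact h2.map hι
  · rw [std_lets, List.mem_map]
    exact ⟨fun ⟨x, e⟩ => ⟨x, (h3 x).1 trivial, e⟩, fun ⟨x, _, e⟩ => ⟨x, e⟩⟩
  · rw [Multiset.map_cons, Multiset.map_coe, List.map_map, List.map_map, cm_cl, map_inv, std_word,
      e1]
    congr 2
    exact List.map_congr_left fun s _ => congrArg cl (e3 s).symm

theorem SStd.final (h : SStd Y R) : ∃ (g n : ℕ) (p : FreeGroup Ω →* SurfFree g n)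
    (s : SurfFree g n →* FreeGroup Ω), (∀ x, p (s x) = x) ∧ (∀ w, s (p w) = rt Y w) ∧
    Y.ncard = 2 * g + n ∧
    ∀ x, x ∈ R.map (cm p) ↔ ∃ i, x = cl (puncture g n i) := by
  obtain ⟨d, R', ⟨f, lh, lp, h1, h2, h3, rfl, rfl⟩, rfl⟩ := h
  let k : (Fin lh.length × Bool) ⊕ Fin lp.length → Ω :=
    Sum.elim (fun x => if x.2 then (lh.get x.1).2 else (lh.get x.1).1) lp.get
  let lh0 : List (((Fin lh.length × Bool) ⊕ Fin lp.length) ×
      ((Fin lh.length × Bool) ⊕ Fin lp.length)) :=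
    List.ofFn fun i => (Sum.inl (i, false), Sum.inl (i, true))
  let lp0 : List ((Fin lh.length × Bool) ⊕ Fin lp.length) := List.ofFn Sum.inr
  have e1 : lh0.map (Prod.map k k) = lh := by
    rw [List.map_ofFn]
    exact List.ofFn_get lh
  have e2 : lp0.map k = lp := by
    rw [List.map_ofFn]
    exact List.ofFn_get lp
  have e3 : ∀ x, x ∈ lets lh0 lp0 := by
    rintro (⟨i, _ | _⟩ | j) <;> simp [lets, lh0, lp0]
  have e4 : (lets lh0 lp0).map k = lets lh lp := by rw [← std_lets, e1, e2]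
  have e5 : FreeGroup.map k (hw lh0 * pw lp0) = hw lh * pw lp := by rw [← std_word, e1, e2]
  have hk : Function.Injective k := fun x y e =>
    List.inj_on_of_nodup_map (e4 ▸ h2) (e3 x) (e3 y) e
  have hY : Y = Set.range k := by
    ext s
    rw [h3, ← e4, List.mem_map]
    exact ⟨fun ⟨x, _, e⟩ => ⟨x, e⟩, fun ⟨x, e⟩ => ⟨x, e3 x, e⟩⟩
  have e6 : puncture lh.length lp.length none = (hw lh0 * pw lp0)⁻¹ := by
    simp only [puncture, hw, pw, lh0, lp0, List.map_ofFn, Function.comp_def]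
  have hp : ∀ x, ((back k).comp f⁻¹.toMonoidHom) (f (FreeGroup.map k x)) = x := fun x => by
    simp [back_map hk]
  refine ⟨lh.length, lp.length, (back k).comp f⁻¹.toMonoidHom,
    f.toMonoidHom.comp (FreeGroup.map k), hp, fun w => ?_, ?_, fun x => ?_⟩
  · change f (FreeGroup.map k (back k (f⁻¹ w))) = _
    rw [std_back hk, ← hY, std_rt h1]
    simp
  · rw [hY, ← Set.image_univ, Set.ncard_image_of_injective _ hk, Set.ncard_univ]
    simp [mul_comm]
  · have e7 : ∀ j, cm ((back k).comp f⁻¹.toMonoidHom) (cl (f (of (lp.get j)))) =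
        cl (puncture lh.length lp.length (some j)) := fun j =>
      congrArg cl (hp (of (Sum.inr j)))
    rw [Multiset.map_cons, Multiset.map_coe, List.map_map, cm_cl, map_inv, ← e5, hp, ← e6,
      Multiset.mem_cons, Multiset.mem_coe, List.mem_map, Option.exists]
    refine or_congr Iff.rfl ⟨?_, ?_⟩
    · rintro ⟨s, hs, rfl⟩
      obtain ⟨j, rfl⟩ := List.get_of_mem hs
      exact ⟨j, e7 j⟩
    · rintro ⟨j, rfl⟩
      exact ⟨lp.get j, List.get_mem _ _, e7 j⟩

end Pool.Agent.Lib.MP_19b52f_al.FC
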