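import Pool.Agent.Lib.MP_19b52f_al.FC.Ops

/-! Surfaces with a system of arcs, in the language of free groups. -/

namespace Pool.Agent.Lib.MP_19b52f_al.FC

open Pool.Agent.Lib.MP_19b52f_al.EA
open FreeGroup hiding map_mul map_inv map_one lift_unique

/-- A free group with peripheral classes and arcs dual to some of the letters. -/
structure Surf where
  Ω : Type
  A : Type
  [fA : Fintype A]
  ε : A → Ω
  inj : Function.Injective ε
  l : A → FreeGroup Ω
  r : A → FreeGroup Ω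
  c : FreeGroup Ω
  P : Multiset (ConjClasses (FreeGroup Ω))
  l_mem : ∀ a, l a ∈ gen (Set.range ε)ᶜ
  r_mem : ∀ a, r a ∈ gen (Set.range ε)ᶜ
  c_mem : c ∈ gen (Set.range ε)ᶜ
  P_mem : ∀ x ∈ P, ∃ w ∈ gen (Set.range ε)ᶜ, x = cl w
  std : SStd Set.univ
    (cl c ::ₘ (P + ∑ a, {cl (of (ε a)), cl ((r a)⁻¹ * (of (ε a))⁻¹ * l a)}))

attribute [instance] Surf.fA

namespace Surf
variable (S : Surf)

/-- The second boundary word of an arc. -/
def v (a : S.A) : FreeGroup S.Ω := (S.r a)⁻¹ * (of (S.ε a))⁻¹ * S.l a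

/-- The words that do not cross the arc. -/
def cut (a : S.A) : Subgroup (FreeGroup S.Ω) := gen {S.ε a}ᶜ

lemma le_cut (a : S.A) : gen (Set.range S.ε)ᶜ ≤ S.cut a :=
  gen_mono (Set.compl_subset_compl.mpr (by rintro _ rfl; exact ⟨a, rfl⟩))

/-- The mapping classes. -/
def Mod : Subgroup (MulAut (FreeGroup S.Ω)) where
  carrier := {d | d S.c = S.c ∧ (∀ a, d (of (S.ε a)) = of (S.ε a)) ∧ (∀ a, d (S.v a) = S.v a) ∧
    S.P.map (cm d.toMonoidHom) = S.P}
  one_mem' := ⟨rfl, fun _ => rfl, fun _ => rfl,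
    (Multiset.map_congr rfl (fun x _ => cm_id x)).trans (Multiset.map_id' _)⟩
  mul_mem' := by
    rintro d d' ⟨h1, h2, h3, h4⟩ ⟨k1, k2, k3, k4⟩
    refine ⟨by simp [h1, k1], by simp [h2, k2], by simp [h3, k3], ?_⟩
    conv_rhs => rw [← h4, ← k4, Multiset.map_map]
    exact Multiset.map_congr rfl fun x _ => (cm_cm d'.toMonoidHom d.toMonoidHom x).symm
  inv_mem' := by
    rintro d ⟨h1, h2, h3, h4⟩
    refine ⟨aut_inv_fix h1, fun a => aut_inv_fix (h2 a), fun a => aut_inv_fix (h3 a), ?_⟩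
    conv_lhs => rw [← h4, Multiset.map_map]
    rw [Multiset.map_congr rfl (fun x _ => ?_), Multiset.map_id']
    rw [Function.comp_apply, cm_cm]
    convert cm_id x
    ext s
    simp

/-- The mapping classes that fix the arcs of a set. -/
def D (α : Set S.A) : Subgroup S.Mod where
  carrier := {d | ∀ a ∈ α, d.1 (S.l a) = S.l a ∧ ∀ w ∈ S.cut a, d.1 w ∈ S.cut a}
  one_mem' := fun _ _ => ⟨rfl, fun _ h => h⟩
  mul_mem' := fun {d d'} h h' a ha =>
    ⟨by simp [(h a ha).1, (h' a ha).1], fun w hw => (h a ha).2 _ ((h' a ha).2 w hw)⟩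
  inv_mem' := fun {d} h a ha => ⟨aut_inv_fix (h a ha).1, fun w hw =>
    inv_mem_gen (f := d.1) (fun s hs => by
      obtain rfl : s = S.ε a := by simpa using hs
      exact d.2.2.1 a) (fun s hs => (h a ha).2 _ (of_mem_gen hs)) hw⟩

lemma D_mono {α β : Set S.A} (h : α ⊆ β) : S.D β ≤ S.D α := fun _ hd a ha => hd a (h ha)

/-- The image of the arc `b` does not cross the arc `a`. -/
def Y (a b : S.A) (d : S.Mod) : Prop := d.1 (S.l b) ∈ S.cut a

/-- The images of the arcs of the second set do not cross the arcs of the first set. -/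
def X (α β : Set S.A) (d : S.Mod) : Prop := ∀ a ∈ α, ∀ b ∈ β, S.Y a b d

variable {S} {α β : Set S.A} {d d' : S.Mod}

lemma X_one : S.X α β 1 := fun a _ b _ => S.le_cut a (S.l_mem b)

lemma X.left (h : S.X α β d) (hd : d' ∈ S.D α) : S.X α β (d' * d) :=
  fun a ha b hb => (hd a ha).2 _ (h a ha b hb)

lemma X.right (h : S.X α β d) (hd : d' ∈ S.D β) : S.X α β (d * d') := fun a ha b hb => by
  have := h a ha b hb
  rw [Y, ← (hd b hb).1] at this
  exact this

lemma X.mono {α' β' : Set S.A} (h : S.X α β d) (h1 : α' ⊆ α) (h2 : β' ⊆ β) : S.X α' β' d :=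
  fun a ha b hb => h a (h1 ha) b (h2 hb)

end Surf

end Pool.Agent.Lib.MP_19b52f_al.FC
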