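import Pool.Agent.Lib.MP_19b52f_al.FC.Ops

/-! Copies of a surface attached to a surface with a free action of a finite group. -/

namespace Pool.Agent.Lib.MP_19b52f_al.FC

open Pool.Agent.Lib.MP_19b52f_al.EA
open FreeGroup hiding map_mul map_inv map_one lift_unique

/-- The letters: copies of the old letters, edges from `q` to `s * q`, and loops at `q`. -/
abbrev WL (Φ Ω : Type) : Type := (Φ × Ω) ⊕ (Φ × Φ × Bool)

variable {Φ Ω : Type} [Group Φ]

/-- The copy at `q`. -/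
def cp (q : Φ) : FreeGroup Ω →* FreeGroup (WL Φ Ω) := map fun s => Sum.inl (q, s)

/-- The edge from `q` to `s * q`. -/
def aL (Ω : Type) (q s : Φ) : FreeGroup (WL Φ Ω) := of (Sum.inr (q, s, false))

/-- A loop at `q`. -/
def bL (Ω : Type) (q s : Φ) : FreeGroup (WL Φ Ω) := of (Sum.inr (q, s, true))

/-- The letters outside the maximal tree. -/
def offTree (Φ Ω : Type) [Group Φ] : Set (WL Φ Ω) := {x | ∀ s ≠ 1, x ≠ Sum.inr (1, s, false)}

/-- The face at `q`. -/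
def face (en : List Φ) (c : FreeGroup Ω) (q : Φ) : FreeGroup (WL Φ Ω) :=
  cp q c * (en.map fun s => aL Ω q s * (bL Ω (s * q) s)⁻¹ * (aL Ω q s)⁻¹).prod *
    (en.map fun s => bL Ω q s).prod

/-- The letters used at an intermediate stage. -/
def wstdY (Ω : Type) (W : Finset Φ) (D1 D2 : Set (Φ × Φ)) : Set (WL Φ Ω) := fun x =>
  match x with
  | .inl p => p.1 ∈ W
  | .inr (q, s, false) => (q, s) ∈ D1 ∧ (q = 1 → s = 1)
  | .inr (q, s, true) => (s⁻¹ * q, s) ∈ D2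

lemma wstd_inl {W : Finset Φ} {D1 D2 : Set (Φ × Φ)} (q : Φ) (w : Ω) :
    Sum.inl (q, w) ∈ wstdY Ω W D1 D2 ↔ q ∈ W := Iff.rfl

lemma wstd_inf {W : Finset Φ} {D1 D2 : Set (Φ × Φ)} (q s : Φ) :
    Sum.inr (q, s, false) ∈ wstdY Ω W D1 D2 ↔ (q, s) ∈ D1 ∧ (q = 1 → s = 1) := Iff.rfl

lemma wstd_int {W : Finset Φ} {D1 D2 : Set (Φ × Φ)} (q s : Φ) :
    Sum.inr (q, s, true) ∈ wstdY Ω W D1 D2 ↔ (s⁻¹ * q, s) ∈ D2 := Iff.rfl

lemma wstd_off (q s : Φ) : Sum.inr (q, s, false) ∈ offTree Φ Ω ↔ (q = 1 → s = 1) := by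
  constructor
  · rintro h rfl
    by_contra hs
    exact h s hs rfl
  · intro h t ht e
    simp only [Sum.inr.injEq, Prod.mk.injEq, and_true] at e
    exact ht (e.2 ▸ h e.1)

/-- The factor of a tube in the face where it starts. -/
noncomputable def wstdA (Ω : Type) (q s : Φ) : FreeGroup (WL Φ Ω) :=
  rt (offTree Φ Ω) (aL Ω q s) * (bL Ω (s * q) s)⁻¹ * (rt (offTree Φ Ω) (aL Ω q s))⁻¹

open Classical in
/-- A factor that is present or not. -/
noncomputable def wstdI {G : Type} [Group G] (p : Prop) (x : G) : G := if p then x else 1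

lemma wstdI_pos {G : Type} [Group G] {p : Prop} (h : p) (x : G) : wstdI p x = x := if_pos h

lemma wstdI_neg {G : Type} [Group G] {p : Prop} (h : ¬p) (x : G) : wstdI p x = 1 := if_neg h

/-- The face at an intermediate stage. -/
noncomputable def wstdF (en : List Φ) (c : FreeGroup Ω) (D1 D2 : Set (Φ × Φ)) (q : Φ) :
    FreeGroup (WL Φ Ω) :=
  cp q c * (en.map fun s => wstdI ((q, s) ∈ D1) (wstdA Ω q s)).prod *
    (en.map fun s => wstdI ((s⁻¹ * q, s) ∈ D2) (bL Ω q s)).prod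

/-- The peripheral classes at an intermediate stage. -/
noncomputable def wstdS (en : List Φ) (c : FreeGroup Ω) (R : Multiset (ConjClasses (FreeGroup Ω)))
    (W : Finset Φ) (D1 D2 : Set (Φ × Φ)) : Multiset (ConjClasses (FreeGroup (WL Φ Ω))) :=
  ∑ q ∈ W, cl (wstdF en c D1 D2 q) ::ₘ R.map (cm (cp q))

section steps

variable {c : FreeGroup Ω} {R : Multiset (ConjClasses (FreeGroup Ω))} {en : List Φ}
  {W : Finset Φ} {D1 D2 D1' D2' : Set (Φ × Φ)} {q s : Φ}

lemma wstd_congr (h1 : ∀ s, (q, s) ∈ D1 ↔ (q, s) ∈ D1')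
    (h2 : ∀ s, (s⁻¹ * q, s) ∈ D2 ↔ (s⁻¹ * q, s) ∈ D2') :
    wstdF en c D1 D2 q = wstdF en c D1' D2' q := by
  simp only [wstdF, h1, h2]

lemma wstd_cp (hq : q ∈ W) : cp q c ∈ gen (wstdY Ω W D1 D2) :=
  map_mem_gen (fun w _ => (wstd_inl q w).2 hq) (mem_gen_univ c)

lemma wstd_b (h : (q, s) ∈ D2) : bL Ω (s * q) s ∈ gen (wstdY Ω W D1 D2) :=
  of_mem_gen ((wstd_int _ _).2 (by rwa [inv_mul_cancel_left]))

lemma wstd_m1 (hD : D1 ⊆ D2) (q s : Φ) :
    wstdI ((q, s) ∈ D1) (wstdA Ω q s) ∈ gen (wstdY Ω W D1 D2) := by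
  unfold wstdI
  split_ifs with h
  · have ha : rt (offTree Φ Ω) (aL Ω q s) ∈ gen (wstdY Ω W D1 D2) := by
      by_cases ht : q = 1 → s = 1
      · rw [aL, rt_of_mem ((wstd_off q s).2 ht)]
        exact of_mem_gen ((wstd_inf q s).2 ⟨h, ht⟩)
      · rw [aL, rt_of_not (fun e => ht ((wstd_off q s).1 e))]
        exact one_mem _
    exact mul_mem (mul_mem ha (inv_mem (wstd_b (hD h)))) (inv_mem ha)
  · exact one_mem _

lemma wstd_m2 (q s : Φ) :
    wstdI ((s⁻¹ * q, s) ∈ D2) (bL Ω q s) ∈ gen (wstdY Ω W D1 D2) := by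
  unfold wstdI
  split_ifs with h
  · exact of_mem_gen ((wstd_int q s).2 h)
  · exact one_mem _

lemma wstd_chg1 (h1 : en.Nodup) (h2 : ∀ q, q ∈ en) (hD : D1 ⊆ D2) (hq : q ∈ W)
    (ht : (q, s) ∉ D1) : ∃ u ∈ gen (wstdY Ω W D1 D2), ∃ v ∈ gen (wstdY Ω W D1 D2),
      wstdF en c D1 D2 q = u * v ∧ wstdF en c (insert (q, s) D1) D2 q = u * wstdA Ω q s * v := by
  obtain ⟨u, hu, v, hv, h⟩ := prod_change h1 (h2 s) fun b _ _ => wstd_m1 (Ω := Ω) (W := W) hD q b
  refine ⟨cp q c * u, mul_mem (wstd_cp hq) hu, v * _,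
    mul_mem hv (prod_map_mem (L := en) fun b _ => wstd_m2 q b), ?_, ?_⟩
  · rw [wstdF, h _ fun _ _ => rfl, wstdI_neg ht]
    simp only [mul_assoc, one_mul]
  · rw [wstdF, h _ fun b hb => by simp [hb], wstdI_pos (Set.mem_insert _ _)]
    simp only [mul_assoc]

lemma wstd_chg2 (h1 : en.Nodup) (h2 : ∀ q, q ∈ en) (hD : D1 ⊆ D2) (hq : s * q ∈ W)
    (ht : (q, s) ∉ D2) : ∃ u ∈ gen (wstdY Ω W D1 D2), ∃ v ∈ gen (wstdY Ω W D1 D2),
      wstdF en c D1 D2 (s * q) = u * v ∧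
        wstdF en c D1 (insert (q, s) D2) (s * q) = u * bL Ω (s * q) s * v := by
  obtain ⟨u, hu, v, hv, h⟩ := prod_change h1 (h2 s)
    fun b _ _ => wstd_m2 (Ω := Ω) (W := W) (D1 := D1) (D2 := D2) (s * q) b
  refine ⟨cp (s * q) c * _ * u, mul_mem (mul_mem (wstd_cp hq)
    (prod_map_mem (L := en) fun b _ => wstd_m1 hD (s * q) b)) hu, v, hv, ?_, ?_⟩
  · rw [wstdF, h _ fun _ _ => rfl, inv_mul_cancel_left, wstdI_neg ht]
    simp only [mul_assoc, one_mul]
  · rw [wstdF, h (fun b => wstdI ((b⁻¹ * (s * q), b) ∈ insert (q, s) D2) (bL Ω (s * q) b))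
      fun b hb => by simp [hb], inv_mul_cancel_left, wstdI_pos (Set.mem_insert _ _)]
    simp only [mul_assoc]

lemma wstd_pull [DecidableEq Φ] (hq : q ∈ W) : wstdS en c R W D1 D2 =
    cl (wstdF en c D1 D2 q) ::ₘ (R.map (cm (cp q)) + wstdS en c R (W.erase q) D1 D2) := by
  rw [wstdS, ← Finset.add_sum_erase _ _ hq, Multiset.cons_add, wstdS]

lemma wstd_S_congr (h : ∀ q ∈ W, wstdF en c D1 D2 q = wstdF en c D1' D2' q) :
    wstdS en c R W D1 D2 = wstdS en c R W D1' D2' :=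
  Finset.sum_congr rfl fun q hq => by rw [h q hq]

lemma wstd_other1 {q' : Φ} (h : q' ≠ q) :
    wstdF en c (insert (q, s) D1) D2 q' = wstdF en c D1 D2 q' :=
  wstd_congr (fun t => by simp [h]) fun _ => Iff.rfl

lemma wstd_other2 {q' : Φ} (h : q' ≠ s * q) :
    wstdF en c D1 (insert (q, s) D2) q' = wstdF en c D1 D2 q' := by
  refine wstd_congr (fun _ => Iff.rfl) fun t => ?_
  rw [Set.mem_insert_iff, Prod.mk.injEq, or_iff_right]
  rintro ⟨a, rfl⟩
  exact h (by rw [← a, mul_inv_cancel_left])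

lemma wstd_step2 (h1 : en.Nodup) (h2 : ∀ q, q ∈ en) (hD : D1 ⊆ D2) (hq : s * q ∈ W)
    (ht : (q, s) ∉ D2) (h : SStd (wstdY Ω W D1 D2) (wstdS en c R W D1 D2)) :
    SStd (wstdY Ω W D1 (insert (q, s) D2))
      (cl (bL Ω (s * q) s)⁻¹ ::ₘ wstdS en c R W D1 (insert (q, s) D2)) := by
  classical
  obtain ⟨u, hu, v, hv, e1, e2⟩ := wstd_chg2 (c := c) h1 h2 hD hq ht
  rw [wstd_pull hq, e1] at h
  have h3 := h.ins_new' (e := Sum.inr (s * q, s, true)) hu hv
    (by rwa [wstd_int, inv_mul_cancel_left])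
  have h4 : wstdY Ω W D1 (insert (q, s) D2) =
      insert (Sum.inr (s * q, s, true)) (wstdY Ω W D1 D2) := by
    ext x
    rcases x with ⟨a, b⟩ | ⟨a, b, _ | _⟩
    · simp [wstd_inl]
    · simp [wstd_inf]
    · simp only [wstd_int, Set.mem_insert_iff, Sum.inr.injEq, Prod.mk.injEq, and_true]
      refine or_congr_left ⟨?_, ?_⟩
      · rintro ⟨a, rfl⟩
        exact ⟨by rw [← a, mul_inv_cancel_left], rfl⟩
      · rintro ⟨rfl, rfl⟩
        exact ⟨inv_mul_cancel_left _ _, rfl⟩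
  rw [h4, wstd_pull hq, e2, Multiset.cons_swap,
    wstd_S_congr fun q' hq' => wstd_other2 (Finset.ne_of_mem_erase hq')]
  exact h3

lemma wstd_step1 (h1 : en.Nodup) (h2 : ∀ q, q ∈ en) (hD : D1 ⊆ D2) (hq : q ∈ W)
    (ht : (q, s) ∉ D1) (ht2 : (q, s) ∈ D2) (hn : q = 1 → s = 1)
    (h : SStd (wstdY Ω W D1 D2) (cl (bL Ω (s * q) s)⁻¹ ::ₘ wstdS en c R W D1 D2)) :
    SStd (wstdY Ω W (insert (q, s) D1) D2) (wstdS en c R W (insert (q, s) D1) D2) := by
  classical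
  obtain ⟨u, hu, v, hv, e1, e2⟩ := wstd_chg1 (c := c) h1 h2 hD hq ht
  rw [wstd_pull hq, e1, Multiset.cons_swap] at h
  have h3 := h.ins_old (e := Sum.inr (q, s, false)) hu hv (inv_mem (wstd_b ht2))
    (fun e => ht ((wstd_inf q s).1 e).1)
  have h4 : wstdY Ω W (insert (q, s) D1) D2 =
      insert (Sum.inr (q, s, false)) (wstdY Ω W D1 D2) := by
    ext x
    rcases x with ⟨a, b⟩ | ⟨a, b, _ | _⟩
    · simp [wstd_inl]
    · simp only [wstd_inf, Set.mem_insert_iff, Sum.inr.injEq, Prod.mk.injEq, and_true]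
      constructor
      · rintro ⟨a | a, b⟩
        · exact Or.inl a
        · exact Or.inr ⟨a, b⟩
      · rintro (⟨rfl, rfl⟩ | ⟨a, b⟩)
        · exact ⟨Or.inl ⟨rfl, rfl⟩, hn⟩
        · exact ⟨Or.inr a, b⟩
    · simp [wstd_int]
  rw [h4, wstd_pull hq, e2, wstdA, aL, rt_of_mem ((wstd_off q s).2 hn),
    wstd_S_congr fun q' hq' => wstd_other1 (Finset.ne_of_mem_erase hq')]
  exact h3

lemma wstd_copy (h : SStd Set.univ (cl c ::ₘ R)) (en : List Φ) (q : Φ) :
    SStd (wstdY Ω {q} ∅ ∅) (wstdS en c R {q} ∅ ∅) := by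
  have h3 := h.map (ι := fun s => (Sum.inl (q, s) : WL Φ Ω)) fun a b e => by simpa using e
  have h4 : wstdY Ω {q} ∅ ∅ = Set.range fun s => (Sum.inl (q, s) : WL Φ Ω) := by
    ext x
    rcases x with ⟨a, b⟩ | ⟨a, b, _ | _⟩
    · simp [wstd_inl, eq_comm]
    · simp [wstd_inf]
    · simp [wstd_int]
  have h5 : wstdF en c ∅ ∅ q = cp q c := by simp [wstdF, wstdI]
  rw [h4, wstdS, Finset.sum_singleton, h5]
  rw [Multiset.map_cons] at h3
  exact h3

lemma wstd_stepA [DecidableEq Φ] (h0 : SStd Set.univ (cl c ::ₘ R)) (h1 : en.Nodup)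
    (h2 : ∀ q, q ∈ en) (hW : 1 ∈ W) (hs : s ∉ W) (hD : ∀ t ∈ D1, t.1 = 1 ∧ t.2 ∈ W)
    (h : SStd (wstdY Ω W D1 D1) (wstdS en c R W D1 D1)) :
    SStd (wstdY Ω (insert s W) (insert (1, s) D1) (insert (1, s) D1))
      (wstdS en c R (insert s W) (insert (1, s) D1) (insert (1, s) D1)) := by
  have hs1 : s ≠ 1 := fun e => hs (e ▸ hW)
  have ht : (1, s) ∉ D1 := fun e => hs (hD _ e).2
  obtain ⟨u, hu, v, hv, e1, e2⟩ := wstd_chg1 (c := c) h1 h2 (subset_refl D1) hW ht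
  have h3 := wstd_step2 (q := 1) (s := s) h1 h2 (subset_refl _) (by simp) (by simp)
    (wstd_copy h0 en s)
  rw [wstd_pull hW, e1, cl_comm] at h
  have h4 := h.sum h3 (mul_mem hv hu) (inv_mem (wstd_b (Set.mem_insert _ _))) (by
    rw [Set.disjoint_left]
    rintro (⟨a, b⟩ | ⟨a, b, _ | _⟩) x y
    · rw [wstd_inl] at x y
      exact hs (Finset.mem_singleton.1 y ▸ x)
    · exact y.1
    · rw [wstd_int] at x y
      exact ht ((Set.mem_insert_iff.1 y).resolve_right id ▸ x))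
  have h5 : wstdY Ω (insert s W) (insert (1, s) D1) (insert (1, s) D1) =
      wstdY Ω W D1 D1 ∪ wstdY Ω {s} ∅ (insert (1, s) ∅) := by
    ext x
    rcases x with ⟨a, b⟩ | ⟨a, b, _ | _⟩
    · simp [wstd_inl, or_comm]
    · simp only [Set.mem_union, wstd_inf, Set.mem_insert_iff, Prod.mk.injEq, Set.mem_empty_iff_false,
        false_and, or_false]
      refine and_congr_left fun hab => or_iff_right ?_
      rintro ⟨rfl, rfl⟩
      exact hs1 (hab rfl)
    · simp [wstd_int, or_comm]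
  have h6 : wstdF en c (insert (1, s) D1) (insert (1, s) D1) s =
      wstdF en c ∅ (insert (1, s) ∅) s := by
    refine wstd_congr (fun t => ?_) fun t => ?_
    · simp only [Set.mem_insert_iff, Prod.mk.injEq, hs1, false_and, false_or,
        Set.mem_empty_iff_false, iff_false]
      exact fun e => hs1 (hD _ e).1
    · simp only [Set.mem_insert_iff, Set.mem_empty_iff_false]
      refine or_congr_right (iff_false_intro fun e => hs ?_)
      have a := (hD _ e).1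
      rw [inv_mul_eq_one] at a
      exact a ▸ (hD _ e).2
  have h7 : ∀ q ∈ W, wstdF en c (insert (1, s) D1) (insert (1, s) D1) q =
      wstdF en c (insert (1, s) D1) D1 q := fun q hq =>
    wstd_other2 fun e => hs (by rwa [e, mul_one] at hq)
  have h8 : wstdA Ω 1 s = (bL Ω (s * 1) s)⁻¹ := by
    rw [wstdA, aL, rt_of_not (fun e => hs1 ((wstd_off 1 s).1 e rfl)), one_mul, inv_one, mul_one]
  have h9 : wstdS en c R (insert s W) (insert (1, s) D1) (insert (1, s) D1) =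
      wstdS en c R W (insert (1, s) D1) D1 + wstdS en c R {s} ∅ (insert (1, s) ∅) := by
    rw [wstdS, Finset.sum_insert hs, add_comm, h6, ← wstd_S_congr h7, wstdS, wstdS,
      Finset.sum_singleton]
  rw [h5, h9, wstd_pull hW, e2, h8, Multiset.cons_add,
    wstd_S_congr fun q' hq' => wstd_other1 (Finset.ne_of_mem_erase hq'),
    cl_eq v (w := v * u * (bL Ω (s * 1) s)⁻¹) (by group)]
  exact h4

lemma wstd_A [DecidableEq Φ] (h0 : SStd Set.univ (cl c ::ₘ R)) (h1 : en.Nodup)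
    (h2 : ∀ q, q ∈ en) (V : Finset Φ) (hV : 1 ∉ V) :
    SStd (wstdY Ω (insert 1 V) {t | t.1 = 1 ∧ t.2 ∈ V} {t | t.1 = 1 ∧ t.2 ∈ V})
      (wstdS en c R (insert 1 V) {t | t.1 = 1 ∧ t.2 ∈ V} {t | t.1 = 1 ∧ t.2 ∈ V}) := by
  induction V using Finset.induction_on with
  | empty => simpa using wstd_copy h0 en 1
  | insert s V hs ih =>
    rw [Finset.mem_insert, not_or] at hV
    have e : {t : Φ × Φ | t.1 = 1 ∧ t.2 ∈ insert s V} =
        insert (1, s) {t | t.1 = 1 ∧ t.2 ∈ V} := by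
      ext ⟨a, b⟩
      simp [and_or_left]
    rw [e, Finset.insert_comm]
    refine wstd_stepA h0 h1 h2 (Finset.mem_insert_self _ _) ?_
      (fun t ht => ⟨ht.1, Finset.mem_insert_of_mem ht.2⟩) (ih hV.2)
    rw [Finset.mem_insert, not_or]
    exact ⟨fun e => hV.1 e.symm, hs⟩

lemma wstd_B [Fintype Φ] (h1 : en.Nodup) (h2 : ∀ q, q ∈ en)
    (hD : ∀ s ≠ 1, ((1 : Φ), s) ∈ D1)
    (h : SStd (wstdY Ω Finset.univ D1 D1) (wstdS en c R Finset.univ D1 D1))
    (T : Finset (Φ × Φ)) :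
    SStd (wstdY Ω Finset.univ (T ∪ D1) (T ∪ D1)) (wstdS en c R Finset.univ (T ∪ D1) (T ∪ D1)) := by
  classical
  induction T using Finset.induction_on with
  | empty => simpa using h
  | insert t T _ ih =>
    obtain ⟨q, s⟩ := t
    rw [Finset.coe_insert, Set.insert_union]
    by_cases ht : (q, s) ∈ (T : Set (Φ × Φ)) ∪ D1
    · rwa [Set.insert_eq_of_mem ht]
    · refine wstd_step1 h1 h2 (Set.subset_insert _ _) (Finset.mem_univ _) ht (Set.mem_insert _ _)
        ?_ (wstd_step2 h1 h2 (subset_refl _) (Finset.mem_univ _) ht ih)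
      rintro rfl
      by_contra hs
      exact ht (Or.inr (hD s hs))

end steps

theorem wr_std [Fintype Φ] {c : FreeGroup Ω} {R : Multiset (ConjClasses (FreeGroup Ω))}
    (h : SStd Set.univ (cl c ::ₘ R)) {en : List Φ} (h1 : en.Nodup) (h2 : ∀ q, q ∈ en) :
    SStd (offTree Φ Ω) (∑ q, cl (rt (offTree Φ Ω) (face en c q)) ::ₘ R.map (cm (cp q))) := by
  classical
  have hA := wstd_A h h1 h2 (Finset.univ.erase 1) (Finset.notMem_erase _ _)
  rw [Finset.insert_erase (Finset.mem_univ _)] at hA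
  have hB := wstd_B h1 h2 (fun s hs => by simpa using hs) hA Finset.univ
  rw [Finset.coe_univ, Set.univ_union] at hB
  have e1 : wstdY Ω Finset.univ Set.univ Set.univ = offTree Φ Ω := by
    ext x
    rcases x with ⟨a, b⟩ | ⟨a, b, _ | _⟩
    · simp [wstd_inl, offTree]
    · simp [wstd_inf, wstd_off]
    · simp [wstd_int, offTree]
  have hb : ∀ q s : Φ, rt (offTree Φ Ω) (bL Ω q s) = bL Ω q s := fun q s =>
    rt_of_mem (by simp [offTree])
  have e2 : ∀ q, rt (offTree Φ Ω) (face en c q) = wstdF en c Set.univ Set.univ q := by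
    intro q
    have hc : rt (offTree Φ Ω) (cp q c) = cp q c :=
      rt_eq (e1 ▸ wstd_cp (Finset.mem_univ q))
    simp only [face, wstdF, map_mul, hc, map_list_prod, List.map_map, Function.comp_def, map_inv,
      hb, Set.mem_univ, wstdI_pos trivial, wstdA]
  rw [e1] at hB
  simp only [e2]
  exact hB

end Pool.Agent.Lib.MP_19b52f_al.FC
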